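import Mathlib
import Pool.Agent.Lib.MP_c385f6_ag.Cpl.StEx
import Pool.Agent.Lib.MP_c385f6_ag.Defs

set_option autoImplicit false

/-!
Definitions for the base change theorem (see MP_c385f6_bc.md in the team store).
-/

namespace Pool.Agent.Lib.MP_c385f6_ag.Bc

open Pool.Agent.Lib.MP_c385f6_ag.Cpl Polynomial

section abstract

variable {p : ℕ} {L E O : Type*} [Field L] [Field E] [CommRing O] [Algebra L O]

/-- the constants `c` such that `x - c` is a unit -/
def Gd (L : Type*) {O : Type*} [Field L] [CommRing O] [Algebra L O] (x : O) : Set L :=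
  {c | IsUnit (x - algebraMap L O c)}

/-- classes modulo `p`-th powers of the units of `O`, with the Steinberg relations -/
structure Sys (S : LF p L E) (D : O → L) : Prop where
  ne : ∀ u, IsUnit u → D u ≠ 0
  mul : ∀ u v, IsUnit u → IsUnit v → Eqv p (D (u * v)) (D u * D v)
  const : ∀ c : L, c ≠ 0 → Eqv p (D (algebraMap L O c)) c
  st : ∀ u, IsUnit u → IsUnit (1 - u) → S.h (D u) (D (1 - u)) = 0

/-- `O` has many units -/
def Gnr (S : LF p L E) (O : Type*) [CommRing O] [Algebra L O] : Prop :=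
  ∀ (x x' : O) (a a' : L) (n : ℤ), ∃ c ∈ Gd L x, ∃ c' ∈ Gd L x', c + c' ∈ Gd L (x + x') ∧
    S.Gz n (c - a) ∧ S.Gz n (c' - a')

/-- `x` has the value `y` -/
def Val (p : ℕ) (D : O → L) (x : O) (y : L) : Prop :=
  ∀ c ∈ Gd L x, ∀ c' ∈ Gd L x, c ≠ y → c' ≠ y →
    Eqv p (D (x - algebraMap L O c) / D (x - algebraMap L O c')) ((y - c) / (y - c'))

/-- `x` has the value `∞` -/
def ValInf (p : ℕ) (D : O → L) (x : O) : Prop :=
  ∀ c ∈ Gd L x, ∀ c' ∈ Gd L x, Eqv p (D (x - algebraMap L O c)) (D (x - algebraMap L O c'))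

end abstract

/-- compactness of the projective line over `k` -/
def Comp.{v} {p : ℕ} {L E : Type} [Field L] [Field E] (k : Type) [Field k] [Algebra k L]
    (S : LF p L E) : Prop :=
  ∀ (ι : Type v) (U : Ultrafilter ι) (u : ι → k),
    (∃ y : k, ∀ n : ℤ, ∀ᶠ i in (U : Filter ι), S.Gz n (algebraMap k L (u i - y))) ∨
      ∀ n : ℤ, ∀ᶠ i in (U : Filter ι), u i ≠ 0 ∧ S.v (algebraMap k L (u i)) ≤ n

/-- the hypotheses of the abstract part: `O` is an algebra with many units, `D` a system of classes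
on the units, and all elements have values in the projective line -/
structure Ctx.{u} {p : ℕ} {L E : Type} [Field L] [Field E] (S : LF p L E) {O : Type u} [CommRing O]
    [Algebra L O] (D : O → L) : Prop where
  sys : Sys S D
  gnr : Gnr S O
  alt : ∀ x : O, (∃ y, Val p D x y) ∨ ValInf p D x

section geometric

variable (k L : Type*) {F : Type*} [Field k] [Field L] [Field F] [Algebra k L] [Algebra k F]
  [Algebra L F] [IsScalarTower k L F]

/-- the places of `F` over the points of the projective line over `k` (for the coordinate `w`) and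
over the zeros of `b` -/
def Rat (b : k[X]) (w : F) : Set (ValuationSubring F) :=
  {A | (∀ c : L, algebraMap L F c ∈ A) ∧
    ((∃ a : k, A.valuation (w - algebraMap k F a) < 1) ∨ w ∉ A ∨ A.valuation (aeval w b) < 1)}

/-- the functions without poles over the rational points of the projective line and over the zeros
of `b` -/
def RR (b : k[X]) (w : F) : Subalgebra L F where
  carrier := {x | ∀ A ∈ Rat k L b w, x ∈ A}
  mul_mem' := fun ha hb A hA => A.mul_mem _ _ (ha A hA) (hb A hA)
  add_mem' := fun ha hb A hA => A.add_mem _ _ (ha A hA) (hb A hA)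
  algebraMap_mem' := fun c A hA => hA.1 c

/-- a unit of `RR`, as an element of `F` -/
def UnitR (b : k[X]) (w u : F) : Prop := u ≠ 0 ∧ u ∈ RR k L b w ∧ u⁻¹ ∈ RR k L b w

end geometric

/-- `θ` is not in `k` and not a zero of `b` -/
def Ok (k : Type*) {L : Type*} [Field k] [Field L] [Algebra k L] (b : k[X]) (θ : L) : Prop :=
  (∀ y : k, algebraMap k L y ≠ θ) ∧ aeval θ b ≠ 0

/-- a rational place with `w = y` -/
def PlaceOver (k : Type*) {K : Type*} [Field k] [Field K] [Algebra k K] (w : K) (y : k) : Prop :=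
  ∃ B : ValuationSubring K, IsRationalPlace k K B ∧ B.valuation (w - algebraMap k K y) < 1

/-- a rational place with `w = ∞` -/
def PlaceInf (k : Type*) {K : Type*} [Field k] [Field K] [Algebra k K] (w : K) : Prop :=
  ∃ B : ValuationSubring K, IsRationalPlace k K B ∧ w ∉ B

/-- the image of the rational places in the projective line is open -/
structure OpenImg {p : ℕ} (k : Type*) {L E K : Type*} [Field k] [Field L] [Field E] [Field K]
    [Algebra k L] [Algebra k K] (S : LF p L E) (w : K) : Prop where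
  fin : ∀ y₀ : k, PlaceOver k w y₀ → ∃ n : ℤ, ∀ y : k, S.Gz n (algebraMap k L (y - y₀)) →
    PlaceOver k w y
  inf : PlaceInf k w → ∃ n : ℤ, ∀ y : k, y ≠ 0 → S.v (algebraMap k L y) ≤ n → PlaceOver k w y

/-- partial systems of classes on a set `Φ` of functions, with the value `y` of `w` -/
structure PSys {p : ℕ} (k : Type*) {L E K₀ F : Type*} [Field k] [Field L] [Field E] [Field K₀]
    [Field F] [Algebra k L] [Algebra k K₀] [Algebra K₀ F] [Algebra L F] (S : LF p L E) (w : K₀)
    (Φ : Set F) (D : F → L) (y : k) : Prop where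
  ne : ∀ u ∈ Φ, D u ≠ 0
  mul : ∀ u ∈ Φ, ∀ v ∈ Φ, u * v ∈ Φ → Eqv p (D (u * v)) (D u * D v)
  const : ∀ c : L, c ≠ 0 → algebraMap L F c ∈ Φ → Eqv p (D (algebraMap L F c)) c
  st : ∀ u ∈ Φ, 1 - u ∈ Φ → S.h (D u) (D (1 - u)) = 0
  equiv : ∀ (g : L ≃ₐ[k] L) (G : F ≃ₐ[K₀] F), (∀ c : L, G (algebraMap L F c) =
    algebraMap L F (g c)) → ∀ u ∈ Φ, G u ∈ Φ → Eqv p (D (G u)) (g (D u))
  val : ∀ c c' : L, (∀ a : k, algebraMap k L a ≠ c) → (∀ a : k, algebraMap k L a ≠ c') →
    (algebraMap K₀ F w - algebraMap L F c) / (algebraMap K₀ F w - algebraMap L F c') ∈ Φ →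
    Eqv p (D ((algebraMap K₀ F w - algebraMap L F c) / (algebraMap K₀ F w - algebraMap L F c')))
      ((algebraMap k L y - c) / (algebraMap k L y - c'))

/-- the divisor of `h` is divisible by `p` -/
def PDiv (p : ℕ) (L : Type*) {M : Type*} [Field L] [Field M] [Algebra L M] (h : M) : Prop :=
  h ≠ 0 ∧ ∀ A : ValuationSubring M, (∀ c : L, algebraMap L M c ∈ A) →
    ∃ g : M, g ≠ 0 ∧ A.valuation h = A.valuation (g ^ p)

end Pool.Agent.Lib.MP_c385f6_ag.Bc
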