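import Mathlib
import Pool.Agent.Lib.MP_c385f6_ag.Bc.Defs
import Pool.Agent.Lib.MP_c385f6_ag.Cpl.Sym
import Pool.Agent.Lib.MP_c385f6_ag.Cpl.Chord

set_option autoImplicit false

/-!
Basic lemmas on systems of classes on the units of an algebra (base change theorem).
-/

namespace Pool.Agent.Lib.MP_c385f6_ag.Bc

open Pool.Agent.Lib.MP_c385f6_ag.Cpl

universe u v

section eqv

variable {p : ℕ} {L : Type*} [Field L] {x y z x' y' : L}

theorem eqv_refl (x : L) : Eqv p x x := ⟨1, one_ne_zero, by rw [one_pow, mul_one]⟩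

theorem eqv_of_eq (h : x = y) : Eqv p x y := h ▸ eqv_refl x

theorem eqv_symm (h : Eqv p x y) : Eqv p y x := by
  obtain ⟨z, hz, rfl⟩ := h
  refine ⟨z⁻¹, inv_ne_zero hz, ?_⟩
  rw [inv_pow, mul_assoc, mul_inv_cancel₀ (pow_ne_zero _ hz), mul_one]

theorem eqv_trans (h : Eqv p x y) (h' : Eqv p y z) : Eqv p x z := by
  obtain ⟨a, ha, rfl⟩ := h
  obtain ⟨b, hb, rfl⟩ := h'
  exact ⟨b * a, mul_ne_zero hb ha, by rw [mul_pow, mul_assoc]⟩

theorem eqv_mul (h : Eqv p x y) (h' : Eqv p x' y') : Eqv p (x * x') (y * y') := by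
  obtain ⟨a, ha, rfl⟩ := h
  obtain ⟨b, hb, rfl⟩ := h'
  exact ⟨a * b, mul_ne_zero ha hb, by rw [mul_pow]; ring⟩

theorem eqv_inv (h : Eqv p x y) : Eqv p x⁻¹ y⁻¹ := by
  obtain ⟨a, ha, rfl⟩ := h
  exact ⟨a⁻¹, inv_ne_zero ha, by rw [inv_pow, mul_inv]⟩

theorem eqv_div (h : Eqv p x y) (h' : Eqv p x' y') : Eqv p (x / x') (y / y') := by
  rw [div_eq_mul_inv, div_eq_mul_inv]
  exact eqv_mul h (eqv_inv h')

theorem eqv_ne (h : Eqv p x y) (hy : y ≠ 0) : x ≠ 0 := by
  obtain ⟨a, ha, rfl⟩ := h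
  exact mul_ne_zero hy (pow_ne_zero _ ha)

theorem eqv_ne' (h : Eqv p x y) (hx : x ≠ 0) : y ≠ 0 := eqv_ne (eqv_symm h) hx

theorem eqv_map {L' : Type*} [Field L'] (f : L →+* L') (h : Eqv p x y) : Eqv p (f x) (f y) := by
  obtain ⟨a, ha, rfl⟩ := h
  exact ⟨f a, (map_ne_zero f).2 ha, by rw [map_mul, map_pow]⟩

/-- cancellation -/
theorem eqv_mul_left_iff (hz : z ≠ 0) : Eqv p (z * x) (z * y) ↔ Eqv p x y := by
  constructor
  · intro h
    have h1 := eqv_mul (eqv_refl (p := p) z⁻¹) h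
    rwa [inv_mul_cancel_left₀ hz, inv_mul_cancel_left₀ hz] at h1
  · exact fun h => eqv_mul (eqv_refl z) h

theorem eqv_div_iff (hy : y ≠ 0) : Eqv p (x / y) 1 ↔ Eqv p x y := by
  constructor
  · intro h
    have h1 := eqv_mul h (eqv_refl (p := p) y)
    rwa [div_mul_cancel₀ _ hy, one_mul] at h1
  · intro h
    have h1 := eqv_div h (eqv_refl (p := p) y)
    rwa [div_self hy] at h1

end eqv

section loc

variable {p : ℕ} {L E : Type} [Field L] [Field E] (S : LF p L E)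

theorem h_congr [Fact p.Prime] {x x' w w' : L} (hx : x' ≠ 0) (hw : w' ≠ 0)
    (h : Eqv p x x') (h' : Eqv p w w') : S.h x w = S.h x' w' := by
  obtain ⟨z, hz, rfl⟩ := h
  obtain ⟨z', hz', rfl⟩ := h'
  have e1 : w' * z' ^ p ≠ 0 := mul_ne_zero hw (pow_ne_zero _ hz')
  rw [S.h_mul_left _ _ _ hx (pow_ne_zero _ hz) e1, SymAux.h_pow_p_left S z _ hz e1, add_zero,
    S.h_mul_right _ _ _ hx hw (pow_ne_zero _ hz'), SymAux.h_pow_p_right S x' z' hx hz', add_zero]

/-- elements close to `a ≠ 0` have the class of `a` -/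
theorem near {a : L} (ha : a ≠ 0) : ∃ n : ℤ, ∀ b, S.Gz n (b - a) → b ≠ 0 ∧ Eqv p b a := by
  refine ⟨S.v a + S.e + 1, fun b hb => ?_⟩
  have h1 : S.Un (S.e + 1) (1 + (b - a) / a) := by
    rw [SymAux.un_iff S _ (by omega)]
    rcases eq_or_ne (b - a) 0 with h0 | h0
    · left
      rw [h0, zero_div]
    · right
      rw [SymAux.v_div S _ _ h0 ha]
      have := hb.resolve_left h0
      omega
  obtain ⟨z, hz, h2⟩ := SymAux.un_pow S h1
  have h3 : b = a * z ^ p := by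
    rw [← h2, mul_add, mul_one, mul_div_cancel₀ _ ha]
    ring
  exact ⟨by rw [h3]; exact mul_ne_zero ha (pow_ne_zero _ hz), z, hz, h3⟩

/-- elements orthogonal to everything are powers -/
theorem eqv_one_of_h [Fact p.Prime] {x : L} (hx : x ≠ 0) (h : ∀ y, y ≠ 0 → S.h x y = 0) :
    Eqv p x 1 := by
  obtain ⟨y, rfl⟩ := S.ndg x hx h
  have hp : p ≠ 0 := (Fact.out : p.Prime).ne_zero
  exact ⟨y, fun h0 => hx (by rw [h0, zero_pow hp]), by rw [one_mul]⟩

/-- the uniformizer is not a power -/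
theorem pi_not [Fact p.Prime] : ¬ Eqv p S.π 1 := by
  rintro ⟨z, hz, h⟩
  have h1 := congrArg S.v h
  rw [one_mul, S.v_pi, SymAux.v_pow S z hz] at h1
  have h2 : (p : ℤ) ∣ 1 := ⟨_, h1⟩
  exact (Nat.Prime.one_lt (Fact.out : p.Prime)).ne' (by
    have := Int.natCast_dvd_natCast.1 (by simpa using h2 : ((p : ℕ) : ℤ) ∣ ((1 : ℕ) : ℤ))
    exact Nat.dvd_one.1 this)

/-- there are two elements with non-zero symbol -/
theorem exists_h [Fact p.Prime] : ∃ a b : L, a ≠ 0 ∧ b ≠ 0 ∧ S.h a b ≠ 0 := by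
  by_contra hno
  push Not at hno
  exact pi_not S (eqv_one_of_h S S.pi_ne fun y hy => hno _ _ S.pi_ne hy)

theorem h_self_neg (a : L) (ha : a ≠ 0) : S.h a (-a) = 0 := SymAux.h_neg_self S a ha

/-- `h (a / c) (b / c)` in terms of `h a b` and `h (b / a) c` -/
theorem h_div_div [Fact p.Prime] {a b c : L} (ha : a ≠ 0) (hb : b ≠ 0) (hc : c ≠ 0) :
    S.h (a / c) (b / c) = S.h a b + S.h (-(b / a)) c := by
  have hci := inv_ne_zero hc
  have hai := inv_ne_zero ha
  have e0 : S.h c (-c) = 0 := h_self_neg S c hc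
  have e1 : S.h c c = S.h (-1) c := by
    have e2 : c * (-c)⁻¹ = -1 := by field_simp
    have e3 := SymAux.h_inv_left S (-c) c (neg_ne_zero.2 hc) hc
    have e4 := SymAux.anti S c (-c) hc (neg_ne_zero.2 hc)
    have e5 := S.h_mul_left c (-c)⁻¹ c hc (inv_ne_zero (neg_ne_zero.2 hc)) hc
    rw [e2, e3] at e5
    have e6 : S.h (-c) c = 0 := by
      have := e4
      rw [e0] at this
      rw [← neg_eq_zero, ← this]
    rw [e5, e6, neg_zero, add_zero]
  have e2 : -(b / a) = (-1) * (b * a⁻¹) := by rw [div_eq_mul_inv]; ring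
  rw [e2, S.h_mul_left _ _ _ (by norm_num) (mul_ne_zero hb hai) hc,
    S.h_mul_left _ _ _ hb hai hc, SymAux.h_inv_left S a c ha hc, div_eq_mul_inv, div_eq_mul_inv,
    S.h_mul_left _ _ _ ha hci (mul_ne_zero hb hci), S.h_mul_right _ _ _ ha hb hci,
    S.h_mul_right _ _ _ hci hb hci, SymAux.h_inv_right S a c ha hc,
    SymAux.h_inv_left S c b hc hb, SymAux.h_inv_left S c c⁻¹ hc hci,
    SymAux.h_inv_right S c c hc hc, e1, SymAux.anti S b c hb hc]
  ring

end loc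

theorem isUnit_const {L : Type*} {O : Type u} [Field L] [CommRing O] [Algebra L O] {c : L}
    (hc : c ≠ 0) : IsUnit (algebraMap L O c) :=
  (IsUnit.mk0 c hc).map (algebraMap L O)

section sys

variable {p : ℕ} [Fact p.Prime] {L E : Type} [Field L] [Field E] {S : LF p L E}
  {O : Type u} [CommRing O] [Algebra L O] {D : O → L}

theorem Sys.one (h : Sys S D) : Eqv p (D 1) 1 := by
  have := h.const 1 one_ne_zero
  rwa [map_one] at this

theorem Sys.inv (h : Sys S D) {u v : O} (huv : u * v = 1) : Eqv p (D v) (D u)⁻¹ := by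
  have hu : IsUnit u := IsUnit.of_mul_eq_one v huv
  have hv : IsUnit v := IsUnit.of_mul_eq_one u (by rw [mul_comm]; exact huv)
  have h1 := h.mul u v hu hv
  rw [huv] at h1
  have h2 := eqv_mul (eqv_refl (p := p) (D u)⁻¹) (eqv_trans (eqv_symm h1) h.one)
  rwa [inv_mul_cancel_left₀ (h.ne u hu), mul_one] at h2

theorem Sys.smul (h : Sys S D) {c : L} (hc : c ≠ 0) {u : O} (hu : IsUnit u) :
    Eqv p (D (algebraMap L O c * u)) (c * D u) :=
  eqv_trans (h.mul _ _ (isUnit_const hc) hu) (eqv_mul (h.const c hc) (eqv_refl _))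

theorem Sys.neg (h : Sys S D) {u : O} (hu : IsUnit u) : Eqv p (D (-u)) (-(D u)) := by
  have h1 := h.smul (c := -1) (by norm_num) hu
  rwa [map_neg, map_one, neg_one_mul, neg_one_mul] at h1

/-- the Steinberg relation for three units `a + b = c` -/
theorem Sys.rel (h : Sys S D) {a b : O} (ha : IsUnit a) (hb : IsUnit b) (hab : IsUnit (a + b)) :
    S.h (D a / D (a + b)) (D b / D (a + b)) = 0 := by
  obtain ⟨c, hc⟩ := hab.exists_right_inv
  have hcu : IsUnit c := IsUnit.of_mul_eq_one (a + b) (by rw [mul_comm]; exact hc)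
  have h1 : IsUnit (a * c) := ha.mul hcu
  have h2 : (1 : O) - a * c = b * c := by rw [← hc]; ring
  have h3 : IsUnit (1 - a * c) := by rw [h2]; exact hb.mul hcu
  have h4 := h.st _ h1 h3
  rw [h2] at h4
  have e0 := h.inv hc
  have e1 : Eqv p (D (a * c)) (D a / D (a + b)) := by
    rw [div_eq_mul_inv]
    exact eqv_trans (h.mul a c ha hcu) (eqv_mul (eqv_refl _) e0)
  have e2 : Eqv p (D (b * c)) (D b / D (a + b)) := by
    rw [div_eq_mul_inv]
    exact eqv_trans (h.mul b c hb hcu) (eqv_mul (eqv_refl _) e0)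
  have hD := h.ne _ hab
  rw [← h4]
  exact (h_congr S (div_ne_zero (h.ne _ ha) hD) (div_ne_zero (h.ne _ hb) hD) e1 e2).symm

/-- the same with representatives of the classes -/
theorem Sys.rel' (h : Sys S D) {a b c : O} (ha : IsUnit a) (hb : IsUnit b) (hc : IsUnit c)
    (hab : a + b = c) {α β γ : L} (h1 : Eqv p (D a) α) (h2 : Eqv p (D b) β)
    (h3 : Eqv p (D c) γ) : S.h (α / γ) (β / γ) = 0 := by
  subst hab
  have n1 := eqv_ne' h1 (h.ne _ ha)
  have n2 := eqv_ne' h2 (h.ne _ hb)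
  have n3 := eqv_ne' h3 (h.ne _ hc)
  rw [← h.rel ha hb hc]
  exact (h_congr S (div_ne_zero n1 n3) (div_ne_zero n2 n3) (eqv_div h1 h3) (eqv_div h2 h3)).symm

/-- `O` is not the zero ring -/
theorem Sys.nontrivial (h : Sys S D) : Nontrivial O := by
  by_contra hno
  rw [not_nontrivial_iff_subsingleton] at hno
  refine pi_not S ?_
  have h1 := h.const S.π S.pi_ne
  rw [Subsingleton.elim (algebraMap L O S.π) 1] at h1
  exact eqv_trans (eqv_symm h1) h.one

end sys

section gd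

variable {L : Type*} {O : Type u} [Field L] [CommRing O] [Algebra L O]

theorem mem_Gd {x : O} {c : L} : c ∈ Gd L x ↔ IsUnit (x - algebraMap L O c) := Iff.rfl

theorem mem_Gd_add {x : O} {c c₀ : L} : c ∈ Gd L (x + algebraMap L O c₀) ↔ c - c₀ ∈ Gd L x := by
  rw [mem_Gd, mem_Gd, map_sub]
  have : x + algebraMap L O c₀ - algebraMap L O c =
    x - (algebraMap L O c - algebraMap L O c₀) := by ring
  rw [this]

theorem mem_Gd_smul {x : O} {a c : L} (ha : a ≠ 0) :
    c ∈ Gd L (algebraMap L O a * x) ↔ a⁻¹ * c ∈ Gd L x := by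
  rw [mem_Gd, mem_Gd]
  have : algebraMap L O a * x - algebraMap L O c =
      algebraMap L O a * (x - algebraMap L O (a⁻¹ * c)) := by
    rw [mul_sub, ← map_mul, mul_inv_cancel_left₀ ha]
  rw [this]
  exact ⟨fun h => isUnit_of_mul_isUnit_right h, fun h => (isUnit_const ha).mul h⟩

theorem mem_Gd_const [Nontrivial O] {c c₀ : L} : c ∈ Gd L (algebraMap L O c₀) ↔ c ≠ c₀ := by
  rw [mem_Gd, ← map_sub]
  constructor
  · rintro h rfl
    rw [sub_self, map_zero] at h
    exact not_isUnit_zero h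
  · intro h
    exact isUnit_const (sub_ne_zero.2 h.symm)

/-- inversion: `u v = 1` -/
theorem mem_Gd_inv {u v : O} (huv : u * v = 1) {d : L} (hd : d ≠ 0) :
    d ∈ Gd L v ↔ d⁻¹ ∈ Gd L u := by
  have hu : IsUnit u := IsUnit.of_mul_eq_one v huv
  have hv : IsUnit v := IsUnit.of_mul_eq_one u (by rw [mul_comm]; exact huv)
  rw [mem_Gd, mem_Gd]
  have h1 : algebraMap L O d * algebraMap L O d⁻¹ = 1 := by
    rw [← map_mul, mul_inv_cancel₀ hd, map_one]
  have : v - algebraMap L O d = (-(algebraMap L O d) * v) * (u - algebraMap L O d⁻¹) := by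
    linear_combination (algebraMap L O d) * huv - v * h1
  rw [this]
  have hd' : IsUnit (-(algebraMap L O d)) := (isUnit_const hd).neg
  exact ⟨fun h => isUnit_of_mul_isUnit_right h, fun h => (hd'.mul hv).mul h⟩

end gd

section gnr

variable {p : ℕ} {L E : Type} [Field L] [Field E] {S : LF p L E}
  {O : Type u} [CommRing O] [Algebra L O]

theorem Gnr.dense (h : Gnr S O) (x : O) (a : L) (n : ℤ) : ∃ c ∈ Gd L x, S.Gz n (c - a) := by
  obtain ⟨c, hc, -, -, -, h1, -⟩ := h x x a a n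
  exact ⟨c, hc, h1⟩

/-- `y - c` may have any given class -/
theorem Gnr.pick1 (h : Gnr S O) (x : O) (y : L) {a : L} (ha : a ≠ 0) :
    ∃ c ∈ Gd L x, y - c ≠ 0 ∧ Eqv p (y - c) a := by
  obtain ⟨n, hn⟩ := near S ha
  obtain ⟨c, hc, h1⟩ := h.dense x (y - a) n
  refine ⟨c, hc, hn _ ?_⟩
  have h2 : y - c - a = -(c - (y - a)) := by ring
  rw [h2]
  exact SymAux.gz_neg S h1

/-- `y - c` may be close to any given element -/
theorem Gnr.pickn (h : Gnr S O) (x : O) (y a : L) (n : ℤ) :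
    ∃ c ∈ Gd L x, S.Gz n (y - c - a) := by
  obtain ⟨c, hc, h1⟩ := h.dense x (y - a) n
  refine ⟨c, hc, ?_⟩
  have h2 : y - c - a = -(c - (y - a)) := by ring
  rw [h2]
  exact SymAux.gz_neg S h1

/-- the classes of `y - c`, `y' - c'` and `y - c + (y' - c') + δ` -/
theorem Gnr.pick (h : Gnr S O) (x x' : O) (y y' δ : L) {a b : L} (ha : a ≠ 0) (hb : b ≠ 0)
    (hab : a + b + δ ≠ 0) : ∃ c ∈ Gd L x, ∃ c' ∈ Gd L x', c + c' ∈ Gd L (x + x') ∧
      y - c ≠ 0 ∧ y' - c' ≠ 0 ∧ y - c + (y' - c') + δ ≠ 0 ∧ Eqv p (y - c) a ∧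
      Eqv p (y' - c') b ∧ Eqv p (y - c + (y' - c') + δ) (a + b + δ) := by
  obtain ⟨n1, h1⟩ := near S ha
  obtain ⟨n2, h2⟩ := near S hb
  obtain ⟨n3, h3⟩ := near S hab
  obtain ⟨c, hc, c', hc', hcc, e1, e2⟩ := h x x' (y - a) (y' - b) (max n1 (max n2 n3))
  have f1 : S.Gz (max n1 (max n2 n3)) (y - c - a) := by
    have h2 : y - c - a = -(c - (y - a)) := by ring
    rw [h2]
    exact SymAux.gz_neg S e1
  have f2 : S.Gz (max n1 (max n2 n3)) (y' - c' - b) := by
    have h2 : y' - c' - b = -(c' - (y' - b)) := by ring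
    rw [h2]
    exact SymAux.gz_neg S e2
  have f3 : S.Gz (max n1 (max n2 n3)) (y - c + (y' - c') + δ - (a + b + δ)) := by
    have h2 : y - c + (y' - c') + δ - (a + b + δ) = (y - c - a) + (y' - c' - b) := by ring
    rw [h2]
    exact SymAux.gz_add S f1 f2
  obtain ⟨g1, g1'⟩ := h1 _ (SymAux.gz_mono S (le_max_left _ _) f1)
  obtain ⟨g2, g2'⟩ := h2 _ (SymAux.gz_mono S ((le_max_left _ _).trans (le_max_right _ _)) f2)
  obtain ⟨g3, g3'⟩ := h3 _ (SymAux.gz_mono S ((le_max_right _ _).trans (le_max_right _ _)) f3)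
  exact ⟨c, hc, c', hc', hcc, g1, g2, g3, g1', g2', g3'⟩

end gnr

end Pool.Agent.Lib.MP_c385f6_ag.Bc
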