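import Mathlib
import Pool.Agent.Lib.MP_c385f6_ag.Bc.Defs
import Pool.Agent.Lib.MP_c385f6_ag.AllP.Bridge

set_option autoImplicit false

/-!
Statements of the modules of the base change theorem (see MP_c385f6_bc.md in the team store).
-/

namespace Pool.Agent.Lib.MP_c385f6_ag.Bc

open Pool.Agent.Lib.MP_c385f6_ag.Cpl Polynomial Finset

/-! ### Part A: systems of classes on the units of an algebra -/

/-- (A1) the pairs `D (x - s) / D (x - t)` are a compatible system -/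
def StPair.{u} : Prop :=
  ∀ (p : ℕ) (_ : Fact p.Prime) (L E : Type) (_ : Field L) (_ : Field E) (S : LF p L E)
    (O : Type u) (_ : CommRing O) (_ : Algebra L O) (D : O → L), Sys S D → ∀ x : O,
    S.Cmp (Gd L x) fun s t => D (x - algebraMap L O s) / D (x - algebraMap L O t)

/-- (A2) finite nets inside dense sets -/
def StNet : Prop :=
  ∀ (p : ℕ) (_ : Fact p.Prime) (L E : Type) (_ : Field L) (_ : Field E) (S : LF p L E)
    (C : Set L), (∀ (a : L) (n : ℤ), ∃ c ∈ C, S.Gz n (c - a)) →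
    (∀ m : ℤ, ∃ T : Set L, T.Finite ∧ S.Net T m) →
    ∀ A : Set L, A.Finite → A ⊆ C → ∀ m : ℤ, ∃ T : Set L, T.Finite ∧ A ⊆ T ∧ T ⊆ C ∧ S.Net T m

/-- (A3) every element has a value in the projective line -/
def StAlt.{u} : Prop :=
  ∀ (p : ℕ) (_ : Fact p.Prime) (L E : Type) (_ : Field L) (_ : Field E) (S : LF p L E)
    (O : Type u) (_ : CommRing O) (_ : Algebra L O) (D : O → L), Comp.{0} L S →
    (∀ m : ℤ, ∃ T : Set L, T.Finite ∧ S.Net T m) → Sys S D → Gnr S O →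
    ∀ x : O, (∃ y, Val p D x y) ∨ ValInf p D x

/-- (A4) elementary properties of the values -/
def StOne.{u} : Prop :=
  ∀ (p : ℕ) (_ : Fact p.Prime) (L E : Type) (_ : Field L) (_ : Field E) (S : LF p L E)
    (O : Type u) (_ : CommRing O) (_ : Algebra L O) (D : O → L), Sys S D → Gnr S O →
    (∀ x y, Val p D x y → ∀ c ∈ Gd L x, c ≠ y → Eqv p (D (x - algebraMap L O c)) (y - c)) ∧
    (∀ x y y', Val p D x y → Val p D x y' → y = y') ∧
    (∀ x y, Val p D x y → ¬ ValInf p D x) ∧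
    (∀ c, Val p D (algebraMap L O c) c) ∧
    (∀ x y c, Val p D x y → Val p D (x + algebraMap L O c) (y + c)) ∧
    (∀ x y a, Val p D x y → Val p D (algebraMap L O a * x) (a * y))

/-- (A5) additivity -/
def StAdd.{u} : Prop :=
  ∀ (p : ℕ) (_ : Fact p.Prime) (L E : Type) (_ : Field L) (_ : Field E) (S : LF p L E)
    (O : Type u) (_ : CommRing O) (_ : Algebra L O) (D : O → L), Ctx S D →
    ∀ x x' y y', Val p D x y → Val p D x' y' → Val p D (x + x') (y + y')

/-- (A6) multiplicativity -/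
def StMul.{u} : Prop :=
  ∀ (p : ℕ) (_ : Fact p.Prime) (L E : Type) (_ : Field L) (_ : Field E) (S : LF p L E)
    (O : Type u) (_ : CommRing O) (_ : Algebra L O) (D : O → L), Ctx S D →
    ∀ x x' y y', Val p D x y → Val p D x' y' → Val p D (x * x') (y * y')

/-- (A7) a criterion for finite values -/
def StFin.{u} : Prop :=
  ∀ (p : ℕ) (_ : Fact p.Prime) (L E : Type) (_ : Field L) (_ : Field E) (S : LF p L E)
    (O : Type u) (_ : CommRing O) (_ : Algebra L O) (D : O → L), Ctx S D →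
    ∀ (x₁ : O) (y₁ : L), Val p D x₁ y₁ → ∀ (x : O) (n : ℕ) (q : ℕ → L[X]), (q 0).eval y₁ ≠ 0 →
    ∑ i ∈ range (n + 1), aeval x₁ (q i) * x ^ (n - i) = 0 → ∃ y, Val p D x y

/-- (A8) the homomorphism -/
def StHom.{u} : Prop :=
  ∀ (p : ℕ) (_ : Fact p.Prime) (L E : Type) (_ : Field L) (_ : Field E) (S : LF p L E)
    (O : Type u) (_ : CommRing O) (_ : Algebra L O) (D : O → L), Comp.{0} L S →
    (∀ m : ℤ, ∃ T : Set L, T.Finite ∧ S.Net T m) → Sys S D → Gnr S O →
    ∀ (x₁ : O) (y₁ : L), Val p D x₁ y₁ →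
    (∀ x : O, ∃ (n : ℕ) (q : ℕ → L[X]), (q 0).eval y₁ ≠ 0 ∧
      ∑ i ∈ range (n + 1), aeval x₁ (q i) * x ^ (n - i) = 0) →
    ∃ φ : O →ₐ[L] L, φ x₁ = y₁ ∧ (∀ x, Val p D x (φ x)) ∧ ∀ u, IsUnit u → Eqv p (D u) (φ u)

/-! ### Part B: geometry -/

/-- (B0) primitive equations -/
def StPrim.{u} : Prop :=
  ∀ (L : Type) (_ : Field L) (F : Type u) (_ : Field F) (_ : Algebra L F) (w : F),
    Transcendental L w → (∀ x : F, IsAlgebraic (Algebra.adjoin L {w}) x) →
    (∀ x : F, ∃ f : L[X][X], f.IsPrimitive ∧ aevalAeval w x f = 0) ∧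
    ∀ θ : L, Transcendental L (w - algebraMap L F θ)⁻¹ ∧
      ∀ x : F, ∃ f : L[X][X], f.IsPrimitive ∧ aevalAeval (w - algebraMap L F θ)⁻¹ x f = 0

/-- (B1) elimination -/
def StRes : Prop :=
  ∀ (L : Type) (_ : Field L) (f g : L[X][X]), f.IsPrimitive → g.IsPrimitive →
    ∃ R : L[X][X], R ≠ 0 ∧ ∀ a c c' : L, evalEval a c f = 0 → evalEval a c' g = 0 →
      evalEval c c' R = 0

/-- (B2) polynomials in `c` and a conjugate of `c` do not vanish on open sets -/
def StNear : Prop :=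
  ∀ (p : ℕ) (_ : Fact p.Prime) (k L E : Type) (_ : Field k) (_ : Field L) (_ : Field E)
    (_ : CharZero k) (_ : Algebra k L) (S : LF p L E) (g : L ≃ₐ[k] L) (θ : L), g θ ≠ θ →
    (∃ z : k, z ≠ 0 ∧ 1 ≤ S.v (algebraMap k L z)) →
    ∀ R : L[X][X], R ≠ 0 → ∀ (a : L) (n : ℤ), ∃ c : L, S.Gz n (c - a) ∧ evalEval c (g c) R ≠ 0

/-- (B3) there are many units without zeros and poles over the rational points -/
def StGnr.{u} : Prop :=
  ∀ (p : ℕ) (_ : Fact p.Prime) (k L E : Type) (_ : Field k) (_ : Field L) (_ : Field E)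
    (_ : CharZero k) (_ : Algebra k L) (_ : FiniteDimensional k L) (_ : IsGalois k L)
    (S : LF p L E), (∃ θ : L, ∀ y : k, algebraMap k L y ≠ θ) →
    (∃ z : k, z ≠ 0 ∧ 1 ≤ S.v (algebraMap k L z)) →
    ∀ (F : Type u) (_ : Field F) (_ : Algebra k F) (_ : Algebra L F) (_ : IsScalarTower k L F)
      (w : F), Transcendental L w → (∀ x : F, IsAlgebraic (Algebra.adjoin L {w}) x) →
      ∀ b : k[X], b ≠ 0 → Gnr S (RR k L b w)

/-- (B4) integral equations -/
def StInt.{u} : Prop :=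
  ∀ (k L : Type) (_ : Field k) (_ : Field L) (_ : Algebra k L) (F : Type u) (_ : Field F)
    (_ : Algebra k F) (_ : Algebra L F) (_ : IsScalarTower k L F) (w : F), Transcendental L w →
    (∀ x : F, IsAlgebraic (Algebra.adjoin L {w}) x) →
    ∀ θ : L, (∀ y : k, algebraMap k L y ≠ θ) → ∀ y₁ : L,
    (y₁ = 0 ∨ ∃ a : k, y₁ = (algebraMap k L a - θ)⁻¹) → ∀ (b : k[X]), ∀ x ∈ RR k L b w,
    ∃ (n : ℕ) (q : ℕ → L[X]), (q 0).eval y₁ ≠ 0 ∧
      ∑ i ∈ range (n + 1), aeval (w - algebraMap L F θ)⁻¹ (q i) * x ^ (n - i) = 0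

/-- (B5) homomorphisms give valuation subrings -/
def StLoc.{u} : Prop :=
  ∀ (k L : Type) (_ : Field k) (_ : Field L) (_ : Algebra k L) (F : Type u) (_ : Field F)
    (_ : Algebra k F) (_ : Algebra L F) (_ : IsScalarTower k L F) (w : F), Transcendental L w →
    (∀ x : F, IsAlgebraic (Algebra.adjoin L {w}) x) →
    ∀ b : k[X], (∃ θ : L, Ok k b θ) → ∀ φ : RR k L b w →ₐ[L] L,
    ∃ V : ValuationSubring F,
      (∀ x : F, x ∈ V ↔ ∃ r s : RR k L b w, φ s ≠ 0 ∧ x * (s : F) = r) ∧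
      (∀ x : RR k L b w, V.valuation ((x : F) - algebraMap L F (φ x)) < 1) ∧
      ∀ z ∈ V, ∃ c : L, V.valuation (z - algebraMap L F c) < 1

/-- (B6) equivariant homomorphisms give rational places of the field below -/
def StPlc.{u} : Prop :=
  ∀ (k L : Type) (_ : Field k) (_ : Field L) (_ : Algebra k L) (_ : FiniteDimensional k L)
    (_ : IsGalois k L) (K₀ F : Type u) (_ : Field K₀) (_ : Field F) (_ : Algebra k K₀)
    (_ : Algebra k F) (_ : Algebra L F) (_ : Algebra K₀ F) (_ : IsScalarTower k L F)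
    (_ : IsScalarTower k K₀ F) (w : K₀), Transcendental L (algebraMap K₀ F w) →
    (∀ x : F, IsAlgebraic (Algebra.adjoin L {algebraMap K₀ F w}) x) →
    ∀ (b : k[X]) (θ : L), Ok k b θ →
    ∀ φ : RR k L b (algebraMap K₀ F w) →ₐ[L] L,
    (∀ g : L ≃ₐ[k] L, ∃ G : F ≃ₐ[K₀] F, (∀ c, G (algebraMap L F c) = algebraMap L F (g c)) ∧
      ∀ x x' : RR k L b (algebraMap K₀ F w), (x' : F) = G x → φ x' = g (φ x)) →
    ∀ x₁ : RR k L b (algebraMap K₀ F w),
      (x₁ : F) = (algebraMap K₀ F w - algebraMap L F θ)⁻¹ →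
    (∀ y : k, φ x₁ = (algebraMap k L y - θ)⁻¹ → PlaceOver k w y) ∧ (φ x₁ = 0 → PlaceInf k w)

/-- (B7) the coordinate `(w - θ)⁻¹` -/
def StCoord.{u} : Prop :=
  ∀ (k L : Type) (_ : Field k) (_ : Field L) (_ : Algebra k L) (F : Type u) (_ : Field F)
    (_ : Algebra k F) (_ : Algebra L F) (_ : IsScalarTower k L F) (w : F), Transcendental L w →
    ∀ (b : k[X]) (θ : L), Ok k b θ →
    (∀ c : L, Ok k b c → UnitR k L b w ((w - algebraMap L F c) / (w - algebraMap L F θ))) ∧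
    ∃ x₁ : RR k L b w, (x₁ : F) = (w - algebraMap L F θ)⁻¹ ∧
      ∀ c ∈ Gd L x₁, c ≠ 0 ∧ Ok k b (θ + c⁻¹) ∧
        (x₁ : F) - algebraMap L F c = algebraMap L F (-c) *
          ((w - algebraMap L F (θ + c⁻¹)) / (w - algebraMap L F θ))

/-! ### Part C: compactness -/

/-- (C1) compactness of the projective line over `k` -/
def StComp.{v} : Prop :=
  ∀ (p : ℕ) (_ : Fact p.Prime) (k L E : Type) (_ : Field k) (_ : Field L) (_ : Field E)
    (_ : Algebra ℚ_[p] k) (_ : FiniteDimensional ℚ_[p] k) (_ : Algebra k L)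
    (_ : FiniteDimensional k L) (S : LF p L E), 0 < S.v (p : L) → Comp.{v} k S

/-- (C2) limits of partial systems of classes -/
def StLim.{u} : Prop :=
  ∀ (p : ℕ) (_ : Fact p.Prime) (k L E : Type) (_ : Field k) (_ : Field L) (_ : Field E)
    (_ : Algebra k L) (S : LF p L E) (K₀ F : Type u) (_ : Field K₀) (_ : Field F)
    (_ : Algebra k K₀) (_ : Algebra k F) (_ : Algebra L F) (_ : Algebra K₀ F)
    (_ : IsScalarTower k L F) (_ : IsScalarTower k K₀ F) (w : K₀) (b : k[X]) (ι : Type u)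
    (U : Ultrafilter ι) (Φ : ι → Set F) (D : ι → F → L) (y : ι → k),
    (∀ u, UnitR k L b (algebraMap K₀ F w) u → ∀ᶠ i in (U : Filter ι), u ∈ Φ i) →
    (∀ i, PSys k S w (Φ i) (D i) (y i)) →
    ∃ D' : RR k L b (algebraMap K₀ F w) → L,
      (∀ u : RR k L b (algebraMap K₀ F w), IsUnit u →
        ∀ᶠ i in (U : Filter ι), (u : F) ∈ Φ i ∧ Eqv p (D i u) (D' u)) ∧
      Sys S D' ∧
      ∀ (g : L ≃ₐ[k] L) (G : F ≃ₐ[K₀] F), (∀ c, G (algebraMap L F c) = algebraMap L F (g c)) →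
        ∀ u u' : RR k L b (algebraMap K₀ F w), IsUnit u → (u' : F) = G u →
          Eqv p (D' u') (g (D' u))

/-- (C3) finitely many functions detect rational places -/
def StCPT.{u} : Prop :=
  ∀ (p : ℕ) (_ : Fact p.Prime) (k L E : Type) (_ : Field k) (_ : Field L) (_ : Field E)
    (_ : Algebra ℚ_[p] k) (_ : FiniteDimensional ℚ_[p] k) (_ : Algebra k L)
    (_ : FiniteDimensional k L) (_ : IsGalois k L) (S : LF p L E), 0 < S.v (p : L) →
    (∃ θ : L, ∀ y : k, algebraMap k L y ≠ θ) →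
    (∀ m : ℤ, ∃ T : Set L, T.Finite ∧ S.Net T m) →
    ∀ (K₀ F : Type u) (_ : Field K₀) (_ : Field F) (_ : Algebra k K₀) (_ : Algebra k F)
    (_ : Algebra L F) (_ : Algebra K₀ F) (_ : IsScalarTower k L F) (_ : IsScalarTower k K₀ F)
    (w : K₀), Transcendental k w → (∀ x : K₀, IsAlgebraic (Algebra.adjoin k {w}) x) →
    IntermediateField.adjoin K₀ (Set.range (algebraMap L F)) = ⊤ →
    (∀ g : L ≃ₐ[k] L, ∃ G : F ≃ₐ[K₀] F, ∀ c, G (algebraMap L F c) = algebraMap L F (g c)) →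
    OpenImg k S w → ∀ b : k[X], b ≠ 0 →
    ∃ Φ : Finset F, (∀ u ∈ Φ, UnitR k L b (algebraMap K₀ F w) u) ∧
      ∀ (D : F → L) (y : k), PSys k S w (Φ : Set F) D y → PlaceOver k w y

/-! ### Part D: the classes given by a section -/

section
variable (k : Type*) {L K Ω : Type*} [Field k] [Field L] [Field K] [Field Ω] [Algebra k L]
  [Algebra k K] [Algebra k Ω] [Algebra L Ω] [Algebra K Ω] [IsScalarTower k L Ω]
  [FiniteDimensional k L]

/-- `h = c Y ^ p`, `Y` fixed by `s(Gal_L)` -/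
def Tw (p : ℕ) (s : AbsGal k Ω →* PiOne k K Ω) (h : Ω) (c : L) : Prop :=
  c ≠ 0 ∧ ∃ Y : maxUnramified k K Ω, (∀ γ : AbsGal L Ω, s (resAbs k L Ω γ) Y = Y) ∧
    h = algebraMap L Ω c * (Y : Ω) ^ p

end

/-- (D) the classes given by a section -/
def StSec.{u} : Prop :=
  ∀ (p : ℕ) (_ : Fact p.Prime) (k L E : Type) (_ : Field k) (_ : Field L) (_ : Field E)
    (_ : CharZero k) (_ : Algebra k L) (_ : FiniteDimensional k L) (_ : IsGalois k L)
    (S : LF p L E) (ζ : L), p ≠ 2 → IsPrimitiveRoot ζ p →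
    (∀ a b : L, a ≠ 0 → b ≠ 0 → ¬ SymbolNonzero p 1 a b → S.h a b = 0) →
    ∀ (K₀ F K M Ω : Type u) (_ : Field K₀) (_ : Field F) (_ : Field K) (_ : Field M) (_ : Field Ω)
      (_ : Algebra k K₀) (_ : Algebra k K) (_ : Algebra k Ω) (_ : Algebra L F) (_ : Algebra L M)
      (_ : Algebra L Ω) (_ : Algebra K₀ F) (_ : Algebra K₀ K) (_ : Algebra K₀ M) (_ : Algebra F M)
      (_ : Algebra K M) (_ : Algebra K Ω) (_ : Algebra M Ω) (_ : IsScalarTower k K₀ K)
      (_ : IsScalarTower k K Ω) (_ : IsScalarTower k L Ω) (_ : IsScalarTower K₀ F M)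
      (_ : IsScalarTower K₀ K M) (_ : IsScalarTower L F M) (_ : IsScalarTower K M Ω)
      (_ : IsScalarTower L M Ω) (_ : IsAlgClosure K Ω),
    IntermediateField.adjoin K₀ (Set.range (algebraMap L F)) = ⊤ →
    IntermediateField.adjoin K (Set.range (algebraMap L M)) = ⊤ →
    ∀ (w : K₀) (y : k) (Φ : Set F), (∀ u ∈ Φ, PDiv p L (algebraMap F M u)) →
    ∀ s : AbsGal k Ω →* PiOne k K Ω, IsSection k K Ω s →
    (∀ c c' : L, (∀ a : k, algebraMap k L a ≠ c) → (∀ a : k, algebraMap k L a ≠ c') →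
      (algebraMap K₀ F w - algebraMap L F c) / (algebraMap K₀ F w - algebraMap L F c') ∈ Φ →
      Tw k p s (algebraMap M Ω (algebraMap F M
        ((algebraMap K₀ F w - algebraMap L F c) / (algebraMap K₀ F w - algebraMap L F c'))))
        ((algebraMap k L y - c) / (algebraMap k L y - c'))) →
    ∃ D : F → L, PSys k S w Φ D y

/-! ### Part E: rational places of covers -/

/-- (E) a rational place of `K₀` over `w = y` lifts to `K` -/
def StSplit.{u, v} : Prop :=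
  ∀ (p : ℕ) (_ : Fact p.Prime) (k L : Type) (_ : Field k) (_ : Field L)
    (_ : CharZero k) (_ : Algebra k L) (_ : FiniteDimensional k L) (_ : IsGalois k L)
    (ζ : L), IsPrimitiveRoot ζ p → ¬ p ∣ Module.finrank k L →
    ∀ (K₀ F K M : Type u) (_ : Field K₀) (_ : Field F) (_ : Field K) (_ : Field M)
      (_ : Algebra k K₀) (_ : Algebra k K) (_ : Algebra k F) (_ : Algebra L F) (_ : Algebra L M)
      (_ : Algebra K₀ F) (_ : Algebra K₀ K) (_ : Algebra K₀ M) (_ : Algebra F M)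
      (_ : Algebra K M) (_ : IsScalarTower k K₀ K) (_ : IsScalarTower k K₀ F)
      (_ : IsScalarTower k L F) (_ : IsScalarTower K₀ F M)
      (_ : IsScalarTower K₀ K M) (_ : IsScalarTower L F M),
    IntermediateField.adjoin K₀ (Set.range (algebraMap L F)) = ⊤ →
    IntermediateField.adjoin K (Set.range (algebraMap L M)) = ⊤ →
    (∀ g : L ≃ₐ[k] L, ∃ G : M ≃ₐ[K] M, ∀ c, G (algebraMap L M c) = algebraMap L M (g c)) →
    ∀ (w : K₀) (y : k) (ι : Type v) (z : ι → M) (H : ι → L[X]),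
    (∀ i, z i ^ p = algebraMap F M (aeval (algebraMap K₀ F w) (H i))) →
    IntermediateField.adjoin F (Set.range z) = ⊤ →
    (∀ i, ∃ e, e ≠ 0 ∧ (H i).eval (algebraMap k L y) = e ^ p) →
    PlaceOver k w y → PlaceOver k (algebraMap K₀ K w) y

end Pool.Agent.Lib.MP_c385f6_ag.Bc
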