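import Mathlib
import Pool.Agent.Lib.MP_c385f6_ag.Bc.Basic
import Pool.Agent.Lib.MP_c385f6_ag.Bc.St

set_option autoImplicit false

/-!
Module (A5) of the base change theorem: additivity of the values.
-/

namespace Pool.Agent.Lib.MP_c385f6_ag.Bc

open Pool.Agent.Lib.MP_c385f6_ag.Cpl

universe u

namespace AddAux

section loc

variable {p : ℕ} [Fact p.Prime] {L E : Type} [Field L] [Field E] (S : LF p L E)

/-- the local contradiction -/
theorem no_delta {δ : L} (hδ : δ ≠ 0)
    (hK : ∀ a b : L, a ≠ 0 → b ≠ 0 → a + b + δ ≠ 0 →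
      S.h (a / (a + b + δ)) (b / (a + b + δ)) = 0) : False := by
  have hπ := S.pi_ne
  have h1 : S.π - 1 ≠ 0 := by
    intro h0
    exact pi_not S (eqv_of_eq (sub_eq_zero.1 h0))
  set a₀ : L := δ / (S.π - 1) with ha₀
  have ha : a₀ ≠ 0 := div_ne_zero hδ h1
  have hδa : δ = a₀ * (S.π - 1) := by rw [ha₀, div_mul_cancel₀ _ h1]
  set b₀ : L := -(S.π * a₀) with hb₀
  have hb : b₀ ≠ 0 := neg_ne_zero.2 (mul_ne_zero hπ ha)
  obtain ⟨n, hn⟩ := near S hb
  have hsmall : ∀ η : L, η ≠ 0 → S.Gz n η → S.h a₀ b₀ + S.h S.π η = 0 := by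
    intro η hη hg
    obtain ⟨hb1, hb2⟩ := hn (b₀ + η) (by rwa [add_sub_cancel_left])
    have he : a₀ + (b₀ + η) + δ = η := by rw [hδa, hb₀]; ring
    have h2 := hK a₀ (b₀ + η) ha hb1 (by rwa [he])
    rw [he, h_div_div S ha hb1 hη, h_congr S ha hb (eqv_refl a₀) hb2] at h2
    have h3 : Eqv p (-((b₀ + η) / a₀)) S.π := by
      have h4 : Eqv p ((-1) * ((b₀ + η) / a₀)) ((-1) * (b₀ / a₀)) :=
        eqv_mul (eqv_refl _) (eqv_div hb2 (eqv_refl _))
      have h5 : (-1) * (b₀ / a₀) = S.π := by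
        rw [hb₀]
        field_simp
      rw [h5, neg_one_mul] at h4
      exact h4
    rwa [h_congr S hπ hη h3 (eqv_refl η)] at h2
  -- multiplication with a large power
  have hbig : ∀ η : L, η ≠ 0 → S.h a₀ b₀ + S.h S.π η = 0 := by
    intro η hη
    set N : ℕ := (n - S.v η).toNat with hN
    have hpN : S.π ^ N ≠ 0 := pow_ne_zero _ hπ
    have hpN' : (S.π ^ N) ^ p ≠ 0 := pow_ne_zero _ hpN
    have h2 := hsmall (η * (S.π ^ N) ^ p) (mul_ne_zero hη hpN') (by
      right
      rw [S.v_mul _ _ hη hpN', SymAux.v_pow S _ hpN, SymAux.v_pow S _ hπ, S.v_pi, mul_one]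
      have h3 : (1 : ℤ) ≤ p := by exact_mod_cast (Fact.out : p.Prime).one_lt.le
      have h4 : n - S.v η ≤ (N : ℤ) := Int.self_le_toNat _
      have h5 : (N : ℤ) ≤ p * N := le_mul_of_one_le_left (by positivity) h3
      linarith)
    rw [S.h_mul_right _ _ _ hπ hη hpN', SymAux.h_pow_p_right S _ _ hπ hpN, add_zero] at h2
    exact h2
  have h0 : S.h a₀ b₀ = 0 := by
    have h2 := hbig 1 one_ne_zero
    rwa [SymAux.h_one_right S _ hπ, add_zero] at h2
  refine pi_not S (eqv_one_of_h S hπ fun η hη => ?_)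
  have h2 := hbig η hη
  rwa [h0, zero_add] at h2

end loc

section ctx

variable {p : ℕ} [Fact p.Prime] {L E : Type} [Field L] [Field E] {S : LF p L E}
  {O : Type u} [CommRing O] [Algebra L O] {D : O → L}

/-- the relation for a sum -/
theorem rel_add (hC : Ctx S D)
    (hone : ∀ x y, Val p D x y → ∀ c ∈ Gd L x, c ≠ y → Eqv p (D (x - algebraMap L O c)) (y - c))
    {x x' : O} {y y' : L} (hx : Val p D x y) (hx' : Val p D x' y') {a b δ : L} (ha : a ≠ 0)
    (hb : b ≠ 0) (hab : a + b + δ ≠ 0) (γ : L)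
    (hγ : ∀ d ∈ Gd L (x + x'), Eqv p (y + y' + δ - d) (a + b + δ) → d ≠ y + y' + δ →
      Eqv p (D (x + x' - algebraMap L O d)) γ) :
    S.h (a / γ) (b / γ) = 0 := by
  obtain ⟨c, hc, c', hc', hcc, n1, n2, n3, e1, e2, e3⟩ := hC.gnr.pick x x' y y' δ ha hb hab
  have f1 := eqv_trans (hone x y hx c hc (sub_ne_zero.1 n1).symm) e1
  have f2 := eqv_trans (hone x' y' hx' c' hc' (sub_ne_zero.1 n2).symm) e2
  have he : y - c + (y' - c') + δ = y + y' + δ - (c + c') := by ring
  rw [he] at n3 e3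
  have f3 := hγ (c + c') hcc e3 (sub_ne_zero.1 n3).symm
  refine hC.sys.rel' hc hc' hcc ?_ f1 f2 f3
  rw [map_add]
  ring

end ctx

end AddAux

open AddAux

/-- (A5) additivity -/
theorem stAdd (h : StOne.{u}) : StAdd.{u} := by
  intro p _ L E _ _ S O _ _ D hC x x' y y' hx hx'
  obtain ⟨hone, -, -, -, -, -⟩ := h p inferInstance L E inferInstance inferInstance S O
    inferInstance inferInstance D hC.sys hC.gnr
  rcases hC.alt (x + x') with ⟨y'', hy''⟩ | hinf
  · by_cases hd : y'' = y + y'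
    · rwa [← hd]
    · exfalso
      have hδ : y'' - (y + y') ≠ 0 := sub_ne_zero.2 hd
      refine no_delta S hδ fun a b ha hb hab => ?_
      refine rel_add hC hone hx hx' ha hb hab _ fun d hd' he hne => ?_
      have h1 : y + y' + (y'' - (y + y')) = y'' := by ring
      rw [h1] at he hne
      exact eqv_trans (hone _ _ hy'' d hd' hne) he
  · exfalso
    obtain ⟨c₀, hc₀, -⟩ := hC.gnr.pick1 (x + x') 0 (one_ne_zero (α := L))
    have hκ := hC.sys.ne _ hc₀
    obtain ⟨α, β, hα, hβ, hαβ⟩ := exists_h S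
    apply hαβ
    have h1 := rel_add (δ := 1 - D (x + x' - algebraMap L O c₀) * α -
      D (x + x' - algebraMap L O c₀) * β) hC hone hx hx' (mul_ne_zero hκ hα) (mul_ne_zero hκ hβ)
      (by
        have : D (x + x' - algebraMap L O c₀) * α + D (x + x' - algebraMap L O c₀) * β +
            (1 - D (x + x' - algebraMap L O c₀) * α - D (x + x' - algebraMap L O c₀) * β) =
            (1 : L) := by ring
        rw [this]
        exact one_ne_zero)
      (D (x + x' - algebraMap L O c₀)) (fun d hd _ _ => hinf d hd c₀ hc₀)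
    rwa [mul_div_cancel_left₀ _ hκ, mul_div_cancel_left₀ _ hκ] at h1

end Pool.Agent.Lib.MP_c385f6_ag.Bc
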