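import Mathlib
import Pool.Agent.Lib.MP_c385f6_ag.Bc.St
import Pool.Agent.Lib.MP_c385f6_ag.Bc.Basic

set_option autoImplicit false

/-!
(A3) every element has a value in the projective line (ultrafilter).
-/

namespace Pool.Agent.Lib.MP_c385f6_ag.Bc

open Pool.Agent.Lib.MP_c385f6_ag.Cpl Polynomial Finset

universe u

namespace AltAux

variable {p : ℕ} {L E : Type} [Field L] [Field E] (S : LF p L E)

/-- the distance from `y` to `c` is bounded for `y` close to `y₀` -/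
theorem not_cl_near {y₀ c : L} (hc : c ≠ y₀) : ∃ n m : ℤ, ∀ y : L, S.Gz n (y - y₀) →
    y ≠ c ∧ ∀ m' : ℤ, m ≤ m' → ¬ S.Cl m' y c := by
  refine ⟨max 0 (S.v (y₀ - c) + 1), S.v (y₀ - c) - min 0 (S.v y₀) - min 0 (S.v c) + 1,
    fun y hy => ?_⟩
  have hy0 : S.Gz 0 (y - y₀) := SymAux.gz_mono S (le_max_left _ _) hy
  have hy1 : S.Gz (S.v (y₀ - c) + 1) (y - y₀) := SymAux.gz_mono S (le_max_right _ _) hy
  have hne : y₀ - c ≠ 0 := sub_ne_zero.2 (Ne.symm hc)
  -- the valuation of `y - c`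
  have e1 : y - c = (y₀ - c) - (y₀ - y) := by ring
  have e2 : y₀ - y = 0 ∨ S.v (y₀ - c) < S.v (y₀ - y) := by
    rcases hy1 with h | h
    · left
      rw [← neg_sub, h, neg_zero]
    · right
      rw [ChordAux.v_sub_comm S y₀ y]
      omega
  have e3 : S.v (y - c) = S.v (y₀ - c) := by
    rw [e1]
    exact ChordAux.v_sub_lt S hne e2
  have hyc : y ≠ c := by
    rintro rfl
    rcases hy1 with h | h
    · exact hc (sub_eq_zero.1 h)
    · rw [ChordAux.v_sub_comm S y y₀] at h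
      omega
  -- the valuation of `y`
  have e4 : min 0 (S.v y₀) ≤ min 0 (S.v y) := by
    by_cases h1 : y = 0
    · rw [h1, S.v_zero]
      omega
    rcases hy0 with h | h
    · rw [sub_eq_zero.1 h]
    · by_cases h2 : y₀ = 0
      · rw [h2, sub_zero] at h
        omega
      · by_cases h3 : y - y₀ = 0
        · rw [sub_eq_zero.1 h3]
        · have h4 := S.v_add (y - y₀) y₀ h3 h2 (by rw [sub_add_cancel]; exact h1)
          rw [sub_add_cancel] at h4
          omega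
  refine ⟨hyc, fun m' hm' hcl => ?_⟩
  rcases hcl with h | h
  · exact hyc h
  · unfold LF.dl at h
    rw [e3] at h
    omega

/-- the distance from `y` to `c` is bounded for `y` close to infinity -/
theorem not_cl_inf (c : L) : ∃ n m : ℤ, ∀ y : L, y ≠ 0 → S.v y ≤ n →
    S.v (y - c) = S.v y ∧ y ≠ c ∧ ∀ m' : ℤ, m ≤ m' → ¬ S.Cl m' y c := by
  refine ⟨min 0 (S.v c) - 1, -min 0 (S.v c) + 1, fun y hy0 hy => ?_⟩
  have h1 : S.v (y - c) = S.v y := by
    apply ChordAux.v_sub_lt S hy0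
    right
    omega
  have hyc : y ≠ c := by
    rintro rfl
    omega
  have h2 := ChordAux.dl_of_lt S (x := y) (y := c) (by omega)
  refine ⟨h1, hyc, fun m' hm' hcl => ?_⟩
  rcases hcl with h | h
  · exact hyc h
  · rw [h2] at h
    omega

/-- quotients tend to one at infinity -/
theorem quot_inf (c c' : L) : ∃ n : ℤ, ∀ y : L, y ≠ 0 → S.v y ≤ n →
    Eqv p ((y - c) / (y - c')) 1 := by
  obtain ⟨n1, h1⟩ := near S (one_ne_zero (α := L))
  obtain ⟨n2, m2, h2⟩ := not_cl_inf S c'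
  refine ⟨min n2 (S.v (c' - c) - n1), fun y hy0 hy => ?_⟩
  obtain ⟨h3, h4, -⟩ := h2 y hy0 (by omega)
  refine (h1 _ ?_).2
  have hne : y - c' ≠ 0 := sub_ne_zero.2 h4
  have e : (y - c) / (y - c') - 1 = (c' - c) / (y - c') := by
    field_simp
    ring
  rw [e]
  rcases eq_or_ne (c' - c) 0 with h5 | h5
  · left
    rw [h5, zero_div]
  · right
    rw [SymAux.v_div S _ _ h5 hne, h3]
    omega

end AltAux

open AltAux

/-- (A3) every element has a value in the projective line -/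
theorem stAlt (h1 : StPair.{u}) (h2 : StNet) (h3 : StA1) (_h4 : StChord) : StAlt.{u} := by
  classical
  intro p hp L E _ _ S O _ _ D hComp hNet hSys hGnr x
  obtain ⟨m0, hm0⟩ := h3 p hp L E _ _ S
  have hC := h1 p hp L E _ _ S O _ _ D hSys x
  -- the approximations
  have key : ∀ i : Finset (Gd L x) × ℕ, ∃ (T : Set L) (y : L), T ⊆ Gd L x ∧
      (∀ c : Gd L x, c ∈ i.1 → (c : L) ∈ T) ∧
      S.Pr T (fun s t => D (x - algebraMap L O s) / D (x - algebraMap L O t))
        (max m0 i.2 - 1) y := by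
    intro i
    obtain ⟨T, hTf, hAT, hTC, hTN⟩ := h2 p hp L E _ _ S (Gd L x) (fun a n => hGnr.dense x a n)
      hNet ((fun c : Gd L x => (c : L)) '' (i.1 : Set (Gd L x))) (i.1.finite_toSet.image _) (by
        rintro _ ⟨c, -, rfl⟩
        exact c.2) (max m0 i.2)
    have hCT : S.Cmp T fun s t => D (x - algebraMap L O s) / D (x - algebraMap L O t) :=
      ⟨fun s hs t ht => hC.ne s (hTC hs) t (hTC ht),
        fun s hs t ht u hu => hC.coc s (hTC hs) t (hTC ht) u (hTC hu),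
        fun s hs t ht u hu => hC.rel s (hTC hs) t (hTC ht) u (hTC hu)⟩
    obtain ⟨y, -, hy⟩ := hm0 T _ (max m0 i.2) (le_max_left _ _) hTf hTN hCT
    exact ⟨T, y, hTC, fun c hc => hAT ⟨c, hc, rfl⟩, hy⟩
  choose T y hTC hTm hPr using key
  -- the ultrafilter
  set U : Ultrafilter (Finset (Gd L x) × ℕ) := Ultrafilter.of Filter.atTop with hU
  have hle : (U : Filter (Finset (Gd L x) × ℕ)) ≤ Filter.atTop := Ultrafilter.of_le _
  have hev : ∀ (A : Finset (Gd L x)) (j : ℕ), ∀ᶠ i in (U : Filter (Finset (Gd L x) × ℕ)),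
      A ⊆ i.1 ∧ j ≤ i.2 := by
    intro A j
    apply hle
    filter_upwards [Filter.eventually_ge_atTop ((A, j) : Finset (Gd L x) × ℕ)] with i hi
    exact ⟨hi.1, hi.2⟩
  rcases hComp (Finset (Gd L x) × ℕ) U y with ⟨y₀, hy₀⟩ | hinf
  · left
    refine ⟨y₀, fun c hc c' hc' hcy hcy' => ?_⟩
    obtain ⟨n1, m1, f1⟩ := not_cl_near S hcy
    obtain ⟨n2, m2, f2⟩ := not_cl_near S hcy'
    obtain ⟨n3, f3⟩ := near S (sub_ne_zero.2 hcy.symm)
    obtain ⟨n4, f4⟩ := near S (sub_ne_zero.2 hcy'.symm)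
    obtain ⟨i, hi1, hi2⟩ := ((hy₀ (max (max n1 n2) (max n3 n4))).and
      (hev {⟨c, hc⟩, ⟨c', hc'⟩} (max m1 m2 + 1).toNat)).exists
    have hi3 : S.Gz (max (max n1 n2) (max n3 n4)) (y i - y₀) := hi1
    have g1 := (f1 (y i) (SymAux.gz_mono S (by omega) hi3)).2 (max m0 i.2 - 1) (by
      have := hi2.2
      omega)
    have g2 := (f2 (y i) (SymAux.gz_mono S (by omega) hi3)).2 (max m0 i.2 - 1) (by
      have := hi2.2
      omega)
    have g3 := (f3 (y i - c) (by
      have e : y i - c - (y₀ - c) = y i - y₀ := by ring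
      rw [e]
      exact SymAux.gz_mono S (by omega) hi3)).2
    have g4 := (f4 (y i - c') (by
      have e : y i - c' - (y₀ - c') = y i - y₀ := by ring
      rw [e]
      exact SymAux.gz_mono S (by omega) hi3)).2
    have g5 := hPr i c (hTm i ⟨c, hc⟩ (hi2.1 (by simp))) c' (hTm i ⟨c', hc'⟩ (hi2.1 (by simp)))
      g1 g2
    exact eqv_trans g5 (eqv_div g3 g4)
  · right
    intro c hc c' hc'
    obtain ⟨n1, m1, f1⟩ := not_cl_inf S c
    obtain ⟨n2, m2, f2⟩ := not_cl_inf S c'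
    obtain ⟨n3, f3⟩ := quot_inf S c c'
    obtain ⟨i, hi1, hi2⟩ := ((hinf (min (min n1 n2) n3)).and
      (hev {⟨c, hc⟩, ⟨c', hc'⟩} (max m1 m2 + 1).toNat)).exists
    have hi3 : y i ≠ 0 := hi1.1
    have hi4 : S.v (y i) ≤ min (min n1 n2) n3 := hi1.2
    have g1 := (f1 (y i) hi3 (by omega)).2.2 (max m0 i.2 - 1) (by
      have := hi2.2
      omega)
    have g2 := (f2 (y i) hi3 (by omega)).2.2 (max m0 i.2 - 1) (by
      have := hi2.2
      omega)
    have g3 := f3 (y i) hi3 (by omega)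
    have g5 := hPr i c (hTm i ⟨c, hc⟩ (hi2.1 (by simp))) c' (hTm i ⟨c', hc'⟩ (hi2.1 (by simp)))
      g1 g2
    exact (eqv_div_iff (hSys.ne _ hc')).1 (eqv_trans g5 g3)

end Pool.Agent.Lib.MP_c385f6_ag.Bc
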