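import Pool.Agent.Lib.MP_c385f6_ag.Bc.Basic
import Pool.Agent.Lib.MP_c385f6_ag.Bc.St

set_option autoImplicit false

/-!
Module CPT of the base change theorem: finitely many functions detect rational places.
-/

namespace Pool.Agent.Lib.MP_c385f6_ag.Bc

open Pool.Agent.Lib.MP_c385f6_ag.Cpl Polynomial Finset

universe u v

namespace CPTAux

section alg

variable {k L : Type} [Field k] [Field L] [Algebra k L] {K₀ F : Type u} [Field K₀] [Field F]
  [Algebra k K₀] [Algebra k F] [Algebra L F] [Algebra K₀ F] [IsScalarTower k L F]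
  [IsScalarTower k K₀ F]

theorem map_adjoin (w : K₀) (z : K₀) (hz : z ∈ Algebra.adjoin k {w}) :
    algebraMap K₀ F z ∈ Algebra.adjoin L {algebraMap K₀ F w} := by
  induction hz using Algebra.adjoin_induction with
  | mem x hx =>
    rw [Set.mem_singleton_iff] at hx
    subst hx
    exact Algebra.subset_adjoin rfl
  | algebraMap r =>
    rw [← IsScalarTower.algebraMap_apply k K₀ F, IsScalarTower.algebraMap_apply k L F]
    exact Subalgebra.algebraMap_mem _ _
  | add x y _ _ hx hy => rw [map_add]; exact Subalgebra.add_mem _ hx hy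
  | mul x y _ _ hx hy => rw [map_mul]; exact Subalgebra.mul_mem _ hx hy

theorem alg_map (w : K₀) (y : K₀) (hy : IsAlgebraic (Algebra.adjoin k {w}) y) :
    IsAlgebraic (Algebra.adjoin L {algebraMap K₀ F w}) (algebraMap K₀ F y) := by
  obtain ⟨f, hf, h0⟩ := hy
  let ψ : Algebra.adjoin k {w} →+* Algebra.adjoin L {algebraMap K₀ F w} :=
    ((algebraMap K₀ F).comp (algebraMap (Algebra.adjoin k {w}) K₀)).codRestrict
      (Algebra.adjoin L {algebraMap K₀ F w}) fun z => map_adjoin w z z.2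
  have hψ : Function.Injective ψ := by
    intro a b hab
    have h1 : (algebraMap K₀ F) (a : K₀) = algebraMap K₀ F (b : K₀) := congrArg Subtype.val hab
    exact Subtype.ext ((algebraMap K₀ F).injective h1)
  refine ⟨f.map ψ, (Polynomial.map_ne_zero_iff hψ).2 hf, ?_⟩
  have h1 : (algebraMap (Algebra.adjoin L {algebraMap K₀ F w}) F).comp ψ =
      (algebraMap K₀ F).comp (algebraMap (Algebra.adjoin k {w}) K₀) := RingHom.ext fun _ => rfl
  rw [aeval_def, eval₂_map, h1, ← hom_eval₂, ← aeval_def, h0, map_zero]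

theorem alg_all (w : K₀) (hw : ∀ x : K₀, IsAlgebraic (Algebra.adjoin k {w}) x)
    (htop : IntermediateField.adjoin K₀ (Set.range (algebraMap L F)) = ⊤) (x : F) :
    IsAlgebraic (Algebra.adjoin L {algebraMap K₀ F w}) x := by
  let E : IntermediateField K₀ F :=
    { carrier := {x | IsAlgebraic (Algebra.adjoin L {algebraMap K₀ F w}) x}
      mul_mem' := fun ha hb => IsAlgebraic.mul ha hb
      add_mem' := fun ha hb => IsAlgebraic.add ha hb
      algebraMap_mem' := fun y => alg_map w y (hw y)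
      inv_mem' := fun _ ha => IsAlgebraic.inv ha }
  have h1 : IntermediateField.adjoin K₀ (Set.range (algebraMap L F)) ≤ E := by
    rw [IntermediateField.adjoin_le_iff]
    rintro _ ⟨c, rfl⟩
    have : algebraMap L F c = algebraMap (Algebra.adjoin L {algebraMap K₀ F w}) F
        (algebraMap L (Algebra.adjoin L {algebraMap K₀ F w}) c) := rfl
    change IsAlgebraic _ _
    rw [this]
    exact isAlgebraic_algebraMap _
  rw [htop] at h1
  exact h1 (IntermediateField.mem_top (x := x))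

theorem transc [Algebra.IsAlgebraic k L] (w : K₀) (hw : Transcendental k w) :
    Transcendental L (algebraMap K₀ F w) := by
  have h1 : Transcendental k (algebraMap K₀ F w) := by
    rw [transcendental_algebraMap_iff (algebraMap K₀ F).injective]
    exact hw
  exact h1.extendScalars L

end alg

section act

variable {k L : Type} [Field k] [Field L] [Algebra k L] {K₀ F : Type u} [Field K₀] [Field F]
  [Algebra k K₀] [Algebra k F] [Algebra L F] [Algebra K₀ F] [IsScalarTower k L F]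
  [IsScalarTower k K₀ F]

theorem val_lt_one_iff {F : Type u} [Field F] (A : ValuationSubring F) (x : F) :
    A.valuation x < 1 ↔ x = 0 ∨ x⁻¹ ∉ A := by
  rcases eq_or_ne x 0 with rfl | hx
  · simp
  · rw [← A.valuation_le_one_iff, not_le, map_inv₀, one_lt_inv₀ (by
      rw [zero_lt_iff, ne_eq, map_eq_zero]; exact hx)]
    simp [hx]

theorem comap_rat (w : K₀) {b : k[X]} (g : L ≃ₐ[k] L) (G : F ≃ₐ[K₀] F)
    (hG : ∀ c, G (algebraMap L F c) = algebraMap L F (g c)) {A : ValuationSubring F}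
    (hA : A ∈ Rat k L b (algebraMap K₀ F w)) :
    A.comap (G : F →+* F) ∈ Rat k L b (algebraMap K₀ F w) := by
  obtain ⟨h1, h2⟩ := hA
  have hw : G (algebraMap K₀ F w) = algebraMap K₀ F w := G.commutes w
  refine ⟨fun c => ?_, ?_⟩
  · change G (algebraMap L F c) ∈ A
    rw [hG]
    exact h1 _
  · rcases h2 with ⟨a, ha⟩ | h2 | ha
    · refine Or.inl ⟨a, ?_⟩
      rw [val_lt_one_iff] at ha ⊢
      refine ha.imp id fun h3 h4 => h3 ?_
      have h5 : G ((algebraMap K₀ F w - algebraMap k F a)⁻¹) =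
          (algebraMap K₀ F w - algebraMap k F a)⁻¹ := by
        rw [map_inv₀, map_sub, hw, IsScalarTower.algebraMap_apply k K₀ F, G.commutes]
      have h6 : G ((algebraMap K₀ F w - algebraMap k F a)⁻¹) ∈ A := h4
      rwa [h5] at h6
    · refine Or.inr (Or.inl fun h3 => h2 ?_)
      have h4 : G (algebraMap K₀ F w) ∈ A := h3
      rwa [hw] at h4
    · refine Or.inr (Or.inr ?_)
      rw [val_lt_one_iff] at ha ⊢
      refine ha.imp id fun h3 h4 => h3 ?_
      have h5 : G ((aeval (algebraMap K₀ F w) b)⁻¹) = (aeval (algebraMap K₀ F w) b)⁻¹ := by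
        rw [map_inv₀, aeval_algebraMap_apply, G.commutes]
      have h6 : G ((aeval (algebraMap K₀ F w) b)⁻¹) ∈ A := h4
      rwa [h5] at h6

theorem map_RR (w : K₀) {b : k[X]} (g : L ≃ₐ[k] L) (G : F ≃ₐ[K₀] F)
    (hG : ∀ c, G (algebraMap L F c) = algebraMap L F (g c)) {x : F}
    (hx : x ∈ RR k L b (algebraMap K₀ F w)) : G x ∈ RR k L b (algebraMap K₀ F w) :=
  fun _ hA => hx _ (comap_rat w g G hG hA)

theorem symm_RR (w : K₀) {b : k[X]} (g : L ≃ₐ[k] L) (G : F ≃ₐ[K₀] F)
    (hG : ∀ c, G (algebraMap L F c) = algebraMap L F (g c)) {x : F}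
    (hx : x ∈ RR k L b (algebraMap K₀ F w)) : G.symm x ∈ RR k L b (algebraMap K₀ F w) := by
  refine map_RR w g.symm G.symm (fun c => ?_) hx
  rw [AlgEquiv.symm_apply_eq, hG, AlgEquiv.apply_symm_apply]

/-- units of `RR` -/
theorem isUnit_iff (w : F) {b : k[X]} (u : RR k L b w) : IsUnit u ↔ UnitR k L b w u := by
  constructor
  · intro h
    obtain ⟨v, hv⟩ := h.exists_right_inv
    have h1 : (u : F) * (v : F) = 1 := congrArg Subtype.val hv
    have h2 : (u : F) ≠ 0 := left_ne_zero_of_mul_eq_one h1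
    have h3 : (u : F)⁻¹ = v := inv_eq_of_mul_eq_one_right h1
    exact ⟨h2, u.2, by rw [h3]; exact v.2⟩
  · rintro ⟨h1, _, h3⟩
    exact IsUnit.of_mul_eq_one ⟨(u : F)⁻¹, h3⟩ (Subtype.ext (mul_inv_cancel₀ h1))

/-- transport of units -/
theorem isUnit_symm (w : K₀) {b : k[X]} (g : L ≃ₐ[k] L) (G : F ≃ₐ[K₀] F)
    (hG : ∀ c, G (algebraMap L F c) = algebraMap L F (g c))
    {u u' : RR k L b (algebraMap K₀ F w)} (h : (u' : F) = G u) (hu : IsUnit u') : IsUnit u := by
  rw [isUnit_iff] at hu ⊢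
  obtain ⟨h1, _, h3⟩ := hu
  have e : (u : F) = G.symm u' := by rw [h, AlgEquiv.symm_apply_apply]
  refine ⟨fun h0 => h1 ?_, u.2, ?_⟩
  · rw [h, h0, map_zero]
  · rw [e, ← map_inv₀]
    exact symm_RR w g G hG h3

end act

/-- elements which are not in `k` and not zeros of `b` -/
theorem exists_ok {k L : Type*} [Field k] [Field L] [CharZero k] [Algebra k L] {b : k[X]}
    (hb : b ≠ 0) (hθ : ∃ θ : L, ∀ y : k, algebraMap k L y ≠ θ) : ∃ θ : L, Ok k b θ := by
  classical
  obtain ⟨θ, hθ⟩ := hθ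
  have h1 : b.map (algebraMap k L) ≠ 0 :=
    (Polynomial.map_ne_zero_iff (algebraMap k L).injective).2 hb
  have h2 : ((fun a : k => θ + algebraMap k L a) ⁻¹'
      ((b.map (algebraMap k L)).roots.toFinset : Set L)).Finite := by
    refine (Finset.finite_toSet _).preimage (Function.Injective.injOn fun a a' h => ?_)
    exact (algebraMap k L).injective (add_left_cancel h)
  obtain ⟨a, ha⟩ := h2.infinite_compl.nonempty
  refine ⟨θ + algebraMap k L a, fun y hy => hθ (y - a) ?_, fun h0 => ha ?_⟩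
  · rw [map_sub, hy]
    ring
  · rw [Set.mem_preimage, Finset.mem_coe, Multiset.mem_toFinset, mem_roots h1, IsRoot,
      eval_map_algebraMap]
    exact h0

section lim

variable {p : ℕ} [Fact p.Prime] {k L E : Type} [Field k] [Field L] [Field E] [Algebra k L]
  (S : LF p L E)

theorem v_sub_eq {a b : L} (ha : a ≠ 0) (hab : a - b ≠ 0) (h : S.v a < S.v (a - b)) :
    b ≠ 0 ∧ S.v b = S.v a := by
  have hb : b ≠ 0 := by
    rintro rfl
    rw [sub_zero] at h
    exact lt_irrefl _ h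
  refine ⟨hb, ?_⟩
  have h1 : b = a + -(a - b) := by ring
  have h2 := S.v_add a (-(a - b)) ha (neg_ne_zero.2 hab) (by rw [← h1]; exact hb)
  rw [← h1, SymAux.v_neg, min_eq_left h.le] at h2
  have h3 : a = b + (a - b) := by ring
  have h4 := S.v_add b (a - b) hb hab (by rw [← h3]; exact ha)
  rw [← h3] at h4
  rcases min_le_iff.1 h4 with h5 | h5
  · omega
  · omega

/-- inversion is continuous -/
theorem inv_near {z : L} (hz : z ≠ 0) (n : ℤ) : ∃ m : ℤ, ∀ b, S.Gz m (b - z) →
    b ≠ 0 ∧ S.Gz n (b⁻¹ - z⁻¹) := by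
  refine ⟨max (n + 2 * S.v z) (S.v z + 1), fun b hb => ?_⟩
  rcases eq_or_ne b z with rfl | hbz
  · exact ⟨hz, Or.inl (sub_self _)⟩
  have h0 : b - z ≠ 0 := sub_ne_zero.2 hbz
  have h1 := hb.resolve_left h0
  have h2 : S.v z < S.v (z - b) := by
    have h3 : z - b = -(b - z) := by ring
    rw [h3, SymAux.v_neg]
    have := le_max_right (n + 2 * S.v z) (S.v z + 1)
    omega
  obtain ⟨hb0, hvb⟩ := v_sub_eq S hz (sub_ne_zero.2 hbz.symm) h2
  refine ⟨hb0, Or.inr ?_⟩
  have h3 : b⁻¹ - z⁻¹ = (-(b - z)) / (b * z) := by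
    field_simp
    ring
  rw [h3, SymAux.v_div S _ _ (neg_ne_zero.2 h0) (mul_ne_zero hb0 hz), SymAux.v_neg,
    S.v_mul _ _ hb0 hz, hvb]
  have := le_max_left (n + 2 * S.v z) (S.v z + 1)
  omega

/-- inversion near infinity -/
theorem inv_inf (θ : L) (n : ℤ) : ∃ m : ℤ, ∀ y : L, y ≠ 0 → S.v y ≤ m → y - θ ≠ 0 ∧
    S.Gz n (y - θ)⁻¹ := by
  refine ⟨min (-n) (S.v θ - 1), fun y hy hv => ?_⟩
  have a1 := min_le_left (-n) (S.v θ - 1)
  have a2 := min_le_right (-n) (S.v θ - 1)
  rcases eq_or_ne θ 0 with rfl | hθ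
  · rw [sub_zero]
    refine ⟨hy, Or.inr ?_⟩
    rw [SymAux.v_inv S _ hy]
    omega
  · have h2 : S.v y < S.v (y - (y - θ)) := by
      rw [sub_sub_cancel]
      omega
    obtain ⟨h3, h4⟩ := v_sub_eq S hy (by rw [sub_sub_cancel]; exact hθ) h2
    refine ⟨h3, Or.inr ?_⟩
    rw [SymAux.v_inv S _ h3, h4]
    omega

end lim

end CPTAux

open CPTAux in
/-- Module CPT (C3). -/
theorem stCPT (hC0 : StComp.{0}) (hCu : StComp.{u}) (h0 : StOne.{u}) (h1 : StHom.{u})
    (h2 : StGnr.{u}) (h3 : StInt.{u}) (h4 : StPlc.{u}) (h5 : StCoord.{u}) (h6 : StLim.{u}) :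
    StCPT.{u} := by
  classical
  intro p hp k L E _ _ _ _ _ _ _ _ S hvp hθ hnet K₀ F _ _ _ _ _ _ _ _ w hw halg htop hlift hopen b hb
  by_contra hno
  push Not at hno
  have hch : CharZero k := charZero_of_injective_algebraMap (algebraMap ℚ_[p] k).injective
  obtain ⟨θ, hθ⟩ := exists_ok hb hθ
  have htr : Transcendental L (algebraMap K₀ F w) := transc w hw
  have hal : ∀ x : F, IsAlgebraic (Algebra.adjoin L {algebraMap K₀ F w}) x :=
    alg_all w halg htop
  have hz : ∃ z : k, z ≠ 0 ∧ 1 ≤ S.v (algebraMap k L z) := by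
    refine ⟨(p : k), by exact_mod_cast hp.out.ne_zero, ?_⟩
    rw [map_natCast]
    omega
  -- the ultrafilter
  let ι := Finset {u : F // UnitR k L b (algebraMap K₀ F w) u}
  have hmap : ∀ i : ι, ∀ u ∈ i.map (Function.Embedding.subtype _),
      UnitR k L b (algebraMap K₀ F w) u := by
    intro i u hu
    rw [Finset.mem_map] at hu
    obtain ⟨v, _, rfl⟩ := hu
    exact v.2
  choose D y hPS hnP using fun i : ι => hno (i.map (Function.Embedding.subtype _)) (hmap i)
  let U : Ultrafilter ι := Ultrafilter.of Filter.atTop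
  have hev : ∀ u, UnitR k L b (algebraMap K₀ F w) u → ∀ᶠ i in (U : Filter ι),
      u ∈ ((i.map (Function.Embedding.subtype _) : Finset F) : Set F) := by
    intro u hu
    refine Ultrafilter.of_le Filter.atTop ?_
    refine (Filter.eventually_ge_atTop ({⟨u, hu⟩} : ι)).mono fun i hi => ?_
    rw [Finset.mem_coe, Finset.mem_map]
    exact ⟨⟨u, hu⟩, hi (Finset.mem_singleton_self _), rfl⟩
  obtain ⟨D', hD1, hD2, hD3⟩ := h6 p hp k L E _ _ _ _ S K₀ F _ _ _ _ _ _
    inferInstance inferInstance w b ι U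
    (fun i => ((i.map (Function.Embedding.subtype _) : Finset F) : Set F)) D y hev hPS
  obtain ⟨hc1, x₁, hx₁, hc2⟩ := h5 k L _ _ _ F _ _ _ inferInstance (algebraMap K₀ F w) htr b θ hθ
  -- the classes of `x₁ - c`
  have hA : ∀ c ∈ Gd L x₁, ∀ᶠ i in (U : Filter ι),
      Eqv p (D' (x₁ - algebraMap L _ c)) ((algebraMap k L (y i) - θ)⁻¹ - c) := by
    intro c hc
    obtain ⟨c0, cθ, e⟩ := hc2 c hc
    have e1 := hD1 (x₁ - algebraMap L _ c) hc
    have hu1 : UnitR k L b (algebraMap K₀ F w) (algebraMap L F (-c)) := by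
      refine ⟨(_root_.map_ne_zero _).2 (neg_ne_zero.2 c0), Subalgebra.algebraMap_mem _ _, ?_⟩
      rw [← map_inv₀]
      exact Subalgebra.algebraMap_mem _ _
    have hu2 := hc1 _ cθ
    filter_upwards [e1, hev _ hu1, hev _ hu2] with i hi m2 m3
    obtain ⟨m1, q1⟩ := hi
    have f : ((x₁ - algebraMap L (RR k L b (algebraMap K₀ F w)) c :
      RR k L b (algebraMap K₀ F w)) : F) = (x₁ : F) - algebraMap L F c := rfl
    rw [f, e] at m1 q1
    have q2 := (hPS i).mul _ m2 _ m3 m1
    have q3 := (hPS i).const (-c) (neg_ne_zero.2 c0) m2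
    have q4 := (hPS i).val (θ + c⁻¹) θ cθ.1 hθ.1 m3
    have hne : algebraMap k L (y i) - θ ≠ 0 := sub_ne_zero.2 (hθ.1 _)
    have e2 : -c * ((algebraMap k L (y i) - (θ + c⁻¹)) / (algebraMap k L (y i) - θ)) =
        (algebraMap k L (y i) - θ)⁻¹ - c := by
      field_simp
      ring
    have q5 := eqv_mul q3 q4
    rw [e2] at q5
    exact eqv_trans (eqv_symm q1) (eqv_trans q2 q5)
  have hB : ∀ y₁ : L, (∀ n : ℤ, ∀ᶠ i in (U : Filter ι),
      S.Gz n ((algebraMap k L (y i) - θ)⁻¹ - y₁)) → Val p D' x₁ y₁ := by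
    intro y₁ hy₁
    have hB1 : ∀ c ∈ Gd L x₁, c ≠ y₁ → Eqv p (D' (x₁ - algebraMap L _ c)) (y₁ - c) := by
      intro c hc hne
      obtain ⟨n, hn⟩ := near S (sub_ne_zero.2 hne.symm)
      obtain ⟨i, hi1, hi2⟩ := ((hA c hc).and (hy₁ n)).exists
      have h7 : (algebraMap k L (y i) - θ)⁻¹ - c - (y₁ - c) =
        (algebraMap k L (y i) - θ)⁻¹ - y₁ := by ring
      exact eqv_trans hi1 (hn _ (by rw [h7]; exact hi2)).2
    exact fun c hc c' hc' n n' => eqv_div (hB1 c hc n) (hB1 c' hc' n')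
  -- the homomorphism
  have hgnr : Gnr S (RR k L b (algebraMap K₀ F w)) :=
    h2 p hp k L E _ _ _ hch _ inferInstance inferInstance S ⟨θ, hθ.1⟩ hz F _ _ _ inferInstance
      (algebraMap K₀ F w) htr hal b hb
  have hcomp : Comp.{0} L S := by
    letI : Algebra ℚ_[p] L := ((algebraMap k L).comp (algebraMap ℚ_[p] k)).toAlgebra
    haveI : IsScalarTower ℚ_[p] k L := IsScalarTower.of_algebraMap_eq fun _ => rfl
    haveI : FiniteDimensional ℚ_[p] L := Module.Finite.trans k L
    exact hC0 p hp L L E _ _ _ _ inferInstance _ inferInstance S hvp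
  have hC : ∀ y₁ : L, (y₁ = 0 ∨ ∃ a : k, y₁ = (algebraMap k L a - θ)⁻¹) → Val p D' x₁ y₁ →
      (∀ y : k, y₁ = (algebraMap k L y - θ)⁻¹ → PlaceOver k w y) ∧ (y₁ = 0 → PlaceInf k w) := by
    intro y₁ hy₁ hval
    obtain ⟨φ, hφ1, hφ2, -⟩ := h1 p hp L E _ _ S (RR k L b (algebraMap K₀ F w)) _ _ D' hcomp hnet
      hD2 hgnr x₁ y₁ hval (by
        intro x
        obtain ⟨n, q, hq0, hq⟩ := h3 k L _ _ _ F _ _ _ inferInstance (algebraMap K₀ F w) htr hal θ
          hθ.1 y₁ hy₁ b x x.2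
        refine ⟨n, q, hq0, Subtype.ext ?_⟩
        rw [← hx₁] at hq
        rw [← Subalgebra.coe_val, map_sum, map_zero, ← hq]
        refine Finset.sum_congr rfl fun i _ => ?_
        rw [map_mul, map_pow, Subalgebra.coe_val, Subalgebra.aeval_coe])
    obtain ⟨o1, o2, -⟩ := h0 p hp L E _ _ S (RR k L b (algebraMap K₀ F w)) _ _ D' hD2 hgnr
    have heq : ∀ g : L ≃ₐ[k] L, ∃ G : F ≃ₐ[K₀] F,
        (∀ c, G (algebraMap L F c) = algebraMap L F (g c)) ∧
        ∀ x x' : RR k L b (algebraMap K₀ F w), (x' : F) = G x → φ x' = g (φ x) := by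
      intro g
      obtain ⟨G, hG⟩ := hlift g
      refine ⟨G, hG, fun x x' hxx => ?_⟩
      refine o2 x' _ _ (hφ2 x') ?_
      have key : ∀ c ∈ Gd L x', c ≠ g (φ x) →
          Eqv p (D' (x' - algebraMap L _ c)) (g (φ x) - c) := by
        intro c hc hne
        have hgb : g (g.symm c) = c := g.apply_symm_apply c
        have hco : ((x' - algebraMap L (RR k L b (algebraMap K₀ F w)) c :
            RR k L b (algebraMap K₀ F w)) : F) =
            G ((x - algebraMap L (RR k L b (algebraMap K₀ F w)) (g.symm c) :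
              RR k L b (algebraMap K₀ F w)) : F) := by
          change (x' : F) - algebraMap L F c = G ((x : F) - algebraMap L F (g.symm c))
          rw [map_sub, hG, hgb, hxx]
        have hb : g.symm c ∈ Gd L x := isUnit_symm w g G hG hco hc
        have e1 := hD3 g G hG _ _ hb hco
        have e2 := o1 x _ (hφ2 x) _ hb (fun h => hne (by rw [← h, hgb]))
        have e3 := eqv_map (g : L →+* L) e2
        have e4 : (g : L →+* L) (φ x - g.symm c) = g (φ x) - c := by
          change g (φ x - g.symm c) = _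
          rw [map_sub, hgb]
        rw [e4] at e3
        exact eqv_trans e1 e3
      exact fun c hc c' hc' n n' => eqv_div (key c hc n) (key c' hc' n')
    obtain ⟨r1, r2⟩ := h4 k L _ _ _ inferInstance inferInstance K₀ F _ _ _ _ _ _ inferInstance
      inferInstance w htr hal b θ hθ φ heq x₁ hx₁
    rw [hφ1] at r2
    refine ⟨fun y hy => r1 y (by rw [hφ1]; exact hy), r2⟩
  -- conclusion
  rcases hCu p hp k L E _ _ _ _ inferInstance _ inferInstance S hvp ι U y with ⟨y₀, hy₀⟩ | hinf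
  · have hz0 : algebraMap k L y₀ - θ ≠ 0 := sub_ne_zero.2 (hθ.1 _)
    have hval := hB (algebraMap k L y₀ - θ)⁻¹ (by
      intro n
      obtain ⟨m, hm⟩ := inv_near S hz0 n
      refine (hy₀ m).mono fun i hi => (hm _ ?_).2
      have e : algebraMap k L (y i) - θ - (algebraMap k L y₀ - θ) =
        algebraMap k L (y i - y₀) := by rw [map_sub]; ring
      rw [e]
      exact hi)
    have hpl := (hC _ (Or.inr ⟨y₀, rfl⟩) hval).1 y₀ rfl
    obtain ⟨n, hn⟩ := hopen.fin y₀ hpl
    obtain ⟨i, hi⟩ := (hy₀ n).exists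
    exact hnP i (hn _ hi)
  · have hval := hB 0 (by
      intro n
      obtain ⟨m, hm⟩ := inv_inf S θ n
      refine (hinf m).mono fun i hi => ?_
      rw [sub_zero]
      exact (hm _ ((_root_.map_ne_zero _).2 hi.1) hi.2).2)
    have hpl := (hC 0 (Or.inl rfl) hval).2 rfl
    obtain ⟨n, hn⟩ := hopen.inf hpl
    obtain ⟨i, hi⟩ := (hinf n).exists
    exact hnP i (hn _ hi.1 hi.2)

end Pool.Agent.Lib.MP_c385f6_ag.Bc
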