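import Mathlib
import Pool.Agent.Lib.MP_c385f6_ag.Bc.St
import Pool.Agent.Lib.MP_c385f6_ag.Cpl.Vn

set_option autoImplicit false

/-!
(C1) compactness of the projective line over `k` (base change theorem).
-/

namespace Pool.Agent.Lib.MP_c385f6_ag.Bc

open Pool.Agent.Lib.MP_c385f6_ag.Cpl Filter Topology

universe v

/-- (C1) compactness of the projective line over `k` -/
theorem stComp (h : StVal) : StComp.{v} := by
  intro p hp k L E ik iL iE iAk iDk iAL iDL S hS ι U u
  let _ : NormedField k := spectralNorm.normedField ℚ_[p] k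
  let _ : NormedAlgebra ℚ_[p] k := spectralNorm.normedAlgebra ℚ_[p] k
  let _ : Algebra ℚ_[p] L := ((algebraMap k L).comp (algebraMap ℚ_[p] k)).toAlgebra
  have iT : IsScalarTower ℚ_[p] k L := IsScalarTower.of_algebraMap_eq fun _ => rfl
  have iD : FiniteDimensional ℚ_[p] L := FiniteDimensional.trans ℚ_[p] k L
  let _ : NormedField L := spectralNorm.normedField ℚ_[p] L
  let _ : NormedAlgebra ℚ_[p] L := spectralNorm.normedAlgebra ℚ_[p] L
  have : IsUltrametricDist L :=
    IsUltrametricDist.isUltrametricDist_of_isNonarchimedean_norm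
      (isNonarchimedean_spectralNorm (K := ℚ_[p]) (L := L))
  obtain ⟨G, iG, ⟨V⟩⟩ := h p hp L inferInstance inferInstance iD inferInstance
  have e1 : ∀ x, S.v x = V.v x := VnAux.v_eq p V S hS
  have hnorm : ∀ x : k, ‖algebraMap k L x‖ = ‖x‖ := fun x =>
    (spectralNorm.eq_of_tower (K := ℚ_[p]) (L := L) x).symm
  have hinj : ∀ x : k, x ≠ 0 → algebraMap k L x ≠ 0 := fun x hx =>
    (map_ne_zero_iff _ (algebraMap k L).injective).2 hx
  have hc0 : 0 < V.c := zero_lt_one.trans V.one_lt
  have hv : ∀ x : k, x ≠ 0 → ‖x‖ = V.c ^ (-(S.v (algebraMap k L x))) := fun x hx => by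
    rw [← hnorm, V.norm_eq _ (hinj x hx), e1]
  have : ProperSpace k := FiniteDimensional.proper ℚ_[p] k
  by_cases hb : ∃ B : ℝ, ∀ᶠ i in (U : Filter ι), ‖u i‖ ≤ B
  · left
    obtain ⟨B, hB⟩ := hb
    obtain ⟨y, -, hy⟩ := (isCompact_closedBall (0 : k) B).ultrafilter_le_nhds (U.map u) (by
      rw [Ultrafilter.coe_map, le_principal_iff, mem_map]
      filter_upwards [hB] with i hi
      simpa using hi)
    have hy' : Tendsto u (U : Filter ι) (𝓝 y) := hy
    refine ⟨y, fun n => ?_⟩
    have h1 : ∀ᶠ i in (U : Filter ι), ‖u i - y‖ < V.c ^ (-n) := by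
      have h2 := (tendsto_iff_norm_sub_tendsto_zero.1 hy').eventually
        (gt_mem_nhds (zpow_pos hc0 (-n)))
      exact h2
    filter_upwards [h1] with i hi
    rcases eq_or_ne (u i - y) 0 with h0 | h0
    · left
      rw [h0, map_zero]
    · right
      rw [hv _ h0, zpow_lt_zpow_iff_right₀ V.one_lt] at hi
      omega
  · right
    push Not at hb
    intro n
    filter_upwards [hb (max 0 (V.c ^ (-n)))] with i hi
    have h0 : u i ≠ 0 := by
      intro h0
      rw [h0, norm_zero] at hi
      exact lt_irrefl _ ((le_max_left _ _).trans_lt hi)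
    refine ⟨h0, ?_⟩
    have h1 := (le_max_right _ _).trans_lt hi
    rw [hv _ h0, zpow_lt_zpow_iff_right₀ V.one_lt] at h1
    omega

end Pool.Agent.Lib.MP_c385f6_ag.Bc
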