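import Mathlib
import Pool.Agent.Lib.MP_c385f6_ag.Bc.St

set_option autoImplicit false

/-!
(B7) The coordinate `(w - θ)⁻¹`.
-/

namespace Pool.Agent.Lib.MP_c385f6_ag.Bc

open Polynomial

namespace CoordAux

universe u

/-- a transcendental element lies in the maximal ideal of a valuation subring over `L` -/
theorem exists_place {L : Type} {F : Type u} [Field L] [Field F] [Algebra L F] {t : F}
    (ht : Transcendental L t) :
    ∃ A : ValuationSubring F, (∀ c : L, algebraMap L F c ∈ A) ∧ A.valuation t < 1 := by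
  set A0 : Subring F := (Algebra.adjoin L {t}).toSubring with hA0
  have htm : t ∈ A0 := Algebra.subset_adjoin rfl
  set I : Ideal A0 := Ideal.span {(⟨t, htm⟩ : A0)} with hI
  have hI1 : I ≠ ⊤ := by
    intro h
    have h1 : (1 : A0) ∈ I := by rw [h]; trivial
    obtain ⟨b, hb⟩ := Ideal.mem_span_singleton'.1 h1
    have hb' : (b : F) * t = 1 := congrArg (fun x : A0 => (x : F)) hb
    obtain ⟨P, hP⟩ : ∃ P : Polynomial L, Polynomial.aeval t P = (b : F) := by
      have hbm : (b : F) ∈ Algebra.adjoin L {t} := b.2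
      rw [Algebra.adjoin_singleton_eq_range_aeval] at hbm
      exact hbm
    have h2 : Polynomial.aeval t (P * Polynomial.X - 1) = 0 := by
      rw [map_sub, map_mul, Polynomial.aeval_X, map_one, hP, hb', sub_self]
    have h3 := (transcendental_iff.1 ht) _ h2
    have h4 := congrArg (Polynomial.eval 0) h3
    simp at h4
  obtain ⟨B, hB, hBI⟩ := I.image_subset_nonunits_valuationSubring hI1
  refine ⟨B, fun c => hB ?_, ?_⟩
  · exact (Algebra.adjoin L {t}).algebraMap_mem c
  · have h1 : t ∈ B.nonunits := hBI ⟨⟨t, htm⟩, Ideal.subset_span rfl, rfl⟩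
    exact B.mem_nonunits_iff.1 h1

section

variable {k L : Type} {F : Type u} [Field k] [Field L] [Field F] [Algebra k L] [Algebra k F]
  [Algebra L F] [IsScalarTower k L F]

theorem val_const {A : ValuationSubring F} (hA : ∀ c : L, algebraMap L F c ∈ A) {c : L}
    (hc : c ≠ 0) : A.valuation (algebraMap L F c) = 1 := by
  have h1 : A.valuation (algebraMap L F c) ≤ 1 := (A.valuation_le_one_iff _).2 (hA c)
  have h2 : A.valuation (algebraMap L F c⁻¹) ≤ 1 := (A.valuation_le_one_iff _).2 (hA c⁻¹)
  refine le_antisymm h1 ?_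
  rw [map_inv₀, map_inv₀] at h2
  have h3 : A.valuation (algebraMap L F c) ≠ 0 := by
    rw [Valuation.ne_zero_iff]
    exact (_root_.map_ne_zero _).2 hc
  have h4 := (inv_le_one₀ (zero_lt_iff.2 h3)).1 h2
  exact h4

/-- `w - c` over a rational point -/
theorem val_fin {A : ValuationSubring F} (hA : ∀ c : L, algebraMap L F c ∈ A) {w : F} {a : k}
    (ha : A.valuation (w - algebraMap k F a) < 1) {c : L} (hc : ∀ y : k, algebraMap k L y ≠ c) :
    A.valuation (w - algebraMap L F c) = 1 := by
  have e1 : w - algebraMap L F c = (w - algebraMap k F a) +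
      algebraMap L F (algebraMap k L a - c) := by
    rw [map_sub, ← IsScalarTower.algebraMap_apply k L F]
    ring
  have h1 : A.valuation (algebraMap L F (algebraMap k L a - c)) = 1 :=
    val_const hA (sub_ne_zero.2 (hc a))
  rw [e1, Valuation.map_add_eq_of_lt_right _ (by rw [h1]; exact ha), h1]

/-- `w - c` over infinity -/
theorem val_inf {A : ValuationSubring F} (hA : ∀ c : L, algebraMap L F c ∈ A) {w : F}
    (hw : w ∉ A) (c : L) : A.valuation (w - algebraMap L F c) = A.valuation w := by
  have h1 : 1 < A.valuation w := by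
    rw [← not_le, A.valuation_le_one_iff]; exact hw
  have h2 : A.valuation (algebraMap L F c) ≤ 1 := (A.valuation_le_one_iff _).2 (hA c)
  exact Valuation.map_sub_eq_of_lt_left _ (h2.trans_lt h1)

/-- `b(w)` and `b(c)` agree where `w` and `c` agree -/
theorem val_poly {A : ValuationSubring F} (hA : ∀ c : L, algebraMap L F c ∈ A) {w : F}
    (hwA : w ∈ A) (b : k[X]) {c : L} (hlt : A.valuation (w - algebraMap L F c) < 1) :
    A.valuation (aeval w b - algebraMap L F (aeval c b)) < 1 := by
  obtain ⟨q, hq⟩ := X_sub_C_dvd_sub_C_eval (a := c) (p := b.map (algebraMap k L))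
  have h3 : aeval w b - algebraMap L F (aeval c b) = (w - algebraMap L F c) * aeval w q := by
    have h4 := congrArg (aeval w) hq
    rw [map_mul, map_sub, map_sub, aeval_X, aeval_C, aeval_C, aeval_map_algebraMap,
      eval_map_algebraMap] at h4
    exact h4
  have h4 : A.valuation (aeval w q) ≤ 1 := by
    rw [A.valuation_le_one_iff, aeval_eq_sum_range]
    refine sum_mem fun i _ => ?_
    rw [Algebra.smul_def]
    exact mul_mem (hA _) (pow_mem hwA i)
  rw [h3, map_mul]
  exact mul_lt_one_of_lt_of_le hlt h4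

/-- `w - c` over a zero of `b` -/
theorem val_bad {A : ValuationSubring F} (hA : ∀ c : L, algebraMap L F c ∈ A) {w : F}
    (hwA : w ∈ A) {b : k[X]} (hb : A.valuation (aeval w b) < 1) {c : L} (hc : aeval c b ≠ 0) :
    A.valuation (w - algebraMap L F c) = 1 := by
  refine le_antisymm ((A.valuation_le_one_iff _).2 (sub_mem hwA (hA c))) (not_lt.1 fun hlt => ?_)
  have h5 := val_poly hA hwA b hlt
  have h6 : A.valuation (algebraMap L F (aeval c b)) < 1 := by
    have h7 : algebraMap L F (aeval c b) =
        aeval w b - (aeval w b - algebraMap L F (aeval c b)) := by ring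
    rw [h7]
    exact (Valuation.map_sub _ _ _).trans_lt (max_lt hb h5)
  rw [val_const hA hc] at h6
  exact lt_irrefl _ h6

theorem val_quot {A : ValuationSubring F} {w : F} {b : k[X]} (hA : A ∈ Rat k L b w) {c θ : L}
    (hc : Ok k b c) (hθ : Ok k b θ) :
    A.valuation ((w - algebraMap L F c) / (w - algebraMap L F θ)) = 1 := by
  obtain ⟨h1, h2⟩ := hA
  rw [map_div₀]
  by_cases hw : w ∈ A
  · rcases h2 with ⟨a, ha⟩ | hw' | hb
    · rw [val_fin h1 ha hc.1, val_fin h1 ha hθ.1, div_one]
    · exact absurd hw hw'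
    · rw [val_bad h1 hw hb hc.2, val_bad h1 hw hb hθ.2, div_one]
  · rw [val_inf h1 hw, val_inf h1 hw, div_self]
    intro h0
    have h3 : 1 < A.valuation w := by
      rw [← not_le, A.valuation_le_one_iff]; exact hw
    rw [h0] at h3
    exact not_lt_zero h3

end

end CoordAux

open CoordAux in
universe u in
theorem stCoord : StCoord.{u} := by
  intro k L _ _ _ F _ _ _ _ w hw b θ hθ
  have hne : ∀ c : L, w - algebraMap L F c ≠ 0 := by
    intro c h
    rw [sub_eq_zero] at h
    rw [h] at hw
    exact hw (isAlgebraic_algebraMap c)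
  have htr : ∀ c : L, Transcendental L (w - algebraMap L F c) := by
    intro c h
    have h1 := h.add (isAlgebraic_algebraMap (R := L) (A := F) c)
    rw [sub_add_cancel] at h1
    exact hw h1
  refine ⟨fun c hc => ⟨div_ne_zero (hne c) (hne θ), fun A hA => ?_, fun A hA => ?_⟩, ?_⟩
  · rw [← A.valuation_le_one_iff, val_quot hA hc hθ]
  · rw [inv_div, ← A.valuation_le_one_iff, val_quot hA hθ hc]
  have hx : (w - algebraMap L F θ)⁻¹ ∈ RR k L b w := by
    intro A hA
    rw [← A.valuation_le_one_iff, map_inv₀]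
    by_cases hwA : w ∈ A
    · rcases hA.2 with ⟨a, ha⟩ | hwA' | hb
      · rw [val_fin hA.1 ha hθ.1, inv_one]
      · exact absurd hwA hwA'
      · rw [val_bad hA.1 hwA hb hθ.2, inv_one]
    · rw [val_inf hA.1 hwA]
      have h3 : 1 < A.valuation w := by
        rw [← not_le, A.valuation_le_one_iff]; exact hwA
      exact inv_le_one_of_one_le₀ h3.le
  refine ⟨⟨_, hx⟩, rfl, fun c hc => ?_⟩
  obtain ⟨y, hy⟩ := (show IsUnit _ from hc).exists_right_inv
  have hy' : ((w - algebraMap L F θ)⁻¹ - algebraMap L F c) * (y : F) = 1 :=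
    congrArg (fun x : RR k L b w => (x : F)) hy
  have hval : ∀ A ∈ Rat k L b w,
      1 ≤ A.valuation ((w - algebraMap L F θ)⁻¹ - algebraMap L F c) := by
    intro A hA
    have h1 : A.valuation (y : F) ≤ 1 := (A.valuation_le_one_iff _).2 (y.2 A hA)
    have h2 := congrArg A.valuation hy'
    rw [map_mul, map_one] at h2
    by_contra h3
    rw [not_le] at h3
    have h4 := mul_lt_one_of_lt_of_le h3 h1
    rw [h2] at h4
    exact lt_irrefl _ h4
  have hc0 : c ≠ 0 := by
    rintro rfl
    have h1 : Transcendental L (w - algebraMap L F θ)⁻¹ := by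
      intro h
      exact htr θ (by simpa using h.inv)
    obtain ⟨A, hA, hv⟩ := exists_place h1
    have h2 : w ∉ A := by
      intro hwA
      have h3 : A.valuation (w - algebraMap L F θ) ≤ 1 :=
        (A.valuation_le_one_iff _).2 (A.sub_mem hwA (hA θ))
      rw [map_inv₀] at hv
      have h4 : A.valuation (w - algebraMap L F θ) ≠ 0 := (Valuation.ne_zero_iff _).2 (hne θ)
      have h5 := (inv_lt_one₀ (zero_lt_iff.2 h4)).1 hv
      exact absurd h3 (not_le.2 h5)
    have h3 := hval A ⟨hA, Or.inr (Or.inl h2)⟩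
    rw [map_zero, sub_zero] at h3
    exact absurd hv (not_lt.2 h3)
  have hcF : algebraMap L F c ≠ 0 := (_root_.map_ne_zero _).2 hc0
  have hid : (w - algebraMap L F θ)⁻¹ - algebraMap L F c = algebraMap L F (-c) *
      ((w - algebraMap L F (θ + c⁻¹)) / (w - algebraMap L F θ)) := by
    have h1 := hne θ
    rw [map_neg, map_add, map_inv₀]
    field_simp
    ring
  refine ⟨hc0, ⟨fun a ha => ?_, fun h0 => ?_⟩, hid⟩
  swap
  · obtain ⟨A, hA, hv⟩ := exists_place (htr (θ + c⁻¹))
    have hwA : w ∈ A := by
      have h1 : w = (w - algebraMap L F (θ + c⁻¹)) + algebraMap L F (θ + c⁻¹) := by ring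
      rw [h1]
      exact add_mem ((A.valuation_le_one_iff _).1 hv.le) (hA _)
    have hb : A.valuation (aeval w b) < 1 := by
      have h1 := val_poly hA hwA b hv
      rwa [h0, map_zero, sub_zero] at h1
    have h1 := hval A ⟨hA, Or.inr (Or.inr hb)⟩
    rw [hid, map_mul, val_const hA (neg_ne_zero.2 hc0), one_mul, map_div₀,
      val_bad hA hwA hb hθ.2, div_one] at h1
    exact absurd hv (not_lt.2 h1)
  have htr' : Transcendental L (w - algebraMap k F a) := by
    rw [IsScalarTower.algebraMap_apply k L F]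
    exact htr _
  obtain ⟨A, hA, hv⟩ := exists_place htr'
  have h1 := hval A ⟨hA, Or.inl ⟨a, hv⟩⟩
  rw [hid, map_mul, val_const hA (neg_ne_zero.2 hc0), one_mul, map_div₀, val_fin hA hv hθ.1, div_one,
    ← ha, ← IsScalarTower.algebraMap_apply k L F] at h1
  exact absurd hv (not_lt.2 h1)

end Pool.Agent.Lib.MP_c385f6_ag.Bc
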