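import Mathlib
import Pool.Agent.Lib.MP_c385f6_ag.Bc.Defs

set_option autoImplicit false

/-!
Embeddings of the compositum `F` of `K₀` and `L` into the compositum `M` of `K` and `L`.
-/

namespace Pool.Agent.Lib.MP_c385f6_ag.Bc

/-- an embedding of `F` into `M` over `K₀` and `L` -/
theorem exists_emb {k L K₀ F K M Ω : Type*} [Field k] [Field L] [Field K₀] [Field F] [Field K]
    [Field M] [Field Ω] [Algebra k L] [FiniteDimensional k L] [IsGalois k L] [Algebra k K₀]
    [Algebra k F] [Algebra L F] [Algebra K₀ F] [IsScalarTower k L F] [IsScalarTower k K₀ F]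
    (hF : IntermediateField.adjoin K₀ (Set.range (algebraMap L F)) = ⊤) [IsAlgClosed Ω]
    [Algebra k Ω] [Algebra L Ω] [Algebra L M] [Algebra K₀ K] [Algebra K₀ M] [Algebra K M]
    [Algebra K₀ Ω] [Algebra M Ω] [IsScalarTower k L Ω] [IsScalarTower k K₀ Ω]
    [IsScalarTower L M Ω] [IsScalarTower K₀ K M] [IsScalarTower K₀ M Ω]
    (hσ : ∀ g : L ≃ₐ[k] L, ∃ σ : M ≃ₐ[K] M, ∀ x : L,
      σ (algebraMap L M x) = algebraMap L M (g x)) :
    ∃ e : F →+* M, (∀ c : K₀, e (algebraMap K₀ F c) = algebraMap K₀ M c) ∧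
      ∀ c : L, e (algebraMap L F c) = algebraMap L M c := by
  -- `F` is algebraic over `K₀`
  have halg : Algebra.IsAlgebraic K₀ F := by
    have h1 : ∀ x ∈ Set.range (algebraMap L F), IsIntegral K₀ x := by
      rintro x ⟨c, rfl⟩
      have h2 : IsIntegral k c := Algebra.IsIntegral.isIntegral c
      have h3 : IsIntegral k (algebraMap L F c) := h2.algebraMap
      exact h3.tower_top
    have h4 : Algebra.IsAlgebraic K₀ (IntermediateField.adjoin K₀ (Set.range (algebraMap L F))) :=
      IntermediateField.isAlgebraic_adjoin h1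
    rw [hF] at h4
    refine ⟨fun x => ?_⟩
    have h5 := h4.isAlgebraic (⟨x, IntermediateField.mem_top⟩ : (⊤ : IntermediateField K₀ F))
    exact (IntermediateField.isAlgebraic_iff (K := K₀) (x := (⟨x, IntermediateField.mem_top⟩ :
      (⊤ : IntermediateField K₀ F)))).1 h5
  obtain ⟨e⟩ : Nonempty (F →ₐ[K₀] Ω) := ⟨IsAlgClosed.lift⟩
  let φ : L →ₐ[k] Ω :=
    { toRingHom := (e : F →+* Ω).comp (algebraMap L F)
      commutes' := fun a => by
        change e (algebraMap L F (algebraMap k L a)) = algebraMap k Ω a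
        rw [← IsScalarTower.algebraMap_apply k L F, IsScalarTower.algebraMap_apply k K₀ F,
          e.commutes, ← IsScalarTower.algebraMap_apply k K₀ Ω] }
  have hφ : ∀ c : L, φ c = e (algebraMap L F c) := fun c => rfl
  let g : L →ₐ[k] L := φ.restrictNormal L
  have hg : ∀ c : L, algebraMap L Ω (g c) = φ c := fun c => φ.restrictNormal_commutes L c
  have hbij : Function.Bijective g := g.bijective
  let g' : L ≃ₐ[k] L := AlgEquiv.ofBijective g hbij
  have hg' : ∀ c, g' c = g c := fun c => rfl
  -- the image of `F` is in `M`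
  have hex : ∀ x : F, ∃ m : M, algebraMap M Ω m = e x := by
    intro x
    have hx : x ∈ IntermediateField.adjoin K₀ (Set.range (algebraMap L F)) := by
      rw [hF]; trivial
    induction hx using IntermediateField.adjoin_induction with
    | mem y hy =>
      obtain ⟨c, rfl⟩ := hy
      exact ⟨algebraMap L M (g c), by rw [← IsScalarTower.algebraMap_apply L M Ω, hg, hφ]⟩
    | algebraMap c =>
      exact ⟨algebraMap K₀ M c, by rw [← IsScalarTower.algebraMap_apply K₀ M Ω, e.commutes]⟩
    | add a b _ _ ha hb =>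
      obtain ⟨a', ha⟩ := ha
      obtain ⟨b', hb⟩ := hb
      exact ⟨a' + b', by rw [map_add, map_add, ha, hb]⟩
    | inv a _ ha =>
      obtain ⟨a', ha⟩ := ha
      exact ⟨a'⁻¹, by rw [map_inv₀, map_inv₀, ha]⟩
    | mul a b _ _ ha hb =>
      obtain ⟨a', ha⟩ := ha
      obtain ⟨b', hb⟩ := hb
      exact ⟨a' * b', by rw [map_mul, map_mul, ha, hb]⟩
  choose d hd using hex
  have hi : Function.Injective (algebraMap M Ω) := (algebraMap M Ω).injective
  let ē : F →+* M :=
    { toFun := d
      map_one' := hi (by rw [hd, map_one, map_one])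
      map_mul' := fun a b => hi (by rw [hd, map_mul, map_mul, hd, hd])
      map_zero' := hi (by rw [hd, map_zero, map_zero])
      map_add' := fun a b => hi (by rw [hd, map_add, map_add, hd, hd]) }
  have hē : ∀ x, algebraMap M Ω (ē x) = e x := hd
  obtain ⟨σ, hσ⟩ := hσ g'.symm
  refine ⟨(σ : M →+* M).comp ē, fun c => ?_, fun c => ?_⟩
  · have h1 : ē (algebraMap K₀ F c) = algebraMap K₀ M c := hi (by
      rw [hē, e.commutes, ← IsScalarTower.algebraMap_apply K₀ M Ω])
    change σ (ē (algebraMap K₀ F c)) = _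
    rw [h1, IsScalarTower.algebraMap_apply K₀ K M, σ.commutes]
  · have h1 : ē (algebraMap L F c) = algebraMap L M (g c) := hi (by
      rw [hē, ← IsScalarTower.algebraMap_apply L M Ω, hg, hφ])
    change σ (ē (algebraMap L F c)) = _
    rw [h1, hσ, ← hg', AlgEquiv.symm_apply_apply]

end Pool.Agent.Lib.MP_c385f6_ag.Bc
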