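import Mathlib
import Pool.Agent.Lib.MP_c385f6_ag.Bc.St
import Pool.Agent.Lib.MP_c385f6_ag.Bc.Basic
import Pool.Agent.Lib.MP_c385f6_ag.AllP.DataRam
import Pool.Agent.Lib.MP_c385f6_ag.AllP.Twists

set_option autoImplicit false

/-!
Module (D) of the base change theorem: the classes given by a section.
-/

namespace Pool.Agent.Lib.MP_c385f6_ag.Bc

open Pool.Agent.Lib.MP_c385f6_ag.Cpl Polynomial Finset

namespace SecAux

section
variable {k L K M Ω : Type*} [Field k] [CharZero k] [Field L] [Field K] [Field M] [Field Ω]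
  [Algebra k L] [Algebra k K] [Algebra k Ω] [Algebra L Ω] [Algebra K Ω] [Algebra K M]
  [Algebra L M] [Algebra M Ω] [IsScalarTower k K Ω] [IsScalarTower k L Ω] [IsScalarTower K M Ω]
  [IsScalarTower L M Ω] [IsAlgClosure K Ω] [FiniteDimensional k L]
  (hM : IntermediateField.adjoin K (Set.range (algebraMap L M)) = ⊤)
  {s : AbsGal k Ω →* PiOne k K Ω} (hs : IsSection k K Ω s) {p : ℕ} (hp : p.Prime)

include hM hs hp in
/-- (T1) an element with divisor divisible by `p` has a twist -/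
theorem exists_tw {h : M} (hh : PDiv p L h) : ∃ c : L, Tw k p s (algebraMap M Ω h) c := by
  classical
  have hacO : IsAlgClosed Ω := IsAlgClosure.isAlgClosed K
  have halgO : Algebra.IsAlgebraic K Ω := IsAlgClosure.isAlgebraic
  have halgM : Algebra.IsAlgebraic M Ω := Algebra.IsAlgebraic.tower_top (K := K) M
  have hclM : IsAlgClosure M Ω := ⟨hacO, halgM⟩
  have hcL : CharZero L := charZero_of_injective_algebraMap (algebraMap k L).injective
  obtain ⟨s', hs', hcomp⟩ := exists_base_section k L K M Ω hM hs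
  have hmem := mem_ur_iff_base (k := k) (L := L) (K := K) (M := M) (Ω := Ω) hM
  obtain ⟨h0, hv⟩ := hh
  obtain ⟨γ, hγ⟩ := IsAlgClosed.exists_pow_nat_eq (algebraMap M Ω h) hp.pos
  have hγ0 : γ ≠ 0 := by
    rintro rfl
    rw [zero_pow hp.ne_zero] at hγ
    exact (_root_.map_ne_zero (algebraMap M Ω)).2 h0 hγ.symm
  have hγm : γ ∈ maxUnramified L M Ω := by
    refine mem_ur_of_pow hp.ne_zero ?_ fun B hB => ?_
    · rw [hγ]; exact (maxUnramified L M Ω).algebraMap_mem _
    · have hAk : ∀ c : L, algebraMap L M c ∈ B.comap (algebraMap M Ω) := by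
        intro c
        show algebraMap M Ω (algebraMap L M c) ∈ B
        rw [← IsScalarTower.algebraMap_apply L M Ω]
        exact hB c
      obtain ⟨g, hg, hc⟩ := hv _ hAk
      refine ⟨algebraMap M Ω g, (maxUnramified L M Ω).algebraMap_mem _,
        (_root_.map_ne_zero _).2 hg, ?_⟩
      have hsq : B.valuation γ ^ p = B.valuation (algebraMap M Ω g) ^ p := by
        rw [← map_pow, hγ, ← map_pow, ← map_pow, comap_valuation hc]
      exact (pow_left_inj₀ zero_le zero_le hp.ne_zero).1 hsq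
  obtain ⟨d, hd, y, hy, hys⟩ := exists_twist_pow hs' hp.ne_zero (γ := ⟨γ, hγm⟩)
    (u := algebraMap M _ h) (fun h => hγ0 (congrArg Subtype.val h)) (Subtype.ext hγ)
    (fun g => (s' g).commutes _)
  refine ⟨d⁻¹, inv_ne_zero hd, ⟨(y : Ω), (hmem _).1 y.2⟩, ?_, ?_⟩
  · intro g
    apply Subtype.ext
    rw [← hcomp g y ⟨(y : Ω), (hmem _).1 y.2⟩ rfl, hys]
  · show algebraMap M Ω h = algebraMap L Ω d⁻¹ * (y : Ω) ^ p
    have h2 : algebraMap L Ω d ≠ 0 := (_root_.map_ne_zero _).2 hd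
    have h3 : ((algebraMap M (maxUnramified L M Ω) h : maxUnramified L M Ω) : Ω) =
        algebraMap M Ω h := rfl
    rw [hy, h3, map_inv₀, inv_mul_cancel_left₀ h2]

include hM hs hp in
/-- (T2) the class of the twist is unique -/
theorem tw_unique {h : Ω} {c c' : L} (h0 : h ≠ 0) (h1 : Tw k p s h c) (h2 : Tw k p s h c') :
    Eqv p c c' := by
  obtain ⟨hc, Y, hYs, hY⟩ := h1
  obtain ⟨hc', Y', hYs', hY'⟩ := h2
  have hcΩ : algebraMap L Ω c ≠ 0 := (_root_.map_ne_zero _).2 hc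
  have hcΩ' : algebraMap L Ω c' ≠ 0 := (_root_.map_ne_zero _).2 hc'
  have hY0 : (Y : Ω) ≠ 0 := by
    intro h3
    rw [h3, zero_pow hp.ne_zero, mul_zero] at hY
    exact h0 hY
  have hY0' : (Y' : Ω) ≠ 0 := by
    intro h3
    rw [h3, zero_pow hp.ne_zero, mul_zero] at hY'
    exact h0 hY'
  have hE : ∀ γ : AbsGal L Ω, s (resAbs k L Ω γ) (Y' / Y) = Y' / Y := fun γ => by
    rw [map_div₀, hYs', hYs]
  have hcoe : ((Y' / Y : maxUnramified k K Ω) : Ω) = (Y' : Ω) / (Y : Ω) := rfl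
  have hpow : ((Y' / Y : maxUnramified k K Ω) : Ω) ^ p = algebraMap L Ω (c / c') := by
    rw [hcoe, div_pow, map_div₀, div_eq_div_iff (pow_ne_zero _ hY0) hcΩ']
    linear_combination hY - hY'
  have halg : ((Y' / Y : maxUnramified k K Ω) : Ω) ∈ algebraicClosure L Ω := by
    rw [mem_algebraicClosure_iff]
    refine ⟨X ^ p - C (c / c'), (monic_X_pow_sub_C _ hp.ne_zero).ne_zero, ?_⟩
    rw [map_sub, map_pow, aeval_X, aeval_C, hpow, sub_self]
  obtain ⟨e, he⟩ := fixed_const_base hM hs hE halg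
  refine ⟨e, ?_, ?_⟩
  · rintro rfl
    rw [map_zero, hcoe] at he
    exact div_ne_zero hY0' hY0 he
  · apply (algebraMap L Ω).injective
    rw [he, ← map_pow] at hpow
    have h3 := (algebraMap L Ω).injective hpow
    rw [h3, mul_div_cancel₀ _ hc']

omit [CharZero k] [Field M] [Algebra k K] [Algebra K M] [Algebra L M] [Algebra M Ω]
  [IsScalarTower k K Ω] [IsScalarTower K M Ω] [IsScalarTower L M Ω] [IsAlgClosure K Ω] in
/-- (T3) products -/
theorem tw_mul {h h' : Ω} {c c' : L} (h1 : Tw k p s h c) (h2 : Tw k p s h' c') :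
    Tw k p s (h * h') (c * c') := by
  obtain ⟨hc, Y, hYs, hY⟩ := h1
  obtain ⟨hc', Y', hYs', hY'⟩ := h2
  refine ⟨mul_ne_zero hc hc', Y * Y', fun γ => by rw [map_mul, hYs, hYs'], ?_⟩
  have hcoe : ((Y * Y' : maxUnramified k K Ω) : Ω) = (Y : Ω) * (Y' : Ω) := rfl
  rw [hcoe, hY, hY', map_mul, mul_pow]
  ring

omit [CharZero k] [Field M] [Algebra k K] [Algebra K M] [Algebra L M] [Algebra M Ω]
  [IsScalarTower k K Ω] [IsScalarTower K M Ω] [IsScalarTower L M Ω] [IsAlgClosure K Ω] in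
/-- (T3) constants -/
theorem tw_const {c : L} (hc : c ≠ 0) : Tw k p s (algebraMap L Ω c) c := by
  refine ⟨hc, 1, fun γ => map_one _, ?_⟩
  have hcoe : ((1 : maxUnramified k K Ω) : Ω) = 1 := rfl
  rw [hcoe, one_pow, mul_one]

include hM hs hp in
/-- (T4) the Steinberg relations -/
theorem tw_steinberg (hp2 : p ≠ 2) {ζ : L} (hζ : IsPrimitiveRoot ζ p) {h h' : Ω} {c c' : L}
    (h0 : h ≠ 0) (h0' : h' ≠ 0) (hh : h + h' = 1) (h1 : Tw k p s h c) (h2 : Tw k p s h' c') :
    ¬ SymbolNonzero p 1 c c' := by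
  have hacO : IsAlgClosed Ω := IsAlgClosure.isAlgClosed K
  have halgO : Algebra.IsAlgebraic K Ω := IsAlgClosure.isAlgebraic
  have halgM : Algebra.IsAlgebraic M Ω := Algebra.IsAlgebraic.tower_top (K := K) M
  have hclM : IsAlgClosure M Ω := ⟨hacO, halgM⟩
  have hcL : CharZero L := charZero_of_injective_algebraMap (algebraMap k L).injective
  obtain ⟨s', hs', hcomp⟩ := exists_base_section k L K M Ω hM hs
  have hmem := mem_ur_iff_base (k := k) (L := L) (K := K) (M := M) (Ω := Ω) hM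
  obtain ⟨hc, Y, hYs, hY⟩ := h1
  obtain ⟨hc', Y', hYs', hY'⟩ := h2
  have hY0 : (Y : Ω) ≠ 0 := by
    intro h3
    rw [h3, zero_pow hp.ne_zero, mul_zero] at hY
    exact h0 hY
  have hY0' : (Y' : Ω) ≠ 0 := by
    intro h3
    rw [h3, zero_pow hp.ne_zero, mul_zero] at hY'
    exact h0' hY'
  refine pair_relation (k := L) (K := M) (Ω := Ω) hp hp2 hζ hs'
    (X := ⟨(Y : Ω), (hmem _).2 Y.2⟩) (Y := ⟨(Y' : Ω), (hmem _).2 Y'.2⟩)
    (fun h => hY0 (congrArg Subtype.val h)) (fun h => hY0' (congrArg Subtype.val h)) ?_ ?_ ?_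
  · intro g
    apply Subtype.ext
    rw [hcomp g ⟨(Y : Ω), (hmem _).2 Y.2⟩ Y rfl, hYs]
  · intro g
    apply Subtype.ext
    rw [hcomp g ⟨(Y' : Ω), (hmem _).2 Y'.2⟩ Y' rfl, hYs']
  · show algebraMap L Ω c * (Y : Ω) ^ p + algebraMap L Ω c' * (Y' : Ω) ^ p = 1
    rw [← hY, ← hY', hh]

variable {K₀ F : Type*} [Field K₀] [Field F] [Algebra K₀ F] [Algebra K₀ K] [Algebra K₀ M]
  [Algebra F M] [Algebra L F] [IsScalarTower K₀ F M] [IsScalarTower K₀ K M]
  [IsScalarTower L F M] [IsGalois k L]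
  (hF : IntermediateField.adjoin K₀ (Set.range (algebraMap L F)) = ⊤)

include hM hs hF in
/-- (T5) equivariance -/
theorem tw_equiv (g : L ≃ₐ[k] L) (G : F ≃ₐ[K₀] F)
    (hG : ∀ c : L, G (algebraMap L F c) = algebraMap L F (g c)) {u : F} {c : L}
    (h1 : Tw k p s (algebraMap M Ω (algebraMap F M u)) c) :
    Tw k p s (algebraMap M Ω (algebraMap F M (G u))) (g c) := by
  have hacF : IsAlgClosed Ω := IsAlgClosure.isAlgClosed K
  have hcl : IsAlgClosure k (algebraicClosure k Ω) := inferInstance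
  have hn : Normal k (algebraicClosure k Ω) := IsAlgClosure.normal k _
  have hg : IsGalois k (algebraicClosure k Ω) := {}
  have hmem := mem_ur_iff_base (k := k) (L := L) (K := K) (M := M) (Ω := Ω) hM
  obtain ⟨h, hh⟩ := exists_lift (embL k L Ω) g
  obtain ⟨hc, Y, hYs, hY⟩ := h1
  -- the embedding of `F`
  let i : F →+* maxUnramified k K Ω := ((algebraMap M Ω).comp (algebraMap F M)).codRestrict
    (maxUnramified k K Ω) fun x => (hmem _).1 ((maxUnramified L M Ω).algebraMap_mem _)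
  have hi : ∀ x : F, ((i x : maxUnramified k K Ω) : Ω) = algebraMap M Ω (algebraMap F M x) :=
    fun x => rfl
  have hcst : ∀ (x : L) (z : maxUnramified k K Ω), (z : Ω) = algebraMap L Ω x →
      ((s h z : maxUnramified k K Ω) : Ω) = algebraMap L Ω (g x) := by
    intro x z hz
    rw [hs.restrict h (embL k L Ω x) z hz, hh]
    rfl
  have hL : ∀ x : L, ((i (algebraMap L F x) : maxUnramified k K Ω) : Ω) = algebraMap L Ω x := by
    intro x
    rw [hi, ← IsScalarTower.algebraMap_apply L F M, ← IsScalarTower.algebraMap_apply L M Ω]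
  have hK : ∀ x : K₀, i (algebraMap K₀ F x) = algebraMap K _ (algebraMap K₀ K x) := by
    intro x
    apply Subtype.ext
    rw [hi, ← IsScalarTower.algebraMap_apply K₀ F M, IsScalarTower.algebraMap_apply K₀ K M,
      ← IsScalarTower.algebraMap_apply K M Ω]
    rfl
  have key : ∀ x : F, s h (i x) = i (G x) := by
    intro x
    refine fix_of_fix_base (K := K₀) (L := L) (M := F) hF
      ((s h : maxUnramified k K Ω →+* maxUnramified k K Ω).comp i)
      (i.comp (G : F →+* F)) ?_ ?_ x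
    · intro y
      show s h (i (algebraMap K₀ F y)) = i (G (algebraMap K₀ F y))
      rw [hK, AlgEquiv.commutes, AlgEquiv.commutes, hK]
    · intro y
      show s h (i (algebraMap L F y)) = i (G (algebraMap L F y))
      apply Subtype.ext
      rw [hcst y _ (hL y), hG, hL]
  refine ⟨(_root_.map_ne_zero_iff _ g.injective).2 hc, s h Y,
    fun γ => section_conj hh hYs γ, ?_⟩
  let cc : maxUnramified k K Ω := i (algebraMap L F c)
  have h2 : i u = cc * Y ^ p := by
    apply Subtype.ext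
    show algebraMap M Ω (algebraMap F M u) = (cc : Ω) * (Y : Ω) ^ p
    rw [hY, hL]
  have h3 : i (G u) = s h cc * (s h Y) ^ p := by
    rw [← key, h2, map_mul, map_pow]
  have h4 := congrArg (fun z : maxUnramified k K Ω => (z : Ω)) h3
  have h5 := hcst c cc (hL c)
  rw [← h5]
  exact h4

end

end SecAux

open SecAux

/-- (D) the classes given by a section -/
theorem stSec.{u} : StSec.{u} := by
  classical
  intro p hpF k L E _ _ _ _ _ _ _ S ζ hp2 hζ hS K₀ F K M Ω _ _ _ _ _ _ _ _ _ _ _ _ _ _ _ _ _ _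
    _ _ _ _ _ _ _ _ _ hF hM w y Φ hΦ s hs hval
  have hp : p.Prime := hpF.out
  have h0 : ∀ u ∈ Φ, algebraMap M Ω (algebraMap F M u) ≠ 0 := fun u hu =>
    (_root_.map_ne_zero _).2 (hΦ u hu).1
  have hex : ∀ u ∈ Φ, ∃ c : L, Tw k p s (algebraMap M Ω (algebraMap F M u)) c := fun u hu =>
    exists_tw hM hs hp (hΦ u hu)
  let D : F → L := fun u => if h : ∃ c : L, Tw k p s (algebraMap M Ω (algebraMap F M u)) c then
    h.choose else 1
  have hD : ∀ u ∈ Φ, Tw k p s (algebraMap M Ω (algebraMap F M u)) (D u) := by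
    intro u hu
    have h1 : D u = (hex u hu).choose := dif_pos (hex u hu)
    rw [h1]
    exact (hex u hu).choose_spec
  refine ⟨D, ⟨fun u hu => (hD u hu).1, ?_, ?_, ?_, ?_, ?_⟩⟩
  · intro u hu v hv huv
    refine tw_unique hM hs hp (h0 _ huv) (hD _ huv) ?_
    rw [map_mul, map_mul]
    exact tw_mul (hD u hu) (hD v hv)
  · intro c hc hcΦ
    refine tw_unique hM hs hp (h0 _ hcΦ) (hD _ hcΦ) ?_
    rw [← IsScalarTower.algebraMap_apply L F M, ← IsScalarTower.algebraMap_apply L M Ω]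
    exact tw_const hc
  · intro u hu hu'
    refine hS _ _ (hD u hu).1 (hD _ hu').1 ?_
    refine tw_steinberg hM hs hp hp2 hζ (h0 u hu) (h0 _ hu') ?_ (hD u hu) (hD _ hu')
    rw [← map_add, ← map_add, add_sub_cancel, map_one, map_one]
  · intro g G hG u hu hGu
    exact tw_unique hM hs hp (h0 _ hGu) (hD _ hGu) (tw_equiv hM hs hF g G hG (hD u hu))
  · intro c c' hc hc' hu
    exact tw_unique hM hs hp (h0 _ hu) (hD _ hu) (hval c c' hc hc' hu)

end Pool.Agent.Lib.MP_c385f6_ag.Bc
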