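import Mathlib
import Pool.Agent.Lib.MP_c385f6_ag.Bc.Sec

set_option autoImplicit false

/-!
Module (D) of the base change theorem for all primes, including `p = 2`: the Steinberg relations
follow if `u - c` has a divisor divisible by `p` for many constants `c`.
-/

namespace Pool.Agent.Lib.MP_c385f6_ag.Bc

open Pool.Agent.Lib.MP_c385f6_ag.Cpl Polynomial Finset

section pdiv

variable {p : ℕ} {L M : Type*} [Field L] [Field M] [Algebra L M]

theorem PDiv.mul {h h' : M} (h1 : PDiv p L h) (h2 : PDiv p L h') : PDiv p L (h * h') := by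
  refine ⟨mul_ne_zero h1.1 h2.1, fun A hA => ?_⟩
  obtain ⟨g, hg, e⟩ := h1.2 A hA
  obtain ⟨g', hg', e'⟩ := h2.2 A hA
  exact ⟨g * g', mul_ne_zero hg hg', by rw [map_mul, e, e', ← map_mul, mul_pow]⟩

theorem PDiv.inv {h : M} (h1 : PDiv p L h) : PDiv p L h⁻¹ := by
  refine ⟨inv_ne_zero h1.1, fun A hA => ?_⟩
  obtain ⟨g, hg, e⟩ := h1.2 A hA
  exact ⟨g⁻¹, inv_ne_zero hg, by rw [map_inv₀, e, inv_pow, map_inv₀]⟩

theorem PDiv.const {c : L} (hc : c ≠ 0) : PDiv p L (algebraMap L M c) := by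
  refine ⟨(_root_.map_ne_zero _).2 hc, fun A hA => ⟨1, one_ne_zero, ?_⟩⟩
  rw [one_pow, map_one]
  refine le_antisymm ((A.valuation_le_one_iff _).2 (hA c)) ?_
  have h1 := (A.valuation_le_one_iff _).2 (hA c⁻¹)
  rw [map_inv₀, map_inv₀] at h1
  have h2 : A.valuation (algebraMap L M c) ≠ 0 :=
    (Valuation.ne_zero_iff _).2 ((_root_.map_ne_zero _).2 hc)
  exact (inv_le_one₀ (zero_lt_iff.2 h2)).1 h1

theorem PDiv.neg {h : M} (h1 : PDiv p L h) : PDiv p L (-h) := by
  refine ⟨neg_ne_zero.2 h1.1, fun A hA => ?_⟩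
  obtain ⟨g, hg, e⟩ := h1.2 A hA
  exact ⟨g, hg, by rw [Valuation.map_neg, e]⟩

theorem PDiv.div {h h' : M} (h1 : PDiv p L h) (h2 : PDiv p L h') : PDiv p L (h / h') := by
  rw [div_eq_mul_inv]
  exact h1.mul h2.inv

theorem ramAt_of_pdiv {w : M} {b : L} (h : PDiv p L (w - algebraMap L M b)) : RamAt p w b := by
  intro A hA
  by_cases hw : w ∈ A
  · obtain ⟨g, hg, e⟩ := h.2 A hA
    exact ⟨g, hg, Or.inl ⟨hw, e⟩⟩
  · refine ⟨1, one_ne_zero, Or.inr ⟨hw, ?_⟩⟩
    have hw1 : 1 < A.valuation w := by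
      rw [← not_le, A.valuation_le_one_iff]
      exact hw
    rw [one_pow, mul_one, sub_eq_add_neg, ← map_neg (algebraMap L M)]
    exact Valuation.map_add_eq_of_lt_left _
      (((A.valuation_le_one_iff _).2 (hA _)).trans_lt hw1)

end pdiv

namespace SecAux

section
variable {k : Type*} {L E : Type} {K M Ω : Type*} [Field k] [CharZero k] [Field L] [Field E]
  [Field K] [Field M] [Field Ω]
  [Algebra k L] [Algebra k K] [Algebra k Ω] [Algebra L Ω] [Algebra K Ω] [Algebra K M]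
  [Algebra L M] [Algebra M Ω] [IsScalarTower k K Ω] [IsScalarTower k L Ω] [IsScalarTower K M Ω]
  [IsScalarTower L M Ω] [IsAlgClosure K Ω] [FiniteDimensional k L]
  (hM : IntermediateField.adjoin K (Set.range (algebraMap L M)) = ⊤)
  {s : AbsGal k Ω →* PiOne k K Ω} (hs : IsSection k K Ω s) {p : ℕ} (hp : p.Prime)

include hM hs hp in
/-- the Steinberg relation for all `p` -/
theorem tw_steinberg_all [Fact p.Prime] (S : LF p L E)
    (hS : ∀ a b : L, a ≠ 0 → b ≠ 0 → ¬ SymbolNonzero p 1 a b → S.h a b = 0)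
    {R : Finset L} (hR : ∀ x : L, x ≠ 0 → ∃ y ∈ R, ∃ z, z ≠ 0 ∧ x = y * z ^ p)
    {ζ : L} (hζ : IsPrimitiveRoot ζ p) {u : M} {C : Finset L} (hcard : R.card * 2 < C.card)
    (h0C : (0 : L) ∈ C) (h1C : (1 : L) ∈ C) {cs : L} (hcs : cs ∈ C) (hcs0 : cs ≠ 0)
    (hcs1 : cs ≠ 1) (hPD : ∀ c ∈ C, PDiv p L (u - algebraMap L M c)) {a b : L}
    (ha : Tw k p s (algebraMap M Ω u) a) (hb : Tw k p s (algebraMap M Ω (1 - u)) b) :
    S.h a b = 0 := by
  classical
  have hacO : IsAlgClosed Ω := IsAlgClosure.isAlgClosed K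
  have halgO : Algebra.IsAlgebraic K Ω := IsAlgClosure.isAlgebraic
  have halgM : Algebra.IsAlgebraic M Ω := Algebra.IsAlgebraic.tower_top (K := K) M
  have hclM : IsAlgClosure M Ω := ⟨hacO, halgM⟩
  have hcL : CharZero L := charZero_of_injective_algebraMap (algebraMap k L).injective
  obtain ⟨s', hs', hcomp⟩ := exists_base_section k L K M Ω hM hs
  have hmem := mem_ur_iff_base (k := k) (L := L) (K := K) (M := M) (Ω := Ω) hM
  have hLM : ∀ x : L, algebraMap M Ω (algebraMap L M x) = algebraMap L Ω x := fun x =>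
    (IsScalarTower.algebraMap_apply L M Ω x).symm
  have hn : ∀ c ∈ C, u - algebraMap L M c ≠ 0 := fun c hc => (hPD c hc).1
  have hu0 : u ≠ 0 := by
    have := hn 0 h0C
    rwa [map_zero, sub_zero] at this
  have hu1 : 1 - u ≠ 0 := by
    have := hn 1 h1C
    rw [map_one] at this
    intro h
    exact this (by linear_combination -h)
  have hucs := hn cs hcs
  by_cases hu : IsAlgebraic L u
  · -- constants
    obtain ⟨e, he⟩ := fixed_const (k := L) (K := M) hs'
      (z := algebraMap M (maxUnramified L M Ω) u) (fun γ => AlgEquiv.commutes _ _) (by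
        show algebraMap M Ω u ∈ algebraicClosure L Ω
        rw [mem_algebraicClosure_iff]
        exact hu.algebraMap)
    have he' : u = algebraMap L M e := (algebraMap M Ω).injective (by rw [hLM]; exact he)
    subst he'
    have e0 : e ≠ 0 := by
      rintro rfl
      exact hu0 (map_zero _)
    have e1 : 1 - e ≠ 0 := by
      intro h
      apply hu1
      rw [← map_one (algebraMap L M), ← map_sub, h, map_zero]
    have h1 : Eqv p a e := tw_unique hM hs hp ((_root_.map_ne_zero _).2 hu0) ha (by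
      rw [hLM]
      exact tw_const e0)
    have h2 : Eqv p b (1 - e) := tw_unique hM hs hp ((_root_.map_ne_zero _).2 hu1) hb (by
      rw [← map_one (algebraMap L M), ← map_sub, hLM]
      exact tw_const e1)
    rw [h_congr S e0 e1 h1 h2]
    exact S.steinberg _ _ e0 e1 (by ring)
  · -- the coordinate `w'`
    set w : M := (u - algebraMap L M cs)⁻¹ with hw
    have hw0 : w ≠ 0 := inv_ne_zero hucs
    have hwtr : Transcendental L w := by
      intro h
      apply hu
      have h1 : IsAlgebraic L (w⁻¹ + algebraMap L M cs) := h.inv.add (isAlgebraic_algebraMap _)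
      rwa [hw, inv_inv, sub_add_cancel] at h1
    have hccs : ∀ c, c ≠ cs → c - cs ≠ 0 := fun c hc => sub_ne_zero.2 hc
    have hform : ∀ c, c ≠ cs → w - algebraMap L M (c - cs)⁻¹ =
        -((u - algebraMap L M c) / ((u - algebraMap L M cs) * algebraMap L M (c - cs))) := by
      intro c hc
      have h1 : algebraMap L M (c - cs) ≠ 0 := (_root_.map_ne_zero _).2 (hccs c hc)
      rw [map_inv₀, hw]
      have h2 : algebraMap L M (c - cs) = algebraMap L M c - algebraMap L M cs := map_sub _ _ _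
      field_simp
      rw [h2]
      ring
    let T : Finset L := insert 0 ((C.erase cs).image fun c => (c - cs)⁻¹)
    have hT0 : (0 : L) ∉ (C.erase cs).image fun c => (c - cs)⁻¹ := by
      intro h
      obtain ⟨c, hc, h⟩ := Finset.mem_image.1 h
      exact inv_ne_zero (hccs c (Finset.ne_of_mem_erase hc)) h
    have hTcard : T.card = C.card := by
      rw [Finset.card_insert_of_notMem hT0, Finset.card_image_of_injOn, Finset.card_erase_of_mem hcs]
      · have : 0 < C.card := Finset.card_pos.2 ⟨_, hcs⟩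
        omega
      · intro c _ c' _ h
        have h1 := inv_injective h
        exact sub_left_injective h1
    have hPT : ∀ t ∈ T, PDiv p L (w - algebraMap L M t) := by
      intro t ht
      rcases Finset.mem_insert.1 ht with rfl | ht
      · rw [map_zero, sub_zero]
        exact (hPD cs hcs).inv
      · obtain ⟨c, hc, rfl⟩ := Finset.mem_image.1 ht
        have hne := Finset.ne_of_mem_erase hc
        rw [hform c hne]
        exact ((hPD c (Finset.mem_of_mem_erase hc)).div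
          ((hPD cs hcs).mul (PDiv.const (hccs c hne)))).neg
    have h0T : (0 : L) ∈ T := Finset.mem_insert_self _ _
    have hrT : (0 - cs)⁻¹ ∈ T := Finset.mem_insert_of_mem
      (Finset.mem_image.2 ⟨0, Finset.mem_erase.2 ⟨hcs0.symm, h0C⟩, rfl⟩)
    have htT : (1 - cs)⁻¹ ∈ T := Finset.mem_insert_of_mem
      (Finset.mem_image.2 ⟨1, Finset.mem_erase.2 ⟨hcs1.symm, h1C⟩, rfl⟩)
    obtain ⟨D₁, Y₁, hD₁, hY₁s, hY₁⟩ := ram_twists (k := L) (K := M) (Ω := Ω) hp
      (b := fun j : T => (j : L)) (w := w) (fun j => ramAt_of_pdiv (hPT j j.2)) ⟨0, h0T⟩ hs'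
    let D : L → L := fun t => if h : t ∈ T then D₁ ⟨t, h⟩ else 1
    have hD : ∀ (t) (h : t ∈ T), D t = D₁ ⟨t, h⟩ := fun t h => dif_pos h
    have hDn : ∀ t ∈ T, D t ≠ 0 := fun t ht => by rw [hD t ht]; exact hD₁ _
    obtain ⟨r', hr', t', ht', u', hu', f1, f2, f3, ⟨x, hx0, hx⟩, ⟨y, hy0, hy⟩⟩ :=
      three_of_card (p := p) hR (by rw [hTcard]; exact hcard) (T := T) hDn
    rw [hD r' hr', hD u' hu'] at hx
    rw [hD t' ht', hD u' hu'] at hy
    have hrt : (0 - cs)⁻¹ ≠ (1 - cs)⁻¹ := by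
      intro h
      have h1 := inv_injective h
      exact zero_ne_one (sub_left_injective h1)
    have hrel := ram_relation (k := L) (K := M) (Ω := Ω) hp hζ
      (b := fun j : T => (j : L)) Subtype.val_injective hwtr
      (fun j => ramAt_of_pdiv (hPT j j.2)) (j₀ := ⟨0, h0T⟩) hs' hD₁ hY₁s hY₁ (by
        intro hp2
        subst hp2
        exact ⟨⟨r', hr'⟩, ⟨t', ht'⟩, ⟨u', hu'⟩, fun h => f1 (congrArg Subtype.val h),
          fun h => f2 (congrArg Subtype.val h), fun h => f3 (congrArg Subtype.val h),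
          ⟨x, hx0, hx⟩, ⟨y, hy0, hy⟩⟩)
      (r := ⟨(0 - cs)⁻¹, hrT⟩) (t := ⟨(1 - cs)⁻¹, htT⟩) (u := ⟨0, h0T⟩)
      (fun h => hrt (congrArg Subtype.val h))
      (fun h => inv_ne_zero (hccs 1 hcs1.symm) (congrArg Subtype.val h))
      (fun h => inv_ne_zero (hccs 0 hcs0.symm) (congrArg Subtype.val h))
    -- the twists
    have htw : ∀ (t) (ht : t ∈ T), Tw k p s (algebraMap M Ω ((w - algebraMap L M t) / w))
        (D₁ ⟨t, ht⟩) := by
      intro t ht
      refine ⟨hD₁ _, ⟨(Y₁ ⟨t, ht⟩ : Ω), (hmem _).1 (Y₁ ⟨t, ht⟩).2⟩, ?_, ?_⟩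
      · intro g
        apply Subtype.ext
        rw [← hcomp g (Y₁ ⟨t, ht⟩) ⟨(Y₁ ⟨t, ht⟩ : Ω), (hmem _).1 (Y₁ ⟨t, ht⟩).2⟩ rfl, hY₁s]
      · have h1 := hY₁ ⟨t, ht⟩
        simp only [map_zero, sub_zero] at h1
        exact h1.symm
    have hcsM : algebraMap L M cs ≠ 0 := (_root_.map_ne_zero _).2 hcs0
    have h1cs : (1 : L) - cs ≠ 0 := hccs 1 hcs1.symm
    have h1csM : algebraMap L M (1 - cs) ≠ 0 := (_root_.map_ne_zero _).2 h1cs
    have hr1 : Eqv p (D₁ ⟨(0 - cs)⁻¹, hrT⟩) (a * cs⁻¹) := by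
      refine tw_unique hM hs hp (h := algebraMap M Ω (u * algebraMap L M cs⁻¹)) ?_ ?_ ?_
      · exact (_root_.map_ne_zero _).2 (mul_ne_zero hu0 ((_root_.map_ne_zero _).2 (inv_ne_zero hcs0)))
      · have h1 := htw _ hrT
        have h2 : (w - algebraMap L M (0 - cs)⁻¹) / w = u * algebraMap L M cs⁻¹ := by
          rw [zero_sub, inv_neg, map_neg, map_inv₀, hw]
          field_simp
          ring
        rwa [h2] at h1
      · rw [map_mul, hLM]
        exact tw_mul ha (tw_const (inv_ne_zero hcs0))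
    have ht1 : Eqv p (D₁ ⟨(1 - cs)⁻¹, htT⟩) (b * (1 - cs)⁻¹) := by
      refine tw_unique hM hs hp (h := algebraMap M Ω ((1 - u) * algebraMap L M (1 - cs)⁻¹)) ?_ ?_ ?_
      · exact (_root_.map_ne_zero _).2 (mul_ne_zero hu1 ((_root_.map_ne_zero _).2 (inv_ne_zero h1cs)))
      · have h1 := htw _ htT
        have h2 : (w - algebraMap L M (1 - cs)⁻¹) / w = (1 - u) * algebraMap L M (1 - cs)⁻¹ := by
          have h3 : algebraMap L M (1 - cs) = 1 - algebraMap L M cs := by rw [map_sub, map_one]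
          rw [map_inv₀, hw]
          field_simp
          rw [h3]
          ring
        rwa [h2] at h1
      · rw [map_mul, hLM]
        exact tw_mul hb (tw_const (inv_ne_zero h1cs))
    have hz1 : Eqv p (D₁ ⟨0, h0T⟩) 1 := by
      refine tw_unique hM hs hp (h := algebraMap M Ω 1) ?_ ?_ ?_
      · exact (_root_.map_ne_zero _).2 one_ne_zero
      · have h1 := htw _ h0T
        rwa [map_zero, sub_zero, div_self hw0] at h1
      · have h1 := tw_const (k := k) (p := p) (s := s) (one_ne_zero : (1 : L) ≠ 0)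
        rwa [map_one] at h1 ⊢
    have hα : Eqv p (D₁ ⟨(0 - cs)⁻¹, hrT⟩ / D₁ ⟨0, h0T⟩ *
        (((1 - cs)⁻¹ - 0) / ((1 - cs)⁻¹ - (0 - cs)⁻¹))) a := by
      have h1 : ((1 - cs)⁻¹ - 0) / ((1 - cs)⁻¹ - (0 - cs)⁻¹) = cs := by
        have h2 : (1 - cs)⁻¹ - (0 - cs)⁻¹ = (cs * (1 - cs))⁻¹ := by
          rw [zero_sub, inv_neg]
          field_simp
          ring
        rw [h2, sub_zero]
        field_simp
      rw [h1]
      have h2 := eqv_mul (eqv_div hr1 hz1) (eqv_refl (p := p) cs)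
      rwa [div_one, mul_assoc, inv_mul_cancel₀ hcs0, mul_one] at h2
    have hβ : Eqv p (D₁ ⟨(1 - cs)⁻¹, htT⟩ / D₁ ⟨0, h0T⟩ *
        (((0 - cs)⁻¹ - 0) / ((0 - cs)⁻¹ - (1 - cs)⁻¹))) b := by
      have h1 : ((0 - cs)⁻¹ - 0) / ((0 - cs)⁻¹ - (1 - cs)⁻¹) = 1 - cs := by
        have h2 : (0 - cs)⁻¹ - (1 - cs)⁻¹ = -(cs * (1 - cs))⁻¹ := by
          rw [zero_sub, inv_neg]
          field_simp
          ring
        rw [h2, sub_zero, zero_sub, inv_neg]
        field_simp
      rw [h1]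
      have h2 := eqv_mul (eqv_div ht1 hz1) (eqv_refl (p := p) (1 - cs))
      rwa [div_one, mul_assoc, inv_mul_cancel₀ h1cs, mul_one] at h2
    have hnα := eqv_ne hα ha.1
    have hnβ := eqv_ne hβ hb.1
    rw [← h_congr S ha.1 hb.1 hα hβ]
    exact hS _ _ hnα hnβ hrel

end

end SecAux

open SecAux

/-- (D) the classes given by a section, all primes -/
theorem sec_all.{u} (p : ℕ) [hpF : Fact p.Prime] (k L E : Type) [Field k] [Field L] [Field E]
    [CharZero k] [Algebra k L] [FiniteDimensional k L] [IsGalois k L] (S : LF p L E) (ζ : L)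
    (hζ : IsPrimitiveRoot ζ p)
    (hS : ∀ a b : L, a ≠ 0 → b ≠ 0 → ¬ SymbolNonzero p 1 a b → S.h a b = 0)
    {R : Finset L} (hR : ∀ x : L, x ≠ 0 → ∃ y ∈ R, ∃ z, z ≠ 0 ∧ x = y * z ^ p)
    (K₀ F K M Ω : Type u) [Field K₀] [Field F] [Field K] [Field M] [Field Ω]
    [Algebra k K₀] [Algebra k K] [Algebra k Ω] [Algebra L F] [Algebra L M]
    [Algebra L Ω] [Algebra K₀ F] [Algebra K₀ K] [Algebra K₀ M] [Algebra F M]
    [Algebra K M] [Algebra K Ω] [Algebra M Ω] [IsScalarTower k K₀ K]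
    [IsScalarTower k K Ω] [IsScalarTower k L Ω] [IsScalarTower K₀ F M]
    [IsScalarTower K₀ K M] [IsScalarTower L F M] [IsScalarTower K M Ω]
    [IsScalarTower L M Ω] [IsAlgClosure K Ω]
    (hF : IntermediateField.adjoin K₀ (Set.range (algebraMap L F)) = ⊤)
    (hM : IntermediateField.adjoin K (Set.range (algebraMap L M)) = ⊤)
    (w : K₀) (y : k) (Φ : Set F) (hΦ : ∀ u ∈ Φ, PDiv p L (algebraMap F M u))
    (hΦ2 : ∀ u ∈ Φ, 1 - u ∈ Φ → ∃ C : Finset L, R.card * 2 < C.card ∧ 0 ∈ C ∧ 1 ∈ C ∧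
      (∃ cs ∈ C, cs ≠ 0 ∧ cs ≠ 1) ∧ ∀ c ∈ C, PDiv p L (algebraMap F M (u - algebraMap L F c)))
    (s : AbsGal k Ω →* PiOne k K Ω) (hs : IsSection k K Ω s)
    (hval : ∀ c c' : L, (∀ a : k, algebraMap k L a ≠ c) → (∀ a : k, algebraMap k L a ≠ c') →
      (algebraMap K₀ F w - algebraMap L F c) / (algebraMap K₀ F w - algebraMap L F c') ∈ Φ →
      Tw k p s (algebraMap M Ω (algebraMap F M
        ((algebraMap K₀ F w - algebraMap L F c) / (algebraMap K₀ F w - algebraMap L F c'))))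
        ((algebraMap k L y - c) / (algebraMap k L y - c'))) :
    ∃ D : F → L, PSys k S w Φ D y := by
  classical
  have hp : p.Prime := hpF.out
  have h0 : ∀ u ∈ Φ, algebraMap M Ω (algebraMap F M u) ≠ 0 := fun u hu =>
    (_root_.map_ne_zero _).2 (hΦ u hu).1
  have hex : ∀ u ∈ Φ, ∃ c : L, Tw k p s (algebraMap M Ω (algebraMap F M u)) c := fun u hu =>
    exists_tw hM hs hp (hΦ u hu)
  let D : F → L := fun u => if h : ∃ c : L, Tw k p s (algebraMap M Ω (algebraMap F M u)) c then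
    h.choose else 1
  have hD : ∀ u ∈ Φ, Tw k p s (algebraMap M Ω (algebraMap F M u)) (D u) := by
    intro u hu
    have h1 : D u = (hex u hu).choose := dif_pos (hex u hu)
    rw [h1]
    exact (hex u hu).choose_spec
  refine ⟨D, ⟨fun u hu => (hD u hu).1, ?_, ?_, ?_, ?_, ?_⟩⟩
  · intro u hu v hv huv
    refine tw_unique hM hs hp (h0 _ huv) (hD _ huv) ?_
    rw [map_mul, map_mul]
    exact tw_mul (hD u hu) (hD v hv)
  · intro c hc hcΦ
    refine tw_unique hM hs hp (h0 _ hcΦ) (hD _ hcΦ) ?_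
    rw [← IsScalarTower.algebraMap_apply L F M, ← IsScalarTower.algebraMap_apply L M Ω]
    exact tw_const hc
  · intro u hu hu'
    obtain ⟨C, hcard, h0C, h1C, ⟨cs, hcs, hcs0, hcs1⟩, hPD⟩ := hΦ2 u hu hu'
    refine tw_steinberg_all hM hs hp S hS hR hζ (u := algebraMap F M u) hcard h0C h1C hcs hcs0
      hcs1 (fun c hc => ?_) (hD u hu) ?_
    · have h1 := hPD c hc
      rwa [map_sub, ← IsScalarTower.algebraMap_apply L F M] at h1
    · have h1 := hD _ hu'
      rwa [map_sub, map_one] at h1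
  · intro g G hG u hu hGu
    exact tw_unique hM hs hp (h0 _ hGu) (hD _ hGu) (tw_equiv hM hs hF g G hG (hD u hu))
  · intro c c' hc hc' hu
    exact tw_unique hM hs hp (h0 _ hu) (hD _ hu) (hval c c' hc hc' hu)

end Pool.Agent.Lib.MP_c385f6_ag.Bc
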