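import Mathlib
import Pool.Agent.Lib.MP_c385f6_ag.Bc.Sec2
import Pool.Agent.Lib.MP_c385f6_ag.Bc.CPT
import Pool.Agent.Lib.MP_c385f6_ag.AllP.Sigma

set_option autoImplicit false

/-!
The finite set of functions of the base change theorem.
-/

namespace Pool.Agent.Lib.MP_c385f6_ag.Bc

open Pool.Agent.Lib.MP_c385f6_ag.Cpl Polynomial Finset

universe u v

namespace PhiAux

/-- the set of the good constants is infinite -/
theorem gd_infinite {p : ℕ} [Fact p.Prime] {L E : Type} [Field L] [Field E] [Infinite L]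
    {S : LF p L E} {O : Type u} [CommRing O] [Algebra L O] (h : Gnr S O) (x : O) :
    (Gd L x).Infinite := by
  classical
  intro hfin
  obtain ⟨a, ha⟩ := hfin.infinite_compl.nonempty
  obtain ⟨n, hn⟩ : ∃ n : ℤ, ∀ c ∈ hfin.toFinset, S.v (c - a) < n := by
    obtain ⟨n, hn⟩ := (hfin.toFinset.image fun c => S.v (c - a)).exists_le
    exact ⟨n + 1, fun c hc => Int.lt_add_one_of_le (hn _ (Finset.mem_image_of_mem _ hc))⟩
  obtain ⟨c, hc, h1⟩ := h.dense x a n
  rcases h1 with h1 | h1
  · rw [sub_eq_zero] at h1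
    exact ha (h1 ▸ hc)
  · have h2 := hn c (hfin.mem_toFinset.2 hc)
    omega

/-- cross ratios determine the points -/
theorem quot_inj {L F : Type*} [Field L] [Field F] [Algebra L F] {w : F} (hw : Transcendental L w)
    {c c' d d' : L} (hc : c ≠ c')
    (h : (w - algebraMap L F c) / (w - algebraMap L F c') =
      (w - algebraMap L F d) / (w - algebraMap L F d')) : c = d ∧ c' = d' := by
  have hne : ∀ x : L, w - algebraMap L F x ≠ 0 := by
    intro x hx
    rw [sub_eq_zero] at hx
    exact hw (hx ▸ isAlgebraic_algebraMap x)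
  rw [div_eq_div_iff (hne _) (hne _)] at h
  -- compare coefficients
  have h1 : algebraMap L F (d + c' - c - d') * w = algebraMap L F (d * c' - c * d') := by
    rw [map_sub, map_sub, map_add, map_sub, map_mul, map_mul]
    linear_combination h
  have h2 : d + c' - c - d' = 0 := by
    by_contra h0
    apply hw
    have h3 : w = algebraMap L F ((d * c' - c * d') / (d + c' - c - d')) := by
      rw [map_div₀, eq_div_iff ((_root_.map_ne_zero _).2 h0), mul_comm]
      exact h1
    rw [h3]
    exact isAlgebraic_algebraMap _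
  rw [h2, map_zero, zero_mul] at h1
  have h3 : d * c' - c * d' = 0 := by
    by_contra h0
    exact (_root_.map_ne_zero (algebraMap L F)).2 h0 h1.symm
  have h4 : (d - c) * (c' - c) = 0 := by linear_combination h3 - c * h2
  have h5 : d = c := by
    rcases mul_eq_zero.1 h4 with h5 | h5
    · exact sub_eq_zero.1 h5
    · exact absurd (sub_eq_zero.1 h5).symm hc
  refine ⟨h5.symm, ?_⟩
  rw [h5] at h2
  linear_combination h2

section

variable {k L : Type} {K₀ F K M : Type u} [Field k] [Field L] [Field K₀] [Field F] [Field K]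
  [Field M] [Algebra k L] [Algebra L F] [Algebra L M] [Algebra K₀ F]
  [Algebra K₀ K] [Algebra K₀ M] [Algebra F M] [Algebra K M]
  [IsScalarTower K₀ F M] [IsScalarTower K₀ K M] [IsScalarTower L F M]

theorem maps_F (hF : IntermediateField.adjoin K₀ (Set.range (algebraMap L F)) = ⊤)
    (g : L ≃ₐ[k] L) (σ : M ≃ₐ[K] M) (hσ : ∀ x : L, σ (algebraMap L M x) = algebraMap L M (g x))
    (x : F) : ∃ x' : F, σ (algebraMap F M x) = algebraMap F M x' := by
  have hx : x ∈ IntermediateField.adjoin K₀ (Set.range (algebraMap L F)) := by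
    rw [hF]; trivial
  induction hx using IntermediateField.adjoin_induction with
  | mem y hy =>
    obtain ⟨c, rfl⟩ := hy
    exact ⟨algebraMap L F (g c), by
      rw [← IsScalarTower.algebraMap_apply L F M, hσ, ← IsScalarTower.algebraMap_apply L F M]⟩
  | algebraMap c =>
    exact ⟨algebraMap K₀ F c, by
      rw [← IsScalarTower.algebraMap_apply K₀ F M, IsScalarTower.algebraMap_apply K₀ K M,
        AlgEquiv.commutes]⟩
  | add a b _ _ ha hb =>
    obtain ⟨a', ha⟩ := ha
    obtain ⟨b', hb⟩ := hb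
    exact ⟨a' + b', by rw [map_add, map_add, map_add, ha, hb]⟩
  | inv a _ ha =>
    obtain ⟨a', ha⟩ := ha
    exact ⟨a'⁻¹, by rw [map_inv₀, map_inv₀, map_inv₀, ha]⟩
  | mul a b _ _ ha hb =>
    obtain ⟨a', ha⟩ := ha
    obtain ⟨b', hb⟩ := hb
    exact ⟨a' * b', by rw [map_mul, map_mul, map_mul, ha, hb]⟩

/-- restriction of a lift to `F` -/
theorem restrict_F (hF : IntermediateField.adjoin K₀ (Set.range (algebraMap L F)) = ⊤)
    (g : L ≃ₐ[k] L) (σ : M ≃ₐ[K] M) (hσ : ∀ x : L, σ (algebraMap L M x) = algebraMap L M (g x)) :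
    ∃ G : F ≃ₐ[K₀] F, ∀ c, G (algebraMap L F c) = algebraMap L F (g c) := by
  have hσ' : ∀ x : L, σ.symm (algebraMap L M x) = algebraMap L M (g.symm x) := by
    intro x
    rw [AlgEquiv.symm_apply_eq, hσ, AlgEquiv.apply_symm_apply]
  choose d hd using maps_F hF g σ hσ
  choose d' hd' using maps_F hF g.symm σ.symm hσ'
  have hi : Function.Injective (algebraMap F M) := (algebraMap F M).injective
  let τ : F ≃+* F :=
    { toFun := d
      invFun := d'
      left_inv := fun m => hi (by rw [← hd', ← hd, AlgEquiv.symm_apply_apply])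
      right_inv := fun m => hi (by rw [← hd, ← hd', AlgEquiv.apply_symm_apply])
      map_mul' := fun a b => hi (by rw [← hd, map_mul, map_mul, map_mul, hd a, hd b])
      map_add' := fun a b => hi (by rw [← hd, map_add, map_add, map_add, hd a, hd b]) }
  refine ⟨AlgEquiv.ofRingEquiv (f := τ) ?_, ?_⟩
  · intro x
    apply hi
    show algebraMap F M (d _) = _
    rw [← hd, ← IsScalarTower.algebraMap_apply K₀ F M, IsScalarTower.algebraMap_apply K₀ K M,
      AlgEquiv.commutes]
  · intro x
    apply hi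
    show algebraMap F M (d _) = _
    rw [← hd, ← IsScalarTower.algebraMap_apply L F M, hσ, ← IsScalarTower.algebraMap_apply L F M]

end

end PhiAux

open PhiAux

/-- the finite set of functions -/
theorem exists_phi (hCPT : StCPT.{u}) (hGnr : StGnr.{u}) (p : ℕ) [hp : Fact p.Prime]
    (k L E : Type) [Field k] [Field L] [Field E] [Algebra ℚ_[p] k] [FiniteDimensional ℚ_[p] k]
    [Algebra k L] [FiniteDimensional k L] [IsGalois k L] (S : LF p L E) (hv : 0 < S.v (p : L))
    {ζ : L} (hζ : IsPrimitiveRoot ζ p)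
    (hS : ∀ a b : L, a ≠ 0 → b ≠ 0 → ¬ SymbolNonzero p 1 a b → S.h a b = 0)
    (hθ : ∃ θ : L, ∀ y : k, algebraMap k L y ≠ θ)
    (hnet : ∀ m : ℤ, ∃ T : Set L, T.Finite ∧ S.Net T m)
    (K₀ F : Type u) [Field K₀] [Field F] [Algebra k K₀] [Algebra k F] [Algebra L F] [Algebra K₀ F]
    [IsScalarTower k L F] [IsScalarTower k K₀ F] (w : K₀) (hw : Transcendental k w)
    (halg : ∀ x : K₀, IsAlgebraic (Algebra.adjoin k {w}) x)
    (hF : IntermediateField.adjoin K₀ (Set.range (algebraMap L F)) = ⊤)
    (hopen : OpenImg k S w) (b : k[X]) (hb : b ≠ 0) :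
    ∃ Φ : Finset F, (∀ u ∈ Φ, UnitR k L b (algebraMap K₀ F w) u) ∧
      ((∀ y : k, PlaceOver k w y) → Φ = ∅) ∧
      ∃ A : Finset L, (∀ c ∈ A, ∀ y : k, algebraMap k L y ≠ c) ∧
      ∀ (K M Ω : Type u) [Field K] [Field M] [Field Ω] [Algebra k K] [Algebra k Ω]
        [Algebra L M] [Algebra L Ω] [Algebra K₀ K] [Algebra K₀ M]
        [Algebra F M] [Algebra K M] [Algebra K Ω] [Algebra M Ω] [IsScalarTower k K₀ K]
        [IsScalarTower k K Ω] [IsScalarTower k L Ω] [IsScalarTower K₀ F M]
        [IsScalarTower K₀ K M] [IsScalarTower L F M] [IsScalarTower K M Ω]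
        [IsScalarTower L M Ω] [IsAlgClosure K Ω],
      IntermediateField.adjoin K (Set.range (algebraMap L M)) = ⊤ →
      (∀ u ∈ Φ, PDiv p L (algebraMap F M u)) →
      ∀ s : AbsGal k Ω →* PiOne k K Ω, IsSection k K Ω s → ∀ y : k,
      (∀ c ∈ A, ∀ c' ∈ A, Tw k p s (algebraMap M Ω (algebraMap F M
        ((algebraMap K₀ F w - algebraMap L F c) / (algebraMap K₀ F w - algebraMap L F c'))))
        ((algebraMap k L y - c) / (algebraMap k L y - c'))) → PlaceOver k w y := by
  classical
  have hck : CharZero k := charZero_of_injective_algebraMap (algebraMap ℚ_[p] k).injective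
  have hcL : CharZero L := charZero_of_injective_algebraMap (algebraMap k L).injective
  have hinf : Infinite L := inferInstance
  by_cases hall : ∀ y : k, PlaceOver k w y
  · exact ⟨∅, by simp, fun _ => rfl, ∅, by simp, by
      intros
      exact hall _⟩
  by_cases hlift : ∀ g : L ≃ₐ[k] L, ∃ G : F ≃ₐ[K₀] F,
      ∀ c, G (algebraMap L F c) = algebraMap L F (g c)
  swap
  · refine ⟨∅, by simp, fun _ => rfl, ∅, by simp, ?_⟩
    intro K M Ω _ _ _ _ _ _ _ _ _ _ _ _ _ _ _ _ _ _ _ _ _ _ hM _ s hs
    exfalso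
    apply hlift
    intro g
    obtain ⟨σ, hσ⟩ := exists_sigma_of_section hM hs g
    exact restrict_F hF g σ hσ
  obtain ⟨Φ₀, hΦ₀, hΦ₀'⟩ := hCPT p hp k L E inferInstance inferInstance inferInstance inferInstance
    inferInstance inferInstance inferInstance inferInstance S hv hθ hnet K₀ F inferInstance
    inferInstance inferInstance inferInstance inferInstance inferInstance inferInstance
    inferInstance w hw halg hF hlift hopen b hb
  obtain ⟨R, hR⟩ := S.fin
  have hwL : Transcendental L (algebraMap K₀ F w) := CPTAux.transc w hw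
  have hpk : (p : k) ≠ 0 := Nat.cast_ne_zero.2 hp.out.ne_zero
  have hG : Gnr S (RR k L b (algebraMap K₀ F w)) := hGnr p hp k L E inferInstance inferInstance
    inferInstance hck inferInstance inferInstance inferInstance S hθ ⟨(p : k), hpk, by
      rw [map_natCast]
      omega⟩ F inferInstance inferInstance inferInstance inferInstance
    (algebraMap K₀ F w) hwL (CPTAux.alg_all w halg hF) b hb
  -- the additional constants
  have hC : ∀ u : F, ∃ C : Finset L, u ∈ Φ₀ → 1 - u ∈ Φ₀ → R.card * 2 < C.card ∧ 0 ∈ C ∧ 1 ∈ C ∧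
      (∃ cs ∈ C, cs ≠ 0 ∧ cs ≠ 1) ∧ ∀ c ∈ C, UnitR k L b (algebraMap K₀ F w)
        (u - algebraMap L F c) := by
    intro u
    by_cases hu : u ∈ Φ₀ ∧ 1 - u ∈ Φ₀
    · have h1 := hΦ₀ _ hu.1
      have h2 := hΦ₀ _ hu.2
      obtain ⟨C, hC1, hC2⟩ := (gd_infinite hG ⟨u, h1.2.1⟩).exists_subset_card_eq (R.card * 2 + 3)
      refine ⟨insert 0 (insert 1 C), fun _ _ => ⟨?_, Finset.mem_insert_self _ _,
        Finset.mem_insert_of_mem (Finset.mem_insert_self _ _), ?_, ?_⟩⟩
      · have h3 : C.card ≤ (insert 0 (insert 1 C)).card := Finset.card_le_card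
          ((Finset.subset_insert _ _).trans (Finset.subset_insert _ _))
        omega
      · have h3 : (C \ {0, 1}).Nonempty := by
          rw [← Finset.card_pos]
          have h4 := Finset.le_card_sdiff {0, 1} C
          have h5 : ({0, 1} : Finset L).card ≤ 2 := Finset.card_le_two
          omega
        obtain ⟨cs, hcs⟩ := h3
        rw [Finset.mem_sdiff, Finset.mem_insert, Finset.mem_singleton, not_or] at hcs
        exact ⟨cs, Finset.mem_insert_of_mem (Finset.mem_insert_of_mem hcs.1), hcs.2⟩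
      · intro c hc
        rcases Finset.mem_insert.1 hc with rfl | hc
        · rw [map_zero, sub_zero]
          exact h1
        rcases Finset.mem_insert.1 hc with rfl | hc
        · rw [map_one]
          have h3 : u - 1 = -(1 - u) := by ring
          rw [h3]
          refine ⟨neg_ne_zero.2 h2.1, neg_mem h2.2.1, ?_⟩
          rw [inv_neg]
          exact neg_mem h2.2.2
        · have h3 : IsUnit ((⟨u, h1.2.1⟩ : RR k L b (algebraMap K₀ F w)) - algebraMap L _ c) :=
            hC1 (Finset.mem_coe.2 hc)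
          rw [CPTAux.isUnit_iff] at h3
          exact h3
    · exact ⟨∅, fun h1 h2 => absurd ⟨h1, h2⟩ hu⟩
  choose C hC using hC
  let Φ : Finset F := Φ₀ ∪ Φ₀.biUnion fun u => if 1 - u ∈ Φ₀ then
    (C u).image fun c => u - algebraMap L F c else ∅
  -- the points
  have hA : ∀ u : F, ∃ A : Finset L, (∀ c ∈ A, ∀ y : k, algebraMap k L y ≠ c) ∧
      ∀ c c' : L, c ≠ c' → (∀ y : k, algebraMap k L y ≠ c) → (∀ y : k, algebraMap k L y ≠ c') →
        (algebraMap K₀ F w - algebraMap L F c) / (algebraMap K₀ F w - algebraMap L F c') = u →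
        c ∈ A ∧ c' ∈ A := by
    intro u
    by_cases hu : ∃ c c' : L, c ≠ c' ∧ (∀ y : k, algebraMap k L y ≠ c) ∧
      (∀ y : k, algebraMap k L y ≠ c') ∧
      (algebraMap K₀ F w - algebraMap L F c) / (algebraMap K₀ F w - algebraMap L F c') = u
    · obtain ⟨c, c', hc, h1, h2, h3⟩ := hu
      refine ⟨{c, c'}, ?_, ?_⟩
      · intro d hd
        rcases Finset.mem_insert.1 hd with rfl | hd
        · exact h1
        · rw [Finset.mem_singleton.1 hd]
          exact h2
      · intro d d' _ _ _ h4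
        obtain ⟨rfl, rfl⟩ := quot_inj hwL hc (h3.trans h4.symm)
        exact ⟨Finset.mem_insert_self _ _, Finset.mem_insert_of_mem (Finset.mem_singleton_self _)⟩
    · exact ⟨∅, by simp, fun c c' hc h1 h2 h3 => absurd ⟨c, c', hc, h1, h2, h3⟩ hu⟩
  choose A hA1 hA2 using hA
  refine ⟨Φ, ?_, fun h => absurd h hall, Φ₀.biUnion A, ?_, ?_⟩
  · intro u hu
    rcases Finset.mem_union.1 hu with hu | hu
    · exact hΦ₀ u hu
    · obtain ⟨v, hv, hu⟩ := Finset.mem_biUnion.1 hu
      by_cases h1 : 1 - v ∈ Φ₀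
      · rw [if_pos h1] at hu
        obtain ⟨c, hc, rfl⟩ := Finset.mem_image.1 hu
        exact (hC v hv h1).2.2.2.2 c hc
      · rw [if_neg h1] at hu
        simp at hu
  · intro c hc
    obtain ⟨u, -, hu⟩ := Finset.mem_biUnion.1 hc
    exact hA1 u c hu
  · intro K M Ω _ _ _ _ _ _ _ _ _ _ _ _ _ _ _ _ _ _ _ _ _ _ hM hPD s hs y hval
    obtain ⟨D, hD⟩ := sec_all p k L E S ζ hζ hS hR K₀ F K M Ω hF hM w y (Φ₀ : Set F)
      (fun u hu => hPD u (Finset.mem_union_left _ hu)) (by
        intro u hu hu'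
        obtain ⟨h1, h2, h3, h4, h5⟩ := hC u hu hu'
        refine ⟨C u, h1, h2, h3, h4, fun c hc => hPD _ (Finset.mem_union_right _
          (Finset.mem_biUnion.2 ⟨u, hu, ?_⟩))⟩
        have hu'' : 1 - u ∈ Φ₀ := hu'
        rw [if_pos hu'']
        exact Finset.mem_image_of_mem _ hc) s hs (by
        intro c c' hc hc' hcc
        by_cases hne : c = c'
        · subst hne
          have h1 : algebraMap K₀ F w - algebraMap L F c ≠ 0 := by
            intro h
            rw [sub_eq_zero] at h
            exact hwL (h ▸ isAlgebraic_algebraMap c)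
          have h2 : algebraMap k L y - c ≠ 0 := sub_ne_zero.2 (hc y)
          rw [div_self h1, div_self h2, map_one, map_one]
          have h3 := SecAux.tw_const (k := k) (p := p) (s := s) (one_ne_zero : (1 : L) ≠ 0)
          rwa [map_one] at h3
        · obtain ⟨h1, h2⟩ := hA2 _ c c' hne hc hc' rfl
          exact hval c (Finset.mem_biUnion.2 ⟨_, hcc, h1⟩) c' (Finset.mem_biUnion.2 ⟨_, hcc, h2⟩))
    exact hΦ₀' D y hD

end Pool.Agent.Lib.MP_c385f6_ag.Bc
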