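import Mathlib
import Pool.Agent.Lib.MP_c385f6_ag.Bc.Defs

set_option autoImplicit false

/-!
Statements of the modules of the second part of the base change theorem.
-/

namespace Pool.Agent.Lib.MP_c385f6_ag.Bc

open Pool.Agent.Lib.MP_c385f6_ag.Cpl Polynomial Finset

/-- (F1) `F` is unramified over `L(w)` outside of the zeros of a polynomial `b` -/
def StUnr.{u} : Prop :=
  ∀ (k L : Type) (_ : Field k) (_ : Field L) (_ : CharZero k) (_ : Algebra k L)
    (_ : FiniteDimensional k L) (F : Type u) (_ : Field F) (_ : Algebra k F) (_ : Algebra L F)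
    (_ : IsScalarTower k L F) (w : F), Transcendental L w →
    FiniteDimensional (IntermediateField.adjoin L {w}) F →
    ∃ b : k[X], b ≠ 0 ∧ ∀ A : ValuationSubring F, (∀ c : L, algebraMap L F c ∈ A) → w ∈ A →
      A.valuation (aeval w b) = 1 → ∀ x : F, x ≠ 0 →
        ∃ r ∈ IntermediateField.adjoin L {w}, A.valuation x = A.valuation r

/-- (F2) the zeros and poles of `u` lie over the zeros of a polynomial `c` (and over infinity) -/
def StSupp.{u} : Prop :=
  ∀ (k : Type) (_ : Field k) (F : Type u) (_ : Field F) (_ : Algebra k F) (w : F),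
    Transcendental k w → (∀ x : F, IsAlgebraic (Algebra.adjoin k {w}) x) → ∀ u : F, u ≠ 0 →
    ∃ c : k[X], c ≠ 0 ∧ ∀ A : ValuationSubring F, (∀ a : k, algebraMap k F a ∈ A) → w ∈ A →
      A.valuation (aeval w c) = 1 → A.valuation u = 1

/-- (F3) a criterion for `PDiv` -/
def StPM.{u, v} : Prop :=
  ∀ (p : ℕ) (_ : Fact p.Prime) (k L : Type) (_ : Field k) (_ : Field L) (_ : Algebra k L)
    (F M : Type u) (_ : Field F) (_ : Field M) (_ : Algebra L F) (_ : Algebra L M) (_ : Algebra F M)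
    (_ : IsScalarTower L F M) (w : F), Transcendental L w → ∀ (f₀ : k[X]), f₀ ≠ 0 →
    ∀ (ι : Type v) (h : ι → L[X]) (z : ι → M), (∀ i, h i ≠ 0) →
    (∀ i, z i ^ p = algebraMap F M (aeval w (h i))) →
    (∀ P : L[X], Irreducible P → P ∣ f₀.map (algebraMap k L) → ∃ i, ¬ p ∣ multiplicity P (h i)) →
    ∀ u : F, u ≠ 0 →
    (∀ A : ValuationSubring F, (∀ c : L, algebraMap L F c ∈ A) → A.valuation u = 1 ∨
      (w ∈ A ∧ A.valuation (aeval w (f₀.map (algebraMap k L))) < 1 ∧
        ∃ r ∈ IntermediateField.adjoin L {w}, A.valuation u = A.valuation r)) →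
    PDiv p L (algebraMap F M u)

/-- (F4) embeddings of the compositum of `K₀` and `L` -/
def StEmb.{u, v} : Prop :=
  ∀ (k L : Type) (_ : Field k) (_ : Field L) (_ : Algebra k L) (_ : FiniteDimensional k L)
    (_ : IsGalois k L) (K₀ F : Type u) (_ : Field K₀) (_ : Field F) (_ : Algebra k K₀)
    (_ : Algebra k F) (_ : Algebra L F) (_ : Algebra K₀ F) (_ : IsScalarTower k L F)
    (_ : IsScalarTower k K₀ F), IntermediateField.adjoin K₀ (Set.range (algebraMap L F)) = ⊤ →
    ∀ (Ω : Type v) (_ : Field Ω) (_ : IsAlgClosed Ω) (_ : Algebra k Ω) (_ : Algebra L Ω)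
    (_ : Algebra K₀ Ω) (_ : IsScalarTower k L Ω) (_ : IsScalarTower k K₀ Ω),
    (∃ e : F →ₐ[K₀] Ω, Set.range (fun c : L => e (algebraMap L F c)) =
      Set.range (algebraMap L Ω)) ∧
    ((∀ g : L ≃ₐ[k] L, ∃ G : F ≃ₐ[K₀] F, ∀ c, G (algebraMap L F c) = algebraMap L F (g c)) →
      ∃ e : F →ₐ[K₀] Ω, ∀ c : L, e (algebraMap L F c) = algebraMap L Ω c)

/-- (F5) the valuation of `S` and the norm of `k` -/
def StNm : Prop :=
  ∀ (p : ℕ) (_ : Fact p.Prime) (k L E : Type) (_ : Field k) (_ : Field L) (_ : Field E)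
    (_ : Algebra ℚ_[p] k) (_ : FiniteDimensional ℚ_[p] k) (_ : Algebra k L)
    (_ : FiniteDimensional k L) (S : LF p L E), 0 < S.v (p : L) →
    (∀ ε : ℝ, 0 < ε → ∃ n : ℤ, ∀ y : k, S.Gz n (algebraMap k L y) → spectralNorm ℚ_[p] k y < ε) ∧
    ∀ C : ℝ, ∃ n : ℤ, ∀ y : k, y ≠ 0 → S.v (algebraMap k L y) ≤ n → C < spectralNorm ℚ_[p] k y

/-- `t` is a uniformizer of the valuation ring `B` -/
def Unif {K : Type*} [Field K] (B : ValuationSubring K) (t : K) : Prop :=
  B.valuation t < 1 ∧ ∀ x : K, B.valuation x < 1 → B.valuation x ≤ B.valuation t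

/-- (G1) the implicit function theorem: near an unramified rational place there are rational
places over all points -/
def StImp.{u} : Prop :=
  ∀ (p : ℕ) (_ : Fact p.Prime) (k : Type) (_ : Field k) (_ : Algebra ℚ_[p] k)
    (_ : FiniteDimensional ℚ_[p] k) (K₀ : Type u) (_ : Field K₀) (_ : Algebra k K₀) (t : K₀),
    Transcendental k t → FiniteDimensional (IntermediateField.adjoin k {t}) K₀ →
    ∀ B : ValuationSubring K₀, IsRationalPlace k K₀ B → Unif B t →
    ∃ ε : ℝ, 0 < ε ∧ ∀ y : k, spectralNorm ℚ_[p] k y < ε → PlaceOver k t y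

/-- (G2) uniformizers -/
def StUnif.{u} : Prop :=
  ∀ (k : Type) (_ : Field k) (K₀ : Type u) (_ : Field K₀) (_ : Algebra k K₀) (w : K₀),
    Transcendental k w → FiniteDimensional (IntermediateField.adjoin k {w}) K₀ →
    ∀ B : ValuationSubring K₀, IsRationalPlace k K₀ B →
    ∃ t : K₀, Transcendental k t ∧ FiniteDimensional (IntermediateField.adjoin k {t}) K₀ ∧ Unif B t

/-- (G3) a rational function which maps small discs onto `k` -/
def StSur : Prop :=
  ∀ (p : ℕ) (_ : Fact p.Prime) (k : Type) (_ : Field k) (_ : Algebra ℚ_[p] k)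
    (_ : FiniteDimensional ℚ_[p] k) (ε : ℝ), 0 < ε →
    ∃ u v : k[X], (∀ c d : k, C c * u + C d * v = 0 → c = 0 ∧ d = 0) ∧
      ∀ y : k, ∃ x : k, spectralNorm ℚ_[p] k x < ε ∧ v.eval x ≠ 0 ∧ u.eval x = y * v.eval x

/-- (G4) every curve with a rational place has a function which takes all values at rational
places -/
def StExW.{u} : Prop :=
  ∀ (p : ℕ) (_ : Fact p.Prime) (k : Type) (_ : Field k) (_ : Algebra ℚ_[p] k)
    (_ : FiniteDimensional ℚ_[p] k) (K₀ : Type u) (_ : Field K₀) (_ : Algebra k K₀) (w₀ : K₀),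
    Transcendental k w₀ → FiniteDimensional (IntermediateField.adjoin k {w₀}) K₀ →
    (∃ B : ValuationSubring K₀, IsRationalPlace k K₀ B) →
    ∃ w : K₀, Transcendental k w ∧ FiniteDimensional (IntermediateField.adjoin k {w}) K₀ ∧
      ∀ y : k, PlaceOver k w y

end Pool.Agent.Lib.MP_c385f6_ag.Bc
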