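import Mathlib
import Pool.Agent.Lib.MP_c385f6_ag.Bc.Phi
import Pool.Agent.Lib.MP_c385f6_ag.Bc.StF
import Pool.Agent.Lib.MP_c385f6_ag.Bc.Emb2

set_option autoImplicit false

/-!
The branch points needed for a curve with a map to the projective line.
-/

namespace Pool.Agent.Lib.MP_c385f6_ag.Bc

open Pool.Agent.Lib.MP_c385f6_ag.Cpl Polynomial Finset

universe u v

namespace CovAux

/-- A polynomial without zeros in `k`. -/
theorem exists_free {k : Type*} [Field k] {c : k[X]} (hc : c ≠ 0) :
    ∃ q : k[X], q ≠ 0 ∧ (∀ y : k, q.eval y ≠ 0) ∧ (c = 1 → q = 1) ∧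
      c = (c.roots.map fun a => X - C a).prod * q := by
  obtain ⟨q, hq, -, hq'⟩ := exists_prod_multiset_X_sub_C_mul c
  have hq0 : q ≠ 0 := by
    rintro rfl
    rw [mul_zero] at hq
    exact hc hq.symm
  refine ⟨q, hq0, fun y hy => ?_, ?_, hq.symm⟩
  · have h1 : y ∈ q.roots := (mem_roots hq0).2 hy
    rw [hq'] at h1
    exact Multiset.notMem_zero _ h1
  · rintro rfl
    simpa using hq

section fin
open IntermediateField

theorem fd {k L K₀ F : Type*} [Field k] [Field L] [Field K₀] [Field F] [Algebra k L] [Algebra k K₀]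
    [Algebra k F] [Algebra L F] [Algebra K₀ F] [IsScalarTower k L F] [IsScalarTower k K₀ F] (w : K₀)
    (h1 : FiniteDimensional (adjoin k {w}) K₀) (h2 : FiniteDimensional K₀ F) :
    FiniteDimensional (adjoin L {algebraMap K₀ F w}) F := by
  have h3 : FiniteDimensional (adjoin k {w}) F := Module.Finite.trans K₀ F
  have hmem : ∀ z : adjoin k {w}, algebraMap K₀ F z ∈ adjoin L {algebraMap K₀ F w} := by
    rintro ⟨z, hz⟩
    change algebraMap K₀ F z ∈ _
    induction hz using IntermediateField.adjoin_induction with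
    | mem y hy =>
      rw [Set.mem_singleton_iff.1 hy]
      exact subset_adjoin _ _ rfl
    | algebraMap c =>
      rw [← IsScalarTower.algebraMap_apply k K₀ F, IsScalarTower.algebraMap_apply k L F]
      exact IntermediateField.algebraMap_mem _ _
    | add a b _ _ ha hb => rw [map_add]; exact add_mem ha hb
    | inv a _ ha => rw [map_inv₀]; exact inv_mem ha
    | mul a b _ _ ha hb => rw [map_mul]; exact mul_mem ha hb
  let i : Algebra (adjoin k {w}) (adjoin L {algebraMap K₀ F w}) :=
    (((algebraMap K₀ F).comp (algebraMap (adjoin k {w}) K₀)).codRestrict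
      (adjoin L {algebraMap K₀ F w}) hmem).toAlgebra
  have hT : IsScalarTower (adjoin k {w}) (adjoin L {algebraMap K₀ F w}) F :=
    IsScalarTower.of_algebraMap_eq fun x => rfl
  exact Module.Finite.of_restrictScalars_finite (adjoin k {w}) _ F

theorem fd_comp {k L K₀ Ω : Type*} [Field k] [Field L] [Field K₀] [Field Ω] [Algebra k L]
    [Algebra k K₀] [Algebra k Ω] [Algebra K₀ Ω] [IsScalarTower k K₀ Ω] [FiniteDimensional k L]
    (ι₀ : L →ₐ[k] Ω) : FiniteDimensional K₀ (adjoin K₀ (Set.range ι₀)) := by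
  let b := Module.finBasis k L
  have h1 : FiniteDimensional K₀ (adjoin K₀ (Set.range fun i => ι₀ (b i))) := by
    refine finiteDimensional_adjoin ?_
    rintro _ ⟨i, rfl⟩
    exact ((Algebra.IsIntegral.isIntegral (R := k) (b i)).map ι₀).tower_top
  have h2 : adjoin K₀ (Set.range ι₀) ≤ adjoin K₀ (Set.range fun i => ι₀ (b i)) := by
    rw [adjoin_le_iff]
    rintro _ ⟨x, rfl⟩
    rw [← b.sum_repr x, map_sum]
    refine sum_mem fun i _ => ?_
    rw [map_smul, Algebra.smul_def, IsScalarTower.algebraMap_apply k K₀ Ω]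
    exact mul_mem (IntermediateField.algebraMap_mem _ _) (subset_adjoin _ _ ⟨i, rfl⟩)
  exact Module.Finite.of_injective (inclusion h2).toLinearMap (inclusion_injective h2)

end fin

section

variable {k L F : Type*} [Field k] [Field L] [Field F] [Algebra k L] [Algebra k F]
  [Algebra L F] [IsScalarTower k L F]

theorem val_le {A : ValuationSubring F} (hA : ∀ c : L, algebraMap L F c ∈ A) {w : F}
    (hw : w ∈ A) (q : k[X]) : A.valuation (aeval w q) ≤ 1 := by
  rw [A.valuation_le_one_iff, aeval_eq_sum_range]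
  refine sum_mem fun i _ => ?_
  rw [Algebra.smul_def, IsScalarTower.algebraMap_apply k L F]
  exact mul_mem (hA _) (pow_mem hw i)

/-- outside of the rational points and the zeros of `b` -/
theorem not_rat {A : ValuationSubring F} (hA : ∀ c : L, algebraMap L F c ∈ A) {w : F} {b : k[X]}
    (h : A ∉ Rat k L b w) : w ∈ A ∧ (∀ a : k, A.valuation (w - algebraMap k F a) = 1) ∧
      A.valuation (aeval w b) = 1 := by
  have hw : w ∈ A := by
    by_contra hw
    exact h ⟨hA, Or.inr (Or.inl hw)⟩
  refine ⟨hw, fun a => ?_, ?_⟩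
  · refine le_antisymm ?_ (not_lt.1 fun h1 => h ⟨hA, Or.inl ⟨a, h1⟩⟩)
    rw [A.valuation_le_one_iff, IsScalarTower.algebraMap_apply k L F]
    exact sub_mem hw (hA _)
  · exact le_antisymm (val_le hA hw b) (not_lt.1 fun h1 => h ⟨hA, Or.inr (Or.inr h1)⟩)

theorem val_roots {A : ValuationSubring F} {w : F}
    (h : ∀ a : k, A.valuation (w - algebraMap k F a) = 1) (s : Multiset k) :
    A.valuation (aeval w (s.map fun a => X - C a).prod) = 1 := by
  induction s using Multiset.induction_on with
  | empty => rw [Multiset.map_zero, Multiset.prod_zero, map_one, map_one]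
  | cons a s ih =>
    rw [Multiset.map_cons, Multiset.prod_cons, map_mul, map_mul, ih, mul_one, map_sub, aeval_X,
      aeval_C, h]

end

end CovAux

open CovAux

/-- The branch points needed for a curve with a map to the projective line. -/
theorem exists_data (hCPT : StCPT.{u}) (hGnr : StGnr.{u}) (hUnr : StUnr.{u}) (hSupp : StSupp.{u})
    (hPM : StPM.{u, v}) (p : ℕ) [hp : Fact p.Prime]
    (k L E : Type) [Field k] [Field L] [Field E] [Algebra ℚ_[p] k] [FiniteDimensional ℚ_[p] k]
    [Algebra k L] [FiniteDimensional k L] [IsGalois k L] (S : LF p L E) (hv : 0 < S.v (p : L))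
    {ζ : L} (hζ : IsPrimitiveRoot ζ p)
    (hS : ∀ a b : L, a ≠ 0 → b ≠ 0 → ¬ SymbolNonzero p 1 a b → S.h a b = 0)
    (hθ : ∃ θ : L, ∀ y : k, algebraMap k L y ≠ θ)
    (hnet : ∀ m : ℤ, ∃ T : Set L, T.Finite ∧ S.Net T m)
    (K₀ : Type u) [Field K₀] [Algebra k K₀] (w : K₀) (hw : Transcendental k w)
    (hfin : FiniteDimensional (IntermediateField.adjoin k {w}) K₀) (hopen : OpenImg k S w) :
    ∃ (f₀ : k[X]) (A : Finset L), f₀ ≠ 0 ∧ (∀ y : k, f₀.eval y ≠ 0) ∧
      ((∀ y : k, PlaceOver k w y) → f₀ = 1) ∧ (∀ c ∈ A, ∀ y : k, algebraMap k L y ≠ c) ∧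
      ∀ (K M Ω : Type u) [Field K] [Field M] [Field Ω] [Algebra k K] [Algebra k Ω]
        [Algebra L M] [Algebra L Ω] [Algebra K₀ K] [Algebra K₀ M] [Algebra K M] [Algebra K Ω]
        [Algebra M Ω] [IsScalarTower k K₀ K] [IsScalarTower k K Ω] [IsScalarTower k L Ω]
        [IsScalarTower K₀ K M] [IsScalarTower K M Ω] [IsScalarTower L M Ω] [IsAlgClosure K Ω],
      IntermediateField.adjoin K (Set.range (algebraMap L M)) = ⊤ →
      ∀ (ι : Type v) (h : ι → L[X]) (z : ι → M), (∀ i, h i ≠ 0) →
      (∀ i, z i ^ p = aeval (algebraMap K₀ M w) (h i)) →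
      (∀ P : L[X], Irreducible P → P ∣ f₀.map (algebraMap k L) →
        ∃ i, ¬ p ∣ multiplicity P (h i)) →
      ∀ s : AbsGal k Ω →* PiOne k K Ω, IsSection k K Ω s → ∀ y : k,
      (∀ c ∈ A, ∀ c' ∈ A, Tw k p s (algebraMap M Ω
        ((algebraMap K₀ M w - algebraMap L M c) / (algebraMap K₀ M w - algebraMap L M c')))
        ((algebraMap k L y - c) / (algebraMap k L y - c'))) → PlaceOver k w y := by
  classical
  have hck : CharZero k := charZero_of_injective_algebraMap (algebraMap ℚ_[p] k).injective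
  have hcL : CharZero L := charZero_of_injective_algebraMap (algebraMap k L).injective
  -- the compositum
  let Ω₀ := AlgebraicClosure K₀
  let ι₀ : L →ₐ[k] Ω₀ := IsAlgClosed.lift
  let F := IntermediateField.adjoin K₀ (Set.range ι₀)
  have hLF : ∀ x : L, ι₀ x ∈ F := fun x => IntermediateField.subset_adjoin _ _ ⟨x, rfl⟩
  let iLF : Algebra L F := ((ι₀ : L →+* Ω₀).codRestrict F hLF).toAlgebra
  have iT1 : IsScalarTower k L F := IsScalarTower.of_algebraMap_eq fun x => Subtype.ext (by
    change algebraMap k Ω₀ x = ι₀ (algebraMap k L x)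
    rw [ι₀.commutes])
  have hF : IntermediateField.adjoin K₀ (Set.range (algebraMap L F)) = ⊤ := by
    apply IntermediateField.lift_injective
    rw [IntermediateField.lift_adjoin, IntermediateField.lift_top]
    congr 1
    ext x
    constructor
    · rintro ⟨_, ⟨x, rfl⟩, rfl⟩
      exact ⟨x, rfl⟩
    · rintro ⟨x, rfl⟩
      exact ⟨algebraMap L F x, ⟨x, rfl⟩, rfl⟩
  have hwL : Transcendental L (algebraMap K₀ F w) := CPTAux.transc w hw
  have hwk : Transcendental k (algebraMap K₀ F w) := by
    rw [transcendental_algebraMap_iff (algebraMap K₀ F).injective]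
    exact hw
  have halg : ∀ x : K₀, IsAlgebraic (Algebra.adjoin k {w}) x := fun x =>
    (IntermediateField.isAlgebraic_adjoin_iff).1 (Algebra.IsAlgebraic.isAlgebraic x)
  have hfF : FiniteDimensional K₀ F := fd_comp ι₀
  have hfL : FiniteDimensional (IntermediateField.adjoin L {algebraMap K₀ F w}) F := fd w hfin hfF
  have hfk : FiniteDimensional (IntermediateField.adjoin k {algebraMap K₀ F w}) F := fd w hfin hfF
  have halgk : ∀ x : F, IsAlgebraic (Algebra.adjoin k {algebraMap K₀ F w}) x := fun x =>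
    (IntermediateField.isAlgebraic_adjoin_iff).1 (Algebra.IsAlgebraic.isAlgebraic x)
  -- the bad points
  obtain ⟨b₁, hb₁, hunr⟩ := hUnr k L inferInstance inferInstance hck inferInstance inferInstance F
    inferInstance inferInstance inferInstance iT1 (algebraMap K₀ F w) hwL hfL
  obtain ⟨b, hb, -, -, hbb⟩ := exists_free hb₁
  -- the functions
  obtain ⟨Φ, hΦ, hΦ0, A, hA, hΦA⟩ := exists_phi hCPT hGnr p k L E S hv hζ hS hθ hnet K₀ F w hw halg
    hF hopen b hb
  have hc : ∀ u : F, ∃ c : k[X], c ≠ 0 ∧ (u ∈ Φ → ∀ A : ValuationSubring F,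
      (∀ a : k, algebraMap k F a ∈ A) → algebraMap K₀ F w ∈ A →
      A.valuation (aeval (algebraMap K₀ F w) c) = 1 → A.valuation u = 1) := by
    intro u
    by_cases hu : u ∈ Φ
    · obtain ⟨c, hc, h⟩ := hSupp k inferInstance F inferInstance inferInstance (algebraMap K₀ F w)
        hwk halgk u (hΦ u hu).1
      exact ⟨c, hc, fun _ => h⟩
    · exact ⟨1, one_ne_zero, fun h => absurd h hu⟩
  choose c hc hcv using hc
  obtain ⟨f₀, hf₀, hf₀k, hf₀1, hf₀c⟩ := exists_free (c := ∏ u ∈ Φ, c u)
    (Finset.prod_ne_zero_iff.2 fun u _ => hc u)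
  refine ⟨f₀, A, hf₀, hf₀k, fun h => hf₀1 (by rw [hΦ0 h, Finset.prod_empty]), hA, ?_⟩
  intro K M Ω _ _ _ _ _ _ _ _ _ _ _ _ _ _ _ _ _ _ _ hM ι h z hh hz hram s hs y hy
  have hacO : IsAlgClosed Ω := IsAlgClosure.isAlgClosed K
  let iKΩ : Algebra K₀ Ω := ((algebraMap K Ω).comp (algebraMap K₀ K)).toAlgebra
  have iT2 : IsScalarTower K₀ K Ω := IsScalarTower.of_algebraMap_eq fun x => rfl
  have iT3 : IsScalarTower K₀ M Ω := IsScalarTower.of_algebraMap_eq fun x => by
    rw [IsScalarTower.algebraMap_apply K₀ K M, ← IsScalarTower.algebraMap_apply K M Ω]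
    rfl
  have iT4 : IsScalarTower k K₀ Ω := IsScalarTower.of_algebraMap_eq fun x => by
    rw [IsScalarTower.algebraMap_apply k K Ω, IsScalarTower.algebraMap_apply k K₀ K]
    rfl
  obtain ⟨e, he1, he2⟩ := exists_emb (k := k) (L := L) (K₀ := K₀) (F := F) (K := K) (M := M)
    (Ω := Ω) hF (fun g => exists_sigma_of_section hM hs g)
  let iFM : Algebra F M := e.toAlgebra
  have iT5 : IsScalarTower K₀ F M := IsScalarTower.of_algebraMap_eq fun x => (he1 x).symm
  have iT6 : IsScalarTower L F M := IsScalarTower.of_algebraMap_eq fun x => (he2 x).symm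
  have hPD : ∀ u ∈ Φ, PDiv p L (algebraMap F M u) := by
    intro u hu
    refine hPM p hp k L inferInstance inferInstance inferInstance F M inferInstance inferInstance
      iLF inferInstance iFM iT6 (algebraMap K₀ F w) hwL f₀ hf₀ ι h z hh ?_ hram u (hΦ u hu).1 ?_
    · intro i
      rw [hz i, ← aeval_algebraMap_apply, ← IsScalarTower.algebraMap_apply K₀ F M]
    · intro B hB
      by_cases hR : B ∈ Rat k L b (algebraMap K₀ F w)
      · left
        obtain ⟨h0, h1, h2⟩ := hΦ u hu
        have h3 : B.valuation u ≤ 1 := (B.valuation_le_one_iff _).2 (h1 B hR)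
        have h4 : B.valuation u⁻¹ ≤ 1 := (B.valuation_le_one_iff _).2 (h2 B hR)
        refine le_antisymm h3 ?_
        rw [map_inv₀] at h4
        exact (inv_le_one₀ (zero_lt_iff.2 ((Valuation.ne_zero_iff _).2 h0))).1 h4
      · obtain ⟨h1, h2, h3⟩ := not_rat hB hR
        by_cases hcu : B.valuation (aeval (algebraMap K₀ F w) (c u)) = 1
        · left
          refine hcv u hu B (fun a => ?_) h1 hcu
          rw [IsScalarTower.algebraMap_apply k L F]
          exact hB _
        · right
          refine ⟨h1, ?_, hunr B hB h1 ?_ u (hΦ u hu).1⟩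
          · have h4 : B.valuation (aeval (algebraMap K₀ F w) (∏ u ∈ Φ, c u)) < 1 := by
              rw [← Finset.mul_prod_erase _ _ hu, map_mul, map_mul]
              exact mul_lt_one_of_lt_of_le (lt_of_le_of_ne (val_le hB h1 _) hcu)
                (val_le hB h1 _)
            rw [hf₀c, map_mul, map_mul, val_roots h2, one_mul] at h4
            rwa [aeval_map_algebraMap]
          · rw [hbb, map_mul, map_mul, val_roots h2, one_mul]
            exact h3
  refine hΦA K M Ω hM hPD s hs y fun c hc c' hc' => ?_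
  have h5 : algebraMap F M ((algebraMap K₀ F w - algebraMap L F c) /
      (algebraMap K₀ F w - algebraMap L F c')) =
      (algebraMap K₀ M w - algebraMap L M c) / (algebraMap K₀ M w - algebraMap L M c') := by
    rw [map_div₀, map_sub, map_sub, ← IsScalarTower.algebraMap_apply K₀ F M,
      ← IsScalarTower.algebraMap_apply L F M, ← IsScalarTower.algebraMap_apply L F M]
  rw [h5]
  exact hy c hc c' hc'

end Pool.Agent.Lib.MP_c385f6_ag.Bc
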