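import Mathlib
import Pool.Agent.Lib.MP_c385f6_ag.Bc.StF

set_option autoImplicit false

/-!
A function on the curve which takes all values at rational places (base change theorem).
-/

namespace Pool.Agent.Lib.MP_c385f6_ag.Bc

open Pool.Agent.Lib.MP_c385f6_ag.Cpl Polynomial

universe u

namespace ExWAux

section

variable {k : Type*} {K : Type*} [Field k] [Field K] [Algebra k K]

/-- exchange -/
theorem exch (t w : K) (h : FiniteDimensional (IntermediateField.adjoin k {t}) K)
    (ht : IsIntegral (IntermediateField.adjoin k {w}) t) :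
    FiniteDimensional (IntermediateField.adjoin k {w}) K := by
  set N : IntermediateField (IntermediateField.adjoin k {w}) K :=
    IntermediateField.adjoin (IntermediateField.adjoin k {w}) {t} with hN
  have hle : IntermediateField.adjoin k {t} ≤ N.restrictScalars k := by
    rw [IntermediateField.adjoin_le_iff, Set.singleton_subset_iff]
    exact IntermediateField.subset_adjoin _ {t} (Set.mem_singleton t)
  let f : IntermediateField.adjoin k {t} →+* N := (IntermediateField.inclusion hle).toRingHom
  let : Algebra (IntermediateField.adjoin k {t}) N := f.toAlgebra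
  have : IsScalarTower (IntermediateField.adjoin k {t}) N K :=
    IsScalarTower.of_algebraMap_eq fun x => rfl
  have : FiniteDimensional N K :=
    Module.Finite.of_restrictScalars_finite (IntermediateField.adjoin k {t}) N K
  have : FiniteDimensional (IntermediateField.adjoin k {w}) N :=
    IntermediateField.adjoin.finiteDimensional ht
  exact FiniteDimensional.trans (IntermediateField.adjoin k {w}) N K

/-- constants are units -/
theorem val_const {B : ValuationSubring K} (hB : ∀ c : k, algebraMap k K c ∈ B) {c : k}
    (hc : c ≠ 0) : B.valuation (algebraMap k K c) = 1 := by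
  apply le_antisymm
  · exact (B.valuation_le_one_iff _).2 (hB c)
  · have h1 := (B.valuation_le_one_iff _).2 (hB c⁻¹)
    rw [map_inv₀, map_inv₀] at h1
    have h0 : B.valuation (algebraMap k K c) ≠ 0 := by
      rw [Ne, Valuation.zero_iff]
      exact (_root_.map_ne_zero _).2 hc
    exact (inv_le_one₀ (zero_lt_iff.2 h0)).1 h1

theorem aeval_mem {B : ValuationSubring K} (hB : ∀ c : k, algebraMap k K c ∈ B) {t : K}
    (ht : t ∈ B) (G : k[X]) : aeval t G ∈ B := by
  rw [aeval_eq_sum_range]
  refine sum_mem fun i _ => ?_
  rw [Algebra.smul_def]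
  exact B.mul_mem _ _ (hB _) (pow_mem ht i)

theorem val_eval {B : ValuationSubring K} (hB : ∀ c : k, algebraMap k K c ∈ B) {t : K} {x : k}
    (ht : B.valuation (t - algebraMap k K x) < 1) (P : k[X]) :
    B.valuation (aeval t P - algebraMap k K (P.eval x)) < 1 := by
  have htB : t ∈ B := by
    have h1 : t - algebraMap k K x ∈ B := (B.valuation_le_one_iff _).1 ht.le
    have h2 := B.add_mem _ _ h1 (hB x)
    rwa [sub_add_cancel] at h2
  obtain ⟨G, hG⟩ := X_sub_C_dvd_sub_C_eval (a := x) (p := P)
  have h1 := congrArg (aeval t) hG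
  rw [map_sub, map_mul, map_sub, aeval_X, aeval_C, aeval_C] at h1
  rw [h1, map_mul]
  have h2 : B.valuation (aeval t G) ≤ 1 := (B.valuation_le_one_iff _).2 (aeval_mem hB htB G)
  exact mul_lt_one_of_lt_of_le ht h2

end

end ExWAux

open ExWAux in
theorem stExW (h1 : StImp.{u}) (h2 : StUnif.{u}) (h3 : StSur) : StExW.{u} := by
  intro p hp k i1 i2 i3 K₀ i4 i5 w₀ htr hfin hex
  obtain ⟨B, hB⟩ := hex
  obtain ⟨t, ht, hft, hun⟩ := h2 k i1 K₀ i4 i5 w₀ htr hfin B hB
  obtain ⟨ε, hε, himp⟩ := h1 p hp k i1 i2 i3 K₀ i4 i5 t ht hft B hB hun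
  obtain ⟨u, v, hind, hsur⟩ := h3 p hp k i1 i2 i3 ε hε
  have hv0 : v ≠ 0 := by
    rintro rfl
    obtain ⟨x, -, h4, -⟩ := hsur 0
    exact h4 eval_zero
  have hvt : aeval t v ≠ 0 := fun h => hv0 ((transcendental_iff.1 ht) v h)
  set w : K₀ := aeval t u / aeval t v with hw
  have hwv : w * aeval t v = aeval t u := by rw [hw, div_mul_cancel₀ _ hvt]
  have halg : IsAlgebraic (IntermediateField.adjoin k {w}) t := by
    set W : IntermediateField.adjoin k {w} :=
      ⟨w, IntermediateField.subset_adjoin k {w} (Set.mem_singleton w)⟩ with hW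
    refine ⟨u.map (algebraMap k (IntermediateField.adjoin k {w})) -
      C W * v.map (algebraMap k (IntermediateField.adjoin k {w})), ?_, ?_⟩
    · intro hq
      obtain ⟨i, hi⟩ : ∃ i, v.coeff i ≠ 0 := by
        by_contra hno
        push Not at hno
        exact hv0 (Polynomial.ext fun i => by rw [hno i, coeff_zero])
      have hco : ∀ j, algebraMap k K₀ (u.coeff j) = w * algebraMap k K₀ (v.coeff j) := by
        intro j
        have h5 := congrArg (fun q => (coeff q j : IntermediateField.adjoin k {w})) hq
        simp only [coeff_sub, coeff_map, coeff_C_mul, coeff_zero] at h5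
        have h6 := congrArg (fun z : IntermediateField.adjoin k {w} => (z : K₀)) (sub_eq_zero.1 h5)
        exact h6
      have hwc : w = algebraMap k K₀ (u.coeff i / v.coeff i) := by
        rw [map_div₀, hco i, mul_div_cancel_right₀ _ ((_root_.map_ne_zero _).2 hi)]
      have huv : C (1 : k) * u + C (-(u.coeff i / v.coeff i)) * v = 0 := by
        ext j
        rw [coeff_add, coeff_C_mul, coeff_C_mul, coeff_zero, one_mul]
        have h7 := hco j
        rw [hwc, ← map_mul] at h7
        have h8 := (algebraMap k K₀).injective h7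
        rw [h8]
        ring
      exact one_ne_zero (hind _ _ huv).1
    · rw [map_sub, map_mul, aeval_C, aeval_map_algebraMap, aeval_map_algebraMap]
      have : (algebraMap (IntermediateField.adjoin k {w}) K₀) W = w := rfl
      rw [this, hwv, sub_self]
  have hwt : Transcendental k w := by
    intro hwa
    apply ht
    have : Algebra.IsAlgebraic k (IntermediateField.adjoin k {w}) :=
      IntermediateField.isAlgebraic_adjoin_simple hwa.isIntegral
    exact halg.restrictScalars k
  refine ⟨w, hwt, exch t w hft halg.isIntegral, fun y => ?_⟩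
  obtain ⟨x, hx, hvx, hux⟩ := hsur y
  obtain ⟨B', hB', hBx⟩ := himp x hx
  refine ⟨B', hB', ?_⟩
  have hc := hB'.const_mem
  have e1 := val_eval hc hBx v
  have e2 := val_eval hc hBx (u - C y * v)
  have e3 : B'.valuation (aeval t v) = 1 := by
    have h4 : aeval t v = (aeval t v - algebraMap k K₀ (v.eval x)) + algebraMap k K₀ (v.eval x) := by
      ring
    rw [h4, Valuation.map_add_eq_of_lt_right _ (by rw [val_const hc hvx]; exact e1),
      val_const hc hvx]
  rw [eval_sub, eval_mul, eval_C, hux, sub_self, map_zero, sub_zero, map_sub, map_mul,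
    aeval_C] at e2
  have e4 : w - algebraMap k K₀ y =
      (aeval t u - algebraMap k K₀ y * aeval t v) / aeval t v := by
    rw [sub_div, mul_div_cancel_right₀ _ hvt, hw]
  rw [e4, map_div₀, e3, div_one]
  exact e2

end Pool.Agent.Lib.MP_c385f6_ag.Bc
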