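import Mathlib
import Pool.Agent.Lib.MP_c385f6_ag.Bc.Basic
import Pool.Agent.Lib.MP_c385f6_ag.Bc.St

set_option autoImplicit false

/-!
Base change theorem, module (A7): a criterion for finite values.
-/

namespace Pool.Agent.Lib.MP_c385f6_ag.Bc

open Pool.Agent.Lib.MP_c385f6_ag.Cpl Polynomial Finset

universe u

namespace FinAux

variable {p : ℕ} [Fact p.Prime] {L E : Type} [Field L] [Field E] {S : LF p L E}
  {O : Type u} [CommRing O] [Algebra L O] {D : O → L}

/-- the inverse of an element with the value `∞` has the value `0` -/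
theorem val_inv (hs : Sys S D) {x t : O} {c : L} (hc : c ∈ Gd L x) (hx : ValInf p D x)
    (ht : (x - algebraMap L O c) * t = 1) : Val p D t 0 := by
  have htu : IsUnit t := IsUnit.of_mul_eq_one (x - algebraMap L O c) (by rw [mul_comm]; exact ht)
  have key : ∀ d ∈ Gd L t, d ≠ 0 →
      Eqv p (D (t - algebraMap L O d)) ((0 - d) * (D t * D (x - algebraMap L O c))) := by
    intro d hd hd0
    have h1 : d⁻¹ ∈ Gd L (x - algebraMap L O c) := (mem_Gd_inv ht hd0).1 hd
    have h2 : c + d⁻¹ ∈ Gd L x := by
      rw [mem_Gd] at h1 ⊢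
      rw [map_add, ← sub_sub]
      exact h1
    have h3 : algebraMap L O d * algebraMap L O d⁻¹ = 1 := by
      rw [← map_mul, mul_inv_cancel₀ hd0, map_one]
    have h4 : t - algebraMap L O d =
        algebraMap L O (0 - d) * (t * (x - algebraMap L O (c + d⁻¹))) := by
      rw [map_sub, map_zero, map_add]
      linear_combination (algebraMap L O d) * ht - t * h3
    rw [h4]
    refine eqv_trans (hs.smul (by simpa using hd0) (htu.mul h2)) (eqv_mul (eqv_refl _) ?_)
    exact eqv_trans (hs.mul _ _ htu h2) (eqv_mul (eqv_refl _) (hx _ h2 _ hc))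
  intro d hd d' hd' h0 h0'
  have hk : D t * D (x - algebraMap L O c) ≠ 0 := mul_ne_zero (hs.ne _ htu) (hs.ne _ hc)
  have := eqv_div (key d hd h0) (key d' hd' h0')
  rwa [mul_div_mul_right _ _ hk] at this

end FinAux

/-- (A7) a criterion for finite values -/
theorem stFin (h1 : StOne.{u}) (h2 : StAdd.{u}) (h3 : StMul.{u}) : StFin.{u} := by
  intro p hp L E _ _ S O _ _ D hC x₁ y₁ hx₁ x n q hq hsum
  obtain ⟨-, H2, -, H4, -, -⟩ := h1 p hp L E _ _ S O _ _ D hC.sys hC.gnr
  have hadd := h2 p hp L E _ _ S O _ _ D hC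
  have hmul := h3 p hp L E _ _ S O _ _ D hC
  -- constants
  have hone : Val p D (1 : O) 1 := by
    have := H4 1
    rwa [map_one] at this
  have hzero : Val p D (0 : O) 0 := by
    have := H4 0
    rwa [map_zero] at this
  -- powers
  have hpow : ∀ (z : O) (y : L), Val p D z y → ∀ m : ℕ, Val p D (z ^ m) (y ^ m) := by
    intro z y hz m
    induction m with
    | zero => rw [pow_zero, pow_zero]; exact hone
    | succ m ih => rw [pow_succ, pow_succ]; exact hmul _ _ _ _ ih hz
  -- polynomials
  have hpol : ∀ r : L[X], Val p D (aeval x₁ r) (r.eval y₁) := by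
    intro r
    induction r using Polynomial.induction_on' with
    | add r s hr hs => rw [map_add, eval_add]; exact hadd _ _ _ _ hr hs
    | monomial m a =>
      rw [aeval_monomial, eval_monomial]
      exact hmul _ _ _ _ (H4 a) (hpow _ _ hx₁ m)
  -- sums
  have hfs : ∀ (s : Finset ℕ) (f : ℕ → O) (g : ℕ → L), (∀ i ∈ s, Val p D (f i) (g i)) →
      Val p D (∑ i ∈ s, f i) (∑ i ∈ s, g i) := by
    intro s f g
    induction s using Finset.induction_on with
    | empty => intro _; simpa using hzero
    | insert a s ha ih =>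
      intro h
      rw [Finset.sum_insert ha, Finset.sum_insert ha]
      exact hadd _ _ _ _ (h a (Finset.mem_insert_self _ _))
        (ih fun i hi => h i (Finset.mem_insert_of_mem hi))
  rcases hC.alt x with h | h
  · exact h
  · exfalso
    obtain ⟨c, hc, -⟩ := hC.gnr.dense x 0 0
    obtain ⟨t, ht⟩ := (mem_Gd.1 hc).exists_right_inv
    have ht0 : Val p D t 0 := FinAux.val_inv hC.sys hc h ht
    have hxt : x * t = algebraMap L O c * t + 1 := by linear_combination ht
    have hxt1 : Val p D (x * t) 1 := by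
      have e := hadd _ _ _ _ (hmul _ _ _ _ (H4 c) ht0) hone
      rw [← hxt, mul_zero, zero_add] at e
      exact e
    have e1 : ∑ i ∈ range (n + 1), aeval x₁ (q i) * (x * t) ^ (n - i) * t ^ i = 0 := by
      have e2 : (∑ i ∈ range (n + 1), aeval x₁ (q i) * x ^ (n - i)) * t ^ n = 0 := by
        rw [hsum, zero_mul]
      rw [Finset.sum_mul] at e2
      rw [← e2]
      refine Finset.sum_congr rfl fun i hi => ?_
      have hi' : i ≤ n := by
        have := Finset.mem_range.1 hi
        omega
      have e3 : t ^ n = t ^ (n - i) * t ^ i := by rw [← pow_add, Nat.sub_add_cancel hi']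
      rw [e3, mul_pow]
      ring
    have e2 : Val p D (∑ i ∈ range (n + 1), aeval x₁ (q i) * (x * t) ^ (n - i) * t ^ i)
        (∑ i ∈ range (n + 1), (q i).eval y₁ * 1 ^ (n - i) * 0 ^ i) :=
      hfs _ _ _ fun i _ => hmul _ _ _ _ (hmul _ _ _ _ (hpol _) (hpow _ _ hxt1 _)) (hpow _ _ ht0 _)
    have e3 : ∑ i ∈ range (n + 1), (q i).eval y₁ * 1 ^ (n - i) * 0 ^ i = (q 0).eval y₁ := by
      rw [Finset.sum_eq_single 0]
      · simp
      · intro i _ hi
        rw [zero_pow hi, mul_zero]
      · intro h0
        exact absurd (Finset.mem_range.2 (Nat.succ_pos n)) h0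
    rw [e1, e3] at e2
    exact hq (H2 _ _ _ e2 hzero)

end Pool.Agent.Lib.MP_c385f6_ag.Bc
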