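import Mathlib
import Pool.Agent.Lib.MP_c385f6_ag.Bc.St

set_option autoImplicit false

/-!
Part B3 of the base change theorem: there are many functions without zeros and poles over the
rational points.
-/

namespace Pool.Agent.Lib.MP_c385f6_ag.Bc

open Polynomial Pool.Agent.Lib.MP_c385f6_ag.Cpl

universe u

namespace GnrAux

theorem exists_aut {k L : Type*} [Field k] [Field L] [Algebra k L] [FiniteDimensional k L]
    [IsGalois k L] {θ : L} (hθ : ∀ y : k, algebraMap k L y ≠ θ) : ∃ g : L ≃ₐ[k] L, g θ ≠ θ := by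
  by_contra hno
  push Not at hno
  have h1 : θ ∈ (⊥ : IntermediateField k L) := (IsGalois.mem_bot_iff_fixed θ).2 hno
  obtain ⟨y, hy⟩ := IntermediateField.mem_bot.1 h1
  exact hθ y hy

theorem isPrimitive_map {k L : Type*} [Field k] [Field L] [Algebra k L] (g : L ≃ₐ[k] L)
    {f : L[X][X]} (hf : f.IsPrimitive) :
    (f.map (mapRingHom (g : L →+* L))).IsPrimitive := by
  intro r hr
  have hcomp : ((g.symm : L →+* L).comp (g : L →+* L)) = RingHom.id L := by
    ext c
    simp
  have hcomp' : ((g : L →+* L).comp (g.symm : L →+* L)) = RingHom.id L := by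
    ext c
    simp
  have h1 : C (r.map (g.symm : L →+* L)) ∣ f := by
    have h2 := map_dvd (mapRingHom (mapRingHom (g.symm : L →+* L))) hr
    rw [coe_mapRingHom, map_C, coe_mapRingHom, Polynomial.map_map, mapRingHom_comp, hcomp,
      mapRingHom_id, Polynomial.map_id] at h2
    exact h2
  have h2 := hf _ h1
  have h3 := h2.map (mapRingHom (g : L →+* L))
  rw [coe_mapRingHom, Polynomial.map_map, hcomp', Polynomial.map_id] at h3
  exact h3

section
variable {L F : Type*} [Field L] [Field F] [Algebra L F]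

theorem aevalAeval_ringHom (w x : F) :
    ((aevalAeval w x : L[X][X] →ₐ[L] F) : L[X][X] →+* F) =
      eval₂RingHom (eval₂RingHom (algebraMap L F) w) x := by
  ext
  · simp
  · simp
  · simp

variable {A : ValuationSubring F} (hL : ∀ c : L, algebraMap L F c ∈ A)

/-- the constants in the valuation subring -/
def cst : L →+* A := (algebraMap L F).codRestrict A hL

theorem eq_zero_of_residue {c : L} (h : IsLocalRing.residue A (cst hL c) = 0) : c = 0 := by
  by_contra hc
  have h1 : IsUnit (cst hL c) := (IsUnit.mk0 c hc).map (cst hL)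
  rw [IsLocalRing.residue_eq_zero_iff] at h
  exact (IsLocalRing.mem_maximalIdeal _).1 h h1

theorem residue_eq {x : A} {c : L} (h : A.valuation ((x : F) - algebraMap L F c) < 1) :
    IsLocalRing.residue A x = IsLocalRing.residue A (cst hL c) := by
  rw [← sub_eq_zero, ← map_sub, IsLocalRing.residue_eq_zero_iff,
    ValuationSubring.valuation_lt_one_iff]
  exact h

include hL in
/-- reduction of an equation, finite case -/
theorem reduce {w x : F} {a c : L} (hw : A.valuation (w - algebraMap L F a) < 1)
    (hx : A.valuation (x - algebraMap L F c) < 1) {f : L[X][X]} (hf : aevalAeval w x f = 0) :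
    evalEval a c f = 0 := by
  have hmem : ∀ (z : F) (b : L), A.valuation (z - algebraMap L F b) < 1 → z ∈ A := by
    intro z b hz
    have h1 : z - algebraMap L F b ∈ A := (A.valuation_le_one_iff _).1 hz.le
    have h2 : z = z - algebraMap L F b + algebraMap L F b := by ring
    rw [h2]
    exact add_mem h1 (hL b)
  let W : A := ⟨w, hmem w a hw⟩
  let x' : A := ⟨x, hmem x c hx⟩
  let Φ : L[X][X] →+* A := eval₂RingHom (eval₂RingHom (cst hL) W) x'
  have h1 : (A.subtype).comp Φ = ((aevalAeval w x : L[X][X] →ₐ[L] F) : L[X][X] →+* F) := by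
    rw [aevalAeval_ringHom]
    ext
    · simp [Φ]
      rfl
    · simp [Φ]
      rfl
    · simp [Φ]
      rfl
  have h2 : Φ f = 0 := by
    have h3 : A.subtype (Φ f) = 0 := by
      have := congrArg (fun r : L[X][X] →+* F => r f) h1
      exact this.trans hf
    exact Subtype.ext h3
  have h3 : (IsLocalRing.residue A).comp Φ =
      ((IsLocalRing.residue A).comp (cst hL)).comp (evalEvalRingHom a c) := by
    ext
    · simp [Φ]
    · simp [Φ]
      exact residue_eq hL (x := W) hw
    · simp [Φ]
      exact residue_eq hL (x := x') hx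
  have h4 : (IsLocalRing.residue A) (cst hL (evalEval a c f)) = 0 := by
    have := congrArg (fun r : L[X][X] →+* _ => r f) h3
    have h5 : IsLocalRing.residue A (Φ f) = IsLocalRing.residue A (cst hL (evalEval a c f)) :=
      this
    rw [← h5, h2, map_zero]
  exact eq_zero_of_residue hL h4

include hL in
/-- reduction of an equation, infinite case -/
theorem reduce_inf {w x : F} {c : L} (hw : w ∉ A)
    (hx : A.valuation (x - algebraMap L F c) < 1) {f : L[X][X]} (hf : aevalAeval w x f = 0) :
    (Bivariate.swap f).leadingCoeff.eval c = 0 := by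
  have hmem : x ∈ A := by
    have h1 : x - algebraMap L F c ∈ A := (A.valuation_le_one_iff _).1 hx.le
    have h2 : x = x - algebraMap L F c + algebraMap L F c := by ring
    rw [h2]
    exact add_mem h1 (hL c)
  have hw0 : w ≠ 0 := by
    rintro rfl
    exact hw A.zero_mem
  have hwi : w⁻¹ ∈ A := (A.mem_or_inv_mem w).resolve_left hw
  let U : A := ⟨w⁻¹, hwi⟩
  let x' : A := ⟨x, hmem⟩
  have hU : IsLocalRing.residue A U = 0 := by
    rw [IsLocalRing.residue_eq_zero_iff, IsLocalRing.mem_maximalIdeal, mem_nonunits_iff]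
    intro h
    obtain ⟨V, hV⟩ := h.exists_right_inv
    have h1 : w⁻¹ * (V : F) = 1 := congrArg Subtype.val hV
    have h2 : (V : F) = w := by
      field_simp at h1
      exact h1
    exact hw (h2 ▸ V.2)
  let Ψ : L[X] →+* A := eval₂RingHom (cst hL) x'
  have hsub : (A.subtype).comp Ψ = eval₂RingHom (algebraMap L F) x := by
    ext
    · simp [Ψ]
      rfl
    · simp [Ψ]
      rfl
  have hf' : eval₂ (eval₂RingHom (algebraMap L F) x) w (Bivariate.swap f) = 0 := by
    have h1 := congrArg (fun r : L[X][X] →+* F => r (Bivariate.swap f))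
      (aevalAeval_ringHom (L := L) x w)
    have h2 : aevalAeval x w (Bivariate.swap f) = 0 := by
      rw [Bivariate.aevalAeval_swap]
      exact hf
    exact h1.symm.trans h2
  let _ : Invertible w := invertibleOfNonzero hw0
  have h1 : eval₂ (eval₂RingHom (algebraMap L F) x) w⁻¹ (reverse (Bivariate.swap f)) = 0 := by
    have := (eval₂_reverse_eq_zero_iff (eval₂RingHom (algebraMap L F) x) w
      (Bivariate.swap f)).2 hf'
    rwa [invOf_eq_inv] at this
  have h2 : eval₂ Ψ U (reverse (Bivariate.swap f)) = 0 := by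
    have h3 : A.subtype (eval₂ Ψ U (reverse (Bivariate.swap f))) = 0 := by
      rw [hom_eval₂, hsub]
      exact h1
    exact Subtype.ext h3
  have h3 : IsLocalRing.residue A (Ψ (Bivariate.swap f).leadingCoeff) = 0 := by
    have h4 := congrArg (IsLocalRing.residue A) h2
    rw [map_zero, hom_eval₂, hU, eval₂_at_zero, coeff_zero_reverse] at h4
    exact h4
  have h4 : (IsLocalRing.residue A).comp Ψ =
      ((IsLocalRing.residue A).comp (cst hL)).comp (evalRingHom c) := by
    ext
    · simp [Ψ]
    · simp [Ψ]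
      exact residue_eq hL (x := x') hx
  have h5 : IsLocalRing.residue A (Ψ (Bivariate.swap f).leadingCoeff) =
      IsLocalRing.residue A (cst hL ((Bivariate.swap f).leadingCoeff.eval c)) :=
    congrArg (fun r : L[X] →+* _ => r (Bivariate.swap f).leadingCoeff) h4
  rw [h5] at h3
  exact eq_zero_of_residue hL h3

include hL in
/-- reduction of an equation, at a zero of a polynomial `B` -/
theorem reduce_bad {w x : F} {c : L} (hw : w ∈ A) {B : L[X]} (hB : A.valuation (aeval w B) < 1)
    (hx : A.valuation (x - algebraMap L F c) < 1) {f : L[X][X]} (hf : aevalAeval w x f = 0) :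
    ¬ IsCoprime B (eval (C c) f) := by
  rintro ⟨α, β, hαβ⟩
  have hmem : x ∈ A := by
    have h1 : x - algebraMap L F c ∈ A := (A.valuation_le_one_iff _).1 hx.le
    have h2 : x = x - algebraMap L F c + algebraMap L F c := by ring
    rw [h2]
    exact add_mem h1 (hL c)
  let W : A := ⟨w, hw⟩
  let x' : A := ⟨x, hmem⟩
  let θ : L[X] →+* A := eval₂RingHom (cst hL) W
  let Φ : L[X][X] →+* A := eval₂RingHom θ x'
  have h1 : (A.subtype).comp Φ = ((aevalAeval w x : L[X][X] →ₐ[L] F) : L[X][X] →+* F) := by
    rw [aevalAeval_ringHom]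
    ext
    · simp [Φ, θ]
      rfl
    · simp [Φ, θ]
      rfl
    · simp [Φ]
      rfl
  have h2 : Φ f = 0 := by
    have h3 : A.subtype (Φ f) = 0 := by
      have := congrArg (fun r : L[X][X] →+* F => r f) h1
      exact this.trans hf
    exact Subtype.ext h3
  have h3 : (IsLocalRing.residue A).comp Φ =
      ((IsLocalRing.residue A).comp θ).comp (evalRingHom (C c)) := by
    ext
    · simp [Φ]
    · simp [Φ]
    · simp [Φ, θ]
      exact residue_eq hL (x := x') hx
  have h4 : IsLocalRing.residue A (θ (eval (C c) f)) = 0 := by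
    have := congrArg (fun r : L[X][X] →+* _ => r f) h3
    have h5 : IsLocalRing.residue A (Φ f) = IsLocalRing.residue A (θ (eval (C c) f)) := this
    rw [← h5, h2, map_zero]
  have h6 : (A.subtype).comp θ = ((aeval w : L[X] →ₐ[L] F) : L[X] →+* F) := by
    ext
    · simp [θ]
      rfl
    · simp [θ]
      rfl
  have h7 : IsLocalRing.residue A (θ B) = 0 := by
    rw [IsLocalRing.residue_eq_zero_iff, ValuationSubring.valuation_lt_one_iff]
    have h8 : ((θ B : A) : F) = aeval w B := congrArg (fun r : L[X] →+* F => r B) h6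
    rw [h8]
    exact hB
  have h9 := congrArg (fun r => IsLocalRing.residue A (θ r)) hαβ
  simp only [map_add, map_mul, map_one] at h9
  rw [h4, h7, mul_zero, mul_zero, add_zero] at h9
  exact zero_ne_one h9

end

/-- the special values of a primitive polynomial at a zero of `B` -/
theorem exists_coprime {L : Type*} [Field L] {f : L[X][X]} (hf : f.IsPrimitive) {B : L[X]}
    (hB : B ≠ 0) : ∃ r : L[X], r ≠ 0 ∧ ∀ c, r.eval c ≠ 0 → IsCoprime B (eval (C c) f) := by
  classical
  induction B using WfDvdMonoid.induction_on_irreducible with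
  | zero => exact absurd rfl hB
  | unit u hu =>
    refine ⟨1, one_ne_zero, fun c _ => ?_⟩
    obtain ⟨v, hv⟩ := hu.exists_left_inv
    exact ⟨v, 0, by rw [hv, zero_mul, add_zero]⟩
  | mul B q hB0 hq ih =>
    obtain ⟨r, hr, hr'⟩ := ih hB0
    have hq0 : Fact (Irreducible q) := ⟨hq⟩
    have h1 : f.map (AdjoinRoot.mk q) ≠ 0 := by
      intro h
      refine hq.not_isUnit (hf q ?_)
      rw [C_dvd_iff_dvd_coeff]
      intro i
      have h2 := congrArg (fun g => coeff g i) h
      simp only [coeff_map, coeff_zero] at h2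
      exact AdjoinRoot.mk_eq_zero.1 h2
    let S : Set L := {c | (f.map (AdjoinRoot.mk q)).eval (AdjoinRoot.of q c) = 0}
    have hS : S.Finite := by
      have h2 : S ⊆ (AdjoinRoot.of q) ⁻¹' ((f.map (AdjoinRoot.mk q)).roots.toFinset : Set _) := by
        intro c hc
        rw [Set.mem_preimage, Finset.mem_coe, Multiset.mem_toFinset, mem_roots h1]
        exact hc
      exact ((Finset.finite_toSet _).preimage (AdjoinRoot.of q).injective.injOn).subset h2
    refine ⟨(∏ c ∈ hS.toFinset, (X - C c)) * r, mul_ne_zero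
      (Finset.prod_ne_zero_iff.2 fun c _ => X_sub_C_ne_zero c) hr, fun c hc => ?_⟩
    rw [eval_mul] at hc
    refine IsCoprime.mul_left ?_ (hr' c (right_ne_zero_of_mul hc))
    rcases hq.isCoprime_or_dvd (eval (C c) f) with h | h
    · exact h
    · exfalso
      apply left_ne_zero_of_mul hc
      have h2 : c ∈ S := by
        show (f.map (AdjoinRoot.mk q)).eval (AdjoinRoot.of q c) = 0
        have h3 : AdjoinRoot.of q c = AdjoinRoot.mk q (C c) := (AdjoinRoot.mk_C c).symm
        rw [h3, eval_map, eval₂_hom]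
        exact AdjoinRoot.mk_eq_zero.2 h
      rw [eval_prod]
      exact Finset.prod_eq_zero (hS.mem_toFinset.2 h2) (by simp)

/-- a polynomial controlling the constants `c` such that `x - c` is a unit -/
theorem exists_poly (h1 : StRes) {k L : Type} {F : Type*} [Field k] [Field L] [Field F]
    [Algebra k L] [Algebra k F] [Algebra L F] [IsScalarTower k L F] (g : L ≃ₐ[k] L) {w : F}
    (hw : Transcendental L w) {b : k[X]} (hb : b ≠ 0) (x : RR k L b w) {f : L[X][X]}
    (hf : f.IsPrimitive) (hfx : aevalAeval w (x : F) f = 0) :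
    ∃ G : L[X][X], G ≠ 0 ∧ ∀ c : L, evalEval c (g c) G ≠ 0 → c ∈ Gd L x := by
  obtain ⟨R, hR, hRv⟩ := h1 L _ f (f.map (mapRingHom (g : L →+* L))) hf (isPrimitive_map g hf)
  have hl : (Bivariate.swap f).leadingCoeff ≠ 0 := by
    rw [Ne, leadingCoeff_eq_zero]
    intro h
    have h2 := congrArg Bivariate.swap h
    rw [Bivariate.swap_swap_apply, map_zero] at h2
    exact hf.ne_zero h2
  obtain ⟨r, hr, hr'⟩ := exists_coprime hf ((Polynomial.map_ne_zero_iff
    (algebraMap k L).injective).2 hb)
  refine ⟨R * C (Bivariate.swap f).leadingCoeff * C r, mul_ne_zero (mul_ne_zero hR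
    (C_ne_zero.2 hl)) (C_ne_zero.2 hr), fun c hc => ?_⟩
  rw [evalEval_mul, evalEval_mul, evalEval_C, evalEval_C] at hc
  have hR' := left_ne_zero_of_mul (left_ne_zero_of_mul hc)
  have hl' := right_ne_zero_of_mul (left_ne_zero_of_mul hc)
  have hr'' := hr' c (right_ne_zero_of_mul hc)
  have key : ∀ a : k, evalEval (algebraMap k L a) c f ≠ 0 := by
    intro a h0
    refine hR' (hRv (algebraMap k L a) c (g c) h0 ?_)
    have h2 := map_mapRingHom_evalEval (g : L →+* L) f (algebraMap k L a) c
    rw [h0, map_zero] at h2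
    have h3 : (g : L →+* L) (algebraMap k L a) = algebraMap k L a := g.commutes a
    rw [h3] at h2
    exact h2
  have hne : (x : F) - algebraMap L F c ≠ 0 := by
    intro hxc
    have hxc' : (x : F) = algebraMap L F c := sub_eq_zero.1 hxc
    have h2 : aevalAeval w (algebraMap L F c) f = aeval w (eval (C c) f) := by
      have h3 : (aevalAeval w (algebraMap L F c) : L[X][X] →ₐ[L] F) =
          (aeval w).comp ((aeval (R := L[X]) (C c)).restrictScalars L) := by
        refine Polynomial.algHom_ext' ?_ ?_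
        · ext
          simp
        · simp
      have h4 := congrArg (fun r : L[X][X] →ₐ[L] F => r f) h3
      exact h4
    rw [hxc', h2] at hfx
    have h3 : eval (C c) f = 0 := (transcendental_iff.1 hw) _ hfx
    refine key 0 ?_
    rw [evalEval, h3, eval_zero]
  have hval : ∀ A ∈ Rat k L b w, ((x : F) - algebraMap L F c)⁻¹ ∈ A := by
    intro A hA
    by_contra hno
    have hlt : A.valuation ((x : F) - algebraMap L F c) < 1 := by
      have h2 : ¬ A.valuation ((x : F) - algebraMap L F c)⁻¹ ≤ 1 := fun h =>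
        hno ((A.valuation_le_one_iff _).1 h)
      rw [map_inv₀, not_le] at h2
      have h3 : A.valuation ((x : F) - algebraMap L F c) ≠ 0 := by
        rw [Valuation.ne_zero_iff]
        exact hne
      rwa [one_lt_inv₀ (zero_lt_iff.2 h3)] at h2
    obtain ⟨hL, ⟨a, ha⟩ | hwA | hwb⟩ := hA
    · exact key a (reduce hL (a := algebraMap k L a)
        (by rwa [← IsScalarTower.algebraMap_apply]) hlt hfx)
    · exact hl' (reduce_inf hL hwA hlt hfx)
    · by_cases hwA : w ∈ A
      · refine reduce_bad hL hwA ?_ hlt hfx hr''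
        rwa [aeval_map_algebraMap]
      · exact hl' (reduce_inf hL hwA hlt hfx)
  exact IsUnit.of_mul_eq_one (⟨((x : F) - algebraMap L F c)⁻¹, hval⟩ : RR k L b w)
    (Subtype.ext (mul_inv_cancel₀ hne))

/-- translation of a polynomial in two variables -/
theorem exists_translate {L : Type*} [Field L] {G : L[X][X]} (hG : G ≠ 0) (a b : L) :
    ∃ T : L[X][X], T ≠ 0 ∧ ∀ c d, evalEval c d T = evalEval (c + a) (d + b) G := by
  refine ⟨taylor (C b) (G.map ((taylorAlgHom a : L[X] →ₐ[L] L[X]) : L[X] →+* L[X])), ?_, ?_⟩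
  · rw [Ne, taylor_eq_zero]
    intro h
    exact hG ((Polynomial.map_injective ((taylorAlgHom a : L[X] →ₐ[L] L[X]) : L[X] →+* L[X])
      (taylor_injective a)) (h.trans (Polynomial.map_zero _).symm))
  · intro c d
    have h1 : C d + C b = ((taylorAlgHom a : L[X] →ₐ[L] L[X]) : L[X] →+* L[X]) (C (d + b)) := by
      rw [← C_add]
      exact (taylor_C a (d + b)).symm
    rw [evalEval, taylor_eval, h1, eval_map, eval₂_hom]
    exact taylor_eval a _ c

end GnrAux

/-- (B3) many units -/
theorem stGnr (h0 : StPrim.{u}) (h1 : StRes) (h2 : StNear) : StGnr.{u} := by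
  intro p _ k L E _ _ _ _ _ _ _ S hθ hz F _ _ _ _ w hw halg b hb x x' a a' n
  obtain ⟨θ, hθ⟩ := hθ
  obtain ⟨g, hg⟩ := GnrAux.exists_aut hθ
  have hprim := (h0 L _ F _ _ w hw halg).1
  have hG : ∀ x : RR k L b w, ∃ G : L[X][X], G ≠ 0 ∧
      ∀ c : L, evalEval c (g c) G ≠ 0 → c ∈ Gd L x := by
    intro x
    obtain ⟨f, hf, hfx⟩ := hprim (x : F)
    exact GnrAux.exists_poly h1 g hw hb x hf hfx
  obtain ⟨G, hG0, hG1⟩ := hG x
  obtain ⟨G', hG0', hG1'⟩ := hG x'
  obtain ⟨G'', hG0'', hG1''⟩ := hG (x + x')
  obtain ⟨c, hc, hc1⟩ := h2 p inferInstance k L E _ _ _ inferInstance _ S g θ hg hz G hG0 a n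
  obtain ⟨T, hT0, hT⟩ := GnrAux.exists_translate hG0'' c (g c)
  obtain ⟨c', hc', hc1'⟩ := h2 p inferInstance k L E _ _ _ inferInstance _ S g θ hg hz (G' * T)
    (mul_ne_zero hG0' hT0) a' n
  rw [evalEval_mul, hT] at hc1'
  refine ⟨c, hG1 c hc1, c', hG1' c' (left_ne_zero_of_mul hc1'), hG1'' (c + c') ?_, hc, hc'⟩
  rw [map_add, add_comm c c', add_comm (g c)]
  exact right_ne_zero_of_mul hc1'

end Pool.Agent.Lib.MP_c385f6_ag.Bc
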