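import Mathlib
import Pool.Agent.Lib.MP_c385f6_ag.Bc.St

set_option autoImplicit false

/-!
(A8) The homomorphism to the constants given by the values (base change theorem).
-/

namespace Pool.Agent.Lib.MP_c385f6_ag.Bc

open Pool.Agent.Lib.MP_c385f6_ag.Cpl Polynomial Finset

universe u

theorem stHom (h1 : StAlt.{u}) (h2 : StOne.{u}) (h3 : StAdd.{u}) (h4 : StMul.{u})
    (h5 : StFin.{u}) : StHom.{u} := by
  intro p hp L E iL iE S O iO iA D hc hn hsys hgnr x₁ y₁ hv₁ heq
  have ctx : Ctx S D := ⟨hsys, hgnr, fun x => h1 p hp L E iL iE S O iO iA D hc hn hsys hgnr x⟩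
  obtain ⟨o1, o2, -, o4, -, -⟩ := h2 p hp L E iL iE S O iO iA D hsys hgnr
  have hfin : ∀ x : O, ∃ y, Val p D x y := by
    intro x
    obtain ⟨n, q, hq, hs⟩ := heq x
    exact h5 p hp L E iL iE S O iO iA D ctx x₁ y₁ hv₁ x n q hq hs
  choose φ hφ using hfin
  have hcst : ∀ c : L, φ (algebraMap L O c) = c := fun c => o2 _ _ _ (hφ _) (o4 c)
  have hadd : ∀ x x', φ (x + x') = φ x + φ x' := fun x x' =>
    o2 _ _ _ (hφ _) (h3 p hp L E iL iE S O iO iA D ctx x x' _ _ (hφ x) (hφ x'))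
  have hmul : ∀ x x', φ (x * x') = φ x * φ x' := fun x x' =>
    o2 _ _ _ (hφ _) (h4 p hp L E iL iE S O iO iA D ctx x x' _ _ (hφ x) (hφ x'))
  have hone : φ 1 = 1 := by
    have := hcst 1
    rwa [map_one] at this
  have hzero : φ 0 = 0 := by
    have := hcst 0
    rwa [map_zero] at this
  let Φ : O →ₐ[L] L :=
    { toFun := φ
      map_one' := hone
      map_mul' := hmul
      map_zero' := hzero
      map_add' := hadd
      commutes' := hcst }
  refine ⟨Φ, o2 _ _ _ (hφ _) hv₁, hφ, ?_⟩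
  intro v hv
  obtain ⟨w, hw⟩ := hv.exists_right_inv
  have hne : φ v ≠ 0 := by
    intro h0
    have h6 := hmul v w
    rw [hw, hone, h0, zero_mul] at h6
    exact one_ne_zero h6
  have hGd : (0 : L) ∈ Gd L v := by
    change IsUnit (v - algebraMap L O 0)
    rw [map_zero, sub_zero]
    exact hv
  have h7 := o1 v (φ v) (hφ v) 0 hGd (Ne.symm hne)
  rw [map_zero, sub_zero, sub_zero] at h7
  exact h7

end Pool.Agent.Lib.MP_c385f6_ag.Bc
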