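import Mathlib
import Pool.Agent.Lib.MP_c385f6_ag.Bc.StF
import Pool.Agent.Lib.MP_c385f6_ag.AllP.Place

set_option autoImplicit false

/-!
(G1) The implicit function theorem: near an unramified rational place there are rational places
over all points.
-/

open Polynomial Topology Filter IntermediateField

namespace Pool.Agent.Lib.MP_c385f6_ag.Bc

namespace ImpAux

section an

variable {𝕜 : Type*} [NontriviallyNormedField 𝕜]

/-- strict differentiability -/
def SD (f : 𝕜 × 𝕜 → 𝕜) (a : 𝕜 × 𝕜) : Prop := ∃ f' : 𝕜 × 𝕜 →L[𝕜] 𝕜, HasStrictFDerivAt f f' a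

theorem SD.add {f g : 𝕜 × 𝕜 → 𝕜} {a : 𝕜 × 𝕜} (hf : SD f a) (hg : SD g a) :
    SD (fun v => f v + g v) a := by
  obtain ⟨f', hf⟩ := hf
  obtain ⟨g', hg⟩ := hg
  exact ⟨_, hf.add hg⟩

theorem SD.mul {f g : 𝕜 × 𝕜 → 𝕜} {a : 𝕜 × 𝕜} (hf : SD f a) (hg : SD g a) :
    SD (fun v => f v * g v) a := by
  obtain ⟨f', hf⟩ := hf
  obtain ⟨g', hg⟩ := hg
  exact ⟨_, hf.mul hg⟩

theorem SD.fst {a : 𝕜 × 𝕜} : SD (fun v : 𝕜 × 𝕜 => v.1) a := ⟨_, hasStrictFDerivAt_fst⟩

theorem SD.snd {a : 𝕜 × 𝕜} : SD (fun v : 𝕜 × 𝕜 => v.2) a := ⟨_, hasStrictFDerivAt_snd⟩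

theorem SD.poly {f : 𝕜 × 𝕜 → 𝕜} {a : 𝕜 × 𝕜} (hf : SD f a) (p : 𝕜[X]) :
    SD (fun v => p.eval (f v)) a := by
  obtain ⟨f', hf⟩ := hf
  exact ⟨_, (p.hasStrictDerivAt (f a)).comp_hasStrictFDerivAt a hf⟩

theorem SD.pow {f : 𝕜 × 𝕜 → 𝕜} {a : 𝕜 × 𝕜} (hf : SD f a) (n : ℕ) :
    SD (fun v => f v ^ n) a := by
  have h := hf.poly (X ^ n)
  simpa using h

theorem SD.eval2 {f g : 𝕜 × 𝕜 → 𝕜} {a : 𝕜 × 𝕜} (hf : SD f a) (hg : SD g a) (K : 𝕜[X][X]) :
    SD (fun v => K.evalEval (f v) (g v)) a := by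
  induction K using Polynomial.induction_on' with
  | add p q hp hq =>
    have := hp.add hq
    simpa [evalEval_add] using this
  | monomial n c =>
    have := (hf.poly c).mul (hg.pow n)
    have e : (fun v => ((monomial n) c).evalEval (f v) (g v)) =
        fun v => c.eval (f v) * g v ^ n := by
      funext v
      rw [← C_mul_X_pow_eq_monomial]
      simp [evalEval]
    rw [e]
    exact this

theorem an [CompleteSpace 𝕜] (c e : 𝕜[X]) (K K' : 𝕜[X][X]) (N : ℕ) (he : e.eval 0 ≠ 0) :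
    ∃ ε : ℝ, 0 < ε ∧ ∀ y : 𝕜, ‖y‖ < ε → ∃ W : 𝕜,
      y * c.eval y + e.eval y * W + y * K.evalEval y (y ^ (N + 1) * W) * W ^ 2 = 0 ∧
      e.eval y + y * K'.evalEval y (y ^ (N + 1) * W) * W ≠ 0 := by
  let g : 𝕜 × 𝕜 → 𝕜 := fun v => v.1 * c.eval v.1 + e.eval v.1 * v.2 +
    v.1 * K.evalEval v.1 (v.1 ^ (N + 1) * v.2) * v.2 ^ 2
  let D : 𝕜 × 𝕜 → 𝕜 := fun v => e.eval v.1 + v.1 * K'.evalEval v.1 (v.1 ^ (N + 1) * v.2) * v.2
  have hg : SD g (0, 0) := by
    refine ((SD.fst.mul (SD.fst.poly c)).add ((SD.fst.poly e).mul SD.snd)).add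
      ((SD.fst.mul (SD.fst.eval2 ((SD.fst.pow (N + 1)).mul SD.snd) K)).mul (SD.snd.pow 2))
  have hD : SD D (0, 0) := by
    refine (SD.fst.poly e).add
      ((SD.fst.mul (SD.fst.eval2 ((SD.fst.pow (N + 1)).mul SD.snd) K')).mul SD.snd)
  obtain ⟨g', hg⟩ := hg
  obtain ⟨D', hD⟩ := hD
  have h1 : g' (0, 1) = e.eval 0 := by
    have hl : HasDerivAt (fun x : 𝕜 => ((0 : 𝕜), x)) ((0 : 𝕜), (1 : 𝕜)) 0 :=
      (hasDerivAt_const _ _).prodMk (hasDerivAt_id _)
    have h2 : HasDerivAt (fun x : 𝕜 => g (0, x)) (g' (0, 1)) 0 :=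
      hg.hasFDerivAt.comp_hasDerivAt (0 : 𝕜) hl
    have h3 : (fun x : 𝕜 => g (0, x)) = fun x => e.eval 0 * x := by
      funext x
      simp [g]
    rw [h3] at h2
    have h4 : HasDerivAt (fun x : 𝕜 => e.eval 0 * x) (e.eval 0 * 1) 0 :=
      (hasDerivAt_id (0 : 𝕜)).const_mul _
    rw [h2.unique h4, mul_one]
  have hΨ : HasStrictFDerivAt (fun v : 𝕜 × 𝕜 => (v.1, g v))
      ((ContinuousLinearMap.fst 𝕜 𝕜 𝕜).prod g') (0, 0) := hasStrictFDerivAt_fst.prodMk hg
  have hsurj : LinearMap.range ((ContinuousLinearMap.fst 𝕜 𝕜 𝕜).prod g' :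
      𝕜 × 𝕜 →ₗ[𝕜] 𝕜 × 𝕜) = ⊤ := by
    rw [LinearMap.range_eq_top]
    rintro ⟨a, b⟩
    refine ⟨(a, (b - g' (a, 0)) / e.eval 0), ?_⟩
    have e1 : ((a, (b - g' (a, 0)) / e.eval 0) : 𝕜 × 𝕜) =
        (a, 0) + ((b - g' (a, 0)) / e.eval 0) • ((0 : 𝕜), (1 : 𝕜)) := by
      simp
    have e2 : g' (a, (b - g' (a, 0)) / e.eval 0) = b := by
      rw [e1, map_add, map_smul, h1, smul_eq_mul, div_mul_cancel₀ _ he]
      ring
    show (a, g' (a, (b - g' (a, 0)) / e.eval 0)) = (a, b)
    rw [e2]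
  have hmap := hΨ.map_nhds_eq_of_surj hsurj
  have hg0 : g (0, 0) = 0 := by simp [g]
  rw [hg0] at hmap
  have hD0 : ∀ᶠ v in 𝓝 ((0 : 𝕜), (0 : 𝕜)), D v ≠ 0 := by
    have h2 : ContinuousAt D (0, 0) := hD.hasFDerivAt.continuousAt
    refine h2.eventually_ne ?_
    simpa [D] using he
  have h3 : ∀ᶠ w in 𝓝 ((0 : 𝕜), (0 : 𝕜)), ∃ v, D v ≠ 0 ∧ (v.1, g v) = w := by
    rw [← hmap]
    rw [Filter.eventually_map]
    filter_upwards [hD0] with v hv
    exact ⟨v, hv, rfl⟩
  have h4 : Tendsto (fun y : 𝕜 => (y, (0 : 𝕜))) (𝓝 0) (𝓝 ((0 : 𝕜), (0 : 𝕜))) :=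
    (continuous_id.prodMk continuous_const).tendsto' _ _ rfl
  have h5 := h4.eventually h3
  obtain ⟨ε, hε, h6⟩ := Metric.eventually_nhds_iff.1 h5
  refine ⟨ε, hε, fun y hy => ?_⟩
  obtain ⟨v, hv, hv2⟩ := h6 (show dist y 0 < ε by rwa [dist_zero_right])
  have e1 : v.1 = y := congrArg Prod.fst hv2
  have e2 : g v = 0 := congrArg Prod.snd hv2
  refine ⟨v.2, ?_, ?_⟩
  · rw [← e1]
    exact e2
  · rw [← e1]
    exact hv

end an

section pl

variable {k K₀ : Type*} [Field k] [Field K₀] [Algebra k K₀]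

/-- the ring homomorphism `T ↦ y + S` -/
noncomputable def sg (y : k) : k[X] →+* PowerSeries k :=
  eval₂RingHom PowerSeries.C (PowerSeries.C y + PowerSeries.X)

theorem sg_const (y : k) (p : k[X]) : PowerSeries.constantCoeff (sg y p) = p.eval y := by
  have h : (PowerSeries.constantCoeff (R := k)).comp (sg y) = evalRingHom y := by
    apply Polynomial.ringHom_ext
    · intro a
      simp [sg]
    · simp [sg]
  exact congrArg (fun f : k[X] →+* k => f p) h

/-- Hensel's lemma -/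
theorem hens {F : k[X][X]} (hF : F.Monic) {y ξ : k}
    (h0 : (F.map (evalRingHom y)).eval ξ = 0)
    (h1 : (F.map (evalRingHom y)).derivative.eval ξ ≠ 0) :
    ∃ g : PowerSeries k, (F.map (sg y)).eval g = 0 := by
  let I : Ideal (PowerSeries k) := Ideal.span {PowerSeries.X}
  have hH : HenselianRing (PowerSeries k) I := inferInstance
  have hcc : ∀ P : (PowerSeries k)[X], PowerSeries.constantCoeff (P.eval (PowerSeries.C ξ)) =
      (P.map (PowerSeries.constantCoeff (R := k))).eval ξ := by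
    intro P
    conv_rhs => rw [← PowerSeries.constantCoeff_C (R := k) ξ]
    rw [eval_map_apply]
  have hcomp : (F.map (sg y)).map (PowerSeries.constantCoeff (R := k)) =
      F.map (evalRingHom y) := by
    rw [Polynomial.map_map]
    congr 1
    exact RingHom.ext (sg_const y)
  obtain ⟨g, hg, -⟩ := hH.is_henselian (F.map (sg y)) (hF.map _) (PowerSeries.C ξ) (by
    rw [Ideal.mem_span_singleton, PowerSeries.X_dvd_iff, hcc, hcomp, h0]) (by
    have h2 : PowerSeries.constantCoeff ((F.map (sg y)).derivative.eval (PowerSeries.C ξ)) ≠ 0 := by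
      rw [hcc, ← derivative_map, hcomp]
      exact h1
    have h3 : IsUnit ((F.map (sg y)).derivative.eval (PowerSeries.C ξ)) := by
      rw [PowerSeries.isUnit_iff_constantCoeff]
      exact isUnit_iff_ne_zero.2 h2
    exact h3.map _)
  exact ⟨g, hg⟩

/-- the rational place attached to a simple root -/
theorem pl {t : K₀} (ht : Transcendental k t) {x : K₀} (hx : adjoin k⟮t⟯ {x} = ⊤)
    (hint : IsIntegral k⟮t⟯ x)
    {F : k[X][X]} (hF : F.Monic)
    (hmin : minpoly k⟮t⟯ x = F.map (aeval (AdjoinSimple.gen k t)).toRingHom)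
    {y ξ : k} (h0 : (F.map (evalRingHom y)).eval ξ = 0)
    (h1 : (F.map (evalRingHom y)).derivative.eval ξ ≠ 0) :
    ∃ A : ValuationSubring K₀, IsRationalPlace k K₀ A ∧
      A.valuation (t - algebraMap k K₀ y) < 1 := by
  obtain ⟨g, hg⟩ := hens hF h0 h1
  let M := LaurentSeries k
  let q : PowerSeries k →+* M := algebraMap (PowerSeries k) M
  have hqk : ∀ c : k, q (PowerSeries.C c) = algebraMap k M c := series_const
  have hT : Transcendental k (q (PowerSeries.C y + PowerSeries.X)) := by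
    rintro ⟨P, hP, h⟩
    apply transcendental_T (k := k)
    refine ⟨P.comp (Polynomial.X + Polynomial.C y), ?_, ?_⟩
    · intro h0
      rw [Polynomial.comp_eq_zero_iff] at h0
      rcases h0 with h0 | ⟨_, h0⟩
      · exact hP h0
      · have h2 := congrArg (Polynomial.coeff · 1) h0
        simp at h2
    · rw [Polynomial.aeval_comp, map_add, Polynomial.aeval_X, Polynomial.aeval_C, ← hqk, ← map_add,
        add_comm]
      exact h
  let φ₀ : k⟮t⟯ →ₐ[k] M := (k⟮q (PowerSeries.C y + PowerSeries.X)⟯.val.comp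
    (RatFunc.algEquivOfTranscendental _ hT).toAlgHom).comp
    (RatFunc.algEquivOfTranscendental t ht).symm.toAlgHom
  have hφ₀ : φ₀ (AdjoinSimple.gen k t) = q (PowerSeries.C y + PowerSeries.X) := by
    show ((RatFunc.algEquivOfTranscendental _ hT ((RatFunc.algEquivOfTranscendental t ht).symm
      (AdjoinSimple.gen k t)) : k⟮q (PowerSeries.C y + PowerSeries.X)⟯) : M) = _
    rw [RatFunc.algEquivOfTranscendental_symm_gen, RatFunc.algEquivOfTranscendental_X]
  let _ : Algebra k⟮t⟯ M := φ₀.toRingHom.toAlgebra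
  have hM : ∀ y : k⟮t⟯, algebraMap k⟮t⟯ M y = φ₀ y := fun y => rfl
  have hcomp : φ₀.toRingHom.comp (aeval (AdjoinSimple.gen k t)).toRingHom = q.comp (sg y) := by
    apply Polynomial.ringHom_ext
    · intro a
      show φ₀ (aeval (AdjoinSimple.gen k t) (C a)) = q (sg y (C a))
      rw [aeval_C, φ₀.commutes]
      simp [sg, hqk]
    · show φ₀ (aeval (AdjoinSimple.gen k t) X) = q (sg y X)
      rw [aeval_X, hφ₀]
      simp [sg]
  have hroot : aeval (q g) (minpoly k⟮t⟯ x) = 0 := by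
    rw [hmin, aeval_def, eval₂_map]
    show eval₂ (φ₀.toRingHom.comp (aeval (AdjoinSimple.gen k t)).toRingHom) (q g) F = 0
    rw [hcomp, ← hom_eval₂, ← eval_map, hg, map_zero]
  let pb := adjoin.powerBasis hint
  have hpb : aeval (q g) (minpoly k⟮t⟯ pb.gen) = 0 := by
    rw [adjoin.powerBasis_gen, minpoly_gen]
    exact hroot
  let φ₁ : adjoin k⟮t⟯ {x} →ₐ[k⟮t⟯] M := pb.lift (q g) hpb
  let φ : K₀ →ₐ[k⟮t⟯] M := (φ₁.comp (equivOfEq hx.symm).toAlgHom).comp topEquiv.symm.toAlgHom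
  have hφE : ∀ a : k⟮t⟯, φ (algebraMap k⟮t⟯ K₀ a) = φ₀ a := fun a => φ.commutes a
  have hφt : φ t = q (PowerSeries.C y + PowerSeries.X) := by
    rw [← hφ₀]
    exact hφE (AdjoinSimple.gen k t)
  have hφc : ∀ c : k, φ (algebraMap k K₀ c) = q (PowerSeries.C c) := by
    intro c
    rw [IsScalarTower.algebraMap_apply k k⟮t⟯ K₀, hφE, φ₀.commutes, hqk]
  exact exists_place_of_series_base (k := k) (L := k)
    ((algebraMap M (AlgebraicClosure M)).comp φ.toRingHom)
    (fun c => congrArg (algebraMap M (AlgebraicClosure M)) (hφc c))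
    (fun z => ⟨φ z, rfl⟩) (fun z g _ => ⟨PowerSeries.constantCoeff g, rfl⟩)
    (by
      show algebraMap M (AlgebraicClosure M) (φ (t - algebraMap k K₀ y)) =
        algebraMap M (AlgebraicClosure M) (q PowerSeries.X)
      congr 1
      rw [map_sub, hφt, hφc, ← map_sub, add_sub_cancel_left])

end pl

section prim

variable {k K₀ : Type*} [Field k] [CharZero k] [Field K₀] [Algebra k K₀]

open algebraAdjoinAdjoin in
/-- a primitive element which is integral over the polynomials in `t` -/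
theorem prim {t : K₀} (ht : Transcendental k t) (hfd : FiniteDimensional k⟮t⟯ K₀) :
    ∃ (x : K₀) (F : k[X][X]), F.Monic ∧ adjoin k⟮t⟯ {x} = ⊤ ∧ IsIntegral k⟮t⟯ x ∧
      minpoly k⟮t⟯ x = F.map (aeval (AdjoinSimple.gen k t)).toRingHom := by
  let R := Algebra.adjoin k {t}
  have hinj : Function.Injective (aeval t : k[X] →ₐ[k] K₀) := by
    rw [injective_iff_map_eq_zero]
    intro p hp
    by_contra h
    exact ht ⟨p, h, hp⟩
  let e : k[X] ≃ₐ[k] R := (AlgEquiv.ofInjective (aeval t) hinj).trans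
    (Subalgebra.equivOfEq _ _ (Algebra.adjoin_singleton_eq_range_aeval k t).symm)
  have he : ∀ p, (e p : K₀) = aeval t p := fun p => rfl
  have hR : IsIntegrallyClosed R := IsIntegrallyClosed.of_equiv e.toRingEquiv
  have hcE : CharZero k⟮t⟯ := charZero_of_injective_algebraMap (algebraMap k k⟮t⟯).injective
  obtain ⟨α, hα⟩ := Field.exists_primitive_element k⟮t⟯ K₀
  have hαi : IsIntegral k⟮t⟯ α := Algebra.IsIntegral.isIntegral α
  have hαR : IsAlgebraic R α :=
    (IsFractionRing.isAlgebraic_iff R k⟮t⟯ K₀).2 hαi.isAlgebraic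
  obtain ⟨d, hd, hint⟩ := hαR.exists_integral_multiple
  have hd0 : (d : K₀) ≠ 0 := fun h => hd (Subtype.ext h)
  have hdx : d • α = (d : K₀) * α := rfl
  refine ⟨d • α, (minpoly R (d • α)).map (e.symm.toRingEquiv : R →+* k[X]), (minpoly.monic hint).map _,
    ?_, Algebra.IsIntegral.isIntegral _, ?_⟩
  · rw [eq_top_iff, ← hα, adjoin_simple_le_iff]
    have h1 : d • α ∈ adjoin k⟮t⟯ {d • α} := mem_adjoin_simple_self _ _
    have h2 : algebraMap k⟮t⟯ K₀ (algebraMap R k⟮t⟯ d) ∈ adjoin k⟮t⟯ {d • α} :=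
      IntermediateField.algebraMap_mem _ _
    have h3 : α = (algebraMap k⟮t⟯ K₀ (algebraMap R k⟮t⟯ d))⁻¹ * (d • α) := by
      show α = (d : K₀)⁻¹ * ((d : K₀) * α)
      rw [← mul_assoc, inv_mul_cancel₀ hd0, one_mul]
    have h4 := mul_mem (inv_mem h2) h1
    rw [← h3] at h4
    exact h4
  · rw [minpoly.isIntegrallyClosed_eq_field_fractions' k⟮t⟯ hint, Polynomial.map_map]
    congr 1
    apply RingHom.ext
    intro r
    apply (algebraMap k⟮t⟯ K₀).injective
    show (r : K₀) = algebraMap k⟮t⟯ K₀ (aeval (AdjoinSimple.gen k t) (e.symm r))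
    rw [← aeval_algebraMap_apply]
    show (r : K₀) = aeval t (e.symm r)
    rw [← he, e.apply_symm_apply]

end prim

section app

variable {k K₀ : Type*} [Field k] [Field K₀] [Algebra k K₀] {B : ValuationSubring K₀} {t : K₀}

theorem val_const (hB : IsRationalPlace k K₀ B) {c : k} (hc : c ≠ 0) :
    B.valuation (algebraMap k K₀ c) = 1 := by
  have h1 : B.valuation (algebraMap k K₀ c) ≤ 1 := (B.valuation_le_one_iff _).2 (hB.const_mem c)
  have h2 : B.valuation (algebraMap k K₀ c⁻¹) ≤ 1 :=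
    (B.valuation_le_one_iff _).2 (hB.const_mem c⁻¹)
  have h3 : B.valuation (algebraMap k K₀ c) * B.valuation (algebraMap k K₀ c⁻¹) = 1 := by
    rw [← map_mul, ← map_mul, mul_inv_cancel₀ hc, map_one, map_one]
  refine le_antisymm h1 ?_
  calc (1 : B.ValueGroup) = B.valuation (algebraMap k K₀ c) * B.valuation (algebraMap k K₀ c⁻¹) :=
        h3.symm
    _ ≤ B.valuation (algebraMap k K₀ c) * 1 := by gcongr
    _ = _ := mul_one _

theorem aeval_mem (hB : IsRationalPlace k K₀ B) (ht : t ∈ B) (p : k[X]) : aeval t p ∈ B := by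
  induction p using Polynomial.induction_on' with
  | add p q hp hq => rw [map_add]; exact B.add_mem _ _ hp hq
  | monomial n a =>
    rw [aeval_monomial]
    exact B.mul_mem _ _ (hB.const_mem a) (pow_mem ht n)

theorem val_unit (hB : IsRationalPlace k K₀ B) (ht : B.valuation t < 1) {b : k[X]}
    (hb : b.eval 0 ≠ 0) : B.valuation (aeval t b) = 1 := by
  have htB : t ∈ B := (B.valuation_le_one_iff t).1 ht.le
  have h1 : aeval t b = aeval t (divX b) * t + algebraMap k K₀ (b.coeff 0) := by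
    conv_lhs => rw [← divX_mul_X_add b]
    simp
  have h2 : b.coeff 0 ≠ 0 := by rwa [coeff_zero_eq_eval_zero]
  have h3 : B.valuation (aeval t (divX b) * t) < 1 := by
    rw [map_mul]
    calc B.valuation (aeval t (divX b)) * B.valuation t ≤ 1 * B.valuation t := by
          gcongr
          exact (B.valuation_le_one_iff _).2 (aeval_mem hB htB _)
      _ < 1 := by rwa [one_mul]
  rw [h1, Valuation.map_add_eq_of_lt_right, val_const hB h2]
  rwa [val_const hB h2]

theorem val_poly (hB : IsRationalPlace k K₀ B) (ht : B.valuation t < 1) {p : k[X]}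
    (hp : p ≠ 0) : ∃ (M : ℕ) (b : k[X]), p = X ^ M * b ∧ b.eval 0 ≠ 0 ∧
      B.valuation (aeval t p) = B.valuation t ^ M := by
  obtain ⟨b, h1, h2⟩ := exists_eq_pow_rootMultiplicity_mul_and_not_dvd p hp 0
  rw [map_zero, sub_zero] at h1 h2
  have h3 : b.eval 0 ≠ 0 := by
    rwa [← coeff_zero_eq_eval_zero, Ne, ← X_dvd_iff]
  refine ⟨_, b, h1, h3, ?_⟩
  conv_lhs => rw [h1]
  rw [map_mul, map_mul, map_pow, aeval_X, val_unit hB ht h3, mul_one, map_pow]

theorem pow_lt (ht : B.valuation t < 1) (ht0 : t ≠ 0) {a b : ℕ}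
    (h : B.valuation t ^ a < B.valuation t ^ b) : b < a := by
  have h0 : 0 < B.valuation t := by
    rw [zero_lt_iff]
    exact (Valuation.ne_zero_iff _).2 ht0
  by_contra hc
  push Not at hc
  exact absurd h (not_lt.2 (pow_le_pow_right_of_le_one' ht.le hc))

theorem pow_eq (ht : B.valuation t < 1) (ht0 : t ≠ 0) {a b : ℕ}
    (h : B.valuation t ^ a = B.valuation t ^ b) : a = b := by
  have h0 : 0 < B.valuation t := by
    rw [zero_lt_iff]
    exact (Valuation.ne_zero_iff _).2 ht0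
  rcases lt_trichotomy a b with h1 | h1 | h1
  · exact absurd h (pow_lt_pow_right_of_lt_one₀ h0 ht h1).ne'
  · exact h1
  · exact absurd h (pow_lt_pow_right_of_lt_one₀ h0 ht h1).ne

theorem dvd_of_val (hB : IsRationalPlace k K₀ B) (ht : B.valuation t < 1) (ht0 : t ≠ 0)
    {p : k[X]} {m : ℕ} (h : B.valuation (aeval t p) < B.valuation t ^ m) : X ^ (m + 1) ∣ p := by
  by_cases hp : p = 0
  · rw [hp]; exact dvd_zero _
  · obtain ⟨M, b, h1, -, h3⟩ := val_poly hB ht hp
    rw [h3] at h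
    have h4 := pow_lt ht ht0 h
    rw [h1]
    exact Dvd.dvd.mul_right (pow_dvd_pow _ h4) _

/-- lower bounds for values -/
theorem val_lower (hB : IsRationalPlace k K₀ B) (ht : B.valuation t < 1)
    (hfd : FiniteDimensional k⟮t⟯ K₀) {z : K₀} (hz : z ∈ B) (hz0 : z ≠ 0) :
    ∃ M : ℕ, B.valuation t ^ M ≤ B.valuation z := by
  have htB : t ∈ B := (B.valuation_le_one_iff t).1 ht.le
  have h1 : IsAlgebraic (Algebra.adjoin k {t}) z :=
    (open algebraAdjoinAdjoin in
      (IsFractionRing.isAlgebraic_iff (Algebra.adjoin k {t}) k⟮t⟯ K₀).2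
        (Algebra.IsAlgebraic.isAlgebraic z))
  obtain ⟨q, hq0, hq⟩ := h1.exists_nonzero_coeff_and_aeval_eq_zero (mem_nonZeroDivisors_of_ne_zero hz0)
  have hR : ∀ r : Algebra.adjoin k {t}, ∃ p : k[X], aeval t p = (r : K₀) := by
    intro r
    have h2 : ∀ w ∈ Algebra.adjoin k {t}, ∃ p : k[X], aeval t p = w := by
      intro w hw
      rw [Algebra.adjoin_singleton_eq_range_aeval] at hw
      exact hw
    exact h2 r r.2
  have hRB : ∀ r : Algebra.adjoin k {t}, (r : K₀) ∈ B := by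
    intro r
    obtain ⟨p, hp⟩ := hR r
    rw [← hp]
    exact aeval_mem hB htB p
  have hmem : ∀ P : (Algebra.adjoin k {t})[X], aeval z P ∈ B := by
    intro P
    induction P using Polynomial.induction_on' with
    | add p q hp hq => rw [map_add]; exact B.add_mem _ _ hp hq
    | monomial n a =>
      rw [aeval_monomial]
      exact B.mul_mem _ _ (hRB a) (pow_mem hz n)
  have h2 : ((q.coeff 0 : Algebra.adjoin k {t}) : K₀) = -(aeval z (divX q) * z) := by
    have h3 : aeval z q = aeval z (divX q) * z + ((q.coeff 0 : Algebra.adjoin k {t}) : K₀) := by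
      conv_lhs => rw [← divX_mul_X_add q]
      rw [map_add, map_mul, aeval_X, aeval_C]
      rfl
    rw [hq] at h3
    linear_combination -h3
  obtain ⟨p, hp⟩ := hR (q.coeff 0)
  have hp0 : p ≠ 0 := by
    rintro rfl
    rw [map_zero] at hp
    exact hq0 (Subtype.ext hp.symm)
  obtain ⟨M, b, -, -, h5⟩ := val_poly hB ht hp0
  refine ⟨M, ?_⟩
  rw [← h5, hp, h2, Valuation.map_neg, map_mul]
  calc B.valuation (aeval z (divX q)) * B.valuation z ≤ 1 * B.valuation z := by
        gcongr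
        exact (B.valuation_le_one_iff _).2 (hmem _)
    _ = _ := one_mul _

theorem val_pow (ht : Unif B t) (ht0 : t ≠ 0) (M : ℕ) : ∀ z : K₀, z ∈ B → z ≠ 0 →
    B.valuation t ^ M ≤ B.valuation z → ∃ N : ℕ, B.valuation z = B.valuation t ^ N := by
  have hv0 : B.valuation t ≠ 0 := (Valuation.ne_zero_iff _).2 ht0
  induction M with
  | zero =>
    intro z hz _ h
    rw [pow_zero] at h
    exact ⟨0, by rw [pow_zero]; exact le_antisymm ((B.valuation_le_one_iff z).2 hz) h⟩
  | succ M ih =>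
    intro z hz hz0 h
    rcases ((B.valuation_le_one_iff z).2 hz).lt_or_eq with h1 | h1
    · have h2 := ht.2 z h1
      have h3 : z / t ∈ B := by
        rw [← B.valuation_le_one_iff, map_div₀]
        exact (div_le_one₀ (zero_lt_iff.2 hv0)).2 h2
      obtain ⟨N, hN⟩ := ih (z / t) h3 (div_ne_zero hz0 ht0) (by
        rw [map_div₀, le_div_iff₀ (zero_lt_iff.2 hv0), ← pow_succ]
        exact h)
      refine ⟨N + 1, ?_⟩
      rw [map_div₀, div_eq_iff hv0] at hN
      rw [hN, pow_succ]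
    · exact ⟨0, by rw [pow_zero]; exact h1⟩

/-- approximation by polynomials -/
theorem approx (hB : IsRationalPlace k K₀ B) (ht : Unif B t) (ht0 : t ≠ 0) {x : K₀} (hx : x ∈ B)
    (n : ℕ) : ∃ (s : k[X]) (x' : K₀), B.valuation x' < 1 ∧ x = aeval t s + t ^ n * x' := by
  have hv0 : B.valuation t ≠ 0 := (Valuation.ne_zero_iff _).2 ht0
  induction n with
  | zero =>
    obtain ⟨c, hc⟩ := hB.residue x hx
    exact ⟨C c, x - algebraMap k K₀ c, hc, by rw [aeval_C]; ring⟩
  | succ n ih =>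
    obtain ⟨s, x', hx', h⟩ := ih
    have h3 : x' / t ∈ B := by
      rw [← B.valuation_le_one_iff, map_div₀]
      exact (div_le_one₀ (zero_lt_iff.2 hv0)).2 (ht.2 x' hx')
    obtain ⟨c, hc⟩ := hB.residue _ h3
    refine ⟨s + C c * X ^ (n + 1), x' / t - algebraMap k K₀ c, hc, ?_⟩
    have e : x' = x' / t * t := (div_mul_cancel₀ _ ht0).symm
    rw [h]
    conv_lhs => rw [e]
    simp only [map_add, map_mul, aeval_C, map_pow, aeval_X]
    ring

/-- expansions -/
theorem expand (F : k[X][X]) (s : k[X]) : ∃ K K' : k[X][X], ∀ y z : k,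
    F.evalEval y (s.eval y + z) = (F.eval s).eval y + (F.derivative.eval s).eval y * z +
      K.evalEval y z * z ^ 2 ∧
    F.derivative.evalEval y (s.eval y + z) = (F.derivative.eval s).eval y +
      K'.evalEval y z * z := by
  have hC : ∀ (G : k[X][X]) (y z : k), evalEvalRingHom y z ((G.map C).eval (C s + X)) =
      G.evalEval y (s.eval y + z) := by
    intro G y z
    have e : (evalEvalRingHom y z).comp (C : k[X] →+* k[X][X]) = evalRingHom y := by
      ext <;> simp
    rw [eval_map, hom_eval₂, e, ← map_evalRingHom_eval, eval_map]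
    congr 1
    simp
  have hC0 : ∀ (G : k[X][X]) (y z : k), evalEvalRingHom y z ((G.map C).eval (C s)) =
      (G.eval s).eval y := by
    intro G y z
    rw [eval_map_apply]
    simp
  obtain ⟨K, hK⟩ := Polynomial.binomExpansion (F.map C) (C s) X
  obtain ⟨K', hK'⟩ := Polynomial.evalSubFactor (F.derivative.map C) (C s + X) (C s)
  refine ⟨K, K', fun y z => ⟨?_, ?_⟩⟩
  · have h := congrArg (evalEvalRingHom y z) hK
    rw [hC, map_add, map_add, map_mul, map_mul, map_pow, derivative_map, hC0, hC0] at h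
    rw [h]
    simp
  · have h := congrArg (evalEvalRingHom y z) hK'
    rw [map_sub, hC, hC0, map_mul] at h
    have e : evalEvalRingHom y z (C s + X - C s) = z := by simp
    rw [e, sub_eq_iff_eq_add] at h
    rw [h, add_comm]
    simp

theorem key (hB : IsRationalPlace k K₀ B) (ht : Unif B t)
    (htr : Transcendental k t) (hfd : FiniteDimensional k⟮t⟯ K₀) {x : K₀} {F : k[X][X]}
    (hF : F.Monic) (h0 : F.eval₂ (aeval t).toRingHom x = 0)
    (h1 : F.derivative.eval₂ (aeval t).toRingHom x ≠ 0) :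
    ∃ (N : ℕ) (s c e : k[X]), e.eval 0 ≠ 0 ∧ F.eval s = X ^ (2 * N + 2) * c ∧
      F.derivative.eval s = X ^ N * e := by
  have ht0 : t ≠ 0 := by
    rintro rfl
    exact htr ⟨X, X_ne_zero, by simp⟩
  have hv0 : 0 < B.valuation t := zero_lt_iff.2 ((Valuation.ne_zero_iff _).2 ht0)
  have htB : t ∈ B := (B.valuation_le_one_iff t).1 ht.1.le
  let τ : k[X] →+* B := RingHom.codRestrict (aeval t).toRingHom B (aeval_mem hB htB)
  have hτ : ∀ p, ((τ p : B) : K₀) = aeval t p := fun p => rfl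
  have hτc : B.subtype.comp τ = (aeval t).toRingHom := rfl
  have hxB : x ∈ B := by
    have hint : IsIntegral B x := ⟨F.map τ, hF.map _, by rw [eval₂_map]; exact h0⟩
    obtain ⟨z, hz⟩ := (IsIntegrallyClosed.isIntegral_iff (R := B) (K := K₀)).1 hint
    rw [← hz]
    exact z.2
  let xB : B := ⟨x, hxB⟩
  have hev : ∀ (G : k[X][X]) (z : B), (((G.map τ).eval z : B) : K₀) =
      G.eval₂ (aeval t).toRingHom z := by
    intro G z
    have h2 : B.subtype ((G.map τ).eval z) = G.eval₂ (aeval t).toRingHom z := by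
      rw [eval_map, hom_eval₂, hτc]
      rfl
    exact h2
  have hevs : ∀ (G : k[X][X]) (s : k[X]), (((G.map τ).eval (τ s) : B) : K₀) =
      aeval t (G.eval s) := by
    intro G s
    rw [eval_map_apply]
    exact hτ _
  have hd1 : (((F.derivative.map τ).eval xB : B) : K₀) ≠ 0 := by
    rw [hev]
    exact h1
  have hd0 : (((F.map τ).eval xB : B) : K₀) = 0 := by
    rw [hev]
    exact h0
  obtain ⟨M, hM⟩ := val_lower hB ht.1 hfd ((F.derivative.map τ).eval xB).2 hd1
  obtain ⟨N, hN⟩ := val_pow ht ht0 M _ ((F.derivative.map τ).eval xB).2 hd1 hM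
  obtain ⟨s, x', hx', hs⟩ := approx hB ht ht0 hxB (N + 1)
  let δ : B := xB - τ s
  have hδ : (δ : K₀) = t ^ (N + 1) * x' := by
    show x - aeval t s = _
    rw [hs]
    ring
  have hδv : B.valuation (δ : K₀) < B.valuation t ^ (N + 1) := by
    rw [hδ, map_mul, map_pow]
    calc B.valuation t ^ (N + 1) * B.valuation x' < B.valuation t ^ (N + 1) * 1 := by
          gcongr
          exact pow_pos hv0 _
      _ = _ := mul_one _
  have hle : ∀ z : B, B.valuation (z : K₀) ≤ 1 := fun z => (B.valuation_le_one_iff _).2 z.2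
  -- the derivative
  obtain ⟨u, hu⟩ := Polynomial.evalSubFactor (F.derivative.map τ) (τ s) xB
  have hu' : (((F.derivative.map τ).eval (τ s) : B) : K₀) =
      (((F.derivative.map τ).eval xB : B) : K₀) + (-((u : K₀) * (δ : K₀))) := by
    have h2 : (F.derivative.map τ).eval (τ s) = (F.derivative.map τ).eval xB + (-(u * δ)) := by
      have e : τ s - xB = -δ := by simp [δ]
      rw [e] at hu
      linear_combination hu
    rw [h2]
    push_cast
    rfl
  have hud : B.valuation (-((u : K₀) * (δ : K₀))) < B.valuation t ^ N := by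
    rw [Valuation.map_neg, map_mul]
    calc B.valuation (u : K₀) * B.valuation (δ : K₀) ≤ 1 * B.valuation (δ : K₀) := by
          gcongr
          exact hle u
      _ < B.valuation t ^ (N + 1) := by rwa [one_mul]
      _ ≤ B.valuation t ^ N := pow_le_pow_right_of_le_one' ht.1.le (by omega)
  have hvd : B.valuation (aeval t (F.derivative.eval s)) = B.valuation t ^ N := by
    rw [← hevs, hu', Valuation.map_add_eq_of_lt_left _ (by rw [hN]; exact hud), hN]
  have hne : F.derivative.eval s ≠ 0 := by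
    intro h
    rw [h, map_zero, map_zero] at hvd
    exact (pow_pos hv0 N).ne hvd
  obtain ⟨N', e, he1, he2, he3⟩ := val_poly hB ht.1 hne
  have hNN : N' = N := pow_eq ht.1 ht0 (by rw [← he3, hvd])
  subst hNN
  -- the polynomial
  obtain ⟨w, hw⟩ := Polynomial.binomExpansion (F.map τ) xB (-δ)
  have hxs : xB + -δ = τ s := by simp [δ]
  rw [hxs, derivative_map] at hw
  have hw' : (((F.map τ).eval (τ s) : B) : K₀) =
      -((((F.derivative.map τ).eval xB : B) : K₀) * (δ : K₀)) + (w : K₀) * (δ : K₀) ^ 2 := by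
    rw [hw]
    push_cast
    rw [hd0]
    ring
  have hvf : B.valuation (aeval t (F.eval s)) < B.valuation t ^ (2 * N' + 1) := by
    rw [← hevs, hw']
    refine lt_of_le_of_lt (Valuation.map_add _ _ _) (max_lt ?_ ?_)
    · rw [Valuation.map_neg, map_mul, hN]
      calc B.valuation t ^ N' * B.valuation (δ : K₀) < B.valuation t ^ N' * B.valuation t ^ (N' + 1) := by
            gcongr
            exact pow_pos hv0 _
        _ = _ := by rw [← pow_add]; congr 1; omega
    · rw [map_mul, map_pow]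
      have h2 : B.valuation (δ : K₀) ^ 2 < B.valuation t ^ (2 * N' + 1) := by
        calc B.valuation (δ : K₀) ^ 2 = B.valuation (δ : K₀) * B.valuation (δ : K₀) := sq _
          _ ≤ B.valuation t ^ (N' + 1) * B.valuation (δ : K₀) := by
              gcongr
          _ < B.valuation t ^ (N' + 1) * B.valuation t ^ (N' + 1) := by
              gcongr
              exact pow_pos hv0 _
          _ = B.valuation t ^ (2 * N' + 2) := by rw [← pow_add]; congr 1; omega
          _ ≤ _ := pow_le_pow_right_of_le_one' ht.1.le (by omega)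
      calc B.valuation (w : K₀) * B.valuation (δ : K₀) ^ 2 ≤ 1 * B.valuation (δ : K₀) ^ 2 := by
            gcongr
            exact hle w
        _ < _ := by rwa [one_mul]
  obtain ⟨c, hc⟩ := dvd_of_val hB ht.1 ht0 hvf
  exact ⟨N', s, c, e, he2, hc, he1⟩

end app

end ImpAux

open ImpAux in
theorem stImp.{u} : StImp.{u} := by
  intro p _ k _ _ _ K₀ _ _ t htr hfd B hB ht
  have hc0 : CharZero k := charZero_of_injective_algebraMap (algebraMap ℚ_[p] k).injective
  have hcE : CharZero k⟮t⟯ := charZero_of_injective_algebraMap (algebraMap k k⟮t⟯).injective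
  obtain ⟨x, F, hF, hx, hint, hmin⟩ := prim htr hfd
  have hcomp : (algebraMap k⟮t⟯ K₀).comp
      (aeval (AdjoinSimple.gen k t) : k[X] →ₐ[k] k⟮t⟯).toRingHom =
      (aeval t : k[X] →ₐ[k] K₀).toRingHom := by
    apply RingHom.ext
    intro q
    show algebraMap k⟮t⟯ K₀ (aeval (AdjoinSimple.gen k t) q) = aeval t q
    rw [← aeval_algebraMap_apply]
    rfl
  have hev : ∀ G : k[X][X], aeval x (G.map (aeval (AdjoinSimple.gen k t)).toRingHom) =
      G.eval₂ (aeval t).toRingHom x := by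
    intro G
    rw [aeval_def, eval₂_map, hcomp]
  have h0 : F.eval₂ (aeval t).toRingHom x = 0 := by
    rw [← hev, ← hmin]
    exact minpoly.aeval k⟮t⟯ x
  have h1 : F.derivative.eval₂ (aeval t).toRingHom x ≠ 0 := by
    have hsep : (minpoly k⟮t⟯ x).Separable := Algebra.IsSeparable.isSeparable k⟮t⟯ x
    have h2 := hsep.aeval_derivative_ne_zero (minpoly.aeval k⟮t⟯ x)
    rw [hmin, derivative_map, hev] at h2
    exact h2
  obtain ⟨N, s, c, e, he, hc, hd⟩ := key hB ht htr hfd hF h0 h1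
  obtain ⟨K, K', hK⟩ := expand F s
  letI : NontriviallyNormedField k := spectralNorm.nontriviallyNormedField ℚ_[p] k
  have hcs : CompleteSpace k := spectralNorm.completeSpace ℚ_[p] k
  obtain ⟨ε, hε, h⟩ := an c e K K' N he
  refine ⟨ε, hε, fun y hy => ?_⟩
  by_cases hy0 : y = 0
  · refine ⟨B, hB, ?_⟩
    rw [hy0, map_zero, sub_zero]
    exact ht.1
  obtain ⟨W, hW1, hW2⟩ := h y hy
  obtain ⟨hK1, hK2⟩ := hK y (y ^ (N + 1) * W)
  refine pl htr hx hint hF hmin (y := y) (ξ := s.eval y + y ^ (N + 1) * W) ?_ ?_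
  · rw [map_evalRingHom_eval, hK1, hc, hd]
    simp only [eval_mul, eval_pow, eval_X]
    linear_combination y ^ (2 * N + 1) * hW1
  · rw [derivative_map, map_evalRingHom_eval, hK2, hd]
    simp only [eval_mul, eval_pow, eval_X]
    have e1 : y ^ N * e.eval y + K'.evalEval y (y ^ (N + 1) * W) * (y ^ (N + 1) * W) =
        y ^ N * (e.eval y + y * K'.evalEval y (y ^ (N + 1) * W) * W) := by ring
    rw [e1]
    exact mul_ne_zero (pow_ne_zero _ hy0) hW2

end Pool.Agent.Lib.MP_c385f6_ag.Bc
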