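import Mathlib
import Pool.Agent.Lib.MP_c385f6_ag.Bc.St

set_option autoImplicit false

/-!
Part B4 of the base change theorem: integral equations over the local ring of the line.
-/

namespace Pool.Agent.Lib.MP_c385f6_ag.Bc

open Polynomial Finset

universe u

namespace IntAux

section
variable {L : Type*} {F : Type*} [Field L] [Field F] [Algebra L F]

theorem aeval_ne {x₁ : F} (hx : Transcendental L x₁) {Q : L[X]} (hQ : Q ≠ 0) :
    aeval x₁ Q ≠ 0 := fun h => hQ ((transcendental_iff.1 hx) Q h)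

theorem ne_of_eval {y₁ : L} {Q : L[X]} (hQ : Q.eval y₁ ≠ 0) : Q ≠ 0 := by
  rintro rfl
  exact hQ eval_zero

/-- the quotients of polynomials in `x₁` with denominators not vanishing at `y₁` -/
def locRing (x₁ : F) (y₁ : L) (hx : Transcendental L x₁) : Subring F where
  carrier := {r | ∃ P Q : L[X], Q.eval y₁ ≠ 0 ∧ r = aeval x₁ P / aeval x₁ Q}
  mul_mem' := by
    rintro _ _ ⟨P, Q, hQ, rfl⟩ ⟨P', Q', hQ', rfl⟩
    refine ⟨P * P', Q * Q', ?_, ?_⟩
    · rw [eval_mul]
      exact mul_ne_zero hQ hQ'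
    · rw [map_mul, map_mul, div_mul_div_comm]
  one_mem' := ⟨1, 1, by simp, by simp⟩
  add_mem' := by
    rintro _ _ ⟨P, Q, hQ, rfl⟩ ⟨P', Q', hQ', rfl⟩
    refine ⟨P * Q' + Q * P', Q * Q', ?_, ?_⟩
    · rw [eval_mul]
      exact mul_ne_zero hQ hQ'
    · rw [map_add, map_mul, map_mul, map_mul, div_add_div _ _ (aeval_ne hx (ne_of_eval hQ))
        (aeval_ne hx (ne_of_eval hQ'))]
  zero_mem' := ⟨0, 1, by simp, by simp⟩
  neg_mem' := by
    rintro _ ⟨P, Q, hQ, rfl⟩
    exact ⟨-P, Q, hQ, by rw [map_neg, neg_div]⟩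

theorem mem_locRing {x₁ : F} {y₁ : L} {hx : Transcendental L x₁} {r : F} :
    r ∈ locRing x₁ y₁ hx ↔ ∃ P Q : L[X], Q.eval y₁ ≠ 0 ∧ r = aeval x₁ P / aeval x₁ Q := Iff.rfl

/-- an integral equation over `locRing` has a common denominator -/
theorem equation {x₁ : F} {y₁ : L} (hx : Transcendental L x₁) {x : F}
    (h : IsIntegral (locRing x₁ y₁ hx) x) :
    ∃ (n : ℕ) (q : ℕ → L[X]), (q 0).eval y₁ ≠ 0 ∧
      ∑ i ∈ range (n + 1), aeval x₁ (q i) * x ^ (n - i) = 0 := by
  classical
  obtain ⟨f, hf, hfx⟩ := h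
  have hc : ∀ i, ∃ P Q : L[X], Q.eval y₁ ≠ 0 ∧ (f.coeff i : F) = aeval x₁ P / aeval x₁ Q :=
    fun i => (f.coeff i).2
  choose P Q hQ hPQ using hc
  let n := f.natDegree
  let Q₀ : L[X] := ∏ i ∈ range (n + 1), Q i
  have hQ₀ : Q₀.eval y₁ ≠ 0 := by
    rw [eval_prod]
    exact Finset.prod_ne_zero_iff.2 fun i _ => hQ i
  have hq : ∀ i, ∃ q : L[X], i ≤ n → aeval x₁ q = aeval x₁ Q₀ * (f.coeff (n - i) : F) := by
    intro i
    by_cases hi : i ≤ n
    · refine ⟨P (n - i) * ∏ j ∈ (range (n + 1)).erase (n - i), Q j, fun _ => ?_⟩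
      have h1 : Q₀ = Q (n - i) * ∏ j ∈ (range (n + 1)).erase (n - i), Q j :=
        (Finset.mul_prod_erase _ _ (Finset.mem_range.2 (by omega))).symm
      have h2 := aeval_ne hx (ne_of_eval (hQ (n - i)))
      rw [hPQ, h1, map_mul, map_mul]
      field_simp
    · exact ⟨0, fun h => absurd h hi⟩
  choose q hq using hq
  refine ⟨n, q, ?_, ?_⟩
  · have h1 := hq 0 (Nat.zero_le _)
    have h2 : f.coeff (n - 0) = 1 := hf
    rw [h2, Subring.coe_one, mul_one] at h1
    have h3 : q 0 = Q₀ := by
      have h4 : aeval x₁ (q 0 - Q₀) = 0 := by rw [map_sub, h1, sub_self]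
      exact sub_eq_zero.1 ((transcendental_iff.1 hx) _ h4)
    rw [h3]
    exact hQ₀
  · have h1 : ∑ i ∈ range (n + 1), aeval x₁ (q i) * x ^ (n - i) =
        aeval x₁ Q₀ * ∑ i ∈ range (n + 1), (f.coeff (n - i) : F) * x ^ (n - i) := by
      rw [Finset.mul_sum]
      refine Finset.sum_congr rfl fun i hi => ?_
      rw [hq i (by have := Finset.mem_range.1 hi; omega), mul_assoc]
    have h2 : ∑ i ∈ range (n + 1), (f.coeff (n - i) : F) * x ^ (n - i) =
        ∑ i ∈ range (n + 1), (f.coeff i : F) * x ^ i := by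
      rw [← Finset.sum_range_reflect]
      refine Finset.sum_congr rfl fun i hi => ?_
      have := Finset.mem_range.1 hi
      have h3 : n - (n + 1 - 1 - i) = i := by omega
      rw [h3]
    have h3 : ∑ i ∈ range (n + 1), (f.coeff i : F) * x ^ i = 0 := by
      rw [← hfx, eval₂_eq_sum_range]
      rfl
    rw [h1, h2, h3, mul_zero]

end

/-- the valuation subrings containing the local ring contain the functions without poles over
the rational points -/
theorem mem_of_le {k L F : Type*} [Field k] [Field L] [Algebra k L] [Field F] [Algebra k F]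
    [Algebra L F] [IsScalarTower k L F] {w : F}
    (halg : ∀ x : F, IsAlgebraic (Algebra.adjoin L {w}) x) {θ : L}
    (hθ : ∀ y : k, algebraMap k L y ≠ θ) {y₁ : L}
    (hy₁ : y₁ = 0 ∨ ∃ a : k, y₁ = (algebraMap k L a - θ)⁻¹)
    (hx₁ : Transcendental L (w - algebraMap L F θ)⁻¹)
    {b : k[X]} {x : F} (hx : x ∈ RR k L b w) {V : ValuationSubring F}
    (hV : ∀ P Q : L[X], Q.eval y₁ ≠ 0 →
      aeval (w - algebraMap L F θ)⁻¹ P / aeval (w - algebraMap L F θ)⁻¹ Q ∈ V) : x ∈ V := by
  set x₁ : F := (w - algebraMap L F θ)⁻¹ with hx₁def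
  have hL : ∀ c : L, algebraMap L F c ∈ V := by
    intro c
    have := hV (C c) 1 (by simp)
    rwa [aeval_C, map_one, div_one] at this
  have hX : x₁ ∈ V := by
    have := hV X 1 (by simp)
    rwa [aeval_X, map_one, div_one] at this
  have hx₁0 : x₁ ≠ 0 := by
    have := aeval_ne hx₁ (Polynomial.X_ne_zero (R := L))
    rwa [aeval_X] at this
  have hw : w = algebraMap L F θ + x₁⁻¹ := by
    rw [hx₁def, inv_inv]
    ring
  have hconst : ∀ c : L, c ≠ 0 → V.valuation (algebraMap L F c) = 1 := by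
    intro c hc
    refine le_antisymm ((V.valuation_le_one_iff _).2 (hL c)) ?_
    have h1 : V.valuation (algebraMap L F c⁻¹) ≤ 1 := (V.valuation_le_one_iff _).2 (hL _)
    rw [map_inv₀, map_inv₀] at h1
    have h2 : V.valuation (algebraMap L F c) ≠ 0 := by
      rw [Valuation.ne_zero_iff]
      exact (_root_.map_ne_zero _).2 hc
    rwa [inv_le_one₀ (zero_lt_iff.2 h2)] at h1
  by_cases hlt : V.valuation (x₁ - algebraMap L F y₁) < 1
  · refine hx V ⟨hL, ?_⟩
    rcases hy₁ with rfl | ⟨a, rfl⟩
    · right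
      left
      rw [map_zero, sub_zero] at hlt
      intro hwV
      have h1 : x₁⁻¹ ∈ V := by
        have h2 : x₁⁻¹ = w - algebraMap L F θ := by rw [hw]; ring
        rw [h2]
        exact sub_mem hwV (hL θ)
      have h2 : V.valuation x₁⁻¹ ≤ 1 := (V.valuation_le_one_iff _).2 h1
      have h3 : V.valuation x₁ * V.valuation x₁⁻¹ = 1 := by
        rw [← map_mul, mul_inv_cancel₀ hx₁0, map_one]
      have h4 : V.valuation x₁ * V.valuation x₁⁻¹ < 1 :=
        mul_lt_one_of_lt_of_le hlt h2
      exact h4.ne h3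
    · left
      refine ⟨a, ?_⟩
      have ha : algebraMap k L a - θ ≠ 0 := sub_ne_zero.2 (hθ a)
      have hv1 := hconst _ (inv_ne_zero ha)
      have hv2 : V.valuation x₁ = 1 := by
        have h1 := Valuation.map_add_eq_of_lt_right V.valuation
          (x := x₁ - algebraMap L F (algebraMap k L a - θ)⁻¹)
          (y := algebraMap L F (algebraMap k L a - θ)⁻¹) (by rw [hv1]; exact hlt)
        rw [sub_add_cancel, hv1] at h1
        exact h1
      have hy0 : algebraMap L F (algebraMap k L a - θ)⁻¹ ≠ 0 :=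
        (_root_.map_ne_zero _).2 (inv_ne_zero ha)
      have h2 : w - algebraMap k F a = -(x₁ - algebraMap L F (algebraMap k L a - θ)⁻¹) /
          (x₁ * algebraMap L F (algebraMap k L a - θ)⁻¹) := by
        have h3 : algebraMap k F a = algebraMap L F θ +
            (algebraMap L F (algebraMap k L a - θ)⁻¹)⁻¹ := by
          rw [map_inv₀, inv_inv, map_sub, ← IsScalarTower.algebraMap_apply]
          ring
        rw [h3, hw]
        generalize algebraMap L F (algebraMap k L a - θ)⁻¹ = c₁ at hy0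
        field_simp
        ring
      rw [h2, map_div₀, map_mul, hv2, hv1, Valuation.map_neg]
      simpa using hlt
  · -- here `V` contains the field generated by `x₁`
    have hmem : x₁ - algebraMap L F y₁ ∈ V := sub_mem hX (hL _)
    have hle : V.valuation (x₁ - algebraMap L F y₁) = 1 :=
      le_antisymm ((V.valuation_le_one_iff _).2 hmem) (not_lt.1 hlt)
    have hinv : (x₁ - algebraMap L F y₁)⁻¹ ∈ V := by
      rw [← V.valuation_le_one_iff, map_inv₀, hle, inv_one]
    have hpoly : ∀ Q : L[X], Q ≠ 0 → (aeval x₁ Q)⁻¹ ∈ V := by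
      intro Q hQ
      obtain ⟨Q', hQ', hdvd⟩ := exists_eq_pow_rootMultiplicity_mul_and_not_dvd Q hQ y₁
      have h1 : Q'.eval y₁ ≠ 0 := by
        intro h0
        exact hdvd (dvd_iff_isRoot.2 h0)
      have h2 := hV 1 Q' h1
      rw [map_one, one_div] at h2
      have h3 : (aeval x₁ Q)⁻¹ =
          (x₁ - algebraMap L F y₁)⁻¹ ^ (rootMultiplicity y₁ Q) * (aeval x₁ Q')⁻¹ := by
        conv_lhs => rw [hQ']
        rw [map_mul, map_pow, map_sub, aeval_X, aeval_C, mul_inv, inv_pow]
      rw [h3]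
      exact mul_mem (pow_mem hinv _) h2
    have hpoly' : ∀ P : L[X], aeval x₁ P ∈ V := by
      intro P
      have := hV P 1 (by simp)
      rwa [map_one, div_one] at this
    have hfield : ∀ z ∈ IntermediateField.adjoin L {x₁}, z ∈ V := by
      intro z hz
      obtain ⟨P, Q, rfl⟩ := (IntermediateField.mem_adjoin_simple_iff (F := L) z).1 hz
      rcases eq_or_ne Q 0 with rfl | hQ
      · rw [map_zero, div_zero]
        exact V.zero_mem
      · rw [div_eq_mul_inv]
        exact mul_mem (hpoly' P) (hpoly Q hQ)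
    have hwK : w ∈ IntermediateField.adjoin L {x₁} := by
      rw [hw]
      refine add_mem (IntermediateField.algebraMap_mem _ _) (inv_mem ?_)
      exact IntermediateField.mem_adjoin_simple_self L x₁
    have hsub : ∀ z ∈ Algebra.adjoin L {w}, z ∈ IntermediateField.adjoin L {x₁} := by
      intro z hz
      have h1 : Algebra.adjoin L {w} ≤ (IntermediateField.adjoin L {x₁}).toSubalgebra := by
        rw [Algebra.adjoin_le_iff, Set.singleton_subset_iff]
        exact hwK
      exact h1 hz
    let ι : Algebra.adjoin L {w} →+* IntermediateField.adjoin L {x₁} :=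
      ((Algebra.adjoin L {w}).val : Algebra.adjoin L {w} →+* F).codRestrict
        (IntermediateField.adjoin L {x₁}).toSubfield fun z => hsub z z.2
    have hι : Function.Injective ι := by
      intro z z' h
      have h1 : (z : F) = z' :=
        congrArg (fun t : IntermediateField.adjoin L {x₁} => (t : F)) h
      exact Subtype.ext h1
    obtain ⟨f, hf, hfx⟩ := halg x
    have hint : IsIntegral (IntermediateField.adjoin L {x₁}) x := by
      rw [← isAlgebraic_iff_isIntegral]
      refine ⟨f.map ι, (Polynomial.map_ne_zero_iff hι).2 hf, ?_⟩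
      rw [aeval_def, eval₂_map]
      exact hfx
    obtain ⟨g, hg, hgx⟩ := hint
    let κ : IntermediateField.adjoin L {x₁} →+* V :=
      ((IntermediateField.adjoin L {x₁}).val : IntermediateField.adjoin L {x₁} →+* F).codRestrict
        V fun z => hfield z z.2
    have hVint : IsIntegral V x := by
      refine ⟨g.map κ, hg.map κ, ?_⟩
      rw [eval₂_map]
      exact hgx
    obtain ⟨t, ht⟩ := (IsIntegrallyClosed.isIntegral_iff (R := V) (K := F)).1 hVint
    rw [← ht]
    exact t.2

end IntAux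

/-- (B4) integral equations -/
theorem stInt : StInt.{u} := by
  intro k L _ _ _ F _ _ _ _ w hw halg θ hθ y₁ hy₁ b x hx
  have hx₁ : Transcendental L (w - algebraMap L F θ)⁻¹ := by
    intro h
    apply hw
    have h1 : IsAlgebraic L (w - algebraMap L F θ) := by
      have := h.inv
      rwa [inv_inv] at this
    have h2 : w = (w - algebraMap L F θ) + algebraMap L F θ := by ring
    rw [h2]
    exact h1.add (isAlgebraic_algebraMap θ)
  refine IntAux.equation hx₁ ?_
  have h1 : x ∈ (⨅ V : {V : ValuationSubring F //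
      (IntAux.locRing (w - algebraMap L F θ)⁻¹ y₁ hx₁ : Set F) ⊆ V.toSubring},
      V.1.toSubring) := by
    rw [Subring.mem_iInf]
    rintro ⟨V, hV⟩
    exact IntAux.mem_of_le halg hθ hy₁ hx₁ hx fun P Q hQ => hV ⟨P, Q, hQ, rfl⟩
  rw [iInf_valuationSubring_superset] at h1
  have h2 : IsIntegral (Subring.closure
    (IntAux.locRing (w - algebraMap L F θ)⁻¹ y₁ hx₁ : Set F)) x := h1
  rw [Subring.closure_eq] at h2
  exact h2

end Pool.Agent.Lib.MP_c385f6_ag.Bc
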