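import Mathlib
import Pool.Agent.Lib.MP_c385f6_ag.Bc.Basic
import Pool.Agent.Lib.MP_c385f6_ag.Bc.St

set_option autoImplicit false

/-!
(C2) Ultralimits of partial systems of classes (base change theorem).
-/

namespace Pool.Agent.Lib.MP_c385f6_ag.Bc

open Pool.Agent.Lib.MP_c385f6_ag.Cpl Polynomial

universe u

namespace Lim

section

variable {k L K₀ F : Type*} [Field k] [Field L] [Field K₀] [Field F] [Algebra k L] [Algebra k K₀]
  [Algebra k F] [Algebra L F] [Algebra K₀ F] [IsScalarTower k L F] [IsScalarTower k K₀ F]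

/-- automorphisms over `K₀` which extend an automorphism of `L` over `k` permute the places over
the rational points -/
theorem comap_mem {w : K₀} {b : k[X]} {g : L ≃ₐ[k] L} {G : F ≃ₐ[K₀] F}
    (hG : ∀ c, G (algebraMap L F c) = algebraMap L F (g c)) {A : ValuationSubring F}
    (hA : A ∈ Rat k L b (algebraMap K₀ F w)) :
    A.comap (G : F →+* F) ∈ Rat k L b (algebraMap K₀ F w) := by
  have hw : G (algebraMap K₀ F w) = algebraMap K₀ F w := G.commutes w
  obtain ⟨h1, h2⟩ := hA
  refine ⟨fun c => ?_, ?_⟩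
  · change G (algebraMap L F c) ∈ A
    rw [hG]
    exact h1 _
  · rcases h2 with ⟨a, ha⟩ | hn | ha
    · left
      refine ⟨a, ?_⟩
      rw [← ValuationSubring.mem_nonunits_iff, ValuationSubring.mem_nonunits_iff_or] at ha ⊢
      have hx : G (algebraMap K₀ F w - algebraMap k F a) = algebraMap K₀ F w - algebraMap k F a := by
        rw [map_sub, hw, IsScalarTower.algebraMap_apply k L F, hG, AlgEquiv.commutes]
      rcases ha with ha | ha
      · exact Or.inl ha
      · right
        intro h3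
        have h4 : G (algebraMap K₀ F w - algebraMap k F a)⁻¹ ∈ A := h3
        rw [map_inv₀, hx] at h4
        exact ha h4
    · right
      left
      intro h3
      have h4 : G (algebraMap K₀ F w) ∈ A := h3
      rw [hw] at h4
      exact hn h4
    · right
      right
      rw [← ValuationSubring.mem_nonunits_iff, ValuationSubring.mem_nonunits_iff_or] at ha ⊢
      have hx : G (aeval (algebraMap K₀ F w) b) = aeval (algebraMap K₀ F w) b := by
        rw [aeval_algebraMap_apply]
        exact G.commutes _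
      rcases ha with ha | ha
      · exact Or.inl ha
      · right
        intro h3
        have h4 : G (aeval (algebraMap K₀ F w) b)⁻¹ ∈ A := h3
        rw [map_inv₀, hx] at h4
        exact ha h4

/-- they preserve the algebra `RR` -/
theorem map_mem {w : K₀} {b : k[X]} {g : L ≃ₐ[k] L} {G : F ≃ₐ[K₀] F}
    (hG : ∀ c, G (algebraMap L F c) = algebraMap L F (g c)) {x : F}
    (hx : x ∈ RR k L b (algebraMap K₀ F w)) : G x ∈ RR k L b (algebraMap K₀ F w) :=
  fun A hA => hx (A.comap (G : F →+* F)) (comap_mem hG hA)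

omit [Algebra K₀ F] [Algebra k K₀] [IsScalarTower k K₀ F] [Algebra k L] [IsScalarTower k L F] in
/-- units of `RR`, as elements of the field -/
theorem unitR_of_isUnit {w : F} {b : k[X]} {x : RR k L b w} (hx : IsUnit x) :
    UnitR k L b w (x : F) := by
  obtain ⟨y, hy⟩ := hx.exists_right_inv
  have h1 : (x : F) * (y : F) = 1 := by
    have := congrArg (fun z : RR k L b w => (z : F)) hy
    simpa using this
  have h0 : (x : F) ≠ 0 := left_ne_zero_of_mul_eq_one h1
  refine ⟨h0, x.2, ?_⟩
  rw [inv_eq_of_mul_eq_one_right h1]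
  exact y.2

omit [Algebra K₀ F] [Algebra k K₀] [IsScalarTower k K₀ F] [Algebra k L] [IsScalarTower k L F] in
theorem isUnit_of_unitR {w : F} {b : k[X]} {x : RR k L b w} (hx : UnitR k L b w (x : F)) :
    IsUnit x := by
  refine IsUnit.of_mul_eq_one ⟨(x : F)⁻¹, hx.2.2⟩ ?_
  apply Subtype.ext
  simpa using mul_inv_cancel₀ hx.1

end

end Lim

open Lim in
/-- (C2) limits of partial systems of classes -/
theorem stLim : StLim.{u} := by
  intro p hp k L E _ _ _ _ S K₀ F _ _ _ _ _ _ _ _ w b ι U Φ D y hU hP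
  obtain ⟨s, hs⟩ := S.fin
  have key : ∀ u : RR k L b (algebraMap K₀ F w), IsUnit u → ∃ r : L,
      ∀ᶠ i in (U : Filter ι), (u : F) ∈ Φ i ∧ Eqv p (D i u) r := by
    intro u hu
    have h1 : ∀ᶠ i in (U : Filter ι), ∃ r ∈ (s : Set L), (u : F) ∈ Φ i ∧ Eqv p (D i u) r := by
      filter_upwards [hU u (unitR_of_isUnit hu)] with i hi
      obtain ⟨r, hr, z, hz, h⟩ := hs (D i u) ((hP i).ne u hi)
      exact ⟨r, hr, hi, z, hz, h⟩
    obtain ⟨r, -, hr⟩ := (Ultrafilter.eventually_exists_mem_iff s.finite_toSet).1 h1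
    exact ⟨r, hr⟩
  choose! D' hD' using key
  refine ⟨D', hD', ?_, ?_⟩
  · refine ⟨fun u hu => ?_, fun u v hu hv => ?_, fun c hc => ?_, fun u hu hu' => ?_⟩
    · obtain ⟨i, hi, h1⟩ := (hD' u hu).exists
      exact eqv_ne' h1 ((hP i).ne _ hi)
    · obtain ⟨i, ⟨⟨h1, h2⟩, h3, h4⟩, h5, h6⟩ :=
        (((hD' u hu).and (hD' v hv)).and (hD' (u * v) (hu.mul hv))).exists
      have h7 := (hP i).mul u h1 v h3 h5
      exact eqv_trans (eqv_symm h6) (eqv_trans h7 (eqv_mul h2 h4))
    · obtain ⟨i, h1, h2⟩ := (hD' _ (isUnit_const hc)).exists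
      exact eqv_trans (eqv_symm h2) ((hP i).const c hc h1)
    · obtain ⟨i, ⟨h1, h2⟩, h3, h4⟩ := ((hD' u hu).and (hD' (1 - u) hu')).exists
      have h5 := (hP i).st u h1 h3
      have n1 := (hP i).ne _ h1
      have n2 := (hP i).ne _ h3
      rw [← h5]
      exact (h_congr S (eqv_ne' h2 n1) (eqv_ne' h4 n2) h2 h4).symm
  · intro g G hG u u' hu hu'
    have hv : IsUnit u' := by
      apply isUnit_of_unitR
      obtain ⟨h1, h2, h3⟩ := unitR_of_isUnit hu
      rw [hu']
      refine ⟨(_root_.map_ne_zero G).2 h1, map_mem hG h2, ?_⟩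
      rw [← map_inv₀]
      exact map_mem hG h3
    obtain ⟨i, ⟨h1, h2⟩, h3, h4⟩ := ((hD' u hu).and (hD' u' hv)).exists
    rw [hu'] at h3 h4
    have h5 := (hP i).equiv g G hG u h1 h3
    exact eqv_trans (eqv_symm h4) (eqv_trans h5 (eqv_map (g : L →+* L) h2))

end Pool.Agent.Lib.MP_c385f6_ag.Bc
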