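import Mathlib
import Pool.Agent.Lib.MP_c385f6_ag.Bc.St

set_option autoImplicit false

/-!
Module (B5) of the base change theorem: homomorphisms `RR → L` give valuation subrings.
-/

namespace Pool.Agent.Lib.MP_c385f6_ag.Bc

open Pool.Agent.Lib.MP_c385f6_ag.Cpl Polynomial

universe u

namespace LocAux

variable {k L : Type} {F : Type u} [Field k] [Field L] [Field F] [Algebra k L] [Algebra k F]
  [Algebra L F] [IsScalarTower k L F]

theorem const_val {A : ValuationSubring F} (hA : ∀ c : L, algebraMap L F c ∈ A) {c : L}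
    (hc : c ≠ 0) : A.valuation (algebraMap L F c) = 1 := by
  refine le_antisymm ((A.valuation_le_one_iff _).2 (hA c)) ?_
  have h1 : A.valuation (algebraMap L F c⁻¹) ≤ 1 := (A.valuation_le_one_iff _).2 (hA c⁻¹)
  rw [map_inv₀, map_inv₀] at h1
  have h2 : A.valuation (algebraMap L F c) ≠ 0 := by
    rw [Valuation.ne_zero_iff]
    exact (_root_.map_ne_zero _).2 hc
  exact (inv_le_one₀ (zero_lt_iff.2 h2)).1 h1

/-- the coordinate `(w - θ)⁻¹` -/
theorem coord_mem (w : F) {b : k[X]} (θ : L) (hθ : Ok k b θ) :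
    (w - algebraMap L F θ)⁻¹ ∈ RR k L b w := by
  intro A hA
  obtain ⟨hA, ⟨a, ha⟩ | hw | hb⟩ := hA
  · have h1 : A.valuation (algebraMap L F (algebraMap k L a - θ)) = 1 :=
      const_val hA (sub_ne_zero.2 (hθ.1 a))
    have h2 : w - algebraMap L F θ =
        (w - algebraMap k F a) + algebraMap L F (algebraMap k L a - θ) := by
      rw [map_sub, ← IsScalarTower.algebraMap_apply k L F]
      ring
    have h3 : A.valuation (w - algebraMap L F θ) = 1 := by
      rw [h2, Valuation.map_add_eq_of_lt_right _ (by rw [h1]; exact ha), h1]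
    rw [← A.valuation_le_one_iff, map_inv₀, h3, inv_one]
  · refine (A.mem_or_inv_mem _).resolve_left fun h => hw ?_
    have h1 : w = (w - algebraMap L F θ) + algebraMap L F θ := by ring
    rw [h1]
    exact add_mem h (hA θ)
  · refine (A.mem_or_inv_mem _).elim (fun h => ?_) id
    have h1 : w = (w - algebraMap L F θ) + algebraMap L F θ := by ring
    have hwA : w ∈ A := by
      rw [h1]
      exact add_mem h (hA θ)
    have h2 : ¬ A.valuation (w - algebraMap L F θ) < 1 := by
      intro hlt
      obtain ⟨q, hq⟩ := X_sub_C_dvd_sub_C_eval (a := θ) (p := b.map (algebraMap k L))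
      have h3 : aeval w b - algebraMap L F (aeval θ b) = (w - algebraMap L F θ) * aeval w q := by
        have h4 := congrArg (aeval w) hq
        rw [map_mul, map_sub, map_sub, aeval_X, aeval_C, aeval_C, aeval_map_algebraMap,
          eval_map_algebraMap] at h4
        exact h4
      have h4 : A.valuation (aeval w q) ≤ 1 := by
        rw [A.valuation_le_one_iff, aeval_eq_sum_range]
        refine sum_mem fun i _ => ?_
        rw [Algebra.smul_def]
        exact mul_mem (hA _) (pow_mem hwA i)
      have h5 : A.valuation (aeval w b - algebraMap L F (aeval θ b)) < 1 := by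
        rw [h3, map_mul]
        exact mul_lt_one_of_lt_of_le hlt h4
      have h6 : A.valuation (algebraMap L F (aeval θ b)) < 1 := by
        have h7 : algebraMap L F (aeval θ b) =
            aeval w b - (aeval w b - algebraMap L F (aeval θ b)) := by ring
        rw [h7]
        exact (Valuation.map_sub _ _ _).trans_lt (max_lt hb h5)
      rw [const_val hA hθ.2] at h6
      exact lt_irrefl _ h6
    rw [← A.valuation_le_one_iff, map_inv₀]
    have h3 : A.valuation (w - algebraMap L F θ) = 1 :=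
      le_antisymm ((A.valuation_le_one_iff _).2 h) (not_lt.1 h2)
    rw [h3, inv_one]

theorem aeval_mem {A : ValuationSubring F} (hA : ∀ c : L, algebraMap L F c ∈ A) {y : F}
    (hy : y ∈ A) (q : L[X]) : aeval y q ∈ A := by
  rw [aeval_eq_sum_range]
  refine sum_mem fun i _ => ?_
  rw [Algebra.smul_def]
  exact mul_mem (hA _) (pow_mem hy i)

theorem aeval2_mem {A : ValuationSubring F} (hA : ∀ c : L, algebraMap L F c ∈ A) {y x : F}
    (hy : y ∈ A) (hx : x ∈ A) (q : L[X][X]) : aevalAeval y x q ∈ A := by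
  induction q using Polynomial.induction_on' with
  | add p q hp hq =>
    rw [map_add]
    exact add_mem hp hq
  | monomial n a =>
    rw [← C_mul_X_pow_eq_monomial, map_mul, map_pow, aevalAeval_C, aevalAeval_Y]
    exact mul_mem (aeval_mem hA hy a) (pow_mem hx n)

omit [Algebra k L] [IsScalarTower k L F] in
/-- every element or its inverse is a quotient -/
theorem alt (w : F) {b : k[X]} (φ : RR k L b w →ₐ[L] L) (x₁ : RR k L b w) (x : F) (hx : x ≠ 0) (f : L[X][X])
    (hf : f.IsPrimitive) (h : aevalAeval (x₁ : F) x f = 0) :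
    (∃ r s : RR k L b w, φ s ≠ 0 ∧ x * (s : F) = r) ∨
      ∃ r s : RR k L b w, φ s ≠ 0 ∧ x⁻¹ * (s : F) = r := by
  -- the tails of the polynomial
  let g : ℕ → L[X][X] := fun i => divX^[i] f
  have hg : ∀ i j, (g i).coeff j = f.coeff (i + j) := by
    intro i
    induction i with
    | zero => intro j; simp [g]
    | succ i IH =>
      intro j
      have : g (i + 1) = (g i).divX := Function.iterate_succ_apply' _ _ _
      rw [this, coeff_divX, IH]
      congr 1
      ring
  let c : ℕ → F := fun i => aevalAeval (x₁ : F) x (g i)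
  have hc : ∀ i, c i = c (i + 1) * x + aeval (x₁ : F) (f.coeff i) := by
    intro i
    have h1 : g (i + 1) = (g i).divX := Function.iterate_succ_apply' _ _ _
    have h2 := divX_mul_X_add (g i)
    have h3 : c i = aevalAeval (x₁ : F) x ((g i).divX * X + C ((g i).coeff 0)) := by rw [h2]
    rw [h3, map_add, map_mul, aevalAeval_Y, aevalAeval_C, hg, ← h1, add_zero]
  have hc0 : c 0 = 0 := h
  have hmem : ∀ i, c i ∈ RR k L b w := by
    intro i A hA
    have hx1 : (x₁ : F) ∈ A := x₁.2 A hA
    by_cases hxA : x ∈ A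
    · exact aeval2_mem hA.1 hx1 hxA _
    · have hxi : x⁻¹ ∈ A := (A.mem_or_inv_mem x).resolve_left hxA
      induction i with
      | zero => rw [hc0]; exact A.zero_mem
      | succ i IH =>
        have h1 : c (i + 1) = (c i - aeval (x₁ : F) (f.coeff i)) * x⁻¹ := by
          rw [hc i]
          field_simp
          ring
        rw [h1]
        exact mul_mem (sub_mem IH (aeval_mem hA.1 hx1 _)) hxi
  obtain ⟨m, hm⟩ : ∃ m, (f.coeff m).eval (φ x₁) ≠ 0 := by
    by_contra hno
    push Not at hno
    have h1 : C (X - C (φ x₁)) ∣ f :=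
      (Polynomial.C_dvd_iff_dvd_coeff _ _).2 fun i => dvd_iff_isRoot.2 (hno i)
    exact Polynomial.not_isUnit_X_sub_C _ (hf _ h1)
  let G : ℕ → RR k L b w := fun j => aeval x₁ (f.coeff j)
  have hG : ∀ j, ((G j : RR k L b w) : F) = aeval (x₁ : F) (f.coeff j) := by
    intro j
    exact (Polynomial.aeval_algHom_apply (RR k L b w).val x₁ (f.coeff j)).symm
  have hGφ : ∀ j, φ (G j) = (f.coeff j).eval (φ x₁) := by
    intro j
    have h1 := Polynomial.aeval_algHom_apply φ x₁ (f.coeff j)
    rw [Polynomial.coe_aeval_eq_eval] at h1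
    exact h1.symm
  let cc : ℕ → RR k L b w := fun i => ⟨c i, hmem i⟩
  have hcc : ∀ i, ((cc i : RR k L b w) : F) = c i := fun i => rfl
  have hstep : ∀ i, x * ((cc (i + 1) : RR k L b w) : F) = ((cc i - G i : RR k L b w) : F) := by
    intro i
    rw [AddSubgroupClass.coe_sub, hcc, hcc, hG, hc i]
    ring
  by_cases h1 : φ (cc (m + 1)) = 0
  · by_cases h2 : φ (cc m - G m) = 0
    · left
      have h3 : φ (cc m) ≠ 0 := by
        rw [map_sub, hGφ, sub_eq_zero] at h2
        rw [h2]
        exact hm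
      rcases Nat.eq_zero_or_pos m with hm0 | hm0
      · exfalso
        apply h3
        have h4 : cc m = 0 := by
          apply Subtype.ext
          rw [hcc, hm0, hc0]
          rfl
        rw [h4, map_zero]
      · obtain ⟨n, rfl⟩ : ∃ n, m = n + 1 := ⟨m - 1, by omega⟩
        exact ⟨cc n - G n, cc (n + 1), h3, hstep n⟩
    · right
      refine ⟨cc (m + 1), cc m - G m, h2, ?_⟩
      rw [← hstep m, inv_mul_cancel_left₀ hx]
  · left
    exact ⟨cc m - G m, cc (m + 1), h1, hstep m⟩

/-- the localization -/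
def VS (w : F) {b : k[X]} (φ : RR k L b w →ₐ[L] L)
    (h : ∀ x : F, (∃ r s : RR k L b w, φ s ≠ 0 ∧ x * (s : F) = r) ∨
      ∃ r s : RR k L b w, φ s ≠ 0 ∧ x⁻¹ * (s : F) = r) : ValuationSubring F where
  carrier := {x | ∃ r s : RR k L b w, φ s ≠ 0 ∧ x * (s : F) = r}
  mul_mem' := by
    rintro x y ⟨r, s, hs, h⟩ ⟨r', s', hs', h'⟩
    refine ⟨r * r', s * s', by rw [map_mul]; exact mul_ne_zero hs hs', ?_⟩
    rw [MulMemClass.coe_mul, MulMemClass.coe_mul, ← h, ← h']
    ring
  one_mem' := ⟨1, 1, by rw [map_one]; exact one_ne_zero, by rw [one_mul]⟩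
  add_mem' := by
    rintro x y ⟨r, s, hs, h⟩ ⟨r', s', hs', h'⟩
    refine ⟨r * s' + r' * s, s * s', by rw [map_mul]; exact mul_ne_zero hs hs', ?_⟩
    rw [AddMemClass.coe_add, MulMemClass.coe_mul, MulMemClass.coe_mul, MulMemClass.coe_mul, ← h,
      ← h']
    ring
  zero_mem' := ⟨0, 1, by rw [map_one]; exact one_ne_zero, by rw [zero_mul]; rfl⟩
  neg_mem' := by
    rintro x ⟨r, s, hs, h⟩
    refine ⟨-r, s, hs, ?_⟩
    rw [NegMemClass.coe_neg, ← h, neg_mul]
  mem_or_inv_mem' := h

end LocAux

open LocAux in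
/-- homomorphisms give valuation subrings -/
theorem stLoc (h0 : StPrim.{u}) : StLoc.{u} := by
  intro k L _ _ _ F _ _ _ _ w hw halg b hex φ
  obtain ⟨θ, hθ⟩ := hex
  obtain ⟨-, h2⟩ := (h0 L _ F _ _ w hw halg).2 θ
  have hV : ∀ x : F, (∃ r s : RR k L b w, φ s ≠ 0 ∧ x * (s : F) = r) ∨
      ∃ r s : RR k L b w, φ s ≠ 0 ∧ x⁻¹ * (s : F) = r := by
    intro x
    by_cases hx : x = 0
    · left
      exact ⟨0, 1, by rw [map_one]; exact one_ne_zero, by rw [hx, zero_mul]; rfl⟩
    · obtain ⟨f, hf, hfx⟩ := h2 x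
      exact alt w φ ⟨(w - algebraMap L F θ)⁻¹, coord_mem w θ hθ⟩ x hx f hf hfx
  have key : ∀ (y : F) (r s : RR k L b w), φ s ≠ 0 → φ r = 0 → y * (s : F) = r →
      (VS w φ hV).valuation y < 1 := by
    intro y r s hs hb hy
    rcases eq_or_ne y 0 with rfl | hy0
    · rw [map_zero]
      exact zero_lt_one
    by_contra hno
    rw [not_lt] at hno
    have h3 : (VS w φ hV).valuation y⁻¹ ≤ 1 := by
      rw [map_inv₀]
      exact inv_le_one_of_one_le₀ hno
    rw [ValuationSubring.valuation_le_one_iff] at h3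
    obtain ⟨r', s', hs', hy'⟩ := h3
    have h4 : s * s' = r * r' := by
      apply Subtype.ext
      rw [MulMemClass.coe_mul, MulMemClass.coe_mul, ← hy, ← hy']
      field_simp
    have h5 := congrArg φ h4
    rw [map_mul, map_mul, hb, zero_mul] at h5
    exact mul_ne_zero hs hs' h5
  refine ⟨VS w φ hV, fun x => Iff.rfl, ?_, ?_⟩
  · intro x
    refine key _ (x - algebraMap L _ (φ x)) 1 (by rw [map_one]; exact one_ne_zero) ?_ ?_
    · rw [map_sub, AlgHom.commutes, Algebra.algebraMap_self, RingHom.id_apply, sub_self]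
    · rw [OneMemClass.coe_one, mul_one]
      rfl
  · intro z hz
    obtain ⟨r, s, hs, hbs⟩ := hz
    refine ⟨φ r / φ s, key _ (r - algebraMap L _ (φ r / φ s) * s) s hs ?_ ?_⟩
    · rw [map_sub, map_mul, AlgHom.commutes, Algebra.algebraMap_self, RingHom.id_apply,
        div_mul_cancel₀ _ hs, sub_self]
    · rw [sub_mul, hbs]
      rfl

end Pool.Agent.Lib.MP_c385f6_ag.Bc
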