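import Mathlib
import Pool.Agent.Lib.MP_c385f6_ag.Bc.Cov
import Pool.Agent.Lib.MP_c385f6_ag.AllP.Final2

set_option autoImplicit false

/-!
The rational place belonging to a section, for covers of a curve with a map to the line.
-/

namespace Pool.Agent.Lib.MP_c385f6_ag.Bc

open Pool.Agent.Lib.MP_c385f6_ag.Cpl Polynomial Finset

universe u v

/-- **The rational place belonging to a section** (with the compositum as a field `M`). -/
theorem place_main (hGen : StGen) (hSplit : StSplit.{u, v}) {p : ℕ} [hp : Fact p.Prime]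
    {k L E : Type} [Field k] [CharZero k] [Field L] [Field E] [Algebra k L]
    [FiniteDimensional k L] [IsGalois k L] {S : LF p L E}
    (hSNR : ∀ x y, x ≠ 0 → y ≠ 0 → (S.h x y = 0 ↔ NR p x y))
    (hpow : ∀ x y : L, x ≠ 0 → NR p (x ^ p) y) {R : Finset L}
    (hR : ∀ x, x ≠ 0 → ∃ y ∈ R, ∃ z, z ≠ 0 ∧ x = y * z ^ p) {ζ : L} (hζ : IsPrimitiveRoot ζ p)
    (hpG : ¬ p ∣ Module.finrank k L)
    {T : Finset L} {m : ℤ} (hcard : R.card * 2 < T.card) {f : k[X]} (hf : f ≠ 0)
    (hC : Complete p k S f T m) {A : Finset L} (hAT : A ⊆ T)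
    {K₀ K M Ω : Type u} {ι : Type v} [Field K₀] [Field K] [Field M] [Field Ω] [Algebra k K₀]
    [Algebra k K] [Algebra k Ω] [Algebra L M] [Algebra L Ω] [Algebra K₀ K] [Algebra K₀ M]
    [Algebra K M] [Algebra K Ω] [Algebra M Ω] [IsScalarTower k K₀ K] [IsScalarTower k K Ω]
    [IsScalarTower k L Ω] [IsScalarTower K₀ K M] [IsScalarTower K M Ω] [IsScalarTower L M Ω]
    [IsAlgClosure K Ω]
    (hM : IntermediateField.adjoin K (Set.range (algebraMap L M)) = ⊤)
    {w : K₀} (hw : Transcendental k w) {h : ι → L[X]} {z : ι → M} (hh : ∀ i, h i ≠ 0)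
    (hz : ∀ i, z i ^ p = aeval (algebraMap K₀ M w) (h i)) (hdeg : ∀ i, p ∣ (h i).natDegree)
    (hzeros : ∀ i, ∃ n : ℕ, h i ∣ (f.map (algebraMap k L) * ∏ t ∈ T, (X - C t)) ^ n)
    (hcov : ∀ t ∈ T, ∃ i, ¬ p ∣ (h i).rootMultiplicity t)
    (hgen : IntermediateField.adjoin K₀ (Set.range (algebraMap L M) ∪ Set.range z) = ⊤)
    {s : AbsGal k Ω →* PiOne k K Ω} (hs : IsSection k K Ω s)
    (hplace : ∀ y : k, (∀ c ∈ A, ∀ c' ∈ A, Tw k p s (algebraMap M Ω
        ((algebraMap K₀ M w - algebraMap L M c) / (algebraMap K₀ M w - algebraMap L M c')))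
        ((algebraMap k L y - c) / (algebraMap k L y - c'))) → PlaceOver k w y) :
    ∃ y : k, PlaceOver k (algebraMap K₀ K w) y ∧
      ∀ r ∈ T, ∀ t ∈ T, ∃ Z : maxUnramified k K Ω,
        (∀ γ : AbsGal L Ω, s (resAbs k L Ω γ) Z = Z) ∧
        algebraMap L Ω (algebraMap k L y - r) *
          (algebraMap K Ω (algebraMap K₀ K w) - algebraMap L Ω t) * (Z : Ω) ^ p =
          algebraMap L Ω (algebraMap k L y - t) *
            (algebraMap K Ω (algebraMap K₀ K w) - algebraMap L Ω r) := by
  have hwK : Transcendental k (algebraMap K₀ K w) := by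
    rw [transcendental_algebraMap_iff (algebraMap K₀ K).injective]
    exact hw
  obtain ⟨y, hy, hZ⟩ := exists_value hGen hSNR hpow hR hζ hC.net hC.stable hcard hC.ne hf hC.step
    hC.far hM hwK hh (fun i => by rw [hz i, IsScalarTower.algebraMap_apply K₀ K M]) hdeg hzeros
    hcov hs
  refine ⟨y, ?_, hZ⟩
  choose q h' hq heq e he hey using hy
  have hwKL : Transcendental L (algebraMap K Ω (algebraMap K₀ K w)) := by
    have h1 : Transcendental k (algebraMap K Ω (algebraMap K₀ K w)) := by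
      rw [transcendental_algebraMap_iff (algebraMap K Ω).injective]
      exact hwK
    exact h1.extendScalars L
  have hwM : algebraMap M Ω (algebraMap K₀ M w) = algebraMap K Ω (algebraMap K₀ K w) := by
    rw [IsScalarTower.algebraMap_apply K₀ K M, ← IsScalarTower.algebraMap_apply K M Ω]
  -- the place of `K₀`
  have hP : PlaceOver k w y := by
    refine hplace y fun c hc c' hc' => ?_
    obtain ⟨Z, hZ1, hZ2⟩ := hZ c (hAT hc) c' (hAT hc')
    have h1 : algebraMap k L y - c ≠ 0 := sub_ne_zero.2 (hC.ne y c (hAT hc))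
    have h2 : algebraMap k L y - c' ≠ 0 := sub_ne_zero.2 (hC.ne y c' (hAT hc'))
    refine ⟨div_ne_zero h1 h2, Z, hZ1, ?_⟩
    have h3 : algebraMap K Ω (algebraMap K₀ K w) - algebraMap L Ω c' ≠ 0 := by
      intro h0
      rw [sub_eq_zero] at h0
      exact hwKL (h0 ▸ isAlgebraic_algebraMap c')
    have h4 : algebraMap L Ω (algebraMap k L y - c') ≠ 0 := (_root_.map_ne_zero _).2 h2
    rw [map_div₀, map_sub, map_sub, hwM, ← IsScalarTower.algebraMap_apply L M Ω,
      ← IsScalarTower.algebraMap_apply L M Ω, map_div₀, div_mul_eq_mul_div,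
      div_eq_div_iff h3 h4]
    linear_combination -hZ2
  -- the compositum of `K₀` and `L`
  let F := IntermediateField.adjoin K₀ (Set.range (algebraMap L M))
  have hLF : ∀ x : L, algebraMap L M x ∈ F := fun x =>
    IntermediateField.subset_adjoin _ _ ⟨x, rfl⟩
  let iLF : Algebra L F := ((algebraMap L M).codRestrict F hLF).toAlgebra
  have iT1 : IsScalarTower L F M := IsScalarTower.of_algebraMap_eq fun x => rfl
  let ikF : Algebra k F := ((algebraMap K₀ F).comp (algebraMap k K₀)).toAlgebra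
  have iT2 : IsScalarTower k K₀ F := IsScalarTower.of_algebraMap_eq fun x => rfl
  have iT3 : IsScalarTower k L F := IsScalarTower.of_algebraMap_eq fun x => by
    apply Subtype.ext
    apply (algebraMap M Ω).injective
    change algebraMap M Ω (algebraMap K₀ M (algebraMap k K₀ x)) =
      algebraMap M Ω (algebraMap L M (algebraMap k L x))
    rw [← IsScalarTower.algebraMap_apply L M Ω, ← IsScalarTower.algebraMap_apply k L Ω,
      IsScalarTower.algebraMap_apply K₀ K M, ← IsScalarTower.algebraMap_apply K M Ω,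
      ← IsScalarTower.algebraMap_apply k K₀ K, ← IsScalarTower.algebraMap_apply k K Ω]
  have hF : IntermediateField.adjoin K₀ (Set.range (algebraMap L F)) = ⊤ := by
    apply IntermediateField.lift_injective
    rw [IntermediateField.lift_adjoin, IntermediateField.lift_top]
    congr 1
    ext x
    constructor
    · rintro ⟨_, ⟨x, rfl⟩, rfl⟩
      exact ⟨x, rfl⟩
    · rintro ⟨x, rfl⟩
      exact ⟨algebraMap L F x, ⟨x, rfl⟩, rfl⟩
  have hqw : ∀ i, aeval (algebraMap K₀ M w) (q i) ≠ 0 := by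
    intro i h1
    have h2 := congrArg (algebraMap M Ω) h1
    rw [map_zero, ← aeval_algebraMap_apply, hwM] at h2
    exact hwKL ⟨q i, hq i, h2⟩
  refine hSplit p hp k L inferInstance inferInstance inferInstance inferInstance inferInstance
    inferInstance ζ hζ hpG K₀ F K M inferInstance inferInstance inferInstance inferInstance
    inferInstance inferInstance ikF iLF inferInstance inferInstance inferInstance inferInstance
    inferInstance inferInstance inferInstance iT2 iT3 inferInstance inferInstance iT1 hF hM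
    (fun g => exists_sigma_of_section hM hs g) w y ι
    (fun i => z i / aeval (algebraMap K₀ M w) (q i)) h' ?_ ?_ (fun i => ⟨e i, he i, hey i⟩) hP
  · intro i
    rw [← aeval_algebraMap_apply, ← IsScalarTower.algebraMap_apply K₀ F M, div_pow, hz i, heq i,
      map_mul, map_pow, mul_div_cancel_left₀ _ (pow_ne_zero _ (hqw i))]
  · rw [eq_top_iff]
    have h1 : (⊤ : IntermediateField K₀ M) ≤ (IntermediateField.adjoin F (Set.range
        (fun i => z i / aeval (algebraMap K₀ M w) (q i)))).restrictScalars K₀ := by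
      rw [← hgen, IntermediateField.adjoin_le_iff]
      rintro x (⟨c, rfl⟩ | ⟨i, rfl⟩)
      · have h2 : algebraMap L M c = algebraMap F M (algebraMap L F c) := rfl
        rw [SetLike.mem_coe, IntermediateField.mem_restrictScalars, h2]
        exact IntermediateField.algebraMap_mem _ _
      · rw [SetLike.mem_coe, IntermediateField.mem_restrictScalars]
        have h2 : z i = z i / aeval (algebraMap K₀ M w) (q i) * aeval (algebraMap K₀ M w) (q i) :=
          (div_mul_cancel₀ _ (hqw i)).symm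
        rw [h2]
        refine mul_mem (IntermediateField.subset_adjoin _ _ ⟨i, rfl⟩) ?_
        have h3 : aeval (algebraMap K₀ M w) (q i) =
            algebraMap F M (aeval (algebraMap K₀ F w) (q i)) := by
          rw [← aeval_algebraMap_apply, ← IsScalarTower.algebraMap_apply K₀ F M]
        rw [h3]
        exact IntermediateField.algebraMap_mem _ _
    intro x _
    exact h1 (IntermediateField.mem_top (x := x))

/-- **The rational place belonging to a section** (inside `Ω`). -/
theorem place_omega (hGen : StGen) (hSplit : StSplit.{u, v}) {p : ℕ} [hp : Fact p.Prime]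
    {k L E : Type} [Field k] [CharZero k] [Field L] [Field E] [Algebra k L]
    [FiniteDimensional k L] [IsGalois k L] {S : LF p L E}
    (hSNR : ∀ x y, x ≠ 0 → y ≠ 0 → (S.h x y = 0 ↔ NR p x y))
    (hpow : ∀ x y : L, x ≠ 0 → NR p (x ^ p) y) {R : Finset L}
    (hR : ∀ x, x ≠ 0 → ∃ y ∈ R, ∃ z, z ≠ 0 ∧ x = y * z ^ p) {ζ : L} (hζ : IsPrimitiveRoot ζ p)
    (hpG : ¬ p ∣ Module.finrank k L)
    {T : Finset L} {m : ℤ} (hcard : R.card * 2 < T.card) {f : k[X]} (hf : f ≠ 0)
    (hC : Complete p k S f T m) {A : Finset L} (hAT : A ⊆ T)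
    {K₀ : Type u} [Field K₀] [Algebra k K₀] {w : K₀} (hw : Transcendental k w) {f₀ : k[X]}
    (hdata : ∀ (K M Ω : Type u) [Field K] [Field M] [Field Ω] [Algebra k K] [Algebra k Ω]
        [Algebra L M] [Algebra L Ω] [Algebra K₀ K] [Algebra K₀ M] [Algebra K M] [Algebra K Ω]
        [Algebra M Ω] [IsScalarTower k K₀ K] [IsScalarTower k K Ω] [IsScalarTower k L Ω]
        [IsScalarTower K₀ K M] [IsScalarTower K M Ω] [IsScalarTower L M Ω] [IsAlgClosure K Ω],
      IntermediateField.adjoin K (Set.range (algebraMap L M)) = ⊤ →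
      ∀ (ι : Type v) (h : ι → L[X]) (z : ι → M), (∀ i, h i ≠ 0) →
      (∀ i, z i ^ p = aeval (algebraMap K₀ M w) (h i)) →
      (∀ P : L[X], Irreducible P → P ∣ f₀.map (algebraMap k L) →
        ∃ i, ¬ p ∣ multiplicity P (h i)) →
      ∀ s : AbsGal k Ω →* PiOne k K Ω, IsSection k K Ω s → ∀ y : k,
      (∀ c ∈ A, ∀ c' ∈ A, Tw k p s (algebraMap M Ω
        ((algebraMap K₀ M w - algebraMap L M c) / (algebraMap K₀ M w - algebraMap L M c')))
        ((algebraMap k L y - c) / (algebraMap k L y - c'))) → PlaceOver k w y)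
    {K Ω : Type u} {ι : Type v} [Field K] [Field Ω]
    [Algebra k K] [Algebra k Ω] [Algebra L Ω] [Algebra K₀ K] [Algebra K₀ Ω]
    [Algebra K Ω] [IsScalarTower k K₀ K] [IsScalarTower k K Ω]
    [IsScalarTower k L Ω] [IsScalarTower K₀ K Ω] [IsAlgClosure K Ω]
    {h : ι → L[X]} {z : ι → Ω} (hh : ∀ i, h i ≠ 0)
    (hz : ∀ i, z i ^ p = aeval (algebraMap K₀ Ω w) (h i)) (hdeg : ∀ i, p ∣ (h i).natDegree)
    (hzeros : ∀ i, ∃ n : ℕ, h i ∣ (f.map (algebraMap k L) * ∏ t ∈ T, (X - C t)) ^ n)
    (hcov : ∀ P : L[X], Irreducible P → P ∣ f₀.map (algebraMap k L) * ∏ t ∈ T, (X - C t) →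
      ∃ i, ¬ p ∣ multiplicity P (h i))
    (hgen : (IntermediateField.adjoin K (Set.range (algebraMap L Ω)) : Set Ω) =
      (IntermediateField.adjoin K₀ (Set.range (algebraMap L Ω) ∪ Set.range z) : Set Ω))
    {s : AbsGal k Ω →* PiOne k K Ω} (hs : IsSection k K Ω s) :
    ∃ y : k, PlaceOver k (algebraMap K₀ K w) y ∧
      ∀ r ∈ T, ∀ t ∈ T, ∃ Z : maxUnramified k K Ω,
        algebraMap L Ω (algebraMap k L y - r) * (algebraMap K₀ Ω w - algebraMap L Ω t) *
          (Z : Ω) ^ p = algebraMap L Ω (algebraMap k L y - t) *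
            (algebraMap K₀ Ω w - algebraMap L Ω r) ∧
        ∀ g : AbsGal k Ω, (∀ (x : L) (b : algebraicClosure k Ω),
          (b : Ω) = algebraMap L Ω x → g b = b) → s g Z = Z := by
  let M := IntermediateField.adjoin K (Set.range (algebraMap L Ω))
  have hLM : ∀ x : L, algebraMap L Ω x ∈ M := fun x =>
    IntermediateField.subset_adjoin _ _ ⟨x, rfl⟩
  let iLM : Algebra L M := ((algebraMap L Ω).codRestrict M hLM).toAlgebra
  have iT1 : IsScalarTower L M Ω := IsScalarTower.of_algebraMap_eq fun x => rfl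
  let iKM : Algebra K₀ M := ((algebraMap K M).comp (algebraMap K₀ K)).toAlgebra
  have iT2 : IsScalarTower K₀ K M := IsScalarTower.of_algebraMap_eq fun x => rfl
  have iT3 : IsScalarTower K₀ M Ω := IsScalarTower.of_algebraMap_eq fun x => by
    rw [IsScalarTower.algebraMap_apply K₀ K Ω]
    rfl
  have hM : IntermediateField.adjoin K (Set.range (algebraMap L M)) = ⊤ := by
    apply IntermediateField.lift_injective
    rw [IntermediateField.lift_adjoin, IntermediateField.lift_top]
    congr 1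
    ext x
    constructor
    · rintro ⟨_, ⟨x, rfl⟩, rfl⟩
      exact ⟨x, rfl⟩
    · rintro ⟨x, rfl⟩
      exact ⟨algebraMap L M x, ⟨x, rfl⟩, rfl⟩
  have hzM : ∀ i, z i ∈ M := by
    intro i
    have h1 : z i ∈ (IntermediateField.adjoin K₀ (Set.range (algebraMap L Ω) ∪ Set.range z) :
        Set Ω) := IntermediateField.subset_adjoin _ _ (Or.inr ⟨i, rfl⟩)
    rw [← hgen] at h1
    exact h1
  obtain ⟨z', hz'⟩ : ∃ z' : ι → M, ∀ i, (z' i : Ω) = z i := ⟨fun i => ⟨z i, hzM i⟩, fun i => rfl⟩
  have hzp : ∀ i, z' i ^ p = aeval (algebraMap K₀ M w) (h i) := by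
    intro i
    apply Subtype.ext
    change algebraMap M Ω (z' i ^ p) = algebraMap M Ω (aeval (algebraMap K₀ M w) (h i))
    rw [map_pow, ← aeval_algebraMap_apply, ← IsScalarTower.algebraMap_apply K₀ M Ω, ← hz i,
      ← hz' i]
    rfl
  have hgen' : IntermediateField.adjoin K₀ (Set.range (algebraMap L M) ∪ Set.range z') = ⊤ := by
    rw [eq_top_iff]
    intro x _
    have h1 : (x : Ω) ∈ (IntermediateField.adjoin K (Set.range (algebraMap L Ω)) : Set Ω) := x.2
    rw [hgen] at h1
    have h2 : (Set.range (algebraMap L Ω) ∪ Set.range z) =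
        (IsScalarTower.toAlgHom K₀ M Ω) '' (Set.range (algebraMap L M) ∪ Set.range z') := by
      rw [Set.image_union, ← Set.range_comp, ← Set.range_comp]
      congr 1
      congr 1
      ext i
      exact (hz' i).symm
    rw [h2, ← IntermediateField.adjoin_map] at h1
    obtain ⟨x', hx', hxx⟩ := h1
    have h3 : x' = x := Subtype.ext hxx
    rw [← h3]
    exact hx'
  have hram : ∀ t ∈ T, ∃ i, ¬ p ∣ (h i).rootMultiplicity t := by
    intro t ht
    obtain ⟨i, hi⟩ := hcov (X - C t) (irreducible_X_sub_C t)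
      (dvd_mul_of_dvd_right (Finset.dvd_prod_of_mem _ ht) _)
    refine ⟨i, ?_⟩
    classical
    rw [rootMultiplicity_eq_multiplicity, if_neg (hh i)]
    exact hi
  obtain ⟨y, hy, hZ⟩ := place_main hGen hSplit hSNR hpow hR hζ hpG hcard hf hC hAT
    (K₀ := K₀) (K := K) (M := M) (Ω := Ω) hM hw hh hzp hdeg hzeros hram hgen' hs
    (hdata K M Ω hM ι h z' hh hzp (fun P hP hPf => hcov P hP (dvd_mul_of_dvd_left hPf _)) s hs)
  have hwΩ : algebraMap K Ω (algebraMap K₀ K w) = algebraMap K₀ Ω w :=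
    (IsScalarTower.algebraMap_apply K₀ K Ω w).symm
  refine ⟨y, hy, fun r hr t ht => ?_⟩
  obtain ⟨Z, hZ1, hZ2⟩ := hZ r hr t ht
  rw [hwΩ] at hZ2
  refine ⟨Z, hZ2, fun g hg => ?_⟩
  obtain ⟨γ, rfl⟩ := exists_resAbs (L := L) (h := g) (fun x => hg x _ rfl)
  exact hZ1 γ

end Pool.Agent.Lib.MP_c385f6_ag.Bc
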