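import Mathlib
import Pool.Agent.Lib.MP_c385f6_ag.Bc.Basic
import Pool.Agent.Lib.MP_c385f6_ag.Bc.St

set_option autoImplicit false

/-!
(A6) multiplicativity of the values.
-/

namespace Pool.Agent.Lib.MP_c385f6_ag.Bc

open Pool.Agent.Lib.MP_c385f6_ag.Cpl

universe u

namespace MulAux

variable {p : ℕ} [Fact p.Prime] {L E : Type} [Field L] [Field E] {S : LF p L E}
  {O : Type u} [CommRing O] [Algebra L O] {D : O → L}

/-- the product of two units `x - c`, `x' - c'` -/
theorem mul_class (hS : Sys S D) (h1 : StOne.{u}) (hG : Gnr S O) {x x' : O} {y y' : L}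
    (hx : Val p D x y) (hx' : Val p D x' y') {c c' : L} (hc : c ∈ Gd L x) (hc' : c' ∈ Gd L x')
    (hcy : c ≠ y) (hcy' : c' ≠ y') :
    Eqv p (D ((x - algebraMap L O c) * (x' - algebraMap L O c'))) ((y - c) * (y' - c')) := by
  have h2 := (h1 p inferInstance L E _ _ S O _ _ D hS hG).1
  exact eqv_trans (hS.mul _ _ hc hc') (eqv_mul (h2 x y hx c hc hcy) (h2 x' y' hx' c' hc' hcy'))

/-- the linear part of the product has a value -/
theorem lin (h1 : StOne.{u}) (h2 : StAdd.{u}) (hC : Ctx S D) {x x' : O} {y y' : L}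
    (hx : Val p D x y) (hx' : Val p D x' y') (c c' : L) :
    Val p D (algebraMap L O (-c') * x + algebraMap L O (-c) * x' + algebraMap L O (c * c'))
      ((-c') * y + (-c) * y' + c * c') := by
  obtain ⟨-, -, -, -, h3, h4⟩ := h1 p inferInstance L E _ _ S O _ _ D hC.sys hC.gnr
  exact h3 _ _ _ (h2 p inferInstance L E _ _ S O _ _ D hC _ _ _ _ (h4 _ _ _ hx) (h4 _ _ _ hx'))

theorem expand {x x' : O} (c c' : L) :
    (x - algebraMap L O c) * (x' - algebraMap L O c') =
      x * x' + (algebraMap L O (-c') * x + algebraMap L O (-c) * x' +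
        algebraMap L O (c * c')) := by
  simp only [map_neg, map_mul]
  ring

/-- sums of an element with infinite value and an element with finite value -/
theorem inf_add (h1 : StOne.{u}) (h2 : StAdd.{u}) (hC : Ctx S D) {z x : O} {y : L}
    (hz : ValInf p D z) (hx : Val p D x y) {c d : L} (hc : c ∈ Gd L z) (hd : d ∈ Gd L (z + x)) :
    Eqv p (D (z + x - algebraMap L O d)) (D (z - algebraMap L O c)) := by
  obtain ⟨h3, -, h4, -, -, h5⟩ := h1 p inferInstance L E _ _ S O _ _ D hC.sys hC.gnr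
  have hzx : ValInf p D (z + x) := by
    rcases hC.alt (z + x) with ⟨w, hw⟩ | h
    · exfalso
      have h6 := h2 p inferInstance L E _ _ S O _ _ D hC _ _ _ _ hw (h5 _ _ (-1) hx)
      have h7 : z + x + algebraMap L O (-1) * x = z := by
        rw [map_neg, map_one]
        ring
      rw [h7] at h6
      exact h4 _ _ h6 hz
    · exact h
  set κ : L := D (z - algebraMap L O c) with hκ
  set κ' : L := D (z + x - algebraMap L O d) with hκ'
  have hκ0 : κ ≠ 0 := hC.sys.ne _ hc
  have hκ0' : κ' ≠ 0 := hC.sys.ne _ hd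
  have key : ∀ b : L, b ≠ 0 → S.h (κ / κ') (b / κ') = 0 := by
    intro b hb
    obtain ⟨c1, hc1, c2, hc2, hc3, -, hn, -, -, he, -⟩ := hC.gnr.pick z x 0 y (-b)
      (a := 1) (b := b) one_ne_zero hb (by rw [add_neg_cancel_right]; exact one_ne_zero)
    have e1 : z - algebraMap L O c1 + (x - algebraMap L O c2) =
        z + x - algebraMap L O (c1 + c2) := by
      rw [map_add]
      ring
    refine hC.sys.rel' hc1 hc2 hc3 e1 (hz _ hc1 _ hc) ?_ (hzx _ hc3 _ hd)
    exact eqv_trans (h3 _ _ hx c2 hc2 (fun h => hn (by rw [h, sub_self]))) he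
  have h6 : Eqv p (κ / κ') 1 := by
    refine eqv_one_of_h S (div_ne_zero hκ0 hκ0') fun w hw => ?_
    have := key (w * κ') (mul_ne_zero hw hκ0')
    rwa [mul_div_cancel_right₀ _ hκ0'] at this
  exact eqv_symm ((eqv_div_iff hκ0').1 h6)

end MulAux

open MulAux in
theorem stMul (h1 : StOne.{u}) (h2 : StAdd.{u}) : StMul.{u} := by
  intro p _ L E _ _ S O _ _ D hC x x' y y' hx hx'
  have hp1 : ¬ Eqv p S.π 1 := pi_not S
  obtain ⟨c', hc', hn', he'⟩ := hC.gnr.pick1 x' y' (a := 1) one_ne_zero
  have hcy' : c' ≠ y' := fun h => hn' (by rw [h, sub_self])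
  obtain ⟨h3, -, -, -, -, -⟩ := h1 p inferInstance L E _ _ S O _ _ D hC.sys hC.gnr
  rcases hC.alt (x * x') with ⟨y'', hy''⟩ | hinf
  · -- the product has a finite value
    by_contra hne
    have hδ : y'' - y * y' ≠ 0 := by
      intro h
      have : y'' = y * y' := sub_eq_zero.1 h
      rw [this] at hy''
      exact hne hy''
    set δ : L := y'' - y * y' with hδd
    set β : L := y' - c' with hβ
    have hπ1 : S.π - 1 ≠ 0 := by
      intro h
      apply hp1
      rw [sub_eq_zero.1 h]
      exact eqv_refl 1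
    set α₀ : L := δ / (S.π - 1) with hα
    have hα0 : α₀ ≠ 0 := div_ne_zero hδ hπ1
    have hα1 : α₀ + δ = S.π * α₀ := by
      rw [hα]
      field_simp
      ring
    obtain ⟨n1, hn1⟩ := near S hα0
    obtain ⟨n2, hn2⟩ := near S (mul_ne_zero S.pi_ne hα0)
    obtain ⟨c, hc, hcn⟩ := hC.gnr.pickn x y (α₀ / β) (max n1 n2 - S.v β)
    have h4 : S.Gz (max n1 n2) ((y - c) * β - α₀) := by
      have h5 := SymAux.gz_mul_gz S hcn (Or.inr le_rfl : S.Gz (S.v β) β)
      have h6 : (y - c - α₀ / β) * β = (y - c) * β - α₀ := by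
        rw [sub_mul, div_mul_cancel₀ _ hn']
      rw [h6, sub_add_cancel] at h5
      exact h5
    obtain ⟨h5, h6⟩ := hn1 _ (SymAux.gz_mono S (le_max_left _ _) h4)
    have h4' : S.Gz (max n1 n2) ((y - c) * β + δ - S.π * α₀) := by
      rw [← hα1]
      have : (y - c) * β + δ - (α₀ + δ) = (y - c) * β - α₀ := by ring
      rw [this]
      exact h4
    obtain ⟨h7, h8⟩ := hn2 _ (SymAux.gz_mono S (le_max_right _ _) h4')
    have hcy : c ≠ y := fun h => h5 (by rw [h, sub_self, zero_mul])
    have h9 := mul_class hC.sys h1 hC.gnr hx hx' hc hc' hcy hcy'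
    have h10 : Val p D ((x - algebraMap L O c) * (x' - algebraMap L O c')) ((y - c) * β + δ) := by
      rw [expand]
      have h11 := h2 p inferInstance L E _ _ S O _ _ D hC _ _ _ _ hy'' (lin h1 h2 hC hx hx' c c')
      have h12 : y'' + ((-c') * y + (-c) * y' + c * c') = (y - c) * β + δ := by
        rw [hδd, hβ]
        ring
      rwa [h12] at h11
    have h0 : (0 : L) ∈ Gd L ((x - algebraMap L O c) * (x' - algebraMap L O c')) := by
      rw [mem_Gd, map_zero, sub_zero]
      exact IsUnit.mul hc hc'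
    have h13 := h3 _ _ h10 0 h0 h7.symm
    rw [map_zero, sub_zero, sub_zero] at h13
    -- `π α₀ ~ α₀`
    have h14 : Eqv p (S.π * α₀) α₀ :=
      eqv_trans (eqv_symm h8) (eqv_trans (eqv_symm h13) (eqv_trans h9 h6))
    apply hp1
    rw [mul_comm] at h14
    have h15 : Eqv p (α₀ * S.π) (α₀ * 1) := by rwa [mul_one]
    exact (eqv_mul_left_iff hα0).1 h15
  · -- the value of the product is infinite
    exfalso
    obtain ⟨d, hd, -⟩ := hC.gnr.dense (x * x') 0 0
    have key : ∀ a : L, a ≠ 0 → Eqv p (D (x * x' - algebraMap L O d)) (a * (y' - c')) := by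
      intro a ha
      obtain ⟨c, hc, hn, he⟩ := hC.gnr.pick1 x y ha
      have hcy : c ≠ y := fun h => hn (by rw [h, sub_self])
      have h9 := mul_class hC.sys h1 hC.gnr hx hx' hc hc' hcy hcy'
      have h0 : (0 : L) ∈ Gd L (x * x' + (algebraMap L O (-c') * x + algebraMap L O (-c) * x' +
          algebraMap L O (c * c'))) := by
        rw [← expand, mem_Gd, map_zero, sub_zero]
        exact IsUnit.mul hc hc'
      have h10 := inf_add h1 h2 hC hinf (lin h1 h2 hC hx hx' c c') hd h0
      rw [← expand, map_zero, sub_zero] at h10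
      exact eqv_trans (eqv_symm h10) (eqv_trans h9 (eqv_mul he (eqv_refl _)))
    have h4 := eqv_trans (eqv_symm (key S.π S.pi_ne)) (key 1 one_ne_zero)
    apply hp1
    rw [mul_comm, mul_comm (1 : L)] at h4
    exact (eqv_mul_left_iff hn').1 h4

end Pool.Agent.Lib.MP_c385f6_ag.Bc
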