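import Mathlib
import Pool.Agent.Lib.MP_c385f6_ag.Bc.St
import Pool.Agent.Lib.MP_c385f6_ag.Cpl.Sym

set_option autoImplicit false

/-!
Module (B2) of the base change theorem: polynomials in `c` and a conjugate of `c` do not vanish on
open sets.
-/

namespace Pool.Agent.Lib.MP_c385f6_ag.Bc

open Pool.Agent.Lib.MP_c385f6_ag.Cpl Polynomial Finset

namespace NearRAux

/-- a nonzero polynomial does not vanish at all values of an injective sequence -/
theorem exists_ne {A : Type*} [CommRing A] [IsDomain A] {P : A[X]} (hP : P ≠ 0) {f : ℕ → A}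
    (hf : Function.Injective f) : ∃ t : ℕ, P.eval (f t) ≠ 0 := by
  by_contra hno
  push Not at hno
  exact hP (Polynomial.eq_zero_of_infinite_isRoot P
    (Set.infinite_of_injective_forall_mem hf fun t => hno t))

/-- evaluation at `(x, x + δ)` -/
theorem evalEval_add {A : Type*} [CommRing A] (R : A[X][X]) (x δ : A) :
    evalEval x (x + δ) R = ((taylor (X : A[X]) R).eval (C δ)).eval x := by
  rw [taylor_eval]
  have h1 := Polynomial.eval₂_at_apply (p := R) (evalRingHom x) (C δ + X)
  have h2 := Polynomial.eval₂_at_apply (p := R) (evalRingHom x) (C (x + δ))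
  simp only [coe_evalRingHom, eval_add, eval_C, eval_X] at h1 h2
  rw [evalEval, ← h2, ← h1, add_comm x δ]

/-- `t ↦ u + w t` is injective if `w ≠ 0` -/
theorem inj {L : Type*} [Field L] [CharZero L] (u : L) {w : L} (hw : w ≠ 0) :
    Function.Injective fun t : ℕ => u + w * (t : L) := by
  intro s t h
  have h1 : w * (s : L) = w * (t : L) := add_left_cancel h
  exact_mod_cast mul_left_cancel₀ hw h1

end NearRAux

/-- (B2) polynomials in `c` and a conjugate of `c` do not vanish on open sets -/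
theorem stNear : StNear := by
  intro p _ k L E _ _ _ _ _ S g θ hθ hz R hR a n
  obtain ⟨z, hz0, hz1⟩ := hz
  have hc : CharZero L := charZero_of_injective_algebraMap (algebraMap k L).injective
  have hθ0 : θ ≠ 0 := fun h => hθ (by rw [h, map_zero])
  have hzL : algebraMap k L z ≠ 0 := (_root_.map_ne_zero _).2 hz0
  obtain ⟨N, hN⟩ : ∃ N : ℕ, n ≤ N ∧ n - S.v θ ≤ N :=
    ⟨(max n (n - S.v θ)).toNat, (le_max_left _ _).trans (Int.self_le_toNat _),
      (le_max_right _ _).trans (Int.self_le_toNat _)⟩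
  set b : L := algebraMap k L (z ^ N) with hb
  have hgb : g b = b := g.commutes _
  have hb0 : b ≠ 0 := (_root_.map_ne_zero _).2 (pow_ne_zero _ hz0)
  have hvb : (N : ℤ) ≤ S.v b := by
    rw [hb, map_pow, SymAux.v_pow S _ hzL]
    nlinarith [Int.natCast_nonneg N]
  -- the second parameter
  have hw : b * (g θ - θ) ≠ 0 := mul_ne_zero hb0 (sub_ne_zero.2 hθ)
  have hR' : taylor (X : L[X]) R ≠ 0 := fun h => hR (by
    apply taylor_injective (X : L[X])
    rw [h, map_zero])
  obtain ⟨t₁, ht₁⟩ := NearRAux.exists_ne hR'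
    (f := fun t : ℕ => C ((g a - a) + b * (g θ - θ) * (t : L)))
    (fun s t h => NearRAux.inj (g a - a) hw (C_injective h))
  -- the first parameter
  obtain ⟨t₀, ht₀⟩ := NearRAux.exists_ne ht₁
    (f := fun t : ℕ => (a + b * θ * (t₁ : L)) + b * (t : L))
    (NearRAux.inj (a + b * θ * (t₁ : L)) hb0)
  refine ⟨(a + b * θ * (t₁ : L)) + b * (t₀ : L), ?_, ?_⟩
  · have h1 : (a + b * θ * (t₁ : L)) + b * (t₀ : L) - a = b * θ * (t₁ : L) + b * (t₀ : L) := by
      ring
    rw [h1]
    refine SymAux.gz_add S (SymAux.gz_mul S ?_ (SymAux.int_nat S _))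
      (SymAux.gz_mul S (Or.inr (hN.1.trans hvb)) (SymAux.int_nat S _))
    exact SymAux.gz_mono S (show n ≤ (N : ℤ) + S.v θ by linarith [hN.2])
      (SymAux.gz_mul_gz S (Or.inr hvb) (Or.inr le_rfl))
  · have h2 : g ((a + b * θ * (t₁ : L)) + b * (t₀ : L)) =
        ((a + b * θ * (t₁ : L)) + b * (t₀ : L)) + ((g a - a) + b * (g θ - θ) * (t₁ : L)) := by
      rw [map_add, map_add, map_mul, map_mul, map_mul, hgb, map_natCast, map_natCast]
      ring
    rw [h2, NearRAux.evalEval_add]
    exact ht₀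

end Pool.Agent.Lib.MP_c385f6_ag.Bc
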