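import Pool.Agent.Lib.MP_c385f6_ag.Bc.St
import Pool.Agent.Lib.MP_c385f6_ag.Cpl.Sym
import Pool.Agent.Lib.MP_c385f6_ag.Cpl.Stmts

set_option autoImplicit false

/-! Module (A2): finite nets inside dense sets. -/

namespace Pool.Agent.Lib.MP_c385f6_ag.Bc

open Pool.Agent.Lib.MP_c385f6_ag.Cpl

theorem stNet (h : StChord) : StNet := by
  intro p _ L E _ _ S C hC hnet A hA hAC m
  obtain ⟨T₀, hT₀, hN⟩ := hnet m
  choose c hc using fun t : L => hC t m
  obtain ⟨-, -, htr, -⟩ := h p ‹_› L E _ _ S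
  refine ⟨A ∪ c '' T₀, hA.union (hT₀.image c), Set.subset_union_left, ?_, fun x => ?_⟩
  · rintro x (hx | ⟨t, -, rfl⟩)
    · exact hAC hx
    · exact (hc t).1
  · obtain ⟨t, ht, hxt⟩ := hN x
    refine ⟨c t, Or.inr ⟨t, ht, rfl⟩, htr m x t (c t) hxt ?_⟩
    rcases (hc t).2 with h0 | h0
    · left
      exact (sub_eq_zero.1 h0).symm
    · right
      have h1 : S.v (t - c t) = S.v (c t - t) := by
        rw [← SymAux.v_neg S (t - c t), neg_sub]
      unfold LF.dl
      omega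

end Pool.Agent.Lib.MP_c385f6_ag.Bc
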