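import Mathlib
import Pool.Agent.Lib.MP_c385f6_ag.Bc.StF
import Pool.Agent.Lib.MP_c385f6_ag.Cpl.Vn

set_option autoImplicit false

/-!
(F5) the valuation of `S` and the norm of `k` (base change theorem).
-/

namespace Pool.Agent.Lib.MP_c385f6_ag.Bc

open Pool.Agent.Lib.MP_c385f6_ag.Cpl

/-- (F5) the valuation of `S` and the norm of `k` -/
theorem stNm (h : StVal) : StNm := by
  intro p hp k L E ik iL iE iAk iDk iAL iDL S hS
  let _ : NormedField k := spectralNorm.normedField ℚ_[p] k
  let _ : NormedAlgebra ℚ_[p] k := spectralNorm.normedAlgebra ℚ_[p] k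
  let _ : Algebra ℚ_[p] L := ((algebraMap k L).comp (algebraMap ℚ_[p] k)).toAlgebra
  have iT : IsScalarTower ℚ_[p] k L := IsScalarTower.of_algebraMap_eq fun _ => rfl
  have iD : FiniteDimensional ℚ_[p] L := FiniteDimensional.trans ℚ_[p] k L
  let _ : NormedField L := spectralNorm.normedField ℚ_[p] L
  let _ : NormedAlgebra ℚ_[p] L := spectralNorm.normedAlgebra ℚ_[p] L
  have : IsUltrametricDist L :=
    IsUltrametricDist.isUltrametricDist_of_isNonarchimedean_norm
      (isNonarchimedean_spectralNorm (K := ℚ_[p]) (L := L))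
  obtain ⟨G, iG, ⟨V⟩⟩ := h p hp L inferInstance inferInstance iD inferInstance
  have e1 : ∀ x, S.v x = V.v x := VnAux.v_eq p V S hS
  have hnorm : ∀ x : k, ‖algebraMap k L x‖ = ‖x‖ := fun x =>
    (spectralNorm.eq_of_tower (K := ℚ_[p]) (L := L) x).symm
  have hinj : ∀ x : k, x ≠ 0 → algebraMap k L x ≠ 0 := fun x hx =>
    (map_ne_zero_iff _ (algebraMap k L).injective).2 hx
  have hc0 : 0 < V.c := zero_lt_one.trans V.one_lt
  have hv : ∀ x : k, x ≠ 0 → spectralNorm ℚ_[p] k x = V.c ^ (-(S.v (algebraMap k L x))) :=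
    fun x hx => by
      have h1 : ‖x‖ = V.c ^ (-(S.v (algebraMap k L x))) := by
        rw [← hnorm, V.norm_eq _ (hinj x hx), e1]
      exact h1
  constructor
  · intro ε hε
    obtain ⟨n, hn⟩ := exists_pow_lt_of_lt_one hε (inv_lt_one_of_one_lt₀ V.one_lt)
    refine ⟨n, fun y hy => ?_⟩
    rcases eq_or_ne y 0 with h0 | h0
    · rw [h0, spectralNorm_zero]
      exact hε
    · rcases hy with h1 | h1
      · exact absurd h1 (hinj y h0)
      · rw [hv y h0]
        refine lt_of_le_of_lt ?_ hn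
        rw [inv_pow, ← zpow_natCast, ← zpow_neg]
        exact zpow_le_zpow_right₀ V.one_lt.le (by omega)
  · intro C
    obtain ⟨n, hn⟩ := pow_unbounded_of_one_lt C V.one_lt
    refine ⟨-n, fun y h0 hy => ?_⟩
    rw [hv y h0]
    refine hn.trans_le ?_
    rw [← zpow_natCast]
    exact zpow_le_zpow_right₀ V.one_lt.le (by omega)

end Pool.Agent.Lib.MP_c385f6_ag.Bc
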