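import Mathlib
import Pool.Agent.Lib.MP_c385f6_ag.Bc.Defs
import Pool.Agent.Lib.MP_c385f6_ag.Bc.Basic
import Pool.Agent.Lib.MP_c385f6_ag.Bc.St

set_option autoImplicit false

/-!
Elementary properties of the values (base change theorem).
-/

namespace Pool.Agent.Lib.MP_c385f6_ag.Bc

open Pool.Agent.Lib.MP_c385f6_ag.Cpl

universe u

namespace OneAux

variable {p : ℕ} [Fact p.Prime] {L E : Type} [Field L] [Field E] {S : LF p L E}
  {O : Type u} [CommRing O] [Algebra L O] {D : O → L}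

theorem h_one_left (z : L) (hz : z ≠ 0) : S.h 1 z = 0 := by
  have := S.h_mul_left 1 1 z one_ne_zero one_ne_zero hz
  rw [mul_one] at this
  exact left_eq_add.1 this

theorem val_one (hs : Sys S D) (hg : Gnr S O) {x : O} {y : L} (hv : Val p D x y) {c : L}
    (hc : c ∈ Gd L x) (hcy : c ≠ y) : Eqv p (D (x - algebraMap L O c)) (y - c) := by
  have hA : D (x - algebraMap L O c) ≠ 0 := hs.ne _ hc
  have hyc : y - c ≠ 0 := sub_ne_zero.2 hcy.symm
  set κ : L := D (x - algebraMap L O c) / (y - c) with hκ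
  have hκ0 : κ ≠ 0 := div_ne_zero hA hyc
  have hAκ : D (x - algebraMap L O c) = κ * (y - c) := by
    rw [hκ, div_mul_cancel₀ _ hyc]
  have key : ∀ c' ∈ Gd L x, c' ≠ y → S.h ((y - c') / (y - c)) κ = 0 := by
    intro c' hc' hc'y
    have hyc' : y - c' ≠ 0 := sub_ne_zero.2 hc'y.symm
    rcases eq_or_ne c' c with rfl | hne
    · rw [div_self hyc]
      exact h_one_left κ hκ0
    have hg0 : c' - c ≠ 0 := sub_ne_zero.2 hne
    have hA' : Eqv p (D (x - algebraMap L O c')) (κ * (y - c')) := by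
      have h1 := hv c' hc' c hc hc'y hcy
      have h2 := eqv_mul h1 (eqv_refl (p := p) (D (x - algebraMap L O c)))
      rw [div_mul_cancel₀ _ hA] at h2
      refine eqv_trans h2 (eqv_of_eq ?_)
      rw [hAκ]
      field_simp
    have h3 := hs.rel' (a := x - algebraMap L O c) (b := -(x - algebraMap L O c'))
      (c := algebraMap L O (c' - c)) hc (IsUnit.neg hc') (isUnit_const hg0)
      (by rw [map_sub]; ring) (α := κ * (y - c)) (β := -(κ * (y - c'))) (γ := c' - c)
      (eqv_of_eq hAκ) (by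
        refine eqv_trans (hs.neg hc') ?_
        obtain ⟨z, hz, h4⟩ := hA'
        exact ⟨z, hz, by rw [h4]; ring⟩) (hs.const _ hg0)
    have e1 : κ * (y - c) / (c' - c) = (y - c) / ((c' - c) / κ) := by field_simp
    have e2 : -(κ * (y - c')) / (c' - c) = (-(y - c')) / ((c' - c) / κ) := by field_simp
    have hneg : -(y - c') ≠ 0 := neg_ne_zero.2 hyc'
    rw [e1, e2, h_div_div S hyc hneg (div_ne_zero hg0 hκ0)] at h3
    have h4 : S.h ((y - c) / (c' - c)) ((-(y - c')) / (c' - c)) = 0 := by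
      refine S.steinberg _ _ (div_ne_zero hyc hg0) (div_ne_zero hneg hg0) ?_
      field_simp
      ring
    rw [h_div_div S hyc hneg hg0] at h4
    have e3 : -(-(y - c') / (y - c)) = (y - c') / (y - c) := by ring
    rw [e3] at h3 h4
    have h5 : S.h ((y - c') / (y - c)) ((c' - c) / κ) =
        S.h ((y - c') / (y - c)) (c' - c) - S.h ((y - c') / (y - c)) κ := by
      rw [div_eq_mul_inv (c' - c), S.h_mul_right _ _ _ (div_ne_zero hyc' hyc) hg0
        (inv_ne_zero hκ0), SymAux.h_inv_right S _ κ (div_ne_zero hyc' hyc) hκ0]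
      ring
    rw [h5] at h3
    linear_combination h4 - h3
  have hk1 : Eqv p κ 1 := by
    refine eqv_one_of_h S hκ0 fun z hz => ?_
    obtain ⟨c', hc', h1, h2⟩ := hg.pick1 x y (mul_ne_zero hz hyc)
    have h3 := key c' hc' (fun h => h1 (sub_eq_zero.2 h.symm))
    have h4 : Eqv p ((y - c') / (y - c)) z := by
      have := eqv_div h2 (eqv_refl (p := p) (y - c))
      rwa [mul_div_cancel_right₀ _ hyc] at this
    have h5 : S.h z κ = 0 := by
      rw [← h3]
      exact (h_congr S hz hκ0 h4 (eqv_refl κ)).symm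
    rw [SymAux.anti S κ z hκ0 hz, h5, neg_zero]
  rw [hAκ]
  have := eqv_mul hk1 (eqv_refl (p := p) (y - c))
  rwa [one_mul] at this

theorem pi_pow_class (δ : L) (N : ℕ) : Eqv p (δ * S.π * (S.π ^ N) ^ p) (δ * S.π) :=
  ⟨S.π ^ N, pow_ne_zero _ S.pi_ne, rfl⟩

theorem val_uniq (hs : Sys S D) (hg : Gnr S O) {x : O} {y y' : L} (hv : Val p D x y)
    (hv' : Val p D x y') : y = y' := by
  by_contra hne
  have hδ : y' - y ≠ 0 := sub_ne_zero.2 (Ne.symm hne)
  obtain ⟨n1, h1⟩ := near S hδ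
  set δ := y' - y with hδd
  obtain ⟨N, hN⟩ : ∃ N : ℕ, n1 ≤ S.v δ + 1 + N := ⟨(n1 - S.v δ - 1).toNat, by omega⟩
  have hp1 : 1 ≤ p := (Fact.out : p.Prime).one_le
  set a : L := δ * S.π * (S.π ^ N) ^ p with ha
  have ha0 : a ≠ 0 := mul_ne_zero (mul_ne_zero hδ S.pi_ne) (pow_ne_zero _ (pow_ne_zero _ S.pi_ne))
  have hva : n1 ≤ S.v a := by
    rw [ha, S.v_mul _ _ (mul_ne_zero hδ S.pi_ne) (pow_ne_zero _ (pow_ne_zero _ S.pi_ne)),
      S.v_mul _ _ hδ S.pi_ne, S.v_pi, SymAux.v_pow S _ (pow_ne_zero _ S.pi_ne),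
      SymAux.v_pow S _ S.pi_ne, S.v_pi]
    have h2 : (N : ℤ) ≤ (p : ℤ) * ((N : ℤ) * 1) := by
      have h3 : (1 : ℤ) ≤ p := by exact_mod_cast hp1
      nlinarith [Int.natCast_nonneg N]
    linarith
  obtain ⟨n2, h2⟩ := near S ha0
  obtain ⟨c, hc, h3⟩ := hg.pickn x y a (max n1 n2)
  obtain ⟨h4, h5⟩ := h2 _ (SymAux.gz_mono S (le_max_right _ _) h3)
  have h6 : S.Gz n1 (y' - c - δ) := by
    have e : y' - c - δ = (y - c - a) + a := by rw [hδd]; ring
    rw [e]
    exact SymAux.gz_add S (SymAux.gz_mono S (le_max_left _ _) h3) (Or.inr hva)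
  obtain ⟨h7, h8⟩ := h1 _ h6
  have k1 := val_one hs hg hv hc (fun h => h4 (sub_eq_zero.2 h.symm))
  have k2 := val_one hs hg hv' hc (fun h => h7 (sub_eq_zero.2 h.symm))
  have k3 : Eqv p (δ * S.π) δ :=
    eqv_trans (eqv_symm (eqv_trans h5 (pi_pow_class δ N)))
      (eqv_trans (eqv_symm k1) (eqv_trans k2 h8))
  refine pi_not S ((eqv_mul_left_iff hδ).1 ?_)
  rwa [mul_one]

theorem val_inf (hs : Sys S D) (hg : Gnr S O) {x : O} {y : L} (hv : Val p D x y) :
    ¬ ValInf p D x := by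
  intro hi
  obtain ⟨c, hc, h1, h2⟩ := hg.pick1 x y (one_ne_zero (α := L))
  obtain ⟨c', hc', h3, h4⟩ := hg.pick1 x y S.pi_ne
  have k1 := val_one hs hg hv hc (fun h => h1 (sub_eq_zero.2 h.symm))
  have k2 := val_one hs hg hv hc' (fun h => h3 (sub_eq_zero.2 h.symm))
  exact pi_not S (eqv_trans (eqv_symm (eqv_trans k2 h4))
    (eqv_trans (eqv_symm (hi c hc c' hc')) (eqv_trans k1 h2)))

theorem val_const (hs : Sys S D) (c : L) : Val p D (algebraMap L O c) c := by
  intro c1 _ c2 _ h1 h2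
  rw [← map_sub, ← map_sub]
  exact eqv_div (hs.const _ (sub_ne_zero.2 h1.symm)) (hs.const _ (sub_ne_zero.2 h2.symm))

theorem val_add {x : O} {y : L} (c : L) (hv : Val p D x y) :
    Val p D (x + algebraMap L O c) (y + c) := by
  intro c1 h1 c2 h2 n1 n2
  have e : ∀ d : L, x + algebraMap L O c - algebraMap L O d = x - algebraMap L O (d - c) := by
    intro d
    rw [map_sub]
    ring
  have e' : ∀ d : L, y + c - d = y - (d - c) := by
    intro d
    ring
  rw [e, e, e', e']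
  exact hv _ (mem_Gd_add.1 h1) _ (mem_Gd_add.1 h2) (fun h => n1 (by rw [← h]; ring))
    (fun h => n2 (by rw [← h]; ring))

theorem val_smul (hs : Sys S D) {x : O} {y : L} (a : L) (hv : Val p D x y) :
    Val p D (algebraMap L O a * x) (a * y) := by
  rcases eq_or_ne a 0 with rfl | ha
  · rw [map_zero, zero_mul, zero_mul]
    have := val_const (S := S) (D := D) (p := p) hs 0
    rwa [map_zero] at this
  intro c1 h1 c2 h2 n1 n2
  have g1 := (mem_Gd_smul ha).1 h1
  have g2 := (mem_Gd_smul ha).1 h2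
  have e : ∀ d : L, algebraMap L O a * x - algebraMap L O d =
      algebraMap L O a * (x - algebraMap L O (a⁻¹ * d)) := by
    intro d
    rw [mul_sub, ← map_mul, mul_inv_cancel_left₀ ha]
  have e' : ∀ d : L, a * y - d = a * (y - a⁻¹ * d) := by
    intro d
    rw [mul_sub, mul_inv_cancel_left₀ ha]
  rw [e, e, e', e', mul_div_mul_left _ _ ha]
  have k1 := hs.smul ha g1
  have k2 := hs.smul ha g2
  have k3 := eqv_div k1 k2
  rw [mul_div_mul_left _ _ ha] at k3
  refine eqv_trans k3 (hv _ g1 _ g2 (fun h => n1 ?_) (fun h => n2 ?_))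
  · rw [← h, mul_inv_cancel_left₀ ha]
  · rw [← h, mul_inv_cancel_left₀ ha]

end OneAux

open OneAux in
theorem stOne : StOne.{u} := by
  intro p _ L E _ _ S O _ _ D hs hg
  exact ⟨fun x y hv c hc hcy => val_one hs hg hv hc hcy, fun x y y' hv hv' => val_uniq hs hg hv hv',
    fun x y hv => val_inf hs hg hv, fun c => val_const hs c, fun x y c hv => val_add c hv,
    fun x y a hv => val_smul hs a hv⟩

end Pool.Agent.Lib.MP_c385f6_ag.Bc
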