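import Mathlib
import Pool.Agent.Lib.MP_c385f6_ag.Bc.StF

set_option autoImplicit false

/-!
Proof of (F3), the criterion for `PDiv`.
-/

namespace Pool.Agent.Lib.MP_c385f6_ag.Bc

open Pool.Agent.Lib.MP_c385f6_ag.Cpl Polynomial Finset

namespace PM

/-- the valuation of a comap determines the valuation above -/
theorem val_eq_of_comap {F M : Type*} [Field F] [Field M] [Algebra F M] (A : ValuationSubring M)
    {x y : F} (hx : x ≠ 0) (hy : y ≠ 0)
    (h : (A.comap (algebraMap F M)).valuation x = (A.comap (algebraMap F M)).valuation y) :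
    A.valuation (algebraMap F M x) = A.valuation (algebraMap F M y) := by
  have key : ∀ a b : F, a ≠ 0 → b ≠ 0 →
      (A.comap (algebraMap F M)).valuation a = (A.comap (algebraMap F M)).valuation b →
      A.valuation (algebraMap F M a) ≤ A.valuation (algebraMap F M b) := by
    intro a b _ hb hab
    have hvb : (A.comap (algebraMap F M)).valuation b ≠ 0 := by
      simpa [Valuation.ne_zero_iff] using hb
    have h1 : (A.comap (algebraMap F M)).valuation (a / b) ≤ 1 := by
      rw [map_div₀, hab, div_self hvb]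
    rw [ValuationSubring.valuation_le_one_iff, ValuationSubring.mem_comap, map_div₀] at h1
    have hb' : algebraMap F M b ≠ 0 := by simpa using hb
    have hvb' : A.valuation (algebraMap F M b) ≠ 0 := by
      simpa [Valuation.ne_zero_iff] using hb'
    have h2 := (A.valuation_le_one_iff _).2 h1
    rw [map_div₀] at h2
    exact (div_le_one₀ (zero_lt_iff.2 hvb')).1 h2
  exact le_antisymm (key x y hx hy h) (key y x hy hx h.symm)

/-- the valuation of a product which is `< 1` has a factor with valuation `< 1` -/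
theorem exists_irreducible {L F : Type*} [Field L] [Field F] [Algebra L F]
    (A : ValuationSubring F) (hA : ∀ c : L, algebraMap L F c ∈ A) (w : F) (f : L[X])
    (hf : f ≠ 0) (hw : A.valuation (aeval w f) < 1) :
    ∃ P : L[X], Irreducible P ∧ P ∣ f ∧ A.valuation (aeval w P) < 1 := by
  induction f using WfDvdMonoid.induction_on_irreducible with
  | zero => exact absurd rfl hf
  | unit c hc =>
    exfalso
    obtain ⟨a, ha, rfl⟩ := Polynomial.isUnit_iff.1 hc
    rw [aeval_C] at hw
    have ha0 : a ≠ 0 := ha.ne_zero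
    have h1 : A.valuation (algebraMap L F a⁻¹) ≤ 1 := (A.valuation_le_one_iff _).2 (hA _)
    have h2 : A.valuation (algebraMap L F a) * A.valuation (algebraMap L F a⁻¹) = 1 := by
      rw [← map_mul, ← map_mul, mul_inv_cancel₀ ha0, map_one, map_one]
    have h3 : A.valuation (algebraMap L F a) * A.valuation (algebraMap L F a⁻¹) < 1 :=
      mul_lt_one_of_lt_of_le hw h1
    exact absurd h2 h3.ne
  | mul a i ha hi ih =>
    by_cases h1 : A.valuation (aeval w i) < 1
    · exact ⟨i, hi, dvd_mul_right _ _, h1⟩
    · have h2 : A.valuation (aeval w a) < 1 := by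
        by_contra h3
        have h4 : (1 : A.ValueGroup) ≤ A.valuation (aeval w (i * a)) := by
          rw [map_mul, map_mul]
          exact one_le_mul (not_lt.1 h1) (not_lt.1 h3)
        exact absurd hw (not_lt.2 h4)
      obtain ⟨P, hP, hPa, hPv⟩ := ih ha h2
      exact ⟨P, hP, hPa.mul_left _, hPv⟩

/-- integral polynomials have integral values -/
theorem aeval_mem {L F : Type*} [Field L] [Field F] [Algebra L F]
    (A : ValuationSubring F) (hA : ∀ c : L, algebraMap L F c ∈ A) (w : F) (hw : w ∈ A)
    (f : L[X]) : aeval w f ∈ A := by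
  rw [aeval_eq_sum_range]
  refine A.toSubring.sum_mem fun i _ => ?_
  rw [Algebra.smul_def]
  exact A.mul_mem _ _ (hA _) (A.toSubring.pow_mem hw _)

/-- polynomials prime to `P` are units -/
theorem val_eq_one {L F : Type*} [Field L] [Field F] [Algebra L F]
    (A : ValuationSubring F) (hA : ∀ c : L, algebraMap L F c ∈ A) (w : F) (hw : w ∈ A)
    (P Q : L[X]) (hP : Irreducible P) (hPw : A.valuation (aeval w P) < 1) (hPQ : ¬ P ∣ Q) :
    A.valuation (aeval w Q) = 1 := by
  have hint : ∀ f : L[X], A.valuation (aeval w f) ≤ 1 := fun f =>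
    (A.valuation_le_one_iff _).2 (aeval_mem A hA w hw f)
  obtain ⟨a, b, hab⟩ := (hP.coprime_iff_not_dvd).2 hPQ
  by_contra hne
  have hQ : A.valuation (aeval w Q) < 1 := lt_of_le_of_ne (hint Q) hne
  have h1 : A.valuation (aeval w (a * P + b * Q)) < 1 := by
    rw [map_add]
    refine lt_of_le_of_lt (A.valuation.map_add _ _) (max_lt ?_ ?_)
    · rw [map_mul, map_mul]
      exact mul_lt_one_of_nonneg_of_lt_one_right (hint a) zero_le hPw
    · rw [map_mul, map_mul]
      exact mul_lt_one_of_nonneg_of_lt_one_right (hint b) zero_le hQ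
  rw [hab, map_one, map_one] at h1
  exact lt_irrefl _ h1

end PM

open PM

theorem stPM.{u, v} : StPM.{u, v} := by
  intro p hp k L _ _ _ F M _ _ _ _ _ _ w hw f₀ hf₀ ι h z hh hz hP u hu hA
  have hinj : Function.Injective (algebraMap F M) := (algebraMap F M).injective
  have haev : ∀ f : L[X], f ≠ 0 → aeval w f ≠ 0 := fun f hf h0 => hw ⟨f, hf, h0⟩
  refine ⟨by simpa using hu, fun A hAL => ?_⟩
  set B : ValuationSubring F := A.comap (algebraMap F M) with hB
  have hBL : ∀ c : L, algebraMap L F c ∈ B := by
    intro c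
    rw [hB, ValuationSubring.mem_comap, ← IsScalarTower.algebraMap_apply L F M]
    exact hAL c
  rcases hA B hBL with h1 | ⟨hwB, hlt, r, hr, hur⟩
  · refine ⟨1, one_ne_zero, ?_⟩
    have h2 : B.valuation u = B.valuation 1 := by rw [h1, map_one]
    have h3 := val_eq_of_comap A hu one_ne_zero h2
    rw [h3, map_one, one_pow]
  · have hfL : f₀.map (algebraMap k L) ≠ 0 := by
      rwa [Ne, Polynomial.map_eq_zero]
    obtain ⟨P, hPi, hPd, hPv⟩ := exists_irreducible B hBL w _ hfL hlt
    have hPw : aeval w P ≠ 0 := haev P hPi.ne_zero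
    set π : M := algebraMap F M (aeval w P) with hπ
    have hπ0 : π ≠ 0 := by
      rw [hπ]; simpa using hPw
    -- polynomials
    have hpol : ∀ f : L[X], f ≠ 0 → A.valuation (algebraMap F M (aeval w f)) =
        A.valuation π ^ multiplicity P f := by
      intro f hf
      have hfin : FiniteMultiplicity P f := FiniteMultiplicity.of_prime_left hPi.prime hf
      obtain ⟨c, hc, hcn⟩ := hfin.exists_eq_pow_mul_and_not_dvd
      have hc0 : c ≠ 0 := by rintro rfl; exact hcn (dvd_zero _)
      have h1 : B.valuation (aeval w c) = B.valuation 1 := by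
        rw [map_one]; exact val_eq_one B hBL w hwB P c hPi hPv hcn
      have h2 := val_eq_of_comap A (haev c hc0) one_ne_zero h1
      rw [map_one, map_one] at h2
      conv_lhs => rw [hc]
      rw [map_mul, map_mul, map_mul, map_pow, map_pow, map_pow, h2, mul_one]
    -- the valuation of `u`
    have hvπ : A.valuation π ≠ 0 := by simpa [Valuation.ne_zero_iff] using hπ0
    obtain ⟨a, ha⟩ : ∃ a : ℤ, A.valuation (algebraMap F M u) = A.valuation π ^ a := by
      have hr0 : r ≠ 0 := by
        rintro rfl
        rw [map_zero, map_eq_zero] at hur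
        exact hu hur
      obtain ⟨f, g, hfg⟩ := (IntermediateField.mem_adjoin_simple_iff L r).1 hr
      have hg0 : g ≠ 0 := by
        rintro rfl
        rw [map_zero, div_zero] at hfg
        exact hr0 hfg
      have hf0 : f ≠ 0 := by
        rintro rfl
        rw [map_zero, zero_div] at hfg
        exact hr0 hfg
      refine ⟨(multiplicity P f : ℤ) - (multiplicity P g : ℤ), ?_⟩
      rw [val_eq_of_comap A hu hr0 hur, hfg, map_div₀, map_div₀, hpol f hf0, hpol g hg0,
        zpow_sub₀ hvπ, zpow_natCast, zpow_natCast]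
    obtain ⟨i, hi⟩ := hP P hPi hPd
    set m := multiplicity P (h i) with hm
    have hzi : A.valuation (z i) ^ p = A.valuation π ^ m := by
      rw [← map_pow, hz i, hpol _ (hh i)]
    have hzi0 : z i ≠ 0 := by
      intro h0
      rw [h0, map_zero, zero_pow hp.out.ne_zero] at hzi
      exact pow_ne_zero _ hvπ hzi.symm
    have hvz : A.valuation (z i) ≠ 0 := by simpa [Valuation.ne_zero_iff] using hzi0
    have hcop : IsCoprime (m : ℤ) (p : ℤ) := by
      rw [Nat.isCoprime_iff_coprime]
      exact ((Nat.Prime.coprime_iff_not_dvd hp.out).2 hi).symm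
    obtain ⟨α, β, hαβ⟩ := hcop
    refine ⟨z i ^ (a * α) * π ^ (a * β), mul_ne_zero (zpow_ne_zero _ hzi0)
      (zpow_ne_zero _ hπ0), ?_⟩
    rw [ha, map_pow, map_mul, map_zpow₀, map_zpow₀, mul_pow]
    have e1 : (A.valuation (z i) ^ (a * α)) ^ p = A.valuation π ^ ((m : ℤ) * (a * α)) := by
      rw [← zpow_natCast, ← zpow_mul, mul_comm, zpow_mul, zpow_natCast, hzi, ← zpow_natCast,
        ← zpow_mul]
    have e2 : (A.valuation π ^ (a * β)) ^ p = A.valuation π ^ ((a * β) * (p : ℤ)) := by
      rw [← zpow_natCast, ← zpow_mul]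
    rw [e1, e2, ← zpow_add₀ hvπ]
    congr 1
    linear_combination (-a) * hαβ

end Pool.Agent.Lib.MP_c385f6_ag.Bc
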