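import Mathlib
import Pool.Agent.Lib.MP_c385f6_ag.Bc.St
import Pool.Agent.Lib.MP_c385f6_ag.Bc.Basic

set_option autoImplicit false

/-!
Base change theorem, module (A1): the compatible system of pairs.
-/

namespace Pool.Agent.Lib.MP_c385f6_ag.Bc

open Pool.Agent.Lib.MP_c385f6_ag.Cpl

/-- (A1) the pairs `D (x - s) / D (x - t)` are a compatible system -/
theorem stPair.{u} : StPair.{u} := by
  intro p _ L E _ _ S O _ _ D hD x
  refine ⟨fun s hs t ht => div_ne_zero (hD.ne _ hs) (hD.ne _ ht), fun s hs t ht u hu => ?_,
    fun s hs t ht u hu hst htu hsu => ?_⟩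
  · refine eqv_of_eq ?_
    exact div_mul_div_cancel₀ (hD.ne _ ht)
  · have hts : t - s ≠ 0 := sub_ne_zero.2 (Ne.symm hst)
    have hst' : s - t ≠ 0 := sub_ne_zero.2 hst
    have hα : (t - u) / (t - s) ≠ 0 := div_ne_zero (sub_ne_zero.2 htu) hts
    have hβ : (s - u) / (s - t) ≠ 0 := div_ne_zero (sub_ne_zero.2 hsu) hst'
    have hα' : ((t - u) / (t - s)) + ((s - u) / (s - t)) = 1 := by
      rw [div_add_div _ _ hts hst', div_eq_one_iff_eq (mul_ne_zero hts hst')]
      ring
    have hβ' : ((t - u) / (t - s)) * s + ((s - u) / (s - t)) * t = u := by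
      rw [div_mul_eq_mul_div, div_mul_eq_mul_div, div_add_div _ _ hts hst',
        div_eq_iff (mul_ne_zero hts hst')]
      ring
    have hab : algebraMap L O ((t - u) / (t - s)) * (x - algebraMap L O s) +
        algebraMap L O ((s - u) / (s - t)) * (x - algebraMap L O t) = x - algebraMap L O u := by
      have e1 := congrArg (algebraMap L O) hα'
      have e2 := congrArg (algebraMap L O) hβ'
      rw [map_add, map_one] at e1
      rw [map_add, map_mul, map_mul] at e2
      linear_combination x * e1 - e2
    have h := hD.rel' ((isUnit_const hα).mul hs) ((isUnit_const hβ).mul ht) hu hab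
      (hD.smul hα hs) (hD.smul hβ ht) (eqv_refl _)
    have e1 : (t - u) / (t - s) * D (x - algebraMap L O s) / D (x - algebraMap L O u) =
        D (x - algebraMap L O s) / D (x - algebraMap L O u) * ((t - u) / (t - s)) := by ring
    have e2 : (s - u) / (s - t) * D (x - algebraMap L O t) / D (x - algebraMap L O u) =
        D (x - algebraMap L O t) / D (x - algebraMap L O u) * ((s - u) / (s - t)) := by ring
    rw [e1, e2] at h
    exact h

end Pool.Agent.Lib.MP_c385f6_ag.Bc
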