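import Mathlib
import Pool.Agent.Lib.MP_c385f6_ag.Bc.St

set_option autoImplicit false

/-!
(B6) equivariant homomorphisms give rational places of the field below.
-/

namespace Pool.Agent.Lib.MP_c385f6_ag.Bc

open Pool.Agent.Lib.MP_c385f6_ag.Cpl Polynomial

universe u

namespace PlcAux

theorem lt_one_iff {K : Type*} [Field K] (A : ValuationSubring K) (z : K) :
    A.valuation z < 1 ↔ z = 0 ∨ z⁻¹ ∉ A := by
  rcases eq_or_ne z 0 with rfl | hz
  · simp
  · rw [← A.valuation_le_one_iff, map_inv₀, not_le,
      one_lt_inv₀ (zero_lt_iff.2 ((Valuation.ne_zero_iff _).2 hz))]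
    simp [hz]

theorem comap_lt {K F : Type*} [Field K] [Field F] (f : K →+* F) (V : ValuationSubring F)
    (z : K) : (V.comap f).valuation z < 1 ↔ V.valuation (f z) < 1 := by
  rw [lt_one_iff, lt_one_iff, ValuationSubring.mem_comap, map_inv₀, map_eq_zero_iff f f.injective]

variable {k L K₀ F : Type*} [Field k] [Field L] [Field K₀] [Field F] [Algebra k L] [Algebra k K₀]
  [Algebra k F] [Algebra L F] [Algebra K₀ F] [IsScalarTower k L F] [IsScalarTower k K₀ F]

/-- `RR` is stable under the automorphisms over `K₀` -/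
theorem G_mem {w : K₀} {β : k[X]} {g : L ≃ₐ[k] L} {G : F ≃ₐ[K₀] F}
    (hG : ∀ c, G (algebraMap L F c) = algebraMap L F (g c)) {x : F}
    (hx : x ∈ RR k L β (algebraMap K₀ F w)) : G x ∈ RR k L β (algebraMap K₀ F w) := by
  intro A hA
  have h1 : A.comap (G : F →+* F) ∈ Rat k L β (algebraMap K₀ F w) := by
    refine ⟨fun c => ?_, ?_⟩
    · rw [ValuationSubring.mem_comap]
      have : (G : F →+* F) (algebraMap L F c) = algebraMap L F (g c) := hG c
      rw [this]
      exact hA.1 _
    · rcases hA.2 with ⟨a, ha⟩ | h | h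
      · left
        refine ⟨a, ?_⟩
        rw [comap_lt]
        have : (G : F →+* F) (algebraMap K₀ F w - algebraMap k F a) =
            algebraMap K₀ F w - algebraMap k F a := by
          rw [IsScalarTower.algebraMap_apply k K₀ F, ← map_sub]
          exact G.commutes _
        rw [this]
        exact ha
      · right
        left
        rw [ValuationSubring.mem_comap]
        have : (G : F →+* F) (algebraMap K₀ F w) = algebraMap K₀ F w := G.commutes _
        rw [this]
        exact h
      · right
        right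
        rw [comap_lt, aeval_algebraMap_apply]
        have : (G : F →+* F) (algebraMap K₀ F (aeval w β)) = algebraMap K₀ F (aeval w β) :=
          G.commutes _
        rw [this, ← aeval_algebraMap_apply]
        exact h
  exact hx _ h1

end PlcAux

open PlcAux in
/-- (B6) equivariant homomorphisms give rational places of the field below -/
theorem stPlc (h : StLoc.{u}) : StPlc.{u} := by
  intro k L _ _ _ _ _ K₀ F _ _ _ _ _ _ _ _ w hw halg β θ hθ φ hφ x₁ hx₁
  obtain ⟨V, hV1, hV2, hV3⟩ := h k L _ _ _ F _ _ _ inferInstance (algebraMap K₀ F w) hw halg β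
    ⟨θ, hθ⟩ φ
  -- elements of `RR` are in `V`
  have hRR : ∀ x : RR k L β (algebraMap K₀ F w), (x : F) ∈ V := fun x => by
    rw [hV1]
    exact ⟨x, 1, by rw [map_one]; exact one_ne_zero, by simp⟩
  have hcon : ∀ c : L, algebraMap L F c ∈ V := fun c => hRR (algebraMap L _ c)
  -- inverses
  have hinv : ∀ s : RR k L β (algebraMap K₀ F w), φ s ≠ 0 → (s : F) ≠ 0 ∧ (s : F)⁻¹ ∈ V := by
    intro s hs
    have h0 : (s : F) ≠ 0 := fun h0 => hs (by
      have : s = 0 := Subtype.ext h0
      rw [this, map_zero])
    refine ⟨h0, ?_⟩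
    rw [hV1]
    exact ⟨1, s, hs, by rw [inv_mul_cancel₀ h0]; rfl⟩
  set B : ValuationSubring K₀ := V.comap (algebraMap K₀ F) with hB
  have hrat : ∀ z : K₀, z ∉ B → IsRationalPlace k K₀ B := by
    intro z₀ hz₀
    refine ⟨fun h => hz₀ (by rw [h]; exact ValuationSubring.mem_top _), fun c => ?_, fun z hz => ?_⟩
    · rw [hB, ValuationSubring.mem_comap, ← IsScalarTower.algebraMap_apply k K₀ F,
        IsScalarTower.algebraMap_apply k L F]
      exact hcon _
    · rw [hB, ValuationSubring.mem_comap, hV1] at hz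
      obtain ⟨b, s, hs, hbs⟩ := hz
      have hfix : ∀ g : L ≃ₐ[k] L, g (φ b / φ s) = φ b / φ s := by
        intro g
        obtain ⟨G, hG, hG'⟩ := hφ g
        have e1 := hG' s ⟨G s, G_mem hG s.2⟩ rfl
        have e2 := hG' b ⟨G b, G_mem hG b.2⟩ rfl
        have e3 : algebraMap K₀ F z * G s = G b := by
          rw [← hbs, map_mul, G.commutes]
        have e4 : b * ⟨G s, G_mem hG s.2⟩ = ⟨G b, G_mem hG b.2⟩ * s := by
          apply Subtype.ext
          change (b : F) * G s = G b * (s : F)
          rw [← e3, ← hbs]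
          ring
        have e5 := congrArg φ e4
        rw [map_mul, map_mul, e1, e2] at e5
        rw [map_div₀, div_eq_div_iff ((_root_.map_ne_zero g).2 hs) hs]
        exact e5.symm
      obtain ⟨c, hc⟩ := (IsGalois.mem_range_algebraMap_iff_fixed (F := k) (E := L) _).2 hfix
      refine ⟨c, ?_⟩
      rw [hB, comap_lt, map_sub, ← IsScalarTower.algebraMap_apply k K₀ F,
        IsScalarTower.algebraMap_apply k L F, hc]
      have h1 := hV2 (b - algebraMap L _ (φ b / φ s) * s)
      have h2 : φ (b - algebraMap L _ (φ b / φ s) * s) = 0 := by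
        rw [map_sub, map_mul, AlgHom.commutes]
        change φ b - φ b / φ s * φ s = 0
        rw [div_mul_cancel₀ _ hs, sub_self]
      rw [h2, map_zero, sub_zero] at h1
      obtain ⟨h3, h4⟩ := hinv s hs
      have h5 : algebraMap K₀ F z - algebraMap L F (φ b / φ s) =
          ((b - algebraMap L _ (φ b / φ s) * s : RR k L β (algebraMap K₀ F w)) : F) * (s : F)⁻¹ := by
        change _ = ((b : F) - algebraMap L F (φ b / φ s) * (s : F)) * (s : F)⁻¹
        rw [← hbs, sub_mul, mul_assoc, mul_assoc, mul_inv_cancel₀ h3, mul_one, mul_one]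
      rw [h5, map_mul]
      calc V.valuation _ * V.valuation (s : F)⁻¹ ≤ V.valuation _ * 1 := by
            gcongr
            exact (V.valuation_le_one_iff _).2 h4
        _ < 1 := by rw [mul_one]; exact h1
  have hwθ : algebraMap K₀ F w - algebraMap L F θ ≠ 0 := by
    intro h0
    refine hw ?_
    rw [sub_eq_zero.1 h0]
    exact isAlgebraic_algebraMap θ
  refine ⟨fun y hy => ?_, fun h0 => ?_⟩
  · have hβ0 : algebraMap k L y - θ ≠ 0 := sub_ne_zero.2 (hθ.1 y)
    have h1 : φ x₁ ≠ 0 := by rw [hy]; exact inv_ne_zero hβ0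
    obtain ⟨h2, h3⟩ := hinv x₁ h1
    rw [hx₁, inv_inv] at h3
    have h4 := hV2 x₁
    have h5 : algebraMap K₀ F (w - algebraMap k K₀ y) =
        ((x₁ : F) - algebraMap L F (φ x₁)) *
          (-(algebraMap L F (algebraMap k L y - θ)) *
            (algebraMap K₀ F w - algebraMap L F θ)) := by
      have e1 : algebraMap L F (algebraMap k L y) - algebraMap L F θ ≠ 0 := by
        rw [← map_sub]
        exact (_root_.map_ne_zero _).2 hβ0
      rw [hx₁, hy, map_inv₀, map_sub, map_sub, ← IsScalarTower.algebraMap_apply k K₀ F,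
        IsScalarTower.algebraMap_apply k L F]
      field_simp
      ring
    have h6 : V.valuation (-(algebraMap L F (algebraMap k L y - θ)) *
            (algebraMap K₀ F w - algebraMap L F θ)) ≤ 1 :=
      (V.valuation_le_one_iff _).2 (V.mul_mem _ _ (V.neg_mem _ (hcon _)) h3)
    have h7 : B.valuation (w - algebraMap k K₀ y) < 1 := by
      rw [hB, comap_lt, h5, map_mul]
      calc V.valuation _ * V.valuation _ ≤ V.valuation _ * 1 := by gcongr
        _ < 1 := by rw [mul_one]; exact h4
    have h8 : w - algebraMap k K₀ y ≠ 0 := by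
      intro h8
      refine hw ?_
      rw [sub_eq_zero.1 h8, ← IsScalarTower.algebraMap_apply k K₀ F,
        IsScalarTower.algebraMap_apply k L F]
      exact isAlgebraic_algebraMap _
    exact ⟨B, hrat _ (((lt_one_iff B _).1 h7).resolve_left h8), h7⟩
  · have h1 := hV2 x₁
    rw [h0, map_zero, sub_zero, lt_one_iff, hx₁, inv_inv] at h1
    have h2 := h1.resolve_left (inv_ne_zero hwθ)
    have h3 : w ∉ B := by
      intro h3
      rw [hB, ValuationSubring.mem_comap] at h3
      exact h2 (V.sub_mem h3 (hcon θ))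
    exact ⟨B, hrat _ h3, h3⟩

end Pool.Agent.Lib.MP_c385f6_ag.Bc
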