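import Mathlib
import Pool.Agent.Lib.MP_c385f6_ag.Bc.St

set_option autoImplicit false

/-!
(B0) Primitive equations.
-/

namespace Pool.Agent.Lib.MP_c385f6_ag.Bc

open Polynomial

universe u

namespace PrimAux

variable {L : Type} [Field L] {F : Type u} [Field F] [Algebra L F]

/-- clearing denominators: an element algebraic over the ring generated by a transcendental
element satisfies a primitive equation -/
theorem exists_primitive {w : F} (hw : Transcendental L w) {x : F}
    (hx : IsAlgebraic (Algebra.adjoin L {w}) x) :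
    ∃ f : L[X][X], f.IsPrimitive ∧ aevalAeval w x f = 0 := by
  classical
  obtain ⟨q, hq, hqx⟩ := hx
  have hinj : Function.Injective (aeval w : L[X] →ₐ[L] F) :=
    transcendental_iff_injective.1 hw
  let e : L[X] ≃ₐ[L] Algebra.adjoin L {w} :=
    (AlgEquiv.ofInjective (aeval w) hinj).trans
      (Subalgebra.equivOfEq _ _ (Algebra.adjoin_singleton_eq_range_aeval L w).symm)
  have he : ∀ r : L[X], ((e r : Algebra.adjoin L {w}) : F) = aeval w r := fun r => rfl
  let f₀ : L[X][X] := q.map (e.symm : Algebra.adjoin L {w} →+* L[X])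
  have hf₀ : f₀ ≠ 0 := by
    intro h0
    apply hq
    have h1 : Function.Injective (e.symm : Algebra.adjoin L {w} →+* L[X]) := e.symm.injective
    exact (Polynomial.map_eq_zero_iff h1).1 h0
  have hkey : ∀ f : L[X][X], aevalAeval w x f =
      eval₂ ((aeval w : L[X] →ₐ[L] F) : L[X] →+* F) x f := by
    intro f
    induction f using Polynomial.induction_on' with
    | add p q hp hq => rw [map_add, eval₂_add, hp, hq]
    | monomial n a =>
      rw [← C_mul_X_pow_eq_monomial, map_mul, map_pow, aevalAeval_C, aevalAeval_Y, eval₂_mul,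
        eval₂_C, eval₂_pow, eval₂_X]
      rfl
  have hf₀x : aevalAeval w x f₀ = 0 := by
    rw [hkey, eval₂_map]
    have h2 : (((aeval w : L[X] →ₐ[L] F) : L[X] →+* F).comp
        (e.symm : Algebra.adjoin L {w} →+* L[X])) = algebraMap (Algebra.adjoin L {w}) F := by
      ext a
      have h3 := he (e.symm a)
      rw [AlgEquiv.apply_symm_apply] at h3
      exact h3.symm
    rw [h2]
    exact hqx
  obtain ⟨_⟩ : Nonempty (NormalizedGCDMonoid L[X]) := inferInstance
  have hdec := f₀.eq_C_content_mul_primPart
  refine ⟨f₀.primPart, f₀.isPrimitive_primPart, ?_⟩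
  have hc : f₀.content ≠ 0 := fun h => hf₀ (content_eq_zero_iff.1 h)
  rw [hdec, map_mul, aevalAeval_C] at hf₀x
  refine (mul_eq_zero.1 hf₀x).resolve_left fun h0 => hc ?_
  exact hinj (by rw [h0, map_zero])

end PrimAux

theorem stPrim : StPrim.{u} := by
  intro L _ F _ _ w hw halg
  refine ⟨fun x => PrimAux.exists_primitive hw (halg x), fun θ => ?_⟩
  have hw' : Transcendental L (w - algebraMap L F θ)⁻¹ := by
    intro h
    apply hw
    have h1 : IsAlgebraic L (w - algebraMap L F θ) := by
      have := h.inv
      rwa [inv_inv] at this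
    have h2 := h1.add (isAlgebraic_algebraMap (R := L) (A := F) θ)
    rwa [sub_add_cancel] at h2
  refine ⟨hw', fun x => PrimAux.exists_primitive hw' ?_⟩
  set w' : F := (w - algebraMap L F θ)⁻¹ with hw'def
  have hne : w - algebraMap L F θ ≠ 0 := by
    intro h0
    apply hw
    have : w = algebraMap L F θ := sub_eq_zero.1 h0
    rw [this]
    exact isAlgebraic_algebraMap θ
  have hmem1 : w ∈ IntermediateField.adjoin L {w'} := by
    have h1 : w' ∈ IntermediateField.adjoin L {w'} :=
      IntermediateField.mem_adjoin_simple_self L w'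
    have h2 : w'⁻¹ + algebraMap L F θ ∈ IntermediateField.adjoin L {w'} :=
      add_mem (inv_mem h1) (IntermediateField.algebraMap_mem _ θ)
    rwa [hw'def, inv_inv, sub_add_cancel] at h2
  have hle : Algebra.adjoin L {w} ≤ (IntermediateField.adjoin L {w'}).toSubalgebra := by
    rw [Algebra.adjoin_le_iff]
    rintro _ rfl
    exact hmem1
  have hx1 : IsAlgebraic (IntermediateField.adjoin L {w'}) x := by
    obtain ⟨q, hq, hqx⟩ := halg x
    refine ⟨q.map ((Subalgebra.inclusion hle : Algebra.adjoin L {w} →ₐ[L]
      (IntermediateField.adjoin L {w'}).toSubalgebra) : Algebra.adjoin L {w} →+*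
        IntermediateField.adjoin L {w'}), ?_, ?_⟩
    · intro h0
      exact hq ((Polynomial.map_eq_zero_iff (Subalgebra.inclusion_injective hle)).1 h0)
    · rw [aeval_def, eval₂_map]
      exact hqx
  open IntermediateField.algebraAdjoinAdjoin in
  exact (IsFractionRing.isAlgebraic_iff (Algebra.adjoin L {w'})
    (IntermediateField.adjoin L {w'}) F).2 hx1

end Pool.Agent.Lib.MP_c385f6_ag.Bc
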