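import Mathlib
import Pool.Agent.Lib.MP_c385f6_ag.Bc.St

set_option autoImplicit false

/-!
(B1) elimination, by resultants.
-/

namespace Pool.Agent.Lib.MP_c385f6_ag.Bc

open Polynomial

namespace ResAux

lemma aa_eq {L Ω : Type*} [Field L] [Field Ω] [Algebra L Ω] (x y : Ω) (p : L[X][X]) :
    aevalAeval x y p = eval₂ ((aeval x : L[X] →ₐ[L] Ω) : L[X] →+* Ω) y p := by
  have : ((aevalAeval x y : L[X][X] →ₐ[L] Ω) : L[X][X] →+* Ω) =
      eval₂RingHom ((aeval x : L[X] →ₐ[L] Ω) : L[X] →+* Ω) y := by
    ext <;> simp
  exact congr($this p)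

lemma key {L K Ω : Type*} [Field L] [Field K] [Field Ω] [Algebra L K] [Algebra K Ω] [Algebra L Ω]
    [IsScalarTower L K Ω] (z : K) (hz : Transcendental L z) (z' : Ω) (hz' : Transcendental K z')
    (f g : L[X][X]) (hf : f ≠ 0) (hg : g.IsPrimitive) (ω : Ω)
    (h1 : aevalAeval ω (algebraMap K Ω z) f = 0) (h2 : aevalAeval ω z' g = 0) : False := by
  have hω : IsAlgebraic K ω := by
    refine ⟨(Bivariate.swap f).map ((aeval z : L[X] →ₐ[L] K) : L[X] →+* K), ?_, ?_⟩
    · intro h0
      rw [Polynomial.map_eq_zero_iff] at h0
      · exact hf (by simpa using h0)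
      · exact transcendental_iff_injective.1 hz
    · rw [← Bivariate.aevalAeval_swap, aa_eq] at h1
      rw [aeval_def, eval₂_map, ← h1]
      congr 1
      ext <;> simp [← IsScalarTower.algebraMap_apply]
  set B := algebraicClosure K Ω with hB
  have hωB : ω ∈ B := by rw [hB, mem_algebraicClosure_iff]; exact hω
  set ωB : B := ⟨ω, hωB⟩ with hωBd
  set Q : B[X] := g.map ((aeval ωB : L[X] →ₐ[L] B) : L[X] →+* B) with hQ
  by_cases hQ0 : Q = 0
  · have hco : ∀ j, aeval ωB (g.coeff j) = 0 := by
      intro j
      have := congrArg (fun q => q.coeff j) hQ0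
      simpa [hQ] using this
    have hg0 : g ≠ 0 := hg.ne_zero
    obtain ⟨j, hj⟩ : ∃ j, g.coeff j ≠ 0 := by
      by_contra hcon
      push Not at hcon
      exact hg0 (Polynomial.ext (by simpa using hcon))
    have halg : IsAlgebraic L ωB := ⟨g.coeff j, hj, hco j⟩
    have hdvd : C (minpoly L ωB) ∣ g := by
      rw [Polynomial.C_dvd_iff_dvd_coeff]
      exact fun i => minpoly.dvd L ωB (hco i)
    exact minpoly.not_isUnit L ωB (hg _ hdvd)
  · have hz'B : IsAlgebraic B z' := by
      refine ⟨Q, hQ0, ?_⟩
      rw [aa_eq] at h2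
      rw [hQ, aeval_def, eval₂_map, ← h2]
      congr 1
      ext x
      · have h3 : algebraMap B Ω (algebraMap L B x) = algebraMap L Ω x := by
          rw [IsScalarTower.algebraMap_apply L K B, ← IsScalarTower.algebraMap_apply K B Ω,
            ← IsScalarTower.algebraMap_apply L K Ω]
        simpa using h3
      · simp [hωBd]
    have : Algebra.IsAlgebraic K B := by
      rw [hB]; infer_instance
    exact hz' (hz'B.restrictScalars K)

end ResAux

open ResAux in
theorem stRes : StRes := by
  intro L _ f g hf hg
  let K := RatFunc L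
  let KK := RatFunc K
  let Ω := AlgebraicClosure KK
  let j : L[X][X] →+* KK := (algebraMap K[X] KK).comp (mapRingHom (algebraMap L[X] K))
  have hj : Function.Injective j :=
    (RatFunc.algebraMap_injective K).comp (Polynomial.map_injective _ (RatFunc.algebraMap_injective L))
  have hf0 : f ≠ 0 := hf.ne_zero
  have hg0 : g ≠ 0 := hg.ne_zero
  set F : L[X][X][X] := (Bivariate.swap f).map C with hF
  set G : L[X][X][X] := (Bivariate.swap g).map (mapRingHom C) with hG
  have hF0 : F ≠ 0 := by
    rw [hF, Ne, Polynomial.map_eq_zero_iff C_injective]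
    simpa using hf0
  have hG0 : G ≠ 0 := by
    rw [hG, Ne, Polynomial.map_eq_zero_iff (by
      simpa using Polynomial.map_injective (C : L →+* L[X]) C_injective)]
    simpa using hg0
  -- evaluation
  have hFev : ∀ a c c' : L, eval₂ (evalEvalRingHom c c') a F = evalEval a c f := by
    intro a c c'
    rw [hF, eval₂_map]
    have h1 : (evalEvalRingHom c c').comp C = evalRingHom c := by ext <;> simp
    rw [h1, eval₂_evalRingHom, ← coe_aevalAeval_eq_evalEval, Bivariate.aevalAeval_swap,
      coe_aevalAeval_eq_evalEval]
  have hGev : ∀ a c c' : L, eval₂ (evalEvalRingHom c c') a G = evalEval a c' g := by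
    intro a c c'
    rw [hG, eval₂_map]
    have h1 : (evalEvalRingHom c c').comp (mapRingHom C) = evalRingHom c' := by ext <;> simp
    rw [h1, eval₂_evalRingHom, ← coe_aevalAeval_eq_evalEval, Bivariate.aevalAeval_swap,
      coe_aevalAeval_eq_evalEval]
  by_cases hd : F.natDegree = 0
  · obtain ⟨r, hr⟩ : ∃ r, F = C r := ⟨F.coeff 0, eq_C_of_natDegree_eq_zero hd⟩
    refine ⟨r, fun h => hF0 (by rw [hr, h, C_0]), fun a c c' h1 _ => ?_⟩
    have := hFev a c c'
    rw [h1, hr, eval₂_C] at this
    simpa using this
  · obtain ⟨P, Q, -, -, hPQ⟩ := exists_mul_add_mul_eq_C_resultant F G le_rfl le_rfl (Or.inl hd)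
    refine ⟨resultant F G, ?_, fun a c c' h1 h2 => ?_⟩
    · have hcop : IsCoprime (F.map j) (G.map j) := by
        rw [Polynomial.isCoprime_iff_aeval_ne_zero_of_isAlgClosed KK Ω]
        intro ω
        by_contra hcon
        push Not at hcon
        obtain ⟨e1, e2⟩ := hcon
        have hz : Transcendental L (RatFunc.X : K) := RatFunc.transcendental_X
        have hz' : Transcendental K (algebraMap KK Ω RatFunc.X) :=
          (transcendental_algebraMap_iff (algebraMap KK Ω).injective).2 RatFunc.transcendental_X
        refine key (K := K) (Ω := Ω) RatFunc.X hz (algebraMap KK Ω RatFunc.X) hz' f g hf0 hg ω ?_ ?_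
        · rw [← Bivariate.aevalAeval_swap, aa_eq, ← e1, hF, aeval_def, eval₂_map, eval₂_map]
          congr 1
          ext x
          · have h3 : algebraMap L Ω x = algebraMap KK Ω (algebraMap K KK (algebraMap L K x)) := by
              rw [IsScalarTower.algebraMap_apply L K Ω, IsScalarTower.algebraMap_apply K KK Ω]
            simp only [RingHom.comp_apply, RingHom.coe_coe, aeval_C, j, coe_mapRingHom, map_C]
            rw [h3]
            rfl
          · simp only [RingHom.comp_apply, RingHom.coe_coe, aeval_X, j, coe_mapRingHom, map_C]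
            rw [IsScalarTower.algebraMap_apply K KK Ω]
            rfl
        · rw [← Bivariate.aevalAeval_swap, aa_eq, ← e2, hG, aeval_def, eval₂_map, eval₂_map]
          congr 1
          ext x
          · have h3 : algebraMap L Ω x = algebraMap KK Ω (algebraMap K KK (algebraMap L K x)) := by
              rw [IsScalarTower.algebraMap_apply L K Ω, IsScalarTower.algebraMap_apply K KK Ω]
            simp only [RingHom.comp_apply, RingHom.coe_coe, aeval_C, j, coe_mapRingHom, map_C]
            rw [h3]
            rfl
          · simp only [RingHom.comp_apply, RingHom.coe_coe, aeval_X, j, coe_mapRingHom, map_X]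
            rfl
      have hne : resultant (F.map j) (G.map j) ≠ 0 := by
        rw [Ne, resultant_eq_zero_iff]
        exact fun h => h.2 hcop
      intro h0
      apply hne
      rw [natDegree_map_eq_of_injective hj, natDegree_map_eq_of_injective hj, resultant_map_map, h0,
        map_zero]
    · have := congrArg (eval₂ (evalEvalRingHom c c') a) hPQ
      rw [eval₂_add, eval₂_mul, eval₂_mul, hFev, hGev, h1, h2, eval₂_C, zero_mul, zero_mul,
        add_zero] at this
      simpa using this.symm

end Pool.Agent.Lib.MP_c385f6_ag.Bc
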