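import Mathlib
import Pool.Agent.Lib.MP_c385f6_ag.Bc.St
import Pool.Agent.Lib.MP_c385f6_ag.PlaceSurj

set_option autoImplicit false

/-!
(E) A rational place of `K₀` over `w = y` lifts to a rational place of `K`.
-/

namespace Pool.Agent.Lib.MP_c385f6_ag.Bc

open Polynomial Pool.Agent.Lib.MP_c385f6_ag

universe u v

namespace SplitAux

/-- averaging a cocycle -/
theorem avg {G A : Type*} [Group G] [Fintype G] [CommGroup A] (act : G → A →* A) (τ : G → A)
    (hτ : ∀ g g', τ (g * g') = τ g * act g (τ g')) {p : ℕ} (hp1 : 1 < p) (hp : ∀ a : A, a ^ p = 1)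
    (hc : Nat.Coprime (Fintype.card G) p) : ∃ c, ∀ g, τ g * act g c = c := by
  classical
  have hb : ∀ g, τ g ^ Fintype.card G * act g (∏ g', τ g') = ∏ g', τ g' := by
    intro g
    rw [map_prod, ← Finset.card_univ, ← Finset.prod_const, ← Finset.prod_mul_distrib]
    calc ∏ g', τ g * act g (τ g') = ∏ g', τ (g * g') :=
          Finset.prod_congr rfl fun g' _ => (hτ g g').symm
      _ = ∏ g', τ g' := Fintype.prod_equiv (Equiv.mulLeft g) _ _ fun _ => rfl
  obtain ⟨m, -, hm⟩ := Nat.exists_mul_mod_eq_one_of_coprime hc hp1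
  refine ⟨(∏ g', τ g') ^ m, fun g => ?_⟩
  have h1 : τ g = (τ g ^ Fintype.card G) ^ m := by
    rw [← pow_mul]
    conv_rhs => rw [← Nat.div_add_mod (Fintype.card G * m) p, hm, pow_add, pow_mul, hp, one_pow,
      one_mul, pow_one]
  rw [map_pow]
  conv_lhs => rw [h1]
  rw [← mul_pow, hb]

section place

variable {k K Ω : Type*} [Field k] [CharZero k] [Field K] [Field Ω] [Algebra k K] [Algebra k Ω]
  [Algebra K Ω] [IsScalarTower k K Ω] [IsAlgClosure K Ω] {A : ValuationSubring K}
  {V : ValuationSubring Ω}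

/-- all elements of `V` are near constants -/
theorem near_const (hA : IsRationalPlace k K A) (hV : ∀ a ∈ A, algebraMap K Ω a ∈ V)
    (hV' : ∀ a ∈ A, A.valuation a < 1 → V.valuation (algebraMap K Ω a) < 1) {x : Ω} (hx : x ∈ V) :
    ∃ c : algebraicClosure k Ω, V.valuation (x - c) < 1 := by
  have halg : Algebra.IsAlgebraic K Ω := IsAlgClosure.isAlgebraic
  obtain ⟨hnear, -⟩ := exists_dec_lift hA hV hV'
  have hVk : ∀ c : k, algebraMap k Ω c ∈ V := by
    intro c
    rw [IsScalarTower.algebraMap_apply k K Ω]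
    exact hV _ (hA.const_mem c)
  obtain ⟨b, c, hb, hc, hc1, rfl⟩ := exists_quotient A hV hx
  obtain ⟨β, hβ⟩ := hnear b hb
  obtain ⟨γ, hγ⟩ := hnear c hc
  have hγ0 : γ ≠ 0 := by
    rintro rfl
    have h1 : ((0 : algebraicClosure k Ω) : Ω) = 0 := rfl
    rw [h1, sub_zero, hc1] at hγ
    exact lt_irrefl _ hγ
  have hγ0' : (γ : Ω) ≠ 0 := fun h => hγ0 (Subtype.ext h)
  have hγ1 : V.valuation (γ : Ω) = 1 := valuation_eq_one hVk γ.2 hγ0'
  have hβ1 : V.valuation (β : Ω) ≤ 1 := (V.valuation_le_one_iff _).2 (mem_of_algebraic hVk β.2)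
  have hc0 : c ≠ 0 := by
    rintro rfl
    rw [map_zero] at hc1
    exact zero_ne_one hc1
  refine ⟨β / γ, ?_⟩
  have h1 : ((β / γ : algebraicClosure k Ω) : Ω) = (β : Ω) / γ := rfl
  have h2 : b / c - (β : Ω) / γ = ((b - β) * γ - β * (c - γ)) / (c * γ) := by
    field_simp
    ring
  rw [h1, h2, map_div₀, map_mul, hc1, hγ1, mul_one, div_one]
  refine (Valuation.map_sub _ _ _).trans_lt (max_lt ?_ ?_)
  · rw [map_mul, hγ1, mul_one]
    exact hβ
  · rw [map_mul]
    calc _ ≤ 1 * V.valuation (c - γ) := by gcongr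
      _ < 1 := by rw [one_mul]; exact hγ

omit [CharZero k] [Algebra k K] [Algebra k Ω] [IsScalarTower k K Ω] [Field k] in
/-- the decomposition group preserves the maximal ideal -/
theorem dec_lt (hV : ∀ a ∈ A, algebraMap K Ω a ∈ V) {σ : Ω ≃ₐ[K] Ω} (hσ : σ ∈ decSub A V) {x : Ω}
    (hx : V.valuation x < 1) : V.valuation (σ x) < 1 := by
  have halg : Algebra.IsAlgebraic K Ω := IsAlgClosure.isAlgebraic
  obtain ⟨b, c, hb, hc, hc1, rfl⟩ := exists_quotient A hV ((V.valuation_le_one_iff _).1 hx.le)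
  rw [map_div₀, hc1, div_one] at hx
  have h1 := (hσ b hb).2 hx
  have h2 : V.valuation (σ c) = 1 := by
    refine le_antisymm ((V.valuation_le_one_iff _).2 (integral_mem A hV ?_)) (not_lt.1 fun h => ?_)
    · exact IsIntegral.map (σ.toAlgHom.restrictScalars A) hc
    · have := (hσ c hc).1 h
      rw [hc1] at this
      exact lt_irrefl _ this
  rw [map_div₀, map_div₀, h2, div_one]
  exact h1

end place

section kummer

variable {F M Ω ι : Type*} [Field F] [Field M] [Field Ω] [Algebra F M] [Algebra F Ω]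
  [Algebra M Ω] [IsScalarTower F M Ω] {p : ℕ} {ζ : F} {z : ι → M} {H : ι → F}

/-- images of the roots -/
theorem root_image {R : Type*} [Field R] [Algebra F R] (hζ : IsPrimitiveRoot ζ p) (hp : p ≠ 0)
    (hz : ∀ i, z i ^ p = algebraMap F M (H i)) (f g : M →ₐ[F] R) (i : ι) :
    ∃ j : ℕ, f (z i) = algebraMap F R (ζ ^ j) * g (z i) := by
  have : NeZero p := ⟨hp⟩
  have hζR : IsPrimitiveRoot (algebraMap F R ζ) p := hζ.map_of_injective (algebraMap F R).injective
  by_cases h0 : g (z i) = 0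
  · have h1 : z i = 0 := by
      rw [← map_zero g] at h0
      exact g.toRingHom.injective h0
    exact ⟨0, by rw [h1, map_zero, map_zero, mul_zero]⟩
  have h1 : (f (z i) / g (z i)) ^ p = 1 := by
    rw [div_pow, ← map_pow, ← map_pow, hz, AlgHom.commutes, AlgHom.commutes]
    apply div_self
    rw [← AlgHom.commutes g, ← hz, map_pow]
    exact pow_ne_zero _ h0
  obtain ⟨j, -, hj⟩ := hζR.eq_pow_of_pow_eq_one h1
  refine ⟨j, ?_⟩
  rw [map_pow, hj, div_mul_cancel₀ _ h0]

/-- homomorphisms that agree on the roots are equal -/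
theorem hom_ext (hgen : IntermediateField.adjoin F (Set.range z) = ⊤) {R : Type*} [Field R]
    [Algebra F R] (f g : M →ₐ[F] R) (h : ∀ i, f (z i) = g (z i)) (m : M) : f m = g m := by
  have hm : m ∈ IntermediateField.adjoin F (Set.range z) := by
    rw [hgen]; trivial
  induction hm using IntermediateField.adjoin_induction with
  | mem y hy =>
    obtain ⟨x, rfl⟩ := hy
    exact h x
  | algebraMap c => rw [AlgHom.commutes, AlgHom.commutes]
  | add a b _ _ ha hb => rw [map_add, map_add, ha, hb]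
  | inv a _ ha => rw [map_inv₀, map_inv₀, ha]
  | mul a b _ _ ha hb => rw [map_mul, map_mul, ha, hb]

theorem normal_kummer (hζ : IsPrimitiveRoot ζ p) (hp : p ≠ 0)
    (hz : ∀ i, z i ^ p = algebraMap F M (H i))
    (hgen : IntermediateField.adjoin F (Set.range z) = ⊤) [IsAlgClosure F Ω] [CharZero F] :
    Normal F M := by
  have hac : IsAlgClosed Ω := IsAlgClosure.isAlgClosed F
  have hn : Normal F Ω := IsAlgClosure.normal F Ω
  let j : M →ₐ[F] Ω := IsScalarTower.toAlgHom F M Ω
  have h1 : Normal F j.fieldRange := by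
    rw [IntermediateField.normal_iff_forall_map_le]
    intro σ
    have h2 : j.fieldRange = IntermediateField.adjoin F (j '' Set.range z) := by
      rw [← IntermediateField.adjoin_map, hgen, ← AlgHom.fieldRange_eq_map]
    rw [h2, IntermediateField.adjoin_map, IntermediateField.adjoin_le_iff]
    rintro _ ⟨_, ⟨_, ⟨i, rfl⟩, rfl⟩, rfl⟩
    obtain ⟨n, hn⟩ := root_image hζ hp hz (σ.comp j) j i
    have h3 : σ (j (z i)) = algebraMap F Ω (ζ ^ n) * j (z i) := hn
    show σ (j (z i)) ∈ _
    rw [h3]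
    exact mul_mem (algebraMap_mem _ _) (IntermediateField.subset_adjoin _ _ ⟨z i, ⟨i, rfl⟩, rfl⟩)
  let e : M ≃ₐ[F] j.fieldRange := AlgEquiv.ofInjectiveField j
  exact Normal.of_algEquiv e.symm

theorem comm_kummer (hζ : IsPrimitiveRoot ζ p) (hp : p ≠ 0)
    (hz : ∀ i, z i ^ p = algebraMap F M (H i))
    (hgen : IntermediateField.adjoin F (Set.range z) = ⊤) (σ τ : M ≃ₐ[F] M) : σ * τ = τ * σ := by
  apply AlgEquiv.ext
  intro m
  refine hom_ext hgen ((σ * τ : M ≃ₐ[F] M) : M →ₐ[F] M) ((τ * σ : M ≃ₐ[F] M) : M →ₐ[F] M) ?_ m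
  intro i
  obtain ⟨a, ha⟩ := root_image hζ hp hz (σ : M →ₐ[F] M) (AlgHom.id F M) i
  obtain ⟨b, hb⟩ := root_image hζ hp hz (τ : M →ₐ[F] M) (AlgHom.id F M) i
  have ha' : σ (z i) = algebraMap F M (ζ ^ a) * z i := ha
  have hb' : τ (z i) = algebraMap F M (ζ ^ b) * z i := hb
  show σ (τ (z i)) = τ (σ (z i))
  rw [ha', hb', map_mul, map_mul, AlgEquiv.commutes, AlgEquiv.commutes, ha', hb']
  ring

theorem pow_kummer (hζ : IsPrimitiveRoot ζ p) (hp : p ≠ 0)
    (hz : ∀ i, z i ^ p = algebraMap F M (H i))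
    (hgen : IntermediateField.adjoin F (Set.range z) = ⊤) (σ : M ≃ₐ[F] M) : σ ^ p = 1 := by
  apply AlgEquiv.ext
  intro m
  refine hom_ext hgen ((σ ^ p : M ≃ₐ[F] M) : M →ₐ[F] M) ((1 : M ≃ₐ[F] M) : M →ₐ[F] M) ?_ m
  intro i
  obtain ⟨a, ha⟩ := root_image hζ hp hz (σ : M →ₐ[F] M) (AlgHom.id F M) i
  have ha' : σ (z i) = algebraMap F M (ζ ^ a) * z i := ha
  have h1 : ∀ n : ℕ, (σ ^ n) (z i) = algebraMap F M (ζ ^ a) ^ n * z i := by
    intro n
    induction n with
    | zero => rw [pow_zero, pow_zero, one_mul]; rfl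
    | succ n ih =>
      rw [pow_succ', AlgEquiv.mul_apply, ih, map_mul, map_pow, AlgEquiv.commutes, ha', pow_succ,
        mul_assoc]
  show (σ ^ p) (z i) = z i
  rw [h1, ← map_pow, ← pow_mul, mul_comm a, pow_mul, hζ.pow_eq_one, one_pow, map_one, one_mul]

end kummer

/-- the valuation of a restriction -/
theorem comap_lt {K Ω : Type*} [Field K] [Field Ω] (V : ValuationSubring Ω) (f : K →+* Ω) (x : K) :
    (V.comap f).valuation x < 1 ↔ V.valuation (f x) < 1 := by
  rw [← ValuationSubring.mem_nonunits_iff, ← ValuationSubring.mem_nonunits_iff,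
    ValuationSubring.mem_nonunits_iff_or, ValuationSubring.mem_nonunits_iff_or,
    ValuationSubring.mem_comap, map_inv₀, map_eq_zero]

section main

variable {p : ℕ} {k L K₀ F K M ι : Type*} [Field k] [Field L] [Field K₀] [Field F] [Field K]
  [Field M] [CharZero k] [Algebra k L] [FiniteDimensional k L] [IsGalois k L]
  [Algebra k K₀] [Algebra k K] [Algebra L F] [Algebra L M] [Algebra K₀ F]
  [Algebra K₀ K] [Algebra K₀ M] [Algebra F M] [Algebra K M] [IsScalarTower k K₀ K]
  [IsScalarTower K₀ F M] [IsScalarTower K₀ K M] [IsScalarTower L F M]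

theorem split_main (Ω : Type*) [Field Ω] [Algebra k Ω] [Algebra L Ω] [Algebra K₀ Ω] [Algebra F Ω]
    [Algebra K Ω] [Algebra M Ω] [IsScalarTower k K₀ Ω] [IsScalarTower k L Ω]
    [IsScalarTower K₀ F Ω] [IsScalarTower L F Ω] [IsScalarTower F M Ω] [IsScalarTower K M Ω]
    [IsScalarTower L M Ω] [IsScalarTower K₀ M Ω] [IsScalarTower K₀ K Ω] [IsAlgClosure K₀ Ω]
    (hp : p.Prime) {ζ : L} (hζ : IsPrimitiveRoot ζ p)
    (hd : ¬ p ∣ Module.finrank k L)
    (hF : IntermediateField.adjoin K₀ (Set.range (algebraMap L F)) = ⊤)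
    (hM : IntermediateField.adjoin K (Set.range (algebraMap L M)) = ⊤)
    (hG : ∀ g : L ≃ₐ[k] L, ∃ G : M ≃ₐ[K] M, ∀ c, G (algebraMap L M c) = algebraMap L M (g c))
    {w : K₀} {y : k} {z : ι → M} {H : ι → L[X]}
    (hz : ∀ i, z i ^ p = algebraMap F M (aeval (algebraMap K₀ F w) (H i)))
    (hgen : IntermediateField.adjoin F (Set.range z) = ⊤)
    (he : ∀ i, ∃ e, e ≠ 0 ∧ (H i).eval (algebraMap k L y) = e ^ p) (hy : PlaceOver k w y) :
    PlaceOver k (algebraMap K₀ K w) y := by
  classical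
  obtain ⟨B₀, hB₀, hyB⟩ := hy
  have hac : IsAlgClosed Ω := IsAlgClosure.isAlgClosed K₀
  have halg : Algebra.IsAlgebraic K₀ Ω := IsAlgClosure.isAlgebraic
  have halgK : Algebra.IsAlgebraic K Ω := Algebra.IsAlgebraic.tower_top (K := K₀) K
  have halgF : Algebra.IsAlgebraic F Ω := Algebra.IsAlgebraic.tower_top (K := K₀) F
  have hclK : IsAlgClosure K Ω := ⟨hac, halgK⟩
  have hclF : IsAlgClosure F Ω := ⟨hac, halgF⟩
  have hcK : CharZero K₀ := charZero_of_injective_algebraMap (algebraMap k K₀).injective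
  have hcF : CharZero F := charZero_of_injective_algebraMap (algebraMap K₀ F).injective
  have hcK' : CharZero K := charZero_of_injective_algebraMap (algebraMap K₀ K).injective
  have hnK : Normal K Ω := IsAlgClosure.normal K Ω
  have _ : Normal k (algebraicClosure k Ω) := IsAlgClosure.normal k _
  have hζF : IsPrimitiveRoot (algebraMap L F ζ) p := hζ.map_of_injective (algebraMap L F).injective
  have hpn : p ≠ 0 := hp.ne_zero
  have hnM : Normal F M := normal_kummer (Ω := Ω) hζF hpn hz hgen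
  obtain ⟨V, hV, hV'⟩ := exists_above (Ω := Ω) B₀
  obtain ⟨-, hlift⟩ := exists_dec_lift hB₀ hV hV'
  have hVk : ∀ c : k, algebraMap k Ω c ∈ V := by
    intro c
    rw [IsScalarTower.algebraMap_apply k K₀ Ω]
    exact hV _ (hB₀.const_mem c)
  have hVL : ∀ c : L, algebraMap L Ω c ∈ V := fun c =>
    mem_of_algebraic hVk (algebraMap_mem_closure c)
  have hVL1 : ∀ c : L, c ≠ 0 → V.valuation (algebraMap L Ω c) = 1 := fun c hc =>
    valuation_eq_one hVk (algebraMap_mem_closure c) ((_root_.map_ne_zero _).2 hc)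
  have hFM : ∀ x : F, algebraMap M Ω (algebraMap F M x) = algebraMap F Ω x := fun x =>
    (IsScalarTower.algebraMap_apply F M Ω x).symm
  have hLF : ∀ x : L, algebraMap F Ω (algebraMap L F x) = algebraMap L Ω x := fun x =>
    (IsScalarTower.algebraMap_apply L F Ω x).symm
  have hKF : ∀ x : K₀, algebraMap F Ω (algebraMap K₀ F x) = algebraMap K₀ Ω x := fun x =>
    (IsScalarTower.algebraMap_apply K₀ F Ω x).symm
  -- the residues of the roots
  have hw1 : V.valuation (algebraMap K₀ Ω w - algebraMap k Ω y) < 1 := by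
    rw [IsScalarTower.algebraMap_apply k K₀ Ω, ← map_sub]
    exact hV' _ ((B₀.valuation_le_one_iff _).1 hyB.le) hyB
  have hwV : algebraMap K₀ Ω w ∈ V := by
    have h1 : algebraMap K₀ Ω w = (algebraMap K₀ Ω w - algebraMap k Ω y) + algebraMap k Ω y := by
      ring
    rw [h1]
    exact add_mem ((V.valuation_le_one_iff _).1 hw1.le) (hVk y)
  have hQV : ∀ Q : L[X], aeval (algebraMap K₀ Ω w) Q ∈ V := by
    intro Q
    rw [aeval_eq_sum_range]
    refine sum_mem fun j _ => ?_
    rw [Algebra.smul_def]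
    exact mul_mem (hVL _) (pow_mem hwV j)
  have hres : ∀ i, ∃ ε : L, ε ≠ 0 ∧ V.valuation (algebraMap M Ω (z i) - algebraMap L Ω ε) < 1 := by
    intro i
    obtain ⟨e, he0, he⟩ := he i
    obtain ⟨Q, hQ⟩ := X_sub_C_dvd_sub_C_eval (p := H i) (a := algebraMap k L y)
    have h1 : algebraMap M Ω (z i) ^ p = aeval (algebraMap K₀ Ω w) (H i) := by
      rw [← map_pow, hz, hFM, ← aeval_algebraMap_apply, hKF]
    have h2 : algebraMap M Ω (z i) ^ p - algebraMap L Ω e ^ p =
        (algebraMap K₀ Ω w - algebraMap k Ω y) * aeval (algebraMap K₀ Ω w) Q := by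
      have h3 := congrArg (aeval (algebraMap K₀ Ω w)) hQ
      rw [map_sub, aeval_C, map_mul, map_sub, aeval_X, aeval_C,
        ← IsScalarTower.algebraMap_apply k L Ω] at h3
      rw [h1, ← h3, he, map_pow]
    have h3 : V.valuation (algebraMap M Ω (z i) ^ p - algebraMap L Ω e ^ p) < 1 := by
      rw [h2, map_mul]
      exact mul_lt_one_of_nonneg_of_lt_one_left zero_le hw1
        ((V.valuation_le_one_iff _).2 (hQV Q))
    have hζΩ : IsPrimitiveRoot (algebraMap L Ω ζ) p :=
      hζ.map_of_injective (algebraMap L Ω).injective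
    have hzV : algebraMap M Ω (z i) ∈ V := by
      have h4 : V.valuation (algebraMap M Ω (z i)) ^ p ≤ 1 := by
        rw [← map_pow, h1]
        exact (V.valuation_le_one_iff _).2 (hQV _)
      exact (V.valuation_le_one_iff _).1 ((pow_le_one_iff hpn).1 h4)
    rw [hζΩ.pow_sub_pow_eq_prod_sub_mul _ _ hp.pos, map_prod] at h3
    have hξL : ∀ ξ ∈ nthRootsFinset p (1 : Ω), ∃ j : ℕ, ξ = algebraMap L Ω (ζ ^ j) := by
      intro ξ hξ
      have hne : NeZero p := ⟨hpn⟩
      obtain ⟨j, -, hj⟩ := hζΩ.eq_pow_of_pow_eq_one ((mem_nthRootsFinset hp.pos _).1 hξ)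
      exact ⟨j, by rw [map_pow, hj]⟩
    have h5 : ∃ ξ ∈ nthRootsFinset p (1 : Ω),
        V.valuation (algebraMap M Ω (z i) - ξ * algebraMap L Ω e) < 1 := by
      by_contra hno
      push Not at hno
      refine h3.ne (Finset.prod_eq_one fun ξ hξ => le_antisymm ?_ (hno ξ hξ))
      obtain ⟨j, rfl⟩ := hξL ξ hξ
      exact (V.valuation_le_one_iff _).2 (sub_mem hzV (mul_mem (hVL _) (hVL _)))
    obtain ⟨ξ, hξ, h6⟩ := h5
    obtain ⟨j, rfl⟩ := hξL ξ hξ
    refine ⟨ζ ^ j * e, mul_ne_zero (pow_ne_zero _ (hζ.ne_zero hpn)) he0, ?_⟩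
    rw [map_mul]
    exact h6
  choose ε hε0 hε using hres
  -- elements of the decomposition group that fix `L`
  have hfix : ∀ σ ∈ decSub B₀ V, (∀ c : L, σ (algebraMap L Ω c) = algebraMap L Ω c) →
      ∀ m : M, σ (algebraMap M Ω m) = algebraMap M Ω m := by
    intro σ hσ hσL
    have hσF : ∀ x : F, σ (algebraMap F Ω x) = algebraMap F Ω x := by
      intro x
      refine fix_of_fix_base hF ((σ : Ω →+* Ω).comp (algebraMap F Ω)) (algebraMap F Ω) ?_ ?_ x
      · intro x
        show σ (algebraMap F Ω (algebraMap K₀ F x)) = _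
        rw [hKF]
        exact σ.commutes x
      · intro x
        show σ (algebraMap F Ω (algebraMap L F x)) = _
        rw [hLF]
        exact hσL x
    let σF : Ω →ₐ[F] Ω := { toRingHom := (σ : Ω →+* Ω), commutes' := hσF }
    intro m
    refine hom_ext hgen (σF.comp (IsScalarTower.toAlgHom F M Ω)) (IsScalarTower.toAlgHom F M Ω)
      ?_ m
    intro i
    obtain ⟨j, hj⟩ := root_image hζF hpn hz (σF.comp (IsScalarTower.toAlgHom F M Ω))
      (IsScalarTower.toAlgHom F M Ω) i
    have hj' : σ (algebraMap M Ω (z i)) = algebraMap L Ω (ζ ^ j) * algebraMap M Ω (z i) := by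
      have : σ (algebraMap M Ω (z i)) =
        algebraMap F Ω (algebraMap L F ζ ^ j) * algebraMap M Ω (z i) := hj
      rw [this, ← map_pow, hLF]
    show σ (algebraMap M Ω (z i)) = algebraMap M Ω (z i)
    have h1 := dec_lt hV hσ (hε i)
    rw [map_sub, hσL, hj'] at h1
    have h2 : V.valuation (algebraMap L Ω (ζ ^ j) *
        (algebraMap M Ω (z i) - algebraMap L Ω (ε i))) < 1 := by
      rw [map_mul, hVL1 _ (pow_ne_zero _ (hζ.ne_zero hpn)), one_mul]
      exact hε i
    have h3 : V.valuation (algebraMap L Ω ((ζ ^ j - 1) * ε i)) < 1 := by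
      have h4 : algebraMap L Ω ((ζ ^ j - 1) * ε i) =
          (algebraMap L Ω (ζ ^ j) * algebraMap M Ω (z i) - algebraMap L Ω (ε i)) -
          algebraMap L Ω (ζ ^ j) * (algebraMap M Ω (z i) - algebraMap L Ω (ε i)) := by
        rw [map_mul, map_sub, map_one]
        ring
      rw [h4]
      exact (Valuation.map_sub _ _ _).trans_lt (max_lt h1 h2)
    have h4 : (ζ ^ j - 1) * ε i = 0 := by
      by_contra h
      rw [hVL1 _ h] at h3
      exact lt_irrefl _ h3
    have h5 : ζ ^ j = 1 := sub_eq_zero.1 ((mul_eq_zero.1 h4).resolve_right (hε0 i))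
    rw [hj', h5, map_one, one_mul]
  choose σ hσ hσc using hlift
  have hσL : ∀ (γ : AbsGal k Ω) (g : L ≃ₐ[k] L), (∀ x, γ (embL k L Ω x) = embL k L Ω (g x)) →
      ∀ c : L, σ γ (algebraMap L Ω c) = algebraMap L Ω (g c) := by
    intro γ g hγ c
    have h1 := hσc γ (embL k L Ω c)
    rw [hγ] at h1
    exact h1
  -- the action on `M` depends only on the restriction to `L`
  have hdep : ∀ τ ∈ decSub B₀ V, ∀ τ' ∈ decSub B₀ V,
      (∀ c : L, τ (algebraMap L Ω c) = τ' (algebraMap L Ω c)) →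
      ∀ m : M, τ (algebraMap M Ω m) = τ' (algebraMap M Ω m) := by
    intro τ hτ τ' hτ' h m
    have h1 := hfix (τ'⁻¹ * τ) ((decSub B₀ V).mul_mem ((decSub B₀ V).inv_mem hτ') hτ) (by
      intro c
      rw [AlgEquiv.mul_apply, h, ← AlgEquiv.mul_apply, inv_mul_cancel]
      rfl) m
    rw [AlgEquiv.mul_apply] at h1
    have h2 := congrArg τ' h1
    rw [← AlgEquiv.mul_apply τ' τ'⁻¹, mul_inv_cancel] at h2
    exact h2
  choose G hG using hG
  choose γ hγ using fun g : L ≃ₐ[k] L => exists_lift (embL k L Ω) g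
  have hKM : ∀ x : K, algebraMap M Ω (algebraMap K M x) = algebraMap K Ω x := fun x =>
    (IsScalarTower.algebraMap_apply K M Ω x).symm
  have hLM : ∀ x : L, algebraMap M Ω (algebraMap L M x) = algebraMap L Ω x := fun x =>
    (IsScalarTower.algebraMap_apply L M Ω x).symm
  have hKKM : ∀ x : K₀, algebraMap F M (algebraMap K₀ F x) = algebraMap K M (algebraMap K₀ K x) :=
    fun x => by
      rw [← IsScalarTower.algebraMap_apply K₀ F M, ← IsScalarTower.algebraMap_apply K₀ K M]
  have hLFM : ∀ x : L, algebraMap F M (algebraMap L F x) = algebraMap L M x := fun x =>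
    (IsScalarTower.algebraMap_apply L F M x).symm
  have hGs : ∀ (g : L ≃ₐ[k] L) (c : L), (G g).symm (algebraMap L M c) =
      algebraMap L M (g.symm c) := by
    intro g c
    rw [AlgEquiv.symm_apply_eq, hG, AlgEquiv.apply_symm_apply]
  have hGmul : ∀ (g g' : L ≃ₐ[k] L) (m : M), (G (g * g')).symm m = (G g').symm ((G g).symm m) := by
    intro g g' m
    refine fix_of_fix_base hM ((G (g * g')).symm : M →+* M)
      (((G g').symm : M →+* M).comp ((G g).symm : M →+* M)) ?_ ?_ m
    · intro x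
      show (G (g * g')).symm (algebraMap K M x) = (G g').symm ((G g).symm (algebraMap K M x))
      rw [AlgEquiv.commutes, AlgEquiv.commutes, AlgEquiv.commutes]
    · intro c
      show (G (g * g')).symm (algebraMap L M c) = (G g').symm ((G g).symm (algebraMap L M c))
      rw [hGs, hGs, hGs]
      rfl
  -- `G` preserves `F`
  have hGF : ∀ (g : L ≃ₐ[k] L) (x : F), ∃ x' : F, (G g).symm (algebraMap F M x) =
      algebraMap F M x' := by
    intro g x
    have hx : x ∈ IntermediateField.adjoin K₀ (Set.range (algebraMap L F)) := by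
      rw [hF]; trivial
    induction hx using IntermediateField.adjoin_induction with
    | mem y hy =>
      obtain ⟨c, rfl⟩ := hy
      exact ⟨algebraMap L F (g.symm c), by rw [hLFM, hLFM, hGs]⟩
    | algebraMap c => exact ⟨algebraMap K₀ F c, by rw [hKKM, AlgEquiv.commutes]⟩
    | add a b _ _ ha hb =>
      obtain ⟨a', ha⟩ := ha
      obtain ⟨b', hb⟩ := hb
      exact ⟨a' + b', by rw [map_add, map_add, map_add, ha, hb]⟩
    | inv a _ ha =>
      obtain ⟨a', ha⟩ := ha
      exact ⟨a'⁻¹, by rw [map_inv₀, map_inv₀, map_inv₀, ha]⟩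
    | mul a b _ _ ha hb =>
      obtain ⟨a', ha⟩ := ha
      obtain ⟨b', hb⟩ := hb
      exact ⟨a' * b', by rw [map_mul, map_mul, map_mul, ha, hb]⟩
  let act : (L ≃ₐ[k] L) → (M ≃ₐ[F] M) → (M ≃ₐ[F] M) := fun g τ =>
    AlgEquiv.ofRingEquiv (f := (((G g).symm : M ≃+* M).trans (τ : M ≃+* M)).trans (G g : M ≃+* M))
      (by
        intro x
        obtain ⟨x', hx'⟩ := hGF g x
        show G g (τ ((G g).symm (algebraMap F M x))) = _
        rw [hx', AlgEquiv.commutes, ← hx', AlgEquiv.apply_symm_apply])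
  have hact : ∀ g τ m, act g τ m = G g (τ ((G g).symm m)) := fun g τ m => rfl
  -- the cocycle
  have hτe : ∀ g : L ≃ₐ[k] L, ∃ τ : M ≃ₐ[F] M, ∀ m : M,
      algebraMap M Ω (τ m) = σ (γ g) (algebraMap M Ω ((G g).symm m)) := by
    intro g
    let h : Ω ≃ₐ[K] Ω := (G g).liftNormal Ω
    have hh : ∀ m, h.symm (algebraMap M Ω m) = algebraMap M Ω ((G g).symm m) := by
      intro m
      rw [AlgEquiv.symm_apply_eq, AlgEquiv.liftNormal_commutes, AlgEquiv.apply_symm_apply]
    let t : Ω ≃ₐ[F] Ω := AlgEquiv.ofRingEquiv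
      (f := (h.symm : Ω ≃+* Ω).trans (σ (γ g) : Ω ≃+* Ω)) (by
        intro x
        refine fix_of_fix_base hF (((σ (γ g) : Ω →+* Ω).comp (h.symm : Ω →+* Ω)).comp
          (algebraMap F Ω)) (algebraMap F Ω) ?_ ?_ x
        · intro x
          show σ (γ g) (h.symm (algebraMap F Ω (algebraMap K₀ F x))) = _
          rw [hKF, IsScalarTower.algebraMap_apply K₀ K Ω, AlgEquiv.commutes,
            ← IsScalarTower.algebraMap_apply K₀ K Ω, AlgEquiv.commutes]
        · intro c
          show σ (γ g) (h.symm (algebraMap F Ω (algebraMap L F c))) = _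
          rw [hLF, ← hLM, hh, hGs, hLM, hσL _ g (hγ g), AlgEquiv.apply_symm_apply, hLM])
    refine ⟨t.restrictNormal M, fun m => ?_⟩
    rw [AlgEquiv.restrictNormal_commutes]
    show σ (γ g) (h.symm (algebraMap M Ω m)) = _
    rw [hh]
  choose τ hτ using hτe
  have hcoc : ∀ g g', τ (g * g') = τ g * act g (τ g') := by
    intro g g'
    apply AlgEquiv.ext
    intro m
    apply (algebraMap M Ω).injective
    rw [hτ, AlgEquiv.mul_apply, hτ, hact, AlgEquiv.symm_apply_apply, hτ, hGmul]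
    have h1 := hdep (σ (γ (g * g'))) (hσ _) (σ (γ g) * σ (γ g'))
      ((decSub B₀ V).mul_mem (hσ _) (hσ _)) (by
        intro c
        rw [AlgEquiv.mul_apply, hσL _ _ (hγ _), hσL _ _ (hγ _), hσL _ _ (hγ _)]
        rfl) ((G g').symm ((G g).symm m))
    rw [h1]
    rfl
  have hcomm : ∀ a b : M ≃ₐ[F] M, a * b = b * a := comm_kummer hζF hpn hz hgen
  let _ : CommGroup (M ≃ₐ[F] M) := { (inferInstance : Group (M ≃ₐ[F] M)) with mul_comm := hcomm }
  have hfinG : Finite (L ≃ₐ[k] L) := inferInstance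
  let _ : Fintype (L ≃ₐ[k] L) := Fintype.ofFinite _
  have hcop : Nat.Coprime (Fintype.card (L ≃ₐ[k] L)) p := by
    rw [← Nat.card_eq_fintype_card, IsGalois.card_aut_eq_finrank]
    exact ((Nat.Prime.coprime_iff_not_dvd hp).2 hd).symm
  obtain ⟨c, hc⟩ := avg (G := L ≃ₐ[k] L) (A := M ≃ₐ[F] M)
    (fun g => { toFun := act g
                map_one' := by
                  apply AlgEquiv.ext
                  intro m
                  show G g ((G g).symm m) = m
                  rw [AlgEquiv.apply_symm_apply]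
                map_mul' := by
                  intro a b
                  apply AlgEquiv.ext
                  intro m
                  show G g (a (b ((G g).symm m))) = G g (a ((G g).symm (G g (b ((G g).symm m)))))
                  rw [AlgEquiv.symm_apply_apply] }) τ hcoc hp.one_lt
    (pow_kummer hζF hpn hz hgen) hcop
  -- `c K` is fixed by the `σ γ`
  have hcK : ∀ (δ : AbsGal k Ω) (x : K), σ δ (algebraMap M Ω (c (algebraMap K M x))) =
      algebraMap M Ω (c (algebraMap K M x)) := by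
    intro δ x
    obtain ⟨g, hg⟩ : ∃ g : L ≃ₐ[k] L, ∀ x, δ (embL k L Ω x) = embL k L Ω (g x) := by
      let _ : Algebra L (algebraicClosure k Ω) := (embL k L Ω).toRingHom.toAlgebra
      have _ : IsScalarTower k L (algebraicClosure k Ω) :=
        IsScalarTower.of_algebraMap_eq (fun c => ((embL k L Ω).commutes c).symm)
      exact ⟨δ.restrictNormal L, fun x => (AlgEquiv.restrictNormal_commutes δ L x).symm⟩
    have h1 : (τ g * act g c) (algebraMap K M x) = c (algebraMap K M x) :=
      AlgEquiv.congr_fun (hc g) (algebraMap K M x)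
    rw [AlgEquiv.mul_apply, hact, AlgEquiv.commutes (G g).symm] at h1
    have h3 := hτ g (G g (c (algebraMap K M x)))
    rw [h1, AlgEquiv.symm_apply_apply] at h3
    rw [hdep (σ δ) (hσ _) (σ (γ g)) (hσ _) (by
      intro c
      rw [hσL _ _ hg, hσL _ _ (hγ g)]), ← h3]
  let f : K →+* Ω := (algebraMap M Ω).comp ((c : M →+* M).comp (algebraMap K M))
  have hf : ∀ x, f x = algebraMap M Ω (c (algebraMap K M x)) := fun x => rfl
  have hfK₀ : ∀ x : K₀, f (algebraMap K₀ K x) = algebraMap K₀ Ω x := by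
    intro x
    rw [hf, ← hKKM, AlgEquiv.commutes, hFM, hKF]
  have hfk : ∀ x : k, f (algebraMap k K x) = algebraMap k Ω x := by
    intro x
    rw [IsScalarTower.algebraMap_apply k K₀ K, hfK₀, ← IsScalarTower.algebraMap_apply k K₀ Ω]
  refine ⟨V.comap f, ⟨?_, ?_, ?_⟩, ?_⟩
  · intro htop
    apply hB₀.ne_top
    rw [eq_top_iff]
    intro u _
    by_contra hu
    have h1 : B₀.valuation u⁻¹ < 1 :=
      (ValuationSubring.inv_mem_nonunits_iff _).2 (Or.inr hu)
    have h2 := hV' u⁻¹ ((B₀.valuation_le_one_iff _).1 h1.le) h1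
    have h3 : algebraMap K₀ K u ∈ V.comap f := by rw [htop]; trivial
    rw [ValuationSubring.mem_comap, hfK₀] at h3
    rw [map_inv₀] at h2
    rcases (ValuationSubring.inv_mem_nonunits_iff _).1 h2 with h4 | h4
    · rw [map_eq_zero] at h4
      exact hu (h4 ▸ B₀.zero_mem)
    · exact h4 h3
  · intro a
    rw [ValuationSubring.mem_comap, hfk]
    exact hVk a
  · intro x hx
    obtain ⟨γ₀, hγ₀⟩ := near_const hB₀ hV hV' (x := f x) hx
    have hinv : ∀ δ : AbsGal k Ω, δ γ₀ = γ₀ := by
      intro δ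
      have h1 := dec_lt hV (hσ δ) hγ₀
      rw [map_sub, hf, hcK, hσc, ← hf] at h1
      by_contra hne
      have h2 : V.valuation ((γ₀ : Ω) - (δ γ₀ : Ω)) < 1 := by
        have h3 : (γ₀ : Ω) - (δ γ₀ : Ω) = (f x - (δ γ₀ : Ω)) - (f x - (γ₀ : Ω)) := by ring
        rw [h3]
        exact (Valuation.map_sub _ _ _).trans_lt (max_lt h1 hγ₀)
      rw [valuation_eq_one hVk (sub_mem γ₀.2 (δ γ₀).2)
        (sub_ne_zero.2 fun h => hne (Subtype.ext h.symm))] at h2
      exact lt_irrefl _ h2
    obtain ⟨a, ha⟩ := (InfiniteGalois.mem_range_algebraMap_iff_fixed (k := k) γ₀).2 hinv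
    refine ⟨a, ?_⟩
    rw [comap_lt, map_sub, hfk]
    have h3 : algebraMap k Ω a = (γ₀ : Ω) := by
      rw [← ha]
      rfl
    rw [h3]
    exact hγ₀
  · rw [comap_lt, map_sub, hfK₀, hfk]
    exact hw1

end main

end SplitAux

/-- generation by integral elements -/
theorem alg_of_adjoin {K M : Type*} [Field K] [Field M] [Algebra K M] {S : Set M}
    (h : IntermediateField.adjoin K S = ⊤) (hS : ∀ x ∈ S, IsIntegral K x) :
    Algebra.IsAlgebraic K M := by
  have h1 : Algebra.IsAlgebraic K (IntermediateField.adjoin K S) :=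
    IntermediateField.isAlgebraic_adjoin hS
  constructor
  intro x
  have hx : x ∈ IntermediateField.adjoin K S := by
    rw [h]; trivial
  exact IntermediateField.isAlgebraic_iff.1 (h1.isAlgebraic ⟨x, hx⟩)

open SplitAux in
/-- (E) -/
theorem stSplit : StSplit.{u, v} := by
  intro p hp k L _ _ _ _ _ _ ζ hζ hd K₀ F K M _ _ _ _ _ _ _ _ _ _ _ _ _ _ _ _ _ _ _ _ hF hM hG w y
    ι z H hz hgen he hy
  let _ : Algebra k M := ((algebraMap K M).comp (algebraMap k K)).toAlgebra
  have _ : IsScalarTower k K M := IsScalarTower.of_algebraMap_eq fun _ => rfl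
  have _ : IsScalarTower k K₀ M := IsScalarTower.of_algebraMap_eq fun x => by
    rw [IsScalarTower.algebraMap_apply k K M, IsScalarTower.algebraMap_apply k K₀ K,
      ← IsScalarTower.algebraMap_apply K₀ K M]
  have _ : IsScalarTower k L M := IsScalarTower.of_algebraMap_eq fun x => by
    rw [IsScalarTower.algebraMap_apply L F M, ← IsScalarTower.algebraMap_apply k L F,
      IsScalarTower.algebraMap_apply k K₀ F, ← IsScalarTower.algebraMap_apply K₀ F M,
      ← IsScalarTower.algebraMap_apply k K₀ M]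
  have halgF : Algebra.IsAlgebraic K₀ F := by
    refine alg_of_adjoin hF ?_
    rintro _ ⟨c, rfl⟩
    have h1 : IsIntegral k (algebraMap L F c) :=
      (Algebra.IsIntegral.isIntegral (R := k) c).map (IsScalarTower.toAlgHom k L F)
    exact h1.tower_top
  have halgM : Algebra.IsAlgebraic F M := by
    refine alg_of_adjoin hgen ?_
    rintro _ ⟨i, rfl⟩
    refine ⟨X ^ p - C (aeval (algebraMap K₀ F w) (H i)), monic_X_pow_sub_C _ hp.out.ne_zero, ?_⟩
    rw [eval₂_sub, eval₂_pow, eval₂_X, eval₂_C, hz, sub_self]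
  have halg : Algebra.IsAlgebraic K₀ M := Algebra.IsAlgebraic.trans K₀ F M
  have _ : IsAlgClosure K₀ (AlgebraicClosure M) :=
    ⟨inferInstance, Algebra.IsAlgebraic.trans K₀ M (AlgebraicClosure M)⟩
  exact split_main (AlgebraicClosure M) hp.out hζ hd hF hM hG hz hgen he hy

end Pool.Agent.Lib.MP_c385f6_ag.Bc
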