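import Pool.Agent.Lib.MP_c385f6_ag.Bc.StF

set_option autoImplicit false

/-!
(F2) the zeros and poles of `u` lie over the zeros of a polynomial.
-/

namespace Pool.Agent.Lib.MP_c385f6_ag.Bc

open Polynomial Finset

namespace SuppAux

/-- A zero of a polynomial with coefficients of value at most `1` and leading coefficient of value
`1` has value at most `1`. -/
theorem le_one {F : Type*} [Field F] {Γ : Type*} [LinearOrderedCommGroupWithZero Γ]
    (v : Valuation F Γ) {q : F[X]} (hq : ∀ i, v (q.coeff i) ≤ 1) (hl : v q.leadingCoeff = 1)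
    {u : F} (hu : q.eval u = 0) : v u ≤ 1 := by
  by_contra hcon
  rw [not_le] at hcon
  have hu0 : 0 < v u := lt_trans zero_lt_one hcon
  rw [eval_eq_sum_range, sum_range_succ] at hu
  have h1 : q.coeff q.natDegree * u ^ q.natDegree =
      -∑ i ∈ range q.natDegree, q.coeff i * u ^ i := by
    rw [eq_neg_iff_add_eq_zero, add_comm]
    exact hu
  have h2 : v (q.coeff q.natDegree * u ^ q.natDegree) = v u ^ q.natDegree := by
    rw [map_mul, map_pow]
    have h3 : v (q.coeff q.natDegree) = 1 := hl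
    rw [h3, one_mul]
  have h3 : v (∑ i ∈ range q.natDegree, q.coeff i * u ^ i) < v u ^ q.natDegree := by
    refine Valuation.map_sum_lt _ (pow_pos hu0 _).ne' fun i hi => ?_
    rw [map_mul, map_pow]
    refine lt_of_le_of_lt (mul_le_of_le_one_left zero_le (hq i)) ?_
    exact pow_lt_pow_right₀ hcon (mem_range.1 hi)
  rw [← Valuation.map_neg, ← h1, h2] at h3
  exact lt_irrefl _ h3

end SuppAux

theorem stSupp.{u} : StSupp.{u} := by
  intro k _ F _ _ w hw halg u hu
  obtain ⟨p, hp0, hp⟩ := halg u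
  obtain ⟨P, hP⟩ : ∃ P : F[X], P = p.map (algebraMap (Algebra.adjoin k {w}) F) := ⟨_, rfl⟩
  have hinj : Function.Injective (algebraMap (Algebra.adjoin k {w}) F) :=
    Subtype.val_injective
  have hP0 : P ≠ 0 := by
    rw [hP]
    exact (Polynomial.map_ne_zero_iff hinj).2 hp0
  have hPu : P.eval u = 0 := by
    rw [hP, eval_map]
    exact hp
  have hco : ∀ i, ∃ c : k[X], aeval w c = P.coeff i := by
    intro i
    have h1 : P.coeff i ∈ Algebra.adjoin k {w} := by
      rw [hP, coeff_map]
      exact (p.coeff i).2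
    rw [Algebra.adjoin_singleton_eq_range_aeval] at h1
    exact h1
  obtain ⟨c₁, hc₁⟩ := hco P.natDegree
  obtain ⟨c₂, hc₂⟩ := hco P.natTrailingDegree
  have h1 : aeval w c₁ ≠ 0 := by
    rw [hc₁]
    exact leadingCoeff_ne_zero.2 hP0
  have h2 : aeval w c₂ ≠ 0 := by
    rw [hc₂]
    exact trailingCoeff_nonzero_iff_nonzero.2 hP0
  refine ⟨c₁ * c₂, ?_, ?_⟩
  · intro h
    have h3 : aeval w (c₁ * c₂) = 0 := by
      rw [h, map_zero]
    rw [map_mul] at h3
    exact mul_ne_zero h1 h2 h3
  intro A hk hwA hv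
  have hA : ∀ c : k[X], A.valuation (aeval w c) ≤ 1 := by
    intro c
    rw [ValuationSubring.valuation_le_one_iff, aeval_eq_sum_range]
    refine sum_mem fun i _ => ?_
    rw [Algebra.smul_def]
    exact A.mul_mem _ _ (hk _) (pow_mem hwA _)
  have hP1 : ∀ i, A.valuation (P.coeff i) ≤ 1 := by
    intro i
    obtain ⟨c, hc⟩ := hco i
    rw [← hc]
    exact hA c
  rw [map_mul, map_mul] at hv
  have hv1 : A.valuation (aeval w c₁) = 1 := by
    refine le_antisymm (hA c₁) ?_
    rw [← hv]
    exact mul_le_of_le_one_right zero_le (hA c₂)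
  have hv2 : A.valuation (aeval w c₂) = 1 := by
    refine le_antisymm (hA c₂) ?_
    rw [← hv]
    exact mul_le_of_le_one_left zero_le (hA c₁)
  rw [hc₁] at hv1
  rw [hc₂] at hv2
  refine le_antisymm (SuppAux.le_one A.valuation hP1 hv1 hPu) ?_
  have hrev : A.valuation (u⁻¹) ≤ 1 := by
    let _ : Invertible u := invertibleOfNonzero hu
    refine SuppAux.le_one A.valuation (q := P.reverse) (fun i => ?_) ?_ ?_
    · rw [coeff_reverse]
      exact hP1 _
    · rw [reverse_leadingCoeff]
      exact hv2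
    · have h3 := (eval₂_reverse_eq_zero_iff (RingHom.id F) u P).2 (by
        rw [eval₂_id]
        exact hPu)
      rw [eval₂_id, invOf_eq_inv] at h3
      exact h3
  rw [map_inv₀] at hrev
  have hu0 : 0 < A.valuation u := zero_lt_iff.2 ((Valuation.ne_zero_iff _).2 hu)
  exact (inv_le_one₀ hu0).1 hrev

end Pool.Agent.Lib.MP_c385f6_ag.Bc
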