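import Mathlib
import Pool.Agent.Lib.MP_c385f6_ag.Bc.StF

set_option autoImplicit false

/-!
(G3) a rational function which maps small discs onto `k` (base change theorem).
-/

namespace Pool.Agent.Lib.MP_c385f6_ag.Bc

open Polynomial

namespace SurAux

section basic

variable {k : Type} [NormedField k] [IsUltrametricDist k]

lemma uadd {x y : k} {r : ℝ} (hx : ‖x‖ ≤ r) (hy : ‖y‖ ≤ r) : ‖x + y‖ ≤ r :=
  (IsUltrametricDist.norm_add_le_max x y).trans (max_le hx hy)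

lemma usub {x y : k} {r : ℝ} (hx : ‖x‖ ≤ r) (hy : ‖y‖ ≤ r) : ‖x - y‖ ≤ r := by
  rw [sub_eq_add_neg]
  exact uadd hx (by rwa [norm_neg])

omit [IsUltrametricDist k] in
lemma umul {x y : k} (hx : ‖x‖ ≤ 1) (hy : ‖y‖ ≤ 1) : ‖x * y‖ ≤ 1 := by
  rw [norm_mul]
  exact mul_le_one₀ hx (norm_nonneg _) hy

omit [IsUltrametricDist k] in
lemma upow {x : k} (hx : ‖x‖ ≤ 1) (n : ℕ) : ‖x ^ n‖ ≤ 1 := by
  rw [norm_pow]
  exact pow_le_one₀ (norm_nonneg _) hx

/-- a cubic equation with a root in the unit ball -/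
lemma root [CompleteSpace k] (q : k) (hq : ‖q‖ < 1) (a A B D : k) (ha : ‖a‖ ≤ 1) (hA : ‖A‖ ≤ 1)
    (hB : ‖B‖ ≤ 1) (hD : ‖D‖ ≤ 1) :
    ∃ t : k, ‖t‖ ≤ 1 ∧ t = a + q * (A * t + B * t ^ 2 + D * t ^ 3) := by
  set T : k → k := fun t => a + q * (A * t + B * t ^ 2 + D * t ^ 3) with hT
  have hmaps : Set.MapsTo T (Metric.closedBall 0 1) (Metric.closedBall 0 1) := by
    intro t ht
    rw [mem_closedBall_zero_iff] at ht ⊢
    exact uadd ha (umul hq.le (uadd (uadd (umul hA ht) (umul hB (upow ht 2)))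
      (umul hD (upow ht 3))))
  have hcontr : ContractingWith ⟨‖q‖, norm_nonneg q⟩ (hmaps.restrict T _ _) := by
    refine ⟨by exact_mod_cast hq, ?_⟩
    refine LipschitzWith.of_dist_le_mul fun y z => ?_
    have hy := mem_closedBall_zero_iff.1 y.2
    have hz := mem_closedBall_zero_iff.1 z.2
    change dist (T y) (T z) ≤ ‖q‖ * dist (y : k) z
    rw [dist_eq_norm, dist_eq_norm]
    have e : T y - T z = q * (((y : k) - z) * (A + B * ((y : k) + z) +
        D * ((y : k) ^ 2 + (y : k) * z + (z : k) ^ 2))) := by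
      rw [hT]
      ring
    rw [e, norm_mul, norm_mul]
    have h1 : ‖A + B * ((y : k) + z) + D * ((y : k) ^ 2 + (y : k) * z + (z : k) ^ 2)‖ ≤ 1 :=
      uadd (uadd hA (umul hB (uadd hy hz)))
        (umul hD (uadd (uadd (upow hy 2) (umul hy hz)) (upow hz 2)))
    have h2 := mul_le_of_le_one_right (norm_nonneg ((y : k) - z)) h1
    exact mul_le_mul_of_nonneg_left h2 (norm_nonneg q)
  obtain ⟨t, ht, h, -⟩ := ContractingWith.exists_fixedPoint'
    (Metric.isClosed_closedBall.isComplete) hmaps hcontr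
    (Metric.mem_closedBall_self zero_le_one) (edist_ne_top _ _)
  exact ⟨t, mem_closedBall_zero_iff.1 ht, h.symm⟩

/-- the rational function takes all values in the unit ball -/
lemma main [CompleteSpace k] (q : k) (hq : ‖q‖ < 1) (hq0 : q ≠ 0) (y : k) :
    ∃ z : k, ‖z‖ ≤ 1 ∧ q⁻¹ * z ^ 2 * (z - 1) + (1 - z) ≠ 0 ∧
      q⁻¹ * z * (1 - z) ^ 2 + z = y * (q⁻¹ * z ^ 2 * (z - 1) + (1 - z)) := by
  have h1 : ‖(1 : k)‖ ≤ 1 := norm_one.le
  have h2 : ‖(2 : k)‖ ≤ 1 := by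
    have h := uadd h1 h1
    rwa [one_add_one_eq_two] at h
  have hne : ∀ s : k, ‖s‖ ≤ 1 → 1 + q * s ≠ 0 := by
    intro s hs h0
    have h3 : q * s = -1 := by linear_combination h0
    have h4 : ‖q * s‖ = 1 := by rw [h3, norm_neg, norm_one]
    rw [norm_mul] at h4
    have h5 := mul_le_of_le_one_right (norm_nonneg q) hs
    linarith
  rcases le_or_gt ‖y‖ 1 with hy | hy
  · obtain ⟨t, ht, h⟩ := root q hq y (-y - 1) (2 - y) (y * q - q) hy
      (usub (by rwa [norm_neg]) h1) (usub h2 hy) (usub (umul hy hq.le) hq.le)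
    have ev : q⁻¹ * (q * t) ^ 2 * (q * t - 1) + (1 - q * t) =
        1 + q * (q * t ^ 3 - t ^ 2 - t) := by
      field_simp
      ring
    have eu : q⁻¹ * (q * t) * (1 - q * t) ^ 2 + q * t = t + q * (t - 2 * t ^ 2 + q * t ^ 3) := by
      field_simp
      ring
    refine ⟨q * t, umul hq.le ht, ?_, ?_⟩
    · rw [ev]
      exact hne _ (usub (usub (umul hq.le (upow ht 3)) (upow ht 2)) ht)
    · rw [ev, eu]
      linear_combination h
  · have hy0 : y ≠ 0 := by
      intro h0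
      rw [h0, norm_zero] at hy
      linarith
    have hx : ‖y⁻¹‖ ≤ 1 := by
      rw [norm_inv]
      exact inv_le_one_of_one_le₀ hy.le
    obtain ⟨t, ht, h⟩ := root q hq y⁻¹ (y⁻¹ + 1) (y⁻¹ - 2) (y⁻¹ * q - q) hx
      (uadd hx h1) (usub hx h2) (usub (umul hx hq.le) hq.le)
    have ev : q⁻¹ * (1 + q * t) ^ 2 * (1 + q * t - 1) + (1 - (1 + q * t)) =
        t + q * (2 * t ^ 2 + q * t ^ 3 - t) := by
      field_simp
      ring
    have eu : q⁻¹ * (1 + q * t) * (1 - (1 + q * t)) ^ 2 + (1 + q * t) =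
        1 + q * (t + t ^ 2 + q * t ^ 3) := by
      field_simp
      ring
    have hu : 1 + q * (t + t ^ 2 + q * t ^ 3) ≠ 0 :=
      hne _ (uadd (uadd ht (upow ht 2)) (umul hq.le (upow ht 3)))
    have huv : t + q * (2 * t ^ 2 + q * t ^ 3 - t) = y⁻¹ * (1 + q * (t + t ^ 2 + q * t ^ 3)) := by
      linear_combination h
    refine ⟨1 + q * t, uadd h1 (umul hq.le ht), ?_, ?_⟩
    · rw [ev, huv]
      exact mul_ne_zero (inv_ne_zero hy0) hu
    · rw [ev, eu, huv, mul_inv_cancel_left₀ hy0]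

end basic

end SurAux

open SurAux in
/-- (G3) a rational function which maps small discs onto `k` -/
theorem stSur : StSur := by
  intro p hp k ik iA iD ε hε
  let _ : NormedField k := spectralNorm.normedField ℚ_[p] k
  let _ : NormedAlgebra ℚ_[p] k := spectralNorm.normedAlgebra ℚ_[p] k
  have : IsUltrametricDist k :=
    IsUltrametricDist.isUltrametricDist_of_isNonarchimedean_norm
      (isNonarchimedean_spectralNorm (K := ℚ_[p]) (L := k))
  have : CompleteSpace k := FiniteDimensional.complete ℚ_[p] k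
  have hn : ∀ x : k, spectralNorm ℚ_[p] k x = ‖x‖ := fun _ => rfl
  have hcz : CharZero k := charZero_of_injective_algebraMap (algebraMap ℚ_[p] k).injective
  have hpn : ‖(p : k)‖ < 1 := by
    have h : (p : k) = algebraMap ℚ_[p] k (p : ℚ_[p]) := (map_natCast _ p).symm
    rw [h, norm_algebraMap']
    exact Padic.norm_p_lt_one
  have hp0 : (p : k) ≠ 0 := Nat.cast_ne_zero.2 hp.out.ne_zero
  obtain ⟨N, hN⟩ := exists_pow_lt_of_lt_one hε hpn
  have hd0 : (p : k) ^ N ≠ 0 := pow_ne_zero _ hp0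
  set q : k := (p : k) with hq
  set d : k := q ^ N with hd
  have evu : ∀ x : k, (C q⁻¹ * (C d⁻¹ * X) * (1 - C d⁻¹ * X) ^ 2 + C d⁻¹ * X : k[X]).eval x =
      q⁻¹ * (d⁻¹ * x) * (1 - d⁻¹ * x) ^ 2 + d⁻¹ * x := by
    intro x
    simp
  have evv : ∀ x : k, (C q⁻¹ * (C d⁻¹ * X) ^ 2 * (C d⁻¹ * X - 1) + (1 - C d⁻¹ * X) : k[X]).eval x =
      q⁻¹ * (d⁻¹ * x) ^ 2 * (d⁻¹ * x - 1) + (1 - d⁻¹ * x) := by
    intro x
    simp
  refine ⟨C q⁻¹ * (C d⁻¹ * X) * (1 - C d⁻¹ * X) ^ 2 + C d⁻¹ * X,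
    C q⁻¹ * (C d⁻¹ * X) ^ 2 * (C d⁻¹ * X - 1) + (1 - C d⁻¹ * X), ?_, ?_⟩
  · intro a b h
    have h0 := congrArg (Polynomial.eval 0) h
    have h1 := congrArg (Polynomial.eval d) h
    rw [eval_add, eval_mul, eval_mul, eval_C, eval_C, evu, evv, eval_zero] at h0 h1
    rw [inv_mul_cancel₀ hd0] at h1
    constructor
    · linear_combination h1
    · linear_combination h0
  · intro y
    obtain ⟨z, hz, hv, h⟩ := main q hpn hp0 y
    have e : d⁻¹ * (d * z) = z := inv_mul_cancel_left₀ hd0 z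
    refine ⟨d * z, ?_, ?_, ?_⟩
    · rw [hn, norm_mul]
      refine lt_of_le_of_lt (mul_le_of_le_one_right (norm_nonneg d) hz) ?_
      rw [hd, norm_pow]
      exact hN
    · rw [evv, e]
      exact hv
    · rw [evu, evv, e]
      exact h

end Pool.Agent.Lib.MP_c385f6_ag.Bc
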