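import Mathlib
import Pool.Agent.Lib.MP_c385f6_ag.Bc.StF

set_option autoImplicit false

/-!
(G2) Uniformizers of rational places of function fields.
-/

namespace Pool.Agent.Lib.MP_c385f6_ag.Bc

open Polynomial Finset

namespace UnifAux

section field

variable {k K₀ : Type*} [Field k] [Field K₀] [Algebra k K₀]

theorem algInd {t : K₀} (ht : Transcendental k t) : AlgebraicIndependent k (fun _ : Unit => t) :=
  algebraicIndependent_unique_type_iff.2 ht

theorem range_const (t : K₀) : Set.range (fun _ : Unit => t) = {t} := Set.range_const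

open scoped IntermediateField.algebraAdjoinAdjoin in
theorem isBasis {w : K₀} (hw : Transcendental k w)
    (h : FiniteDimensional (IntermediateField.adjoin k {w}) K₀) :
    IsTranscendenceBasis k (fun _ : Unit => w) := by
  rw [(algInd hw).isTranscendenceBasis_iff_isAlgebraic, range_const]
  have h1 : Algebra.IsAlgebraic (IntermediateField.adjoin k {w}) K₀ :=
    Algebra.IsAlgebraic.of_finite _ _
  exact (IsFractionRing.comap_isAlgebraic_iff (A := Algebra.adjoin k {w})
    (K := IntermediateField.adjoin k {w}) (C := K₀)).2 h1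

theorem fd_of_transcendental {w : K₀} (hw : Transcendental k w)
    (h : FiniteDimensional (IntermediateField.adjoin k {w}) K₀) {t : K₀}
    (ht : Transcendental k t) : FiniteDimensional (IntermediateField.adjoin k {t}) K₀ := by
  have htr : Cardinal.lift.{0} (Algebra.trdeg k K₀) ≤ Cardinal.lift (Cardinal.mk Unit) := by
    have h1 := (isBasis hw h).lift_cardinalMk_eq_trdeg
    rw [← h1]
  have hb : IsTranscendenceBasis k (fun _ : Unit => t) :=
    (algInd ht).isTranscendenceBasis_of_lift_trdeg_le_of_finite htr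
  have halg := hb.isAlgebraic_field
  rw [range_const] at halg
  have e1 : Algebra.EssFiniteType k (IntermediateField.adjoin k {w}) :=
    IntermediateField.essFiniteType_iff.2 (IntermediateField.fg_adjoin_of_finite
      (Set.finite_singleton w))
  have e2 : Algebra.EssFiniteType k K₀ :=
    Algebra.EssFiniteType.comp k (IntermediateField.adjoin k {w}) K₀
  have e3 : Algebra.EssFiniteType (IntermediateField.adjoin k {t}) K₀ :=
    Algebra.EssFiniteType.of_comp k (IntermediateField.adjoin k {t}) K₀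
  obtain ⟨s, hs⟩ := IntermediateField.fg_top (IntermediateField.adjoin k {t}) K₀
  have h2 : FiniteDimensional (IntermediateField.adjoin k {t})
      (IntermediateField.adjoin (IntermediateField.adjoin k {t}) (s : Set K₀)) :=
    IntermediateField.finiteDimensional_adjoin fun x _ =>
      (Algebra.IsAlgebraic.isAlgebraic x).isIntegral
  rw [hs] at h2
  exact (IntermediateField.topEquiv
    (F := IntermediateField.adjoin k {t}) (E := K₀)).toLinearEquiv.finiteDimensional

end field

section val

variable {k K₀ : Type*} [Field k] [Field K₀] [Algebra k K₀] {B : ValuationSubring K₀}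

theorem val_const (hB : ∀ c : k, algebraMap k K₀ c ∈ B) {c : k} (hc : c ≠ 0) :
    B.valuation (algebraMap k K₀ c) = 1 := by
  have h1 : B.valuation (algebraMap k K₀ c) ≤ 1 := (B.valuation_le_one_iff _).2 (hB c)
  have h2 : B.valuation (algebraMap k K₀ c⁻¹) ≤ 1 := (B.valuation_le_one_iff _).2 (hB c⁻¹)
  have h3 : B.valuation (algebraMap k K₀ c) * B.valuation (algebraMap k K₀ c⁻¹) = 1 := by
    rw [← map_mul, ← map_mul, mul_inv_cancel₀ hc, map_one, map_one]
  refine le_antisymm h1 ?_
  rw [← h3]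
  exact mul_le_of_le_one_right' h2

theorem val_poly (hB : ∀ c : k, algebraMap k K₀ c ∈ B) {a : K₀} (ha : B.valuation a < 1)
    {q : k[X]} (hq : q ≠ 0) : ∃ m : ℕ, B.valuation (aeval a q) = B.valuation a ^ m := by
  obtain ⟨r, hr, hr'⟩ := Polynomial.exists_eq_pow_rootMultiplicity_mul_and_not_dvd q hq 0
  refine ⟨q.rootMultiplicity 0, ?_⟩
  have h0 : r.coeff 0 ≠ 0 := by
    intro h
    apply hr'
    rw [C_0, sub_zero]
    exact X_dvd_iff.2 h
  have h1 : B.valuation (aeval a r) = 1 := by
    have h2 : aeval a r = a * aeval a r.divX + algebraMap k K₀ (r.coeff 0) := by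
      conv_lhs => rw [← divX_mul_X_add r]
      rw [map_add, map_mul, aeval_X, aeval_C, mul_comm]
    have h3 : B.valuation (aeval a r.divX) ≤ 1 := by
      rw [B.valuation_le_one_iff, aeval_eq_sum_range]
      refine B.sum_mem fun i _ => ?_
      rw [Algebra.smul_def]
      exact B.mul_mem _ _ (hB _) (B.pow_mem ((B.valuation_le_one_iff _).1 ha.le) _)
    have h4 : B.valuation (a * aeval a r.divX) < B.valuation (algebraMap k K₀ (r.coeff 0)) := by
      rw [val_const hB h0, map_mul]
      exact mul_lt_one_of_lt_of_le ha h3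
    rw [h2, Valuation.map_add_eq_of_lt_right _ h4, val_const hB h0]
  conv_lhs => rw [hr]
  rw [C_0, sub_zero, map_mul, map_pow, aeval_X, map_mul, map_pow, h1, mul_one]

theorem transcendental (hB : ∀ c : k, algebraMap k K₀ c ∈ B) {a : K₀} (ha : B.valuation a < 1)
    (ha0 : a ≠ 0) : Transcendental k a := by
  rintro ⟨q, hq, h⟩
  obtain ⟨m, hm⟩ := val_poly hB ha hq
  rw [h, map_zero] at hm
  exact pow_ne_zero m ((Valuation.ne_zero_iff _).2 ha0) hm.symm

theorem val_adjoin (hB : ∀ c : k, algebraMap k K₀ c ∈ B) {a : K₀} (ha : B.valuation a < 1)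
    (ha0 : a ≠ 0) {r : K₀} (hr : r ∈ IntermediateField.adjoin k {a}) (hr0 : r ≠ 0) :
    ∃ m : ℤ, B.valuation r = B.valuation a ^ m := by
  obtain ⟨p, q, rfl⟩ := IntermediateField.mem_adjoin_simple_iff k r |>.1 hr
  have hp : p ≠ 0 := by
    rintro rfl
    exact hr0 (by rw [map_zero, zero_div])
  have hq : q ≠ 0 := by
    rintro rfl
    exact hr0 (by rw [map_zero, div_zero])
  obtain ⟨m, hm⟩ := val_poly hB ha hp
  obtain ⟨n, hn⟩ := val_poly hB ha hq
  have hv : B.valuation a ≠ 0 := (Valuation.ne_zero_iff _).2 ha0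
  refine ⟨(m : ℤ) - n, ?_⟩
  rw [map_div₀, hm, hn, zpow_sub₀ hv, zpow_natCast, zpow_natCast]

theorem coset {Γ : Type*} [LinearOrderedCommGroupWithZero Γ] {a γ γ' : Γ} (ha0 : a ≠ 0)
    (ha : a < 1) (h1 : a ≤ γ) (h1' : γ < 1) (h2 : a ≤ γ') (h2' : γ' < 1) {m m' : ℤ}
    (h : a ^ m * γ = a ^ m' * γ') : γ = γ' := by
  wlog hmm : m ≤ m' generalizing m m' γ γ'
  · exact (this h2 h2' h1 h1' h.symm (le_of_not_ge hmm)).symm
  rcases hmm.eq_or_lt with h3 | h3
  · rw [h3] at h
    exact mul_left_cancel₀ (zpow_ne_zero _ ha0) h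
  · exfalso
    have h4 : γ = a ^ (m' - m) * γ' := by
      rw [zpow_sub₀ ha0, div_mul_eq_mul_div, eq_div_iff (zpow_ne_zero _ ha0), ← h, mul_comm]
    obtain ⟨n, hn⟩ : ∃ n : ℕ, m' - m = (n : ℤ) + 1 := ⟨(m' - m - 1).toNat, by omega⟩
    have h5 : a ^ (m' - m) ≤ a := by
      rw [hn, zpow_add_one₀ ha0, zpow_natCast]
      exact mul_le_of_le_one_left' (pow_le_one₀ zero_le ha.le)
    have h6 : γ < a := by
      rw [h4]
      calc a ^ (m' - m) * γ' ≤ a * γ' := mul_le_mul_left h5 _
        _ < a * 1 := by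
          exact (mul_lt_mul_iff_right₀ (zero_lt_iff.2 ha0)).2 h2'
        _ = a := mul_one a
    exact absurd h6 (not_lt.2 h1)

theorem finite_values (hB : ∀ c : k, algebraMap k K₀ c ∈ B) {a : K₀} (ha : B.valuation a < 1)
    (ha0 : a ≠ 0) (hfd : FiniteDimensional (IntermediateField.adjoin k {a}) K₀) :
    {γ : B.ValueGroup | B.valuation a ≤ γ ∧ γ < 1}.Finite := by
  classical
  by_contra hinf
  obtain ⟨T, hT, hcard⟩ := Set.Infinite.exists_subset_card_eq hinf
    (Module.finrank (IntermediateField.adjoin k {a}) K₀ + 1)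
  choose x hx using B.valuation_surjective
  have hv : B.valuation a ≠ 0 := (Valuation.ne_zero_iff _).2 ha0
  have hx0 : ∀ γ : T, x γ ≠ 0 := by
    intro γ h
    have h1 := (hT γ.2).1
    rw [← hx γ, h, map_zero] at h1
    exact hv (le_antisymm h1 zero_le)
  have hli : LinearIndependent (IntermediateField.adjoin k {a}) (fun γ : T => x γ) := by
    rw [linearIndependent_iff']
    intro s g hg i₀ hi₀
    by_contra hgi
    have hne : (s.filter (fun i => g i ≠ 0)).Nonempty := ⟨i₀, by simp [hi₀, hgi]⟩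
    obtain ⟨j, hj, hmax⟩ := Finset.exists_max_image _ (fun i => B.valuation (g i • x i)) hne
    rw [Finset.mem_filter] at hj
    have hterm : ∀ i, g i ≠ 0 → g i • x i ≠ 0 := fun i hi => smul_ne_zero hi (hx0 i)
    have hvj : B.valuation (g j • x j) ≠ 0 := (Valuation.ne_zero_iff _).2 (hterm j hj.2)
    have hval : ∀ i, g i ≠ 0 → ∃ m : ℤ, B.valuation (g i • x i) = B.valuation a ^ m * i := by
      intro i hi
      obtain ⟨m, hm⟩ := val_adjoin hB ha ha0 (g i).2 (fun h => hi (Subtype.ext h))
      refine ⟨m, ?_⟩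
      rw [Algebra.smul_def, map_mul, hx, ← hm]
      rfl
    have hlt : ∀ i ∈ s \ {j}, B.valuation (g i • x i) < B.valuation (g j • x j) := by
      intro i hi
      rw [Finset.mem_sdiff, Finset.mem_singleton] at hi
      by_cases hgi0 : g i = 0
      · rw [hgi0, zero_smul, map_zero]
        exact zero_lt_iff.2 hvj
      · refine lt_of_le_of_ne (hmax i (by simp [hi.1, hgi0])) ?_
        intro he
        obtain ⟨m, hm⟩ := hval i hgi0
        obtain ⟨m', hm'⟩ := hval j hj.2
        rw [hm, hm'] at he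
        exact hi.2 (Subtype.ext (coset hv ha (hT i.2).1 (hT i.2).2 (hT j.2).1 (hT j.2).2 he))
    have hsum := B.valuation.map_sum_eq_of_lt hj.1 hlt
    rw [hg, map_zero] at hsum
    exact hvj hsum.symm
  have := hli.fintype_card_le_finrank
  rw [Fintype.card_coe, hcard] at this
  omega

end val

end UnifAux

open UnifAux in
/-- (G2) uniformizers -/
theorem stUnif.{u} : StUnif.{u} := by
  intro k _ K₀ _ _ w hw hfd B hB
  obtain ⟨a, ha0, ha⟩ : ∃ a : K₀, a ≠ 0 ∧ B.valuation a < 1 := by
    by_contra hcon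
    push Not at hcon
    apply hB.ne_top
    rw [eq_top_iff]
    intro x _
    by_cases hx : x = 0
    · rw [hx]
      exact B.zero_mem
    · have h1 := hcon x⁻¹ (inv_ne_zero hx)
      rw [← B.valuation_le_one_iff]
      rw [map_inv₀] at h1
      exact (one_le_inv₀ (zero_lt_iff.2 ((Valuation.ne_zero_iff _).2 hx))).1 h1
  have hfa := fd_of_transcendental hw hfd (transcendental hB.const_mem ha ha0)
  have hfin := finite_values hB.const_mem ha ha0 hfa
  obtain ⟨γ, hγ, hmax⟩ := Set.exists_max_image _ id hfin ⟨B.valuation a, le_rfl, ha⟩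
  obtain ⟨t, rfl⟩ := B.valuation_surjective γ
  have ht0 : t ≠ 0 := by
    rintro rfl
    rw [Set.mem_setOf_eq, map_zero] at hγ
    exact (Valuation.ne_zero_iff _).2 ha0 (le_antisymm hγ.1 zero_le)
  have htr := transcendental hB.const_mem hγ.2 ht0
  refine ⟨t, htr, fd_of_transcendental hw hfd htr, hγ.2, fun x hx => ?_⟩
  rcases le_total (B.valuation a) (B.valuation x) with h | h
  · exact hmax _ ⟨h, hx⟩
  · exact h.trans hγ.1

end Pool.Agent.Lib.MP_c385f6_ag.Bc
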