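import Mathlib
import Pool.Agent.Lib.MP_c385f6_ag.Bc.StF

set_option autoImplicit false

/-!
(F1) A finite extension of `L(w)` is unramified outside of the zeros of a polynomial.
-/

namespace Pool.Agent.Lib.MP_c385f6_ag.Bc

open Polynomial nonZeroDivisors

namespace UnrAux

attribute [local instance] FractionRing.liftAlgebra FractionRing.isScalarTower_liftAlgebra

theorem exists_d (R K F : Type*) [CommRing R] [IsDomain R] [IsPrincipalIdealRing R] [Field K]
    [Algebra R K] [IsFractionRing R K] [Field F] [Algebra K F] [Algebra R F] [IsScalarTower R K F]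
    [FiniteDimensional K F] [CharZero K] :
    ∃ d : R, d ≠ 0 ∧ ∀ (P : Ideal (integralClosure R F)) (_ : P.IsPrime), algebraMap R _ d ∉ P →
      Algebra.IsUnramifiedAt R P := by
  let O := integralClosure R F
  have hdd : IsDedekindDomain O := integralClosure.isDedekindDomain R K F
  have : IsFractionRing O F := integralClosure.isFractionRing_of_finite_extension K F
  have : Module.Finite R O := IsIntegralClosure.finite R K F O
  have hinj : Function.Injective (algebraMap R F) := by
    rw [IsScalarTower.algebraMap_eq R K F]
    exact (algebraMap K F).injective.comp (IsFractionRing.injective R K)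
  have : FaithfulSMul R F := (faithfulSMul_iff_algebraMap_injective R F).2 hinj
  have : FaithfulSMul R O := by
    rw [faithfulSMul_iff_algebraMap_injective]
    intro a b h
    exact hinj (congrArg (algebraMap O F) h)
  have : CharZero R := by
    have h0 : CharZero F := charZero_of_injective_algebraMap (algebraMap K F).injective
    refine ⟨fun a b h => ?_⟩
    have := congrArg (algebraMap R F) h
    simpa using this
  have : CharZero (FractionRing R) :=
    charZero_of_injective_algebraMap (IsFractionRing.injective R (FractionRing R))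
  have : Algebra.IsSeparable (FractionRing R) (FractionRing O) := inferInstance
  have h := differentIdeal_ne_bot (A := R) (B := O)
  obtain ⟨x, hx, hx0⟩ := Submodule.exists_mem_ne_zero_of_ne_bot h
  have h2 : (differentIdeal R O).comap (algebraMap R O) ≠ ⊥ :=
    Ideal.comap_ne_bot_of_integral_mem hx0 hx (Algebra.IsIntegral.isIntegral x)
  obtain ⟨d, hd, hd0⟩ := Submodule.exists_mem_ne_zero_of_ne_bot h2
  refine ⟨d, hd0, fun P hP hdP => ?_⟩
  rw [← not_dvd_differentIdeal_iff, Ideal.dvd_iff_le]
  intro hle
  exact hdP (hle hd)

theorem unr_pid (R K F : Type*) [CommRing R] [IsDomain R] [IsPrincipalIdealRing R] [Field K]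
    [Algebra R K] [IsFractionRing R K] [Field F] [Algebra K F] [Algebra R F] [IsScalarTower R K F]
    [FiniteDimensional K F] [CharZero K] :
    ∃ d : R, d ≠ 0 ∧ ∀ A : ValuationSubring F, (∀ r : R, algebraMap R F r ∈ A) →
      A.valuation (algebraMap R F d) = 1 → ∀ x : F, x ≠ 0 →
        ∃ r : K, A.valuation x = A.valuation (algebraMap K F r) := by
  obtain ⟨d, hd0, hd⟩ := exists_d R K F
  refine ⟨d, hd0, fun A hA hAd => ?_⟩
  set O := integralClosure R F with hO
  have hdd : IsDedekindDomain O := integralClosure.isDedekindDomain R K F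
  have : IsFractionRing O F := integralClosure.isFractionRing_of_finite_extension K F
  have hfin : Module.Finite R O := IsIntegralClosure.finite R K F O
  have hOA : ∀ y : O, (y : F) ∈ A := by
    intro y
    have hy : IsIntegral R (y : F) := y.2
    let j : R →+* A := (algebraMap R F).codRestrict A.toSubring hA
    have hy2 : IsIntegral A (y : F) := by
      obtain ⟨p, hp, hp2⟩ := hy
      refine ⟨p.map j, hp.map j, ?_⟩
      rw [eval₂_map]
      exact hp2
    obtain ⟨a, ha⟩ := IsIntegrallyClosed.isIntegral_iff.1 hy2
    rw [← ha]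
    exact a.2
  let φ : O →+* A := (algebraMap O F).codRestrict A.toSubring hOA
  let P : Ideal O := (IsLocalRing.maximalIdeal A).comap φ
  have hP : P.IsPrime := Ideal.comap_isPrime _ _
  have hPm : ∀ y : O, y ∉ P → A.valuation (y : F) = 1 := by
    intro y hy
    have h1 : ¬ (φ y) ∈ IsLocalRing.maximalIdeal A := hy
    rw [IsLocalRing.mem_maximalIdeal, mem_nonunits_iff, not_not] at h1
    exact (A.valuation_eq_one_iff (φ y)).1 h1
  have hdP : algebraMap R O d ∉ P := by
    intro h
    have h1 : (φ (algebraMap R O d)) ∈ IsLocalRing.maximalIdeal A := h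
    rw [IsLocalRing.mem_maximalIdeal, mem_nonunits_iff] at h1
    exact h1 ((A.valuation_eq_one_iff (φ (algebraMap R O d))).2 hAd)
  have hun := hd P hP hdP
  -- elements of the ring
  have key : ∀ y : O, y ≠ 0 → ∃ r : K, A.valuation (y : F) = A.valuation (algebraMap K F r) := by
    intro y hy
    by_cases hPb : P = ⊥
    · refine ⟨1, ?_⟩
      rw [map_one, map_one]
      apply hPm
      rw [hPb]
      simpa using hy
    let p : Ideal R := P.under R
    have hp : p.IsPrime := Ideal.IsPrime.under R P
    obtain ⟨π, hπ⟩ := (IsPrincipalIdealRing.principal p).principal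
    let S := Localization.AtPrime P
    let := Localization.AtPrime.algebraOfLiesOver p P
    have hmap := ((Algebra.isUnramifiedAt_iff_map_eq R p P).1 hun).2
    have hdvr : IsDiscreteValuationRing S :=
      IsLocalization.AtPrime.isDiscreteValuationRing_of_dedekind_domain O hPb S
    have hu : ∀ s : P.primeCompl, IsUnit (φ s) := by
      intro s
      exact (A.valuation_eq_one_iff (φ s)).2 (hPm s s.2)
    let ψ : S →+* A := IsLocalization.lift hu
    have hψ : ∀ y : O, ψ (algebraMap O S y) = φ y := fun y => IsLocalization.lift_eq hu y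
    have hirr : Irreducible (algebraMap R S π) := by
      rw [IsDiscreteValuationRing.irreducible_iff_uniformizer, ← hmap]
      change Ideal.map _ p = _
      rw [hπ, Ideal.submodule_span_eq, Ideal.map_span, Set.image_singleton]
    have hinj : Function.Injective (algebraMap O S) :=
      IsLocalization.injective S P.primeCompl_le_nonZeroDivisors
    obtain ⟨n, u, hnu⟩ := IsDiscreteValuationRing.eq_unit_mul_pow_irreducible
      (x := algebraMap O S y) (by rwa [Ne, map_eq_zero_iff _ hinj]) hirr
    have h3 := congrArg ψ hnu
    rw [map_mul, map_pow, hψ, IsScalarTower.algebraMap_apply R O S, hψ] at h3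
    refine ⟨algebraMap R K π ^ n, ?_⟩
    have h4 := congrArg (fun a : A => A.valuation (a : F)) h3
    have h5 : A.valuation ((ψ u : A) : F) = 1 :=
      (A.valuation_eq_one_iff (ψ u)).1 (u.isUnit.map ψ)
    have h6 : ((φ (algebraMap R O π) : A) : F) = algebraMap K F (algebraMap R K π) := by
      rw [← IsScalarTower.algebraMap_apply R K F]
      rfl
    rw [map_pow, ← h6]
    have h7 : A.valuation ((φ y : A) : F) = A.valuation ((φ (algebraMap R O π) : A) : F) ^ n := by
      simpa [h5] using h4
    rw [map_pow]
    exact h7
  intro x hx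
  obtain ⟨a, b, hb, hab⟩ := IsFractionRing.div_surjective (A := O) x
  have hb0 : b ≠ 0 := nonZeroDivisors.ne_zero hb
  have ha0 : a ≠ 0 := by
    rintro rfl
    apply hx
    rw [← hab]
    simp
  obtain ⟨r, hr⟩ := key a ha0
  obtain ⟨r', hr'⟩ := key b hb0
  refine ⟨r / r', ?_⟩
  rw [← hab, map_div₀, map_div₀, map_div₀, ← hr, ← hr']
  rfl

/-- A nonzero ideal of the ring generated by `w` over `L` has a nonzero element with coefficients
in `k`. -/
theorem exists_mult (k L F : Type*) [Field k] [Field L] [Algebra k L] [FiniteDimensional k L]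
    [Field F] [Algebra k F] [Algebra L F] [IsScalarTower k L F] (w : F)
    (d : Algebra.adjoin L {w}) (hd : d ≠ 0) :
    ∃ (b : k[X]) (c : Algebra.adjoin L {w}), b ≠ 0 ∧ aeval w b = (d : F) * c := by
  let w' : Algebra.adjoin L {w} := ⟨w, Algebra.self_mem_adjoin_singleton L w⟩
  let j : k[X] →+* Algebra.adjoin L {w} :=
    ((aeval w' : L[X] →ₐ[L] _) : L[X] →+* _).comp (mapRingHom (algebraMap k L))
  let : Algebra k[X] (Algebra.adjoin L {w}) := j.toAlgebra
  have hj : ∀ b : k[X], algebraMap k[X] (Algebra.adjoin L {w}) b =
      aeval w' (b.map (algebraMap k L)) := fun b => rfl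
  have hint : ∀ x (hx : x ∈ Algebra.adjoin L {w}),
      IsIntegral k[X] (⟨x, hx⟩ : Algebra.adjoin L {w}) := by
    intro x hx
    induction hx using Algebra.adjoin_induction with
    | mem x hx =>
      rw [Set.mem_singleton_iff] at hx
      subst hx
      have h : (⟨x, Algebra.self_mem_adjoin_singleton L x⟩ : Algebra.adjoin L {x}) =
          algebraMap k[X] _ X := by
        rw [hj]
        simp [w']
      rw [h]
      exact isIntegral_algebraMap
    | algebraMap c =>
      obtain ⟨q, hq, hq2⟩ := (Algebra.IsIntegral.isIntegral (R := k) c : IsIntegral k c)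
      refine ⟨q.map C, hq.map C, ?_⟩
      rw [eval₂_map]
      have h1 : (algebraMap k[X] (Algebra.adjoin L {w})).comp C =
          (algebraMap L (Algebra.adjoin L {w})).comp (algebraMap k L) := by
        ext a
        change ((algebraMap k[X] (Algebra.adjoin L {w}) (C a) : Algebra.adjoin L {w}) : F) = _
        rw [hj]
        simp
      rw [h1]
      have h2 : (⟨algebraMap L F c, Subalgebra.algebraMap_mem _ c⟩ : Algebra.adjoin L {w}) =
        algebraMap L (Algebra.adjoin L {w}) c := rfl
      rw [h2, ← hom_eval₂, hq2, map_zero]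
    | add x y hx hy h1 h2 => exact h1.add h2
    | mul x y hx hy h1 h2 => exact h1.mul h2
  have h2 : (Ideal.span {d}).comap (algebraMap k[X] (Algebra.adjoin L {w})) ≠ ⊥ :=
    Ideal.comap_ne_bot_of_integral_mem hd (Ideal.mem_span_singleton_self d) (hint d d.2)
  obtain ⟨b, hb, hb0⟩ := Submodule.exists_mem_ne_zero_of_ne_bot h2
  rw [Ideal.mem_comap, Ideal.mem_span_singleton] at hb
  obtain ⟨c, hc⟩ := hb
  refine ⟨b, c, hb0, ?_⟩
  rw [hj] at hc
  have h3 := congrArg (fun a : Algebra.adjoin L {w} => (a : F)) hc
  simp only [MulMemClass.coe_mul] at h3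
  rw [← h3]
  have h4 : ((aeval w' (b.map (algebraMap k L)) : Algebra.adjoin L {w}) : F) =
      aeval w (b.map (algebraMap k L)) := by
    have := aeval_algHom_apply (Algebra.adjoin L {w}).val w' (b.map (algebraMap k L))
    exact this.symm
  rw [h4, aeval_map_algebraMap]

end UnrAux

open UnrAux IntermediateField algebraAdjoinAdjoin in
theorem stUnr.{u} : StUnr.{u} := by
  intro k L _ _ _ _ _ F _ _ _ _ w hw hfin
  have hL : CharZero L := charZero_of_injective_algebraMap (algebraMap k L).injective
  let R := Algebra.adjoin L {w}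
  have hpid : IsPrincipalIdealRing R := by
    let e : L[X] ≃ₐ[L] R := AlgEquiv.ofBijective
      (aeval (⟨w, Algebra.self_mem_adjoin_singleton L w⟩ : R)) (by
        constructor
        · intro a b h
          apply transcendental_iff_injective.1 hw
          have h1 := congrArg (fun a : R => (a : F)) h
          have h2 : ∀ a : L[X], ((aeval (⟨w, Algebra.self_mem_adjoin_singleton L w⟩ : R) a : R) : F)
              = aeval w a := fun a =>
            (aeval_algHom_apply (Algebra.adjoin L {w}).val _ a).symm
          simp only [h2] at h1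
          exact h1
        · rintro ⟨x, hx⟩
          have hx' : x ∈ (aeval w : L[X] →ₐ[L] F).range := by
            rw [← Algebra.adjoin_singleton_eq_range_aeval]
            exact hx
          obtain ⟨a, ha⟩ := hx'
          refine ⟨a, Subtype.ext ?_⟩
          exact ((aeval_algHom_apply (Algebra.adjoin L {w}).val _ a).symm).trans ha)
    exact IsPrincipalIdealRing.of_surjective (e : L[X] →+* R) e.surjective
  have hK : CharZero (IntermediateField.adjoin L {w}) :=
    charZero_of_injective_algebraMap (algebraMap L _).injective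
  obtain ⟨d, hd0, hd⟩ := unr_pid R (IntermediateField.adjoin L {w}) F
  obtain ⟨b, c, hb, hbc⟩ := exists_mult k L F w d hd0
  refine ⟨b, hb, fun A hLA hwA hv x hx => ?_⟩
  have hR : ∀ r : R, (r : F) ∈ A := by
    rintro ⟨r, hr⟩
    induction hr using Algebra.adjoin_induction with
    | mem x hx =>
      rw [Set.mem_singleton_iff] at hx
      subst hx
      exact hwA
    | algebraMap c => exact hLA c
    | add x y hx hy h1 h2 => exact A.add_mem _ _ h1 h2
    | mul x y hx hy h1 h2 => exact A.mul_mem _ _ h1 h2
  have h1 : A.valuation (d : F) = 1 := by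
    rw [hbc, map_mul] at hv
    have h2 := (A.valuation_le_one_iff (d : F)).2 (hR d)
    have h3 := (A.valuation_le_one_iff (c : F)).2 (hR c)
    refine le_antisymm h2 ?_
    rw [← hv]
    exact mul_le_of_le_one_right' h3
  obtain ⟨r, hr⟩ := hd A hR h1 x hx
  exact ⟨r, r.2, hr⟩

end Pool.Agent.Lib.MP_c385f6_ag.Bc
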